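import Pool.Agent.Helper11.SP.Defs

/-!
Checker for polygons of parameters in degree 6 (`g = 2`).  Written with recursors so that the kernel evaluates it fast.

All numbers are natural numbers.  A vertex `(X, Y, D)` stands for the point `(a, b) = (X / D - 4, Y / D - 2)`, `c = 256 X + 128 Y`.
The integers `n_i` of a code are stored as `m_i = n_i + 128`.
With `e = m_{i-1} + m_{i-3}`, `b = m_{i-2}`, `d = m_{i-4}`, `m = m_i`:
`D * (n_i + a n_{i-1} + b n_{i-2} + a n_{i-3} + n_{i-4}) = ((m + d + 1024) D + e X + b Y) - ((4 e + 2 b) D + c)`.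
-/

namespace Pool.Agent.Helper11.SP

/-- List of vertices. -/
inductive VL where
  | nil : VL
  | cons (X Y D c : ℕ) (l : VL) : VL

/-- `0 ≤ F ≤ 1` at all vertices (`md = m + d + 1024`, `k = 4 e + 2 b`). -/
noncomputable def all2 (md e b k : ℕ) (l : VL) : Bool :=
  VL.rec (motive := fun _ => Bool) true (fun X Y D c _ ih =>
    (fun L R => Bool.rec (motive := fun _ => Bool) false
      (Bool.rec (motive := fun _ => Bool) false ih (Nat.ble L (Nat.add R D))) (Nat.ble R L))
     (Nat.add (Nat.add (Nat.mul md D) (Nat.mul e X)) (Nat.mul b Y)) (Nat.add (Nat.mul k D) c)) l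

/-- Run `f` steps of the limit system from the state `(a, b, c, d)` (most recent entry first) at the sample point `(X, Y, D)`,
checking all vertices; `acc` is the code so far (reversed).  At the end the state must be zero. -/
noncomputable def run2 (X Y D c0 : ℕ) (vs : VL) (f : ℕ) : ℕ → ℕ → ℕ → ℕ → List ℕ → Option (List ℕ) :=
  Nat.rec (motive := fun _ => ℕ → ℕ → ℕ → ℕ → List ℕ → Option (List ℕ))
    (fun a b c d acc => Bool.rec (motive := fun _ => Option (List ℕ)) none (some acc)
      (and (and (Nat.beq a 128) (Nat.beq b 128)) (and (Nat.beq c 128) (Nat.beq d 128))))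
    (fun _ ih a b c d acc =>
      (fun e => (fun k => (fun m => Bool.rec (motive := fun _ => Option (List ℕ)) none (ih m a b c (m :: acc))
            (all2 (Nat.add (Nat.add m d) 1024) e b k vs))
        (Nat.add (Nat.div (Nat.sub (Nat.add (Nat.mul k D) c0)
          (Nat.add (Nat.add (Nat.mul (Nat.add d 1024) D) (Nat.mul e X)) (Nat.mul b Y))) D) 1))
        (Nat.add (Nat.mul 4 e) (Nat.mul 2 b))) (Nat.add a c)) f

/-- Positive part of the homogeneous determinant of three vertices. -/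
def dpos (X1 Y1 D1 X2 Y2 D2 X3 Y3 D3 : ℕ) : ℕ :=
  Nat.add (Nat.add (Nat.mul X1 (Nat.mul Y2 D3)) (Nat.mul Y1 (Nat.mul X3 D2))) (Nat.mul D1 (Nat.mul X2 Y3))

/-- Negative part of the homogeneous determinant of three vertices. -/
def dneg (X1 Y1 D1 X2 Y2 D2 X3 Y3 D3 : ℕ) : ℕ :=
  Nat.add (Nat.add (Nat.mul X1 (Nat.mul Y3 D2)) (Nat.mul Y1 (Nat.mul X2 D3))) (Nat.mul D1 (Nat.mul X3 Y2))

/-- All `w` in the list are on the left of the line from `(X1,Y1,D1)` to `(X2,Y2,D2)` (or on it). -/
noncomputable def left2 (X1 Y1 D1 X2 Y2 D2 : ℕ) (l : VL) : Bool :=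
  VL.rec (motive := fun _ => Bool) true (fun X3 Y3 D3 _ _ ih =>
    Bool.rec (motive := fun _ => Bool) false ih
      (Nat.ble (dneg X1 Y1 D1 X2 Y2 D2 X3 Y3 D3) (dpos X1 Y1 D1 X2 Y2 D2 X3 Y3 D3))) l

/-- Fan from `(X1,Y1,D1)` over the list of vertices: positively oriented triangles, later vertices on the left. -/
noncomputable def fan2 (X1 Y1 D1 : ℕ) (l : VL) : Bool :=
  VL.rec (motive := fun _ => Bool) true (fun X2 Y2 D2 _ l ih =>
    Bool.rec (motive := fun _ => Bool) false ih
      (VL.rec (motive := fun _ => Bool) true (fun X3 Y3 D3 _ r _ =>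
        and (Nat.ble (Nat.succ (dneg X1 Y1 D1 X2 Y2 D2 X3 Y3 D3)) (dpos X1 Y1 D1 X2 Y2 D2 X3 Y3 D3))
          (left2 X1 Y1 D1 X3 Y3 D3 r)) l)) l

/-- Sum over the triangles of the fan of `⌊10^9 * twice the area⌋`. -/
noncomputable def wfan2 (X1 Y1 D1 : ℕ) (l : VL) : ℕ :=
  VL.rec (motive := fun _ => ℕ) 0 (fun X2 Y2 D2 _ l ih =>
    Nat.add ih (VL.rec (motive := fun _ => ℕ) 0 (fun X3 Y3 D3 _ _ _ =>
      Nat.div (Nat.mul 1000000000 (Nat.sub (dpos X1 Y1 D1 X2 Y2 D2 X3 Y3 D3) (dneg X1 Y1 D1 X2 Y2 D2 X3 Y3 D3)))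
        (Nat.mul D1 (Nat.mul D2 D3))) l)) l

/-- Vertex tests: `D > 0`, `c = 256 X + 128 Y`, `2 + 2a + b ≥ 0`, `2 - 2a + b ≥ 0`, `u² + a u + b - 2 ≤ 0` for `u = p/q - 2`. -/
noncomputable def vert2 (p q : ℕ) (l : VL) : Bool :=
  VL.rec (motive := fun _ => Bool) true (fun X Y D c _ ih =>
    Bool.rec (motive := fun _ => Bool) false ih
      (and (and (Nat.ble 1 D) (Nat.beq c (Nat.add (Nat.mul 256 X) (Nat.mul 128 Y))))
      (and (and (Nat.ble (Nat.mul 8 D) (Nat.add (Nat.mul 2 X) Y)) (Nat.ble (Nat.mul 2 X) (Nat.add (Nat.mul 8 D) Y)))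
        (Nat.ble (Nat.add (Nat.mul D (Nat.add (Nat.mul p p) (Nat.mul 8 (Nat.mul q q))))
            (Nat.add (Nat.mul (Nat.mul p q) X) (Nat.mul (Nat.mul q q) Y)))
          (Nat.add (Nat.mul (Nat.mul 8 (Nat.mul p q)) D) (Nat.mul (Nat.mul 2 (Nat.mul q q)) X)))))) l

/-- A cell: number of steps `L`, sample point `(sX, sY, sD)`, test point `p / q - 2`, first vertex `(X, Y, D)`, other vertices. -/
structure C2 where
  L : ℕ
  sX : ℕ
  sY : ℕ
  sD : ℕ
  p : ℕ
  q : ℕ
  X : ℕ
  Y : ℕ
  D : ℕ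
  vs : VL

/-- All vertices of the cell. -/
noncomputable def C2.all (c : C2) : VL := VL.cons c.X c.Y c.D (Nat.add (Nat.mul 256 c.X) (Nat.mul 128 c.Y)) c.vs

/-- Geometric tests. -/
noncomputable def geo2 (c : C2) : Bool :=
  and (and (Nat.ble 1 c.sD) (and (Nat.ble 1 c.p) (Nat.ble (Nat.succ c.p) (Nat.mul 4 c.q))))
    (and (vert2 c.p c.q c.all) (fan2 c.X c.Y c.D c.vs))

/-- The code of a cell (`none` if a test fails). -/
noncomputable def code2 (c : C2) : Option (List ℕ) :=
  Option.rec (motive := fun _ => Option (List ℕ)) none (fun acc => some acc.reverse)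
    (run2 c.sX c.sY c.sD (Nat.add (Nat.mul 256 c.sX) (Nat.mul 128 c.sY)) c.all c.L 129 128 128 128 [129])

/-- Weight (`10^9` times twice the area, rounded down for each triangle). -/
noncomputable def wt2 (c : C2) : ℕ := wfan2 c.X c.Y c.D c.vs

/-- Strict lexicographic order with a difference at a position inside both lists. -/
def ltc : List ℕ → List ℕ → Bool
  | a :: l, b :: m => Bool.rec (motive := fun _ => Bool) (Nat.ble (Nat.succ a) b) (ltc l m) (Nat.beq a b)
  | _, _ => false

/-- Check a list of cells with increasing codes, all larger than `prev`; the result is the last code. -/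
noncomputable def chk2 (prev : List ℕ) (l : List C2) : Option (List ℕ) :=
  List.rec (motive := fun _ => List ℕ → Option (List ℕ)) (fun prev => some prev) (fun c _ ih prev =>
    Bool.rec (motive := fun _ => Option (List ℕ)) none
      (Option.rec (motive := fun _ => Option (List ℕ)) none (fun code =>
        Bool.rec (motive := fun _ => Option (List ℕ)) none (ih code) (ltc prev code)) (code2 c)) (geo2 c)) l prev

/-- Sum of the weights. -/
noncomputable def wsum2 (l : List C2) : ℕ := List.rec (motive := fun _ => ℕ) 0 (fun c _ ih => Nat.add (wt2 c) ih) l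

end Pool.Agent.Helper11.SP
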