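import Pool.Agent.Helper11.SP.Defs

/-!
SP-22. Affine functions on open simplices.

Proof. `aff_eq`: for `x = ∑ w_i V_i`, `∑ w_i = 1`: `∑_j a_j x_j + c = ∑_i w_i (∑_j a_j V_i j + c)`.
`sx_pos`: a sum of nonnegative terms, one of them positive.
`sx_nonneg` similarly.
`nondeg`: if `∑_j a_j V_i j + c = 0` for all `i`, subtract `i = 0`: the matrix `M i j = V (i+1) j - V 0 j` satisfies
`M.mulVec a = 0`, so `a = 0` (`Matrix.eq_zero_of_mulVec_eq_zero` / `det ≠ 0`) and `c = 0`.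
`sx_disjoint`: on `sx V` the function is `< 0`, on `sx W` it is `≥ 0`.
`sx_strict`: if `0 ≤ ℓ ≤ 1` at all vertices, `V` nondegenerate and `ℓ` is not constant, then `0 < ℓ < 1` on `sx V`:
`ℓ` is not `0` at all vertices and not `1` at all vertices (`nondeg` applied to `ℓ` and `1 - ℓ`: otherwise `a = 0`), use `sx_pos` twice.
-/

open MeasureTheory

namespace Pool.Agent.Helper11.SP

lemma aff_eq {g : ℕ} (V : Fin (g + 1) → (Fin g → ℝ)) (w : Fin (g + 1) → ℝ) (hw : ∑ i, w i = 1) (a : Fin g → ℝ) (c : ℝ) :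
    ∑ j, a j * (∑ i, w i • V i) j + c = ∑ i, w i * (∑ j, a j * V i j + c) := by
  have h1 : ∀ j, (∑ i, w i • V i) j = ∑ i, w i * V i j := by
    intro j
    simp [Finset.sum_apply]
  simp only [h1, Finset.mul_sum, mul_add, Finset.sum_add_distrib]
  rw [← Finset.sum_mul, hw, one_mul, Finset.sum_comm]
  congr 1
  refine Finset.sum_congr rfl fun i _ => Finset.sum_congr rfl fun j _ => ?_
  ring

lemma sx_pos {g : ℕ} (V : Fin (g + 1) → (Fin g → ℝ)) (a : Fin g → ℝ) (c : ℝ) (h0 : ∀ i, 0 ≤ ∑ j, a j * V i j + c)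
    (h1 : ∃ i, 0 < ∑ j, a j * V i j + c) (x : Fin g → ℝ) (hx : x ∈ sx V) : 0 < ∑ j, a j * x j + c := by
  obtain ⟨w, hw0, hw1, rfl⟩ := hx
  rw [aff_eq V w hw1]
  obtain ⟨i, hi⟩ := h1
  exact Finset.sum_pos' (fun k _ => mul_nonneg (hw0 k).le (h0 k)) ⟨i, Finset.mem_univ i, mul_pos (hw0 i) hi⟩

lemma sx_nonneg {g : ℕ} (V : Fin (g + 1) → (Fin g → ℝ)) (a : Fin g → ℝ) (c : ℝ) (h0 : ∀ i, 0 ≤ ∑ j, a j * V i j + c)
    (x : Fin g → ℝ) (hx : x ∈ sx V) : 0 ≤ ∑ j, a j * x j + c := by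
  obtain ⟨w, hw0, hw1, rfl⟩ := hx
  rw [aff_eq V w hw1]
  exact Finset.sum_nonneg fun k _ => mul_nonneg (hw0 k).le (h0 k)

lemma nondeg {g : ℕ} (V : Fin (g + 1) → (Fin g → ℝ)) (hV : Matrix.det (fun i j : Fin g => V i.succ j - V 0 j) ≠ 0)
    (a : Fin g → ℝ) (c : ℝ) (h : ∀ i, ∑ j, a j * V i j + c = 0) : a = 0 ∧ c = 0 := by
  have h1 : Matrix.mulVec (fun i j : Fin g => V i.succ j - V 0 j) a = 0 := by
    funext i
    have h2 := h i.succ
    have h3 := h 0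
    simp only [Matrix.mulVec, dotProduct, Pi.zero_apply]
    have h4 : ∑ j, (V i.succ j - V 0 j) * a j = ∑ j, a j * V i.succ j - ∑ j, a j * V 0 j := by
      rw [← Finset.sum_sub_distrib]
      exact Finset.sum_congr rfl fun j _ => by ring
    rw [h4]
    linarith
  have h2 : a = 0 := Matrix.eq_zero_of_mulVec_eq_zero hV h1
  refine ⟨h2, ?_⟩
  have h3 := h 0
  simpa [h2] using h3

lemma sx_disjoint {g : ℕ} (V W : Fin (g + 1) → (Fin g → ℝ)) (a : Fin g → ℝ) (c : ℝ)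
    (h0 : ∀ i, ∑ j, a j * V i j + c ≤ 0) (h1 : ∃ i, ∑ j, a j * V i j + c < 0)
    (h2 : ∀ i, 0 ≤ ∑ j, a j * W i j + c) : Disjoint (sx V) (sx W) := by
  rw [Set.disjoint_left]
  intro x hx hy
  have h3 := sx_nonneg W a c h2 x hy
  have h4 : ∀ (y : Fin g → ℝ), ∑ j, (-a) j * y j + -c = -(∑ j, a j * y j + c) := by
    intro y
    simp only [Pi.neg_apply, neg_mul, Finset.sum_neg_distrib]
    ring
  have h5 := sx_pos V (-a) (-c) (fun i => by rw [h4]; linarith [h0 i])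
    (by obtain ⟨i, hi⟩ := h1; exact ⟨i, by rw [h4]; linarith⟩) x hx
  rw [h4] at h5
  linarith

lemma sx_strict {g : ℕ} (V : Fin (g + 1) → (Fin g → ℝ)) (hV : Matrix.det (fun i j : Fin g => V i.succ j - V 0 j) ≠ 0)
    (a : Fin g → ℝ) (c : ℝ) (ha : a ≠ 0) (h : ∀ i, 0 ≤ ∑ j, a j * V i j + c ∧ ∑ j, a j * V i j + c ≤ 1)
    (x : Fin g → ℝ) (hx : x ∈ sx V) : 0 < ∑ j, a j * x j + c ∧ ∑ j, a j * x j + c < 1 := by
  have h4 : ∀ (y : Fin g → ℝ), ∑ j, (-a) j * y j + (1 - c) = 1 - (∑ j, a j * y j + c) := by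
    intro y
    simp only [Pi.neg_apply, neg_mul, Finset.sum_neg_distrib]
    ring
  have h1 : ∃ i, 0 < ∑ j, a j * V i j + c := by
    by_contra hc
    push Not at hc
    exact ha (nondeg V hV a c (fun i => le_antisymm (hc i) (h i).1)).1
  have h2 : ∃ i, 0 < ∑ j, (-a) j * V i j + (1 - c) := by
    by_contra hc
    push Not at hc
    have h5 := (nondeg V hV (-a) (1 - c) (fun i => le_antisymm (hc i) (by rw [h4]; linarith [(h i).2]))).1
    exact ha (neg_eq_zero.1 h5)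
  refine ⟨sx_pos V a c (fun i => (h i).1) h1 x hx, ?_⟩
  have h6 := sx_pos V (-a) (1 - c) (fun i => by rw [h4]; linarith [(h i).2]) h2 x hx
  rw [h4] at h6
  linarith

end Pool.Agent.Helper11.SP
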