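import Pool.Agent.Helper11.SP.Determ
import Pool.Agent.Helper11.SP.Simplex
import Pool.Agent.Helper11.SP.Chk2

/-!
SP-30. Codes as lists, determinism for lists, codes on simplices.

`pol l` is the polynomial with coefficients `l_i - 128`.
`pol_coeff`: sum over `range`.
`ltc_trans`: induction on the lists (`l` first).
`codeL_ltc`: from `ltc l m = true` get `i` with `i < l.length`, `i < m.length`, equal entries before `i` and different entries at `i`
(induction on `l`), then `determ` with `n = pol l`, `m = pol m` (`i ≤ natDegree + 2 g` because `l.length = natDegree + 2 g + 1`) gives a contradiction.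
`Fc_affine`: `Fc x n i = ∑_{k + b = i} hc 1 x k * n.coeff b` (`coeff_mul`, `HC_coeff`) and each `hc 1 x k` is `1`, `0` or one of the `x j`; so it is
affine in `x` with integer coefficients (finite sums of such functions are such functions).
`code_of_verts`: fix `1 ≤ i < natDegree + 2 g` and write `Fc x n i = ∑ A_j x_j + c` (`Fc_affine`).  If `A ≠ 0`, `sx_strict` gives
`0 < Fc x n i < 1` on `sx V`.  If `A = 0` it is the integer `c` for all `x`; `0 ≤ c ≤ 1` from a vertex and `c > 0` from `hs`, so `c = 1`.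
-/

open Polynomial

namespace Pool.Agent.Helper11.SP

/-- Polynomial of a code list (entries shifted by `128`). -/
noncomputable def pol (l : List ℕ) : ℤ[X] :=
  ∑ i ∈ Finset.range l.length, monomial i ((l.getD i 0 : ℤ) - 128)

lemma pol_coeff (l : List ℕ) (i : ℕ) : (pol l).coeff i = if i < l.length then (l.getD i 0 : ℤ) - 128 else 0 := by
  unfold pol
  rw [finsetSum_coeff]
  simp only [coeff_monomial]
  rw [Finset.sum_ite_eq']
  simp only [Finset.mem_range]

/-- `l` is the code of `x`, including the `2 g` zeros at the end. -/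
def CodeL {g : ℕ} (x : Fin g → ℝ) (l : List ℕ) : Prop :=
  Code x (pol l) ∧ l.length = (pol l).natDegree + 2 * g + 1

private lemma ltc_cons (a b : ℕ) (l m : List ℕ) :
    ltc (a :: l) (b :: m) = true ↔ a < b ∨ (a = b ∧ ltc l m = true) := by
  have h : ltc (a :: l) (b :: m) = Bool.rec (motive := fun _ => Bool) (Nat.ble (Nat.succ a) b) (ltc l m)
    (Nat.beq a b) := by
    rw [ltc]
  rw [h]
  by_cases hab : a = b
  · subst hab
    rw [Nat.beq_refl]
    simp
  · have h1 : Nat.beq a b = false := by
      rw [← Bool.not_eq_true, Nat.beq_eq]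
      exact hab
    rw [h1]
    simp only [hab, false_and, or_false]
    rw [Nat.ble_eq, Nat.succ_le_iff]

private lemma ltc_nil_left (m : List ℕ) : ltc [] m = false := by
  rw [ltc]
  intro a l b m' h
  cases h

private lemma ltc_nil_right (l : List ℕ) : ltc l [] = false := by
  rw [ltc]
  intro a l' b m' _ h
  cases h

lemma ltc_trans (a b c : List ℕ) (h1 : ltc a b = true) (h2 : ltc b c = true) : ltc a c = true := by
  induction a generalizing b c with
  | nil => rw [ltc_nil_left] at h1; cases h1
  | cons x l ih =>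
    cases b with
    | nil => rw [ltc_nil_left] at h2; cases h2
    | cons y m =>
      cases c with
      | nil => rw [ltc_nil_right] at h2; cases h2
      | cons z r =>
        rw [ltc_cons] at h1 h2 ⊢
        rcases h1 with h1 | ⟨h1, h1'⟩
        · rcases h2 with h2 | ⟨h2, _⟩
          · left; omega
          · left; omega
        · rcases h2 with h2 | ⟨h2, h2'⟩
          · left; omega
          · right
            exact ⟨h1.trans h2, ih m r h1' h2'⟩

private lemma ltc_diff (l m : List ℕ) (h : ltc l m = true) :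
    ∃ i, i < l.length ∧ i < m.length ∧ (∀ j, j < i → l.getD j 0 = m.getD j 0) ∧ l.getD i 0 ≠ m.getD i 0 := by
  induction l generalizing m with
  | nil => rw [ltc_nil_left] at h; cases h
  | cons x l ih =>
    cases m with
    | nil => rw [ltc_nil_right] at h; cases h
    | cons y m =>
      rw [ltc_cons] at h
      rcases h with h | ⟨h, h'⟩
      · refine ⟨0, by simp, by simp, fun j hj => absurd hj (Nat.not_lt_zero j), ?_⟩
        simpa using h.ne
      · obtain ⟨i, hi1, hi2, hi3, hi4⟩ := ih m h'
        refine ⟨i + 1, by simpa using hi1, by simpa using hi2, ?_, by simpa using hi4⟩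
        intro j hj
        cases j with
        | zero => simpa using h
        | succ j => simpa using hi3 j (by omega)

lemma codeL_ltc {g : ℕ} (hg : 1 ≤ g) (x : Fin g → ℝ) (l m : List ℕ) (hl : CodeL x l) (hm : CodeL x m)
    (h : ltc l m = true) : False := by
  obtain ⟨i, hi1, hi2, hi3, hi4⟩ := ltc_diff l m h
  have h1 : (pol l).coeff i = (pol m).coeff i := by
    refine determ hg x (pol l) (pol m) hl.1 hm.1 i ?_ ?_ ?_
    · have := hl.2
      omega
    · have := hm.2
      omega
    · intro j hj
      rw [pol_coeff, pol_coeff, if_pos (by omega), if_pos (by omega), hi3 j hj]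
  rw [pol_coeff, pol_coeff, if_pos hi1, if_pos hi2] at h1
  apply hi4
  omega

private lemma aff_hc {g : ℕ} (k : ℕ) :
    ∃ (A : Fin g → ℤ) (c : ℤ), ∀ x : Fin g → ℝ, hc 1 x k = ∑ j, (A j : ℝ) * x j + c := by
  have hconst : ∀ c : ℤ, ∃ (A : Fin g → ℤ) (c' : ℤ), ∀ x : Fin g → ℝ, (c : ℝ) = ∑ j, (A j : ℝ) * x j + c' :=
    fun c => ⟨fun _ => 0, c, fun x => by simp⟩
  have hcoord : ∀ i : Fin g, ∃ (A : Fin g → ℤ) (c' : ℤ), ∀ x : Fin g → ℝ, x i = ∑ j, (A j : ℝ) * x j + c' := by
    intro i
    refine ⟨fun j => if j = i then 1 else 0, 0, fun x => ?_⟩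
    simp
  unfold hc
  by_cases h0 : k = 0
  · simp only [if_pos h0]
    simpa using hconst 1
  · simp only [if_neg h0]
    by_cases h1 : k - 1 < g
    · simp only [dif_pos h1]
      exact hcoord _
    · simp only [dif_neg h1]
      by_cases h2 : 2 * g - k - 1 < g ∧ k < 2 * g
      · simp only [dif_pos h2]
        exact hcoord _
      · simp only [dif_neg h2]
        by_cases h3 : k = 2 * g
        · simp only [if_pos h3]
          simpa using hconst 1
        · simp only [if_neg h3]
          simpa using hconst 0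

private lemma aff_sum {g : ℕ} {ι : Type*} (s : Finset ι) (f : ι → (Fin g → ℝ) → ℝ)
    (h : ∀ a ∈ s, ∃ (A : Fin g → ℤ) (c : ℤ), ∀ x : Fin g → ℝ, f a x = ∑ j, (A j : ℝ) * x j + c) :
    ∃ (A : Fin g → ℤ) (c : ℤ), ∀ x : Fin g → ℝ, ∑ a ∈ s, f a x = ∑ j, (A j : ℝ) * x j + c := by
  classical
  induction s using Finset.induction_on with
  | empty => exact ⟨fun _ => 0, 0, fun x => by simp⟩
  | insert a s ha ih =>
    obtain ⟨A, c, hA⟩ := h a (Finset.mem_insert_self a s)
    obtain ⟨B, d, hB⟩ := ih (fun b hb => h b (Finset.mem_insert_of_mem hb))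
    refine ⟨fun j => A j + B j, c + d, fun x => ?_⟩
    rw [Finset.sum_insert ha, hA, hB]
    push_cast
    simp only [add_mul, Finset.sum_add_distrib]
    ring

lemma Fc_affine {g : ℕ} (n : ℤ[X]) (i : ℕ) :
    ∃ (A : Fin g → ℤ) (c : ℤ), ∀ x : Fin g → ℝ, Fc x n i = ∑ j, (A j : ℝ) * x j + c := by
  obtain ⟨A, c, hA⟩ := aff_sum (g := g) (Finset.HasAntidiagonal.antidiagonal i)
    (fun p x => hc 1 x p.1 * (n.coeff p.2 : ℝ)) (by
      intro p _
      obtain ⟨A, c, hA⟩ := aff_hc (g := g) p.1
      refine ⟨fun j => A j * n.coeff p.2, c * n.coeff p.2, fun x => ?_⟩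
      beta_reduce
      rw [hA, add_mul, Finset.sum_mul]
      push_cast
      congr 1
      refine Finset.sum_congr rfl fun j _ => ?_
      ring)
  refine ⟨A, c, fun x => ?_⟩
  rw [← hA]
  unfold Fc
  rw [coeff_mul]
  refine Finset.sum_congr rfl fun p _ => ?_
  rw [HC_coeff, coeff_map, eq_intCast]

theorem code_of_verts {g : ℕ} (hg : 1 ≤ g) (V : Fin (g + 1) → (Fin g → ℝ))
    (hV : Matrix.det (fun i j : Fin g => V i.succ j - V 0 j) ≠ 0) (n : ℤ[X]) (hn : n.Monic) (h0 : n.coeff 0 = 1)
    (h : ∀ i, 1 ≤ i → i < n.natDegree + 2 * g → ∀ k, 0 ≤ Fc (V k) n i ∧ Fc (V k) n i ≤ 1)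
    (hs : ∀ i, 1 ≤ i → i < n.natDegree + 2 * g → ∃ y : Fin g → ℝ, 0 < Fc y n i)
    (x : Fin g → ℝ) (hx : x ∈ sx V) : Code x n := by
  refine ⟨hn, h0, fun i h1 h2 => ?_⟩
  obtain ⟨A, c, hA⟩ := Fc_affine (g := g) n i
  by_cases hA0 : A = 0
  · right
    have h3 : ∀ y : Fin g → ℝ, Fc y n i = c := by
      intro y
      rw [hA, hA0]
      simp
    obtain ⟨y, hy⟩ := hs i h1 h2
    rw [h3] at hy
    have h4 := (h i h1 h2 0).2
    rw [h3] at h4
    have h5 : (0 : ℤ) < c := by exact_mod_cast hy
    have h6 : c ≤ (1 : ℤ) := by exact_mod_cast h4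
    have h7 : c = 1 := by omega
    intro z
    rw [h3, h7]
    simp
  · left
    have h3 : (fun j => (A j : ℝ)) ≠ 0 := by
      intro h4
      apply hA0
      funext j
      have h5 := congrFun h4 j
      simpa using h5
    have h4 := sx_strict V hV (fun j => (A j : ℝ)) c h3 (fun k => by
      have h5 := h i h1 h2 k
      rw [hA] at h5
      exact h5) x hx
    rw [hA]
    exact h4

end Pool.Agent.Helper11.SP
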