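import Pool.Agent.Helper11.SP.Pert

/-!
SP-31. Explicit formula for `Fc` and membership in `Om` for `g = 2`.

`Fc_two`: `coeff_mul` (sum over the antidiagonal) and `hc 1 ![a, b] k = 1, a, b, a, 1` for `k = 0, 1, 2, 3, 4` and `0` for `k > 4`.
Alternatively `HC 1 ![a, b] = 1 + a X + b X² + a X³ + X⁴` and `coeff_X_pow_mul'`, `coeff_C_mul`.
`om_two`: `f u = u² + a u + b - 2` satisfies `f (-2) = 2 - 2 a + b > 0`, `f u < 0`, `f 2 = 2 + 2 a + b > 0`; by the intermediate value theorem it has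
roots `t0 ∈ (-2, u)` and `t1 ∈ (u, 2)`, so `a = -(t0 + t1)`, `b - 2 = t0 t1` (subtract the two equations and divide by `t0 - t1 ≠ 0`).
`(X² - t0 X + 1)(X² - t1 X + 1) = X⁴ - (t0+t1) X³ + (2 + t0 t1) X² - (t0+t1) X + 1`, so `ee ![t0, t1] = ![a, b]` (coefficients of `X` and `X²`).
-/

open Polynomial

namespace Pool.Agent.Helper11.SP

private lemma HC_two (a b : ℝ) :
    HC 1 ![a, b] = (1 + C a * X + C b * X ^ 2 + C a * X ^ 3 + X ^ 4 : ℝ[X]) := by
  have h0 : hc (1 : ℝ) ![a, b] 0 = 1 := hc_zero _ _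
  have h1 : hc (1 : ℝ) ![a, b] 1 = a := by simp [hc]
  have h2 : hc (1 : ℝ) ![a, b] 2 = b := by simp [hc]
  have h3 : hc (1 : ℝ) ![a, b] 3 = a := by simp [hc]
  have h4 : hc (1 : ℝ) ![a, b] 4 = 1 := by simp [hc]
  unfold HC
  simp only [Finset.sum_range_succ, Finset.sum_range_zero,
    ← C_mul_X_pow_eq_monomial, h0, h1, h2, h3, h4, C_1, pow_zero, pow_one, zero_add, one_mul, mul_one]

lemma Fc_two (a b : ℝ) (n : ℤ[X]) (i : ℕ) :
    Fc ![a, b] n i = (n.coeff i : ℝ) + (if 1 ≤ i then a * n.coeff (i - 1) else 0) + (if 2 ≤ i then b * n.coeff (i - 2) else 0)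
      + (if 3 ≤ i then a * n.coeff (i - 3) else 0) + (if 4 ≤ i then (n.coeff (i - 4) : ℝ) else 0) := by
  unfold Fc
  rw [HC_two]
  set N := n.map (Int.castRingHom ℝ) with hN
  have h : (1 + C a * X + C b * X ^ 2 + C a * X ^ 3 + X ^ 4 : ℝ[X]) * N =
      N + C a * (X ^ 1 * N) + C b * (X ^ 2 * N) + C a * (X ^ 3 * N) + X ^ 4 * N := by ring
  have hc : ∀ k, N.coeff k = (n.coeff k : ℝ) := by
    intro k
    rw [hN, coeff_map]
    rfl
  rw [h]
  simp only [coeff_add, coeff_C_mul, coeff_X_pow_mul', hc, mul_ite, mul_zero]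

lemma om_two (a b u : ℝ) (hu : |u| < 2) (h1 : 0 < 2 - 2 * a + b) (h2 : u ^ 2 + a * u + b - 2 < 0) (h3 : 0 < 2 + 2 * a + b) :
    ![a, b] ∈ Om 2 := by
  obtain ⟨hu1, hu2⟩ := abs_lt.1 hu
  set f : ℝ → ℝ := fun t => t ^ 2 + a * t + b - 2 with hf
  have hfc : Continuous f := by rw [hf]; fun_prop
  have hf1 : 0 < f (-2) := by rw [hf]; simp only; linarith
  have hf2 : 0 < f 2 := by rw [hf]; simp only; linarith
  have hfu : f u < 0 := h2
  obtain ⟨t0, ⟨ht0a, ht0b⟩, ht0⟩ := intermediate_value_Ioo' hu1.le hfc.continuousOn ⟨hfu, hf1⟩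
  obtain ⟨t1, ⟨ht1a, ht1b⟩, ht1⟩ := intermediate_value_Ioo hu2.le hfc.continuousOn ⟨hfu, hf2⟩
  have e0 : t0 ^ 2 + a * t0 + b - 2 = 0 := ht0
  have e1 : t1 ^ 2 + a * t1 + b - 2 = 0 := ht1
  have hlt : t0 < t1 := ht0b.trans ht1a
  have ha : a = -(t0 + t1) := by
    have h : (t0 - t1) * (t0 + t1 + a) = 0 := by linear_combination e0 - e1
    rcases mul_eq_zero.1 h with h | h
    · linarith
    · linarith
  have hb : b = 2 + t0 * t1 := by
    rw [ha] at e0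
    linear_combination e0
  refine ⟨![t0, t1], ?_, ?_, ?_⟩
  · intro i j hij
    fin_cases i <;> fin_cases j
    · rfl
    · exact absurd hij hlt.ne
    · exact absurd hij hlt.ne'
    · rfl
  · intro j
    fin_cases j
    · exact abs_lt.2 ⟨ht0a, ht0b.trans hu2⟩
    · exact abs_lt.2 ⟨hu1.trans ht1a, ht1b⟩
  · have hprod : (∏ i, (X ^ 2 - C ((![t0, t1] : Fin 2 → ℝ) i) * X + 1) : ℝ[X]) =
        1 + C a * X ^ 1 + C b * X ^ 2 + C a * X ^ 3 + X ^ 4 := by
      rw [Fin.prod_univ_two, ha, hb]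
      simp only [Matrix.cons_val_zero, Matrix.cons_val_one, C_neg, C_add, C_mul]
      have : (C (2 : ℝ) : ℝ[X]) = 2 := rfl
      rw [this]
      ring
    funext j
    unfold ee
    rw [hprod]
    fin_cases j
    · simp [coeff_X_pow, coeff_one]
    · simp [coeff_X_pow, coeff_one]

end Pool.Agent.Helper11.SP
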