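import Pool.Agent.Helper11.SP.Fan2
import Pool.Agent.Helper11.SP.FcTwo
import Pool.Agent.Helper11.SP.CodeList

/-!
SP-34. Soundness of a cell.

Proof. From `geo2 c = true`: `0 < sD`, `0 < p < 4 q`, all vertices have `0 < D`, `c = 256 X + 128 Y` and satisfy the three vertex inequalities.
`code2 c = some code` means `run2 ... = some acc`, `code = acc.reverse`.  `run2_sound` with `l = code`.
Let `n = pol code`, `n_i = n.coeff i = l_i - 128` for `i ≤ L` and `0` for `i > L`; `(pv l i j : ℤ) - 128` is `n_{i-j}` if `j ≤ i` and `0` otherwise, for `i ≤ L`.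
With `x = pt2 X Y D` and `F = Fc x n i` (`Fc_two`): `D F = LL2 - RR2` as real numbers when `c = 256 X + 128 Y` (`ring` after clearing denominators:
`(m + d + 1024) D + e X + b Y - (4 e + 2 b) D - 256 X - 128 Y = D ((m-128) + (e-256)(X/D - 4) + (b-128)(Y/D - 2) + (d-128))`).
So `0 ≤ Fc V n i ≤ 1` at all vertices `V` of the cell and `0 < Fc S n i` at the sample point, for all `1 ≤ i ≤ L`.
Last entries: `n_{L-3} = ... = n_L = 0`; for `i = L`, `Fc y n L = n_{L-4}` for all `y`, an integer in `(0, 1]` (vertex and sample), so `n_{L-4} = 1`: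
`n` is monic of degree `L - 4` (all higher coefficients vanish), `code.length = L + 1 = natDegree + 5`, `n.coeff 0 = 129 - 128 = 1`.
For `x` in an open triangle of the fan (`fan_mem`; the vertices are among the vertices of the cell): `code_of_verts` (`g = 2`) gives `Code x n`.
`x ∈ Om 2`: `sx_pos` for the affine functions `2 + 2a + b`, `2 - 2a + b`, `-(u² + a u + b - 2)` (`u = p/q - 2`, `|u| < 2`), which are `≥ 0` at the
vertices and not zero at all vertices of the triangle (`nondeg`, their linear part is not zero), then `om_two` (`x = ![x 0, x 1]`).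
Vertex inequalities in the variables `a = X/D - 4`, `b = Y/D - 2`: `8D ≤ 2X + Y` is `0 ≤ 2 + 2a + b`; `2X ≤ 8D + Y` is `0 ≤ 2 - 2a + b`;
`D (p² + 8 q²) + p q X + q² Y ≤ 8 p q D + 2 q² X` is `u² + a u + b - 2 ≤ 0` multiplied by `q² D`.
-/

open MeasureTheory

namespace Pool.Agent.Helper11.SP

/-- Region of a cell. -/
def C2.reg (c : C2) : Set (Fin 2 → ℝ) := fanReg c.X c.Y c.D c.vs

private lemma brec' (x b : Bool) : Bool.rec (motive := fun _ => Bool) false x b = (b && x) := by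
  cases b <;> rfl

private lemma vert2_iff (p q : ℕ) (l : VL) (h : vert2 p q l = true) :
    ∀ v ∈ l.toL, 1 ≤ v.2.2.1 ∧ v.2.2.2 = 256 * v.1 + 128 * v.2.1 ∧ 8 * v.2.2.1 ≤ 2 * v.1 + v.2.1 ∧
      2 * v.1 ≤ 8 * v.2.2.1 + v.2.1 ∧
      v.2.2.1 * (p * p + 8 * (q * q)) + (p * q * v.1 + q * q * v.2.1) ≤
        8 * (p * q) * v.2.2.1 + 2 * (q * q) * v.1 := by
  induction l with
  | nil =>
    intro v hv
    simp [VL.toL] at hv
  | cons X Y D c r ih =>
    have e : vert2 p q (VL.cons X Y D c r) =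
        Bool.rec (motive := fun _ => Bool) false (vert2 p q r)
          (and (and (Nat.ble 1 D) (Nat.beq c (Nat.add (Nat.mul 256 X) (Nat.mul 128 Y))))
      (and (and (Nat.ble (Nat.mul 8 D) (Nat.add (Nat.mul 2 X) Y)) (Nat.ble (Nat.mul 2 X) (Nat.add (Nat.mul 8 D) Y)))
        (Nat.ble (Nat.add (Nat.mul D (Nat.add (Nat.mul p p) (Nat.mul 8 (Nat.mul q q))))
            (Nat.add (Nat.mul (Nat.mul p q) X) (Nat.mul (Nat.mul q q) Y)))
          (Nat.add (Nat.mul (Nat.mul 8 (Nat.mul p q)) D) (Nat.mul (Nat.mul 2 (Nat.mul q q)) X))))) := rfl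
    rw [e, brec', Bool.and_eq_true, Bool.and_eq_true, Bool.and_eq_true, Bool.and_eq_true,
      Bool.and_eq_true] at h
    obtain ⟨⟨⟨a1, a2⟩, ⟨a3, a4⟩, a5⟩, a6⟩ := h
    intro v hv
    simp only [VL.toL, List.mem_cons] at hv
    rcases hv with rfl | hv
    · exact ⟨Nat.le_of_ble_eq_true a1, Nat.eq_of_beq_eq_true a2, Nat.le_of_ble_eq_true a3,
        Nat.le_of_ble_eq_true a4, Nat.le_of_ble_eq_true a5⟩
    · exact ih a6 v hv

private lemma geo2_iff (c : C2) (hg : geo2 c = true) :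
    1 ≤ c.sD ∧ 1 ≤ c.p ∧ c.p < 4 * c.q ∧ vert2 c.p c.q c.all = true ∧ fan2 c.X c.Y c.D c.vs = true := by
  have e : geo2 c = and (and (Nat.ble 1 c.sD) (and (Nat.ble 1 c.p) (Nat.ble (Nat.succ c.p) (Nat.mul 4 c.q))))
    (and (vert2 c.p c.q c.all) (fan2 c.X c.Y c.D c.vs)) := rfl
  rw [e, Bool.and_eq_true, Bool.and_eq_true, Bool.and_eq_true, Bool.and_eq_true] at hg
  obtain ⟨⟨a1, a2, a3⟩, a4, a5⟩ := hg
  exact ⟨Nat.le_of_ble_eq_true a1, Nat.le_of_ble_eq_true a2, Nat.le_of_ble_eq_true a3, a4, a5⟩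

private lemma all_toL (c : C2) : c.all.toL = (c.X, c.Y, c.D, 256 * c.X + 128 * c.Y) :: c.vs.toL := rfl

private lemma sx_pos' {g : ℕ} (V : Fin (g + 1) → (Fin g → ℝ))
    (hV : Matrix.det (fun i j : Fin g => V i.succ j - V 0 j) ≠ 0) (a : Fin g → ℝ) (c : ℝ) (ha : a ≠ 0)
    (h0 : ∀ i, 0 ≤ ∑ j, a j * V i j + c) (x : Fin g → ℝ) (hx : x ∈ sx V) : 0 < ∑ j, a j * x j + c := by
  refine sx_pos V a c h0 ?_ x hx
  by_contra hc
  push Not at hc
  exact ha (nondeg V hV a c (fun i => le_antisymm (hc i) (h0 i))).1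

/-- The main identity. -/
private lemma key_id (l : List ℕ) (i : ℕ) (hi : i < l.length) (X Y D : ℕ) (hD : 0 < D) :
    (D : ℝ) * Fc (pt2 X Y D) (pol l) i = (LL2 l i X Y D : ℝ) - RR2 l i D (256 * X + 128 * Y) := by
  have hD' : (D : ℝ) ≠ 0 := by exact_mod_cast hD.ne'
  have hpv : ∀ j, 0 < j → (if j ≤ i then (((pol l).coeff (i - j) : ℤ) : ℝ) else 0) = (pv l i j : ℝ) - 128 := by
    intro j hj
    unfold pv
    split_ifs with h
    · rw [pol_coeff, if_pos (by omega)]
      push_cast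
      ring
    · norm_num
  have h0 : (((pol l).coeff i : ℤ) : ℝ) = (pv l i 0 : ℝ) - 128 := by
    unfold pv
    rw [if_pos (Nat.zero_le i), pol_coeff, if_pos hi, Nat.sub_zero]
    push_cast
    ring
  have hm : ∀ (j : ℕ) (r : ℝ), (if j ≤ i then r * (((pol l).coeff (i - j) : ℤ) : ℝ) else 0) =
      r * (if j ≤ i then (((pol l).coeff (i - j) : ℤ) : ℝ) else 0) := by
    intro j r
    split_ifs <;> simp
  have e : Fc (pt2 X Y D) (pol l) i = ((pv l i 0 : ℝ) - 128) + ((X : ℝ) / D - 4) * ((pv l i 1 : ℝ) - 128)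
      + ((Y : ℝ) / D - 2) * ((pv l i 2 : ℝ) - 128) + ((X : ℝ) / D - 4) * ((pv l i 3 : ℝ) - 128)
      + ((pv l i 4 : ℝ) - 128) := by
    unfold pt2
    rw [Fc_two, hm, hm, hm, hpv 1 (by norm_num), hpv 2 (by norm_num), hpv 3 (by norm_num),
      hpv 4 (by norm_num), h0]
  rw [e]
  unfold LL2 RR2
  push_cast
  field_simp
  ring

private lemma getD_of_len (l : List ℕ) (k : ℕ) (h : ¬ k < l.length) : (pol l).coeff k = 0 := by
  rw [pol_coeff, if_neg h]

theorem cell2_sound (c : C2) (hg : geo2 c = true) (code : List ℕ) (hc : code2 c = some code) :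
    ∀ x ∈ c.reg, x ∈ Om 2 ∧ CodeL x code := by
  obtain ⟨hsD, hp, hpq, hvert, hfan⟩ := geo2_iff c hg
  have hV := vert2_iff _ _ _ hvert
  -- the code
  have hcode : ∃ acc, run2 c.sX c.sY c.sD (256 * c.sX + 128 * c.sY) c.all c.L 129 128 128 128 [129] = some acc ∧
      acc.reverse = code := by
    have e : code2 c = Option.rec (motive := fun _ => Option (List ℕ)) none (fun acc => some acc.reverse)
      (run2 c.sX c.sY c.sD (256 * c.sX + 128 * c.sY) c.all c.L 129 128 128 128 [129]) := rfl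
    rw [e] at hc
    cases hr : run2 c.sX c.sY c.sD (256 * c.sX + 128 * c.sY) c.all c.L 129 128 128 128 [129] with
    | none =>
      rw [hr] at hc
      simp at hc
    | some acc =>
      rw [hr] at hc
      exact ⟨acc, rfl, by simpa using hc⟩
  obtain ⟨acc, hrun, rfl⟩ := hcode
  obtain ⟨hlen, hL4, hl0, hlz, hstep⟩ := run2_sound _ _ _ _ hsD _ _ _ hrun
  set l := acc.reverse with hl
  set L := c.L with hLdef
  -- facts on vertices
  have hvF : ∀ v ∈ c.all.toL, ∀ i, 1 ≤ i → i ≤ L →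
      0 ≤ Fc (pt2 v.1 v.2.1 v.2.2.1) (pol l) i ∧ Fc (pt2 v.1 v.2.1 v.2.2.1) (pol l) i ≤ 1 := by
    intro v hv i hi1 hiL
    obtain ⟨hD, hc', -⟩ := hV v hv
    obtain ⟨h1, h2⟩ := (hstep i hi1 hiL).2 v hv
    rw [hc'] at h1 h2
    have hD' : (0 : ℝ) < v.2.2.1 := by exact_mod_cast hD
    have hk := key_id l i (by omega) v.1 v.2.1 v.2.2.1 hD
    have h1' : (RR2 l i v.2.2.1 (256 * v.1 + 128 * v.2.1) : ℝ) ≤ LL2 l i v.1 v.2.1 v.2.2.1 := by
      exact_mod_cast h1
    have h2' : (LL2 l i v.1 v.2.1 v.2.2.1 : ℝ) ≤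
        (RR2 l i v.2.2.1 (256 * v.1 + 128 * v.2.1) : ℝ) + v.2.2.1 := by
      exact_mod_cast h2
    constructor
    · by_contra hcon
      have := mul_neg_of_pos_of_neg hD' (not_le.1 hcon)
      linarith
    · by_contra hcon
      have := mul_lt_mul_of_pos_left (not_le.1 hcon) hD'
      linarith
  have hsF : ∀ i, 1 ≤ i → i ≤ L → 0 < Fc (pt2 c.sX c.sY c.sD) (pol l) i := by
    intro i hi1 hiL
    have h1 := (hstep i hi1 hiL).1
    have hD' : (0 : ℝ) < c.sD := by exact_mod_cast hsD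
    have hk := key_id l i (by omega) c.sX c.sY c.sD hsD
    have h1' : (RR2 l i c.sD (256 * c.sX + 128 * c.sY) : ℝ) < LL2 l i c.sX c.sY c.sD := by
      exact_mod_cast h1
    by_contra hcon
    have := mul_nonpos_of_nonneg_of_nonpos hD'.le (not_lt.1 hcon)
    linarith
  -- the polynomial
  have hz : ∀ k, L < k + 4 → (pol l).coeff k = 0 := by
    intro k hk
    by_cases hk2 : k ≤ L
    · rw [pol_coeff, if_pos (by omega), hlz k hk2 hk]
      norm_num
    · exact getD_of_len l k (by omega)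
  have hFL : ∀ X Y D : ℕ, Fc (pt2 X Y D) (pol l) L = (((pol l).coeff (L - 4) : ℤ) : ℝ) := by
    intro X Y D
    unfold pt2
    rw [Fc_two, hz L (by omega), hz (L - 1) (by omega), hz (L - 2) (by omega), hz (L - 3) (by omega),
      if_pos hL4]
    simp
  have hone : (pol l).coeff (L - 4) = 1 := by
    have h1 := hsF L (by omega) le_rfl
    have h2 := (hvF (c.X, c.Y, c.D, 256 * c.X + 128 * c.Y) (by rw [all_toL]; exact List.mem_cons_self)
      L (by omega) le_rfl).2
    rw [hFL] at h1 h2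
    have h1' : 0 < (pol l).coeff (L - 4) := by exact_mod_cast h1
    have h2' : (pol l).coeff (L - 4) ≤ 1 := by exact_mod_cast h2
    omega
  have hdeg : (pol l).natDegree ≤ L - 4 := by
    rw [Polynomial.natDegree_le_iff_coeff_eq_zero]
    intro k hk
    exact hz k (by omega)
  have hmonic : (pol l).Monic := Polynomial.monic_of_natDegree_le_of_coeff_eq_one _ hdeg hone
  have hdeg' : (pol l).natDegree = L - 4 :=
    Polynomial.natDegree_eq_of_le_of_coeff_ne_zero hdeg (by rw [hone]; norm_num)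
  have hn0 : (pol l).coeff 0 = 1 := by
    rw [pol_coeff, if_pos (by omega), hl0]
    norm_num
  intro x hx
  have hD : 0 < c.D := (hV (c.X, c.Y, c.D, 256 * c.X + 128 * c.Y) (by rw [all_toL]; exact List.mem_cons_self)).1
  have hvs : ∀ v ∈ c.vs.toL, v ∈ c.all.toL := fun v hv => by
    rw [all_toL]
    exact List.mem_cons_of_mem _ hv
  obtain ⟨v, hv, w, hw, hxs, hdet⟩ := fan_mem c.X c.Y c.D hD c.vs (fun v hv => (hV v (hvs v hv)).1) hfan x hx
  have hverts : ∀ P : (Fin 2 → ℝ) → Prop,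
      (∀ v ∈ c.all.toL, P (pt2 v.1 v.2.1 v.2.2.1)) →
      ∀ k, P ((![pt2 c.X c.Y c.D, pt2 v.1 v.2.1 v.2.2.1, pt2 w.1 w.2.1 w.2.2.1] : Fin 3 → Fin 2 → ℝ) k) := by
    intro P hP k
    fin_cases k
    · exact hP (c.X, c.Y, c.D, 256 * c.X + 128 * c.Y) (by rw [all_toL]; exact List.mem_cons_self)
    · exact hP v (hvs v hv)
    · exact hP w (hvs w hw)
  constructor
  · -- membership in Om
    have hq : 0 < c.q := by omega
    have hq' : (0 : ℝ) < c.q := by exact_mod_cast hq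
    set u : ℝ := (c.p : ℝ) / c.q - 2 with hu
    have hp' : (0 : ℝ) < c.p := by exact_mod_cast hp
    have hpq' : (c.p : ℝ) < 4 * c.q := by exact_mod_cast hpq
    have hu2 : |u| < 2 := by
      rw [abs_lt]
      constructor
      · have : 0 < (c.p : ℝ) / c.q := by positivity
        linarith
      · have : (c.p : ℝ) / c.q < 4 := by
          rw [div_lt_iff₀ hq']
          exact hpq'
        linarith
    have f1 : 0 < ∑ j, (![2, 1] : Fin 2 → ℝ) j * x j + 2 := by
      refine sx_pos' _ hdet ![2, 1] 2 (fun h => by have := congrFun h 1; simp at this) ?_ x hxs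
      refine hverts (fun y => 0 ≤ ∑ j, (![2, 1] : Fin 2 → ℝ) j * y j + 2) ?_
      intro v hv
      obtain ⟨hD, -, h1, -⟩ := hV v hv
      have hD' : (0 : ℝ) < v.2.2.1 := by exact_mod_cast hD
      have h1' : (8 : ℝ) * v.2.2.1 ≤ 2 * v.1 + v.2.1 := by exact_mod_cast h1
      have e : ∑ j, (![2, 1] : Fin 2 → ℝ) j * pt2 v.1 v.2.1 v.2.2.1 j + 2 =
          (2 * v.1 + v.2.1 - 8 * v.2.2.1) / v.2.2.1 := by
        rw [Fin.sum_univ_two]
        simp only [pt2, Matrix.cons_val_zero, Matrix.cons_val_one]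
        field_simp
        ring
      rw [e]
      exact div_nonneg (by linarith) hD'.le
    have f2 : 0 < ∑ j, (![-2, 1] : Fin 2 → ℝ) j * x j + 2 := by
      refine sx_pos' _ hdet ![-2, 1] 2 (fun h => by have := congrFun h 1; simp at this) ?_ x hxs
      refine hverts (fun y => 0 ≤ ∑ j, (![-2, 1] : Fin 2 → ℝ) j * y j + 2) ?_
      intro v hv
      obtain ⟨hD, -, -, h1, -⟩ := hV v hv
      have hD' : (0 : ℝ) < v.2.2.1 := by exact_mod_cast hD
      have h1' : (2 : ℝ) * v.1 ≤ 8 * v.2.2.1 + v.2.1 := by exact_mod_cast h1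
      have e : ∑ j, (![-2, 1] : Fin 2 → ℝ) j * pt2 v.1 v.2.1 v.2.2.1 j + 2 =
          (8 * v.2.2.1 + v.2.1 - 2 * v.1) / v.2.2.1 := by
        rw [Fin.sum_univ_two]
        simp only [pt2, Matrix.cons_val_zero, Matrix.cons_val_one]
        field_simp
        ring
      rw [e]
      exact div_nonneg (by linarith) hD'.le
    have f3 : 0 < ∑ j, (![-u, -1] : Fin 2 → ℝ) j * x j + (2 - u ^ 2) := by
      refine sx_pos' _ hdet ![-u, -1] (2 - u ^ 2) (fun h => by have := congrFun h 1; simp at this) ?_ x hxs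
      refine hverts (fun y => 0 ≤ ∑ j, (![-u, -1] : Fin 2 → ℝ) j * y j + (2 - u ^ 2)) ?_
      intro v hv
      obtain ⟨hD, -, -, -, h1⟩ := hV v hv
      have hD' : (0 : ℝ) < v.2.2.1 := by exact_mod_cast hD
      have h1' : (v.2.2.1 : ℝ) * (c.p * c.p + 8 * (c.q * c.q)) + (c.p * c.q * v.1 + c.q * c.q * v.2.1) ≤
        8 * (c.p * c.q) * v.2.2.1 + 2 * (c.q * c.q) * v.1 := by exact_mod_cast h1
      have e : ∑ j, (![-u, -1] : Fin 2 → ℝ) j * pt2 v.1 v.2.1 v.2.2.1 j + (2 - u ^ 2) =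
          ((8 * (c.p * c.q) * v.2.2.1 + 2 * (c.q * c.q) * v.1) -
            ((v.2.2.1 : ℝ) * (c.p * c.p + 8 * (c.q * c.q)) + (c.p * c.q * v.1 + c.q * c.q * v.2.1))) /
            ((c.q : ℝ) * c.q * v.2.2.1) := by
        rw [Fin.sum_univ_two]
        simp only [pt2, Matrix.cons_val_zero, Matrix.cons_val_one, hu]
        field_simp
        ring
      rw [e]
      exact div_nonneg (by linarith) (by positivity)
    rw [Fin.sum_univ_two] at f1 f2 f3
    simp only [Matrix.cons_val_zero, Matrix.cons_val_one] at f1 f2 f3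
    have hxe : x = ![x 0, x 1] := by
      funext j
      fin_cases j <;> rfl
    rw [hxe]
    exact om_two (x 0) (x 1) u hu2 (by linarith) (by linarith) (by linarith)
  · refine ⟨?_, ?_⟩
    · refine code_of_verts (by norm_num) _ hdet (pol l) hmonic hn0 ?_ ?_ x hxs
      · intro i hi1 hi2
        rw [hdeg'] at hi2
        exact hverts (fun y => 0 ≤ Fc y (pol l) i ∧ Fc y (pol l) i ≤ 1)
          (fun v hv => hvF v hv i hi1 (by omega))
      · intro i hi1 hi2
        rw [hdeg'] at hi2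
        exact ⟨_, hsF i hi1 (by omega)⟩
    · rw [hdeg', hlen]
      omega

theorem cell2_vol (c : C2) (hg : geo2 c = true) :
    IsOpen c.reg ∧ ENNReal.ofReal ((wt2 c : ℝ) / (2 * 10 ^ 9)) ≤ volume c.reg := by
  obtain ⟨hsD, hp, hpq, hvert, hfan⟩ := geo2_iff c hg
  have hV := vert2_iff _ _ _ hvert
  have hD : 0 < c.D := (hV (c.X, c.Y, c.D, 256 * c.X + 128 * c.Y) (by rw [all_toL]; exact List.mem_cons_self)).1
  have hvs : ∀ v ∈ c.vs.toL, v ∈ c.all.toL := fun v hv => by
    rw [all_toL]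
    exact List.mem_cons_of_mem _ hv
  exact fan_sound c.X c.Y c.D hD c.vs (fun v hv => (hV v (hvs v hv)).1) hfan

end Pool.Agent.Helper11.SP
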