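import Pool.Agent.Helper11.SP.Tree3
import Pool.Agent.Helper11.SP.CodeList

/-!
SP-44. Soundness of a cell in dimension three (compare `Cell2.lean`; proved by helper85).

Proof. `code3 c = some code` means `run3 ... = some acc`, `code = acc.reverse`.  `run3_sound` with `l = code`.
Let `n = pol code`, `n_i = n.coeff i = l_i - 128` for `i ≤ L` and `0` for `i > L`; `(pv l i j : ℤ) - 128` is `n_{i-j}` if `j ≤ i` and `0` otherwise, for `i ≤ L`.
With `x = pt3 v` and `F = Fc x n i` (`Fc_three`): `D F = LL3 - RR3` as real numbers when `w = 256 X + 256 Y + 128 Z`: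
`(m + d + 4096) D + e X + h Y + b Z - (6 e + h + 20 b) D - w`
`= D ((m-128) + (e-256)(X/D - 6) + (h-256)(Y/D - 1) + (b-128)(Z/D - 20) + (d-128))`.
So `0 ≤ Fc V n i ≤ 1` at all vertices `V` of the tree (`tree_vert`) and `0 < Fc S n i` at the sample point, for all `1 ≤ i ≤ L`.
Last entries: `n_{L-5} = ... = n_L = 0`; for `i = L`, `Fc y n L = n_{L-6}` for all `y`, an integer in `(0, 1]`, so `n_{L-6} = 1` (the tree has a vertex
because `c.t.reg` is not empty in the situation considered: use the vertices given by `tree_mem` for the point `x`):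
`n` is monic of degree `L - 6`, `code.length = L + 1 = natDegree + 7`, `n.coeff 0 = 129 - 128 = 1`.
For `x ∈ c.t.reg`: `tree_mem` and `code_of_verts` (`g = 3`).
-/

open MeasureTheory

namespace Pool.Agent.Helper11.SP

/-- The main identity. -/
private lemma key_id3 (l : List ℕ) (i : ℕ) (hi : i < l.length) (X Y Z D : ℕ) (hD : 0 < D) :
    (D : ℝ) * Fc (pt3 ⟨X, Y, Z, D⟩) (pol l) i =
      (LL3 l i X Y Z D : ℝ) - RR3 l i D (256 * X + 256 * Y + 128 * Z) := by
  have hD' : (D : ℝ) ≠ 0 := by exact_mod_cast hD.ne'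
  have hpv : ∀ j, 0 < j → (if j ≤ i then (((pol l).coeff (i - j) : ℤ) : ℝ) else 0) = (pv l i j : ℝ) - 128 := by
    intro j hj
    unfold pv
    split_ifs with h
    · rw [pol_coeff, if_pos (by omega)]
      push_cast
      ring
    · norm_num
  have h0 : (((pol l).coeff i : ℤ) : ℝ) = (pv l i 0 : ℝ) - 128 := by
    unfold pv
    rw [if_pos (Nat.zero_le i), pol_coeff, if_pos hi, Nat.sub_zero]
    push_cast
    ring
  have hm : ∀ (j : ℕ) (r : ℝ), (if j ≤ i then r * (((pol l).coeff (i - j) : ℤ) : ℝ) else 0) =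
      r * (if j ≤ i then (((pol l).coeff (i - j) : ℤ) : ℝ) else 0) := by
    intro j r
    split_ifs <;> simp
  have e : Fc (pt3 ⟨X, Y, Z, D⟩) (pol l) i = ((pv l i 0 : ℝ) - 128) + ((X : ℝ) / D - 6) * ((pv l i 1 : ℝ) - 128)
      + ((Y : ℝ) / D - 1) * ((pv l i 2 : ℝ) - 128) + ((Z : ℝ) / D - 20) * ((pv l i 3 : ℝ) - 128)
      + ((Y : ℝ) / D - 1) * ((pv l i 4 : ℝ) - 128) + ((X : ℝ) / D - 6) * ((pv l i 5 : ℝ) - 128)
      + ((pv l i 6 : ℝ) - 128) := by
    unfold pt3
    rw [Fc_three, hm, hm, hm, hm, hm, hpv 1 (by norm_num), hpv 2 (by norm_num), hpv 3 (by norm_num),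
      hpv 4 (by norm_num), hpv 5 (by norm_num), hpv 6 (by norm_num), h0]
  rw [e]
  unfold LL3 RR3
  push_cast
  field_simp
  ring

private lemma getD_of_len3 (l : List ℕ) (k : ℕ) (h : ¬ k < l.length) : (pol l).coeff k = 0 := by
  rw [pol_coeff, if_neg h]

theorem cell3_sound (c : C3) (hD : 1 ≤ c.sD) (hg : geo3 c.t = true) (code : List ℕ) (hc : code3 c = some code) :
    ∀ x ∈ c.t.reg, x ∈ Om 3 ∧ CodeL x code := by
  -- the code
  have hcode : ∃ acc, run3 c.sX c.sY c.sZ c.sD (256 * c.sX + 256 * c.sY + 128 * c.sZ) c.t c.L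
      129 128 128 128 128 128 [129] = some acc ∧ acc.reverse = code := by
    have e : code3 c = Option.rec (motive := fun _ => Option (List ℕ)) none (fun acc => some acc.reverse)
      (run3 c.sX c.sY c.sZ c.sD (256 * c.sX + 256 * c.sY + 128 * c.sZ) c.t c.L 129 128 128 128 128 128 [129]) := rfl
    rw [e] at hc
    cases hr : run3 c.sX c.sY c.sZ c.sD (256 * c.sX + 256 * c.sY + 128 * c.sZ) c.t c.L
        129 128 128 128 128 128 [129] with
    | none =>
      rw [hr] at hc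
      simp at hc
    | some acc =>
      rw [hr] at hc
      exact ⟨acc, rfl, by simpa using hc⟩
  obtain ⟨acc, hrun, rfl⟩ := hcode
  obtain ⟨hlen, hL6, hl0, hlz, hstep⟩ := run3_sound _ _ _ _ _ hD _ _ _ hrun
  set l := acc.reverse with hl
  set L := c.L with hLdef
  -- facts on vertices
  have hvF : ∀ v ∈ c.t.toL, ∀ i, 1 ≤ i → i ≤ L →
      0 ≤ Fc (pt3 ⟨v.1, v.2.1, v.2.2.1, v.2.2.2.1⟩) (pol l) i ∧
        Fc (pt3 ⟨v.1, v.2.1, v.2.2.1, v.2.2.2.1⟩) (pol l) i ≤ 1 := by
    intro v hv i hi1 hiL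
    obtain ⟨hDv, hw⟩ := tree_vert c.t hg v hv
    obtain ⟨h1, h2⟩ := (hstep i hi1 hiL).2 v hv
    rw [hw] at h1 h2
    have hD' : (0 : ℝ) < v.2.2.2.1 := by exact_mod_cast hDv
    have hk := key_id3 l i (by omega) v.1 v.2.1 v.2.2.1 v.2.2.2.1 hDv
    have h1' : (RR3 l i v.2.2.2.1 (256 * v.1 + 256 * v.2.1 + 128 * v.2.2.1) : ℝ) ≤
        LL3 l i v.1 v.2.1 v.2.2.1 v.2.2.2.1 := by
      exact_mod_cast h1
    have h2' : (LL3 l i v.1 v.2.1 v.2.2.1 v.2.2.2.1 : ℝ) ≤
        (RR3 l i v.2.2.2.1 (256 * v.1 + 256 * v.2.1 + 128 * v.2.2.1) : ℝ) + v.2.2.2.1 := by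
      exact_mod_cast h2
    constructor
    · by_contra hcon
      have := mul_neg_of_pos_of_neg hD' (not_le.1 hcon)
      linarith
    · by_contra hcon
      have := mul_lt_mul_of_pos_left (not_le.1 hcon) hD'
      linarith
  have hsF : ∀ i, 1 ≤ i → i ≤ L → 0 < Fc (pt3 ⟨c.sX, c.sY, c.sZ, c.sD⟩) (pol l) i := by
    intro i hi1 hiL
    have h1 := (hstep i hi1 hiL).1
    have hD' : (0 : ℝ) < c.sD := by exact_mod_cast hD
    have hk := key_id3 l i (by omega) c.sX c.sY c.sZ c.sD hD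
    have h1' : (RR3 l i c.sD (256 * c.sX + 256 * c.sY + 128 * c.sZ) : ℝ) < LL3 l i c.sX c.sY c.sZ c.sD := by
      exact_mod_cast h1
    by_contra hcon
    have := mul_nonpos_of_nonneg_of_nonpos hD'.le (not_lt.1 hcon)
    linarith
  -- the polynomial
  have hz : ∀ k, L < k + 6 → (pol l).coeff k = 0 := by
    intro k hk
    by_cases hk2 : k ≤ L
    · rw [pol_coeff, if_pos (by omega), hlz k hk2 hk]
      norm_num
    · exact getD_of_len3 l k (by omega)
  have hFL : ∀ v : V3, Fc (pt3 v) (pol l) L = (((pol l).coeff (L - 6) : ℤ) : ℝ) := by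
    intro v
    unfold pt3
    rw [Fc_three, hz L (by omega), hz (L - 1) (by omega), hz (L - 2) (by omega), hz (L - 3) (by omega),
      hz (L - 4) (by omega), hz (L - 5) (by omega), if_pos hL6]
    simp
  intro x hx
  obtain ⟨hOm, V, hV, hxs, hdet⟩ := tree_mem c.t hg x hx
  refine ⟨hOm, ?_⟩
  have hvert : ∀ k : Fin 4, ∀ i, 1 ≤ i → i ≤ L → 0 ≤ Fc (pt3 (V k)) (pol l) i ∧ Fc (pt3 (V k)) (pol l) i ≤ 1 := by
    intro k i hi1 hiL
    obtain ⟨w, hw⟩ := hV k
    exact hvF _ hw i hi1 hiL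
  have hone : (pol l).coeff (L - 6) = 1 := by
    have h1 := hsF L (by omega) le_rfl
    have h2 := (hvert 0 L (by omega) le_rfl).2
    rw [hFL] at h1 h2
    have h1' : 0 < (pol l).coeff (L - 6) := by exact_mod_cast h1
    have h2' : (pol l).coeff (L - 6) ≤ 1 := by exact_mod_cast h2
    omega
  have hdeg : (pol l).natDegree ≤ L - 6 := by
    rw [Polynomial.natDegree_le_iff_coeff_eq_zero]
    intro k hk
    exact hz k (by omega)
  have hmonic : (pol l).Monic := Polynomial.monic_of_natDegree_le_of_coeff_eq_one _ hdeg hone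
  have hdeg' : (pol l).natDegree = L - 6 :=
    Polynomial.natDegree_eq_of_le_of_coeff_ne_zero hdeg (by rw [hone]; norm_num)
  have hn0 : (pol l).coeff 0 = 1 := by
    rw [pol_coeff, if_pos (by omega), hl0]
    norm_num
  refine ⟨?_, ?_⟩
  · refine code_of_verts (by norm_num) _ hdet (pol l) hmonic hn0 ?_ ?_ x hxs
    · intro i hi1 hi2 k
      rw [hdeg'] at hi2
      exact hvert k i hi1 (by omega)
    · intro i hi1 hi2
      rw [hdeg'] at hi2
      exact ⟨_, hsF i hi1 (by omega)⟩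
  · rw [hdeg', hlen]
    omega

end Pool.Agent.Helper11.SP
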