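import Pool.Agent.Helper11.SP.Chk2

/-!
Checker for polytopes of parameters in degree 8 (`g = 3`).  Written with recursors so that the kernel evaluates it fast.

All numbers are natural numbers.  A vertex `(X, Y, Z, D)` stands for the point `(a, b, c) = (X / D - 6, Y / D - 1, Z / D - 20)`,
`w = 256 X + 256 Y + 128 Z`.  The integers `n_i` of a code are stored as `m_i = n_i + 128`.
With `e = m_{i-1} + m_{i-5}`, `h = m_{i-2} + m_{i-4}`, `b = m_{i-3}`, `d = m_{i-6}`, `m = m_i`: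
`D * (n_i + a n_{i-1} + b n_{i-2} + c n_{i-3} + b n_{i-4} + a n_{i-5} + n_{i-6})`
`= ((m + d + 4096) D + e X + h Y + b Z) - ((6 e + h + 20 b) D + w)`.
-/

namespace Pool.Agent.Helper11.SP

/-- List of vertices. -/
inductive VL3 where
  | nil : VL3
  | cons (X Y Z D w : ℕ) (l : VL3) : VL3

/-- List of tetrahedra (indices of vertices). -/
inductive IL3 where
  | nil : IL3
  | cons (i j k l : ℕ) (t : IL3) : IL3

/-- Tree of convex pieces.  A leaf has test points `p1/q1 - 2`, `p2/q2 - 2`, vertices and tetrahedra; a node has a separating plane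
`A X + B Y + C Z + E D ≤ A' X + B' Y + C' Z + E' D` on the left subtree and `≥` on the right subtree. -/
inductive T3 where
  | leaf (p1 q1 p2 q2 : ℕ) (vs : VL3) (ts : IL3) : T3
  | node (A B C E A' B' C' E' : ℕ) (l r : T3) : T3

/-- `0 ≤ F ≤ 1` at all vertices of a list (`md = m + d + 4096`, `k = 6 e + h + 20 b`). -/
noncomputable def all3v (md e h b k : ℕ) (l : VL3) : Bool :=
  VL3.rec (motive := fun _ => Bool) true (fun X Y Z D w _ ih =>
    (fun L R => Bool.rec (motive := fun _ => Bool) false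
      (Bool.rec (motive := fun _ => Bool) false ih (Nat.ble L (Nat.add R D))) (Nat.ble R L))
     (Nat.add (Nat.add (Nat.add (Nat.mul md D) (Nat.mul e X)) (Nat.mul h Y)) (Nat.mul b Z)) (Nat.add (Nat.mul k D) w)) l

/-- The same for all vertices of a tree. -/
noncomputable def all3 (md e h b k : ℕ) (t : T3) : Bool :=
  T3.rec (motive := fun _ => Bool) (fun _ _ _ _ vs _ => all3v md e h b k vs)
    (fun _ _ _ _ _ _ _ _ _ _ ihl ihr => Bool.rec (motive := fun _ => Bool) false ihr ihl) t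

/-- Run `f` steps of the limit system from the state `(a1, ..., a6)` (most recent entry first) at the sample point `(X, Y, Z, D)`,
checking all vertices; `acc` is the code so far (reversed).  At the end the state must be zero. -/
noncomputable def run3 (X Y Z D w : ℕ) (t : T3) (f : ℕ) : ℕ → ℕ → ℕ → ℕ → ℕ → ℕ → List ℕ → Option (List ℕ) :=
  Nat.rec (motive := fun _ => ℕ → ℕ → ℕ → ℕ → ℕ → ℕ → List ℕ → Option (List ℕ))
    (fun a1 a2 a3 a4 a5 a6 acc => Bool.rec (motive := fun _ => Option (List ℕ)) none (some acc)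
      (and (and (and (Nat.beq a1 128) (Nat.beq a2 128)) (and (Nat.beq a3 128) (Nat.beq a4 128)))
        (and (Nat.beq a5 128) (Nat.beq a6 128))))
    (fun _ ih a1 a2 a3 a4 a5 a6 acc =>
      (fun e h => (fun k => (fun m =>
          Bool.rec (motive := fun _ => Option (List ℕ)) none (ih m a1 a2 a3 a4 a5 (m :: acc))
            (all3 (Nat.add (Nat.add m a6) 4096) e h a3 k t))
        (Nat.add (Nat.div (Nat.sub (Nat.add (Nat.mul k D) w)
          (Nat.add (Nat.add (Nat.add (Nat.mul (Nat.add a6 4096) D) (Nat.mul e X)) (Nat.mul h Y)) (Nat.mul a3 Z))) D) 1))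
        (Nat.add (Nat.add (Nat.mul 6 e) h) (Nat.mul 20 a3))) (Nat.add a1 a5) (Nat.add a2 a4)) f

/-- `det3` of rows `(a,b,c), (d,e,f), (g,h,i)`: positive part. -/
def d3p (a b c d e f g h i : ℕ) : ℕ :=
  Nat.add (Nat.add (Nat.mul a (Nat.mul e i)) (Nat.mul b (Nat.mul f g))) (Nat.mul c (Nat.mul d h))

/-- Negative part. -/
def d3n (a b c d e f g h i : ℕ) : ℕ :=
  Nat.add (Nat.add (Nat.mul a (Nat.mul f h)) (Nat.mul b (Nat.mul d i))) (Nat.mul c (Nat.mul e g))

/-- Homogeneous determinant of four vertices (rows `(X, Y, Z, D)`), expansion along the first row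
`X1 |Y Z D| - Y1 |X Z D| + Z1 |X Y D| - D1 |X Y Z|`: positive part. -/
def d4p (X1 Y1 Z1 D1 X2 Y2 Z2 D2 X3 Y3 Z3 D3 X4 Y4 Z4 D4 : ℕ) : ℕ :=
  Nat.add (Nat.add (Nat.mul X1 (d3p Y2 Z2 D2 Y3 Z3 D3 Y4 Z4 D4)) (Nat.mul Y1 (d3n X2 Z2 D2 X3 Z3 D3 X4 Z4 D4)))
    (Nat.add (Nat.mul Z1 (d3p X2 Y2 D2 X3 Y3 D3 X4 Y4 D4)) (Nat.mul D1 (d3n X2 Y2 Z2 X3 Y3 Z3 X4 Y4 Z4)))

/-- Negative part. -/
def d4n (X1 Y1 Z1 D1 X2 Y2 Z2 D2 X3 Y3 Z3 D3 X4 Y4 Z4 D4 : ℕ) : ℕ :=
  Nat.add (Nat.add (Nat.mul X1 (d3n Y2 Z2 D2 Y3 Z3 D3 Y4 Z4 D4)) (Nat.mul Y1 (d3p X2 Z2 D2 X3 Z3 D3 X4 Z4 D4)))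
    (Nat.add (Nat.mul Z1 (d3n X2 Y2 D2 X3 Y3 D3 X4 Y4 D4)) (Nat.mul D1 (d3p X2 Y2 Z2 X3 Y3 Z3 X4 Y4 Z4)))

/-- A vertex as a structure. -/
structure V3 where
  X : ℕ
  Y : ℕ
  Z : ℕ
  D : ℕ

/-- Vertex number `k` (`(0,0,0,0)` if there is none; then all determinants vanish). -/
noncomputable def get3 (l : VL3) (k : ℕ) : V3 :=
  VL3.rec (motive := fun _ => ℕ → V3) (fun _ => ⟨0, 0, 0, 0⟩) (fun X Y Z D _ _ ih k =>
    Nat.rec (motive := fun _ => V3) ⟨X, Y, Z, D⟩ (fun k _ => ih k) k) l k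

/-- Determinant of four vertices is positive. -/
def dpos4 (a b c d : V3) : Bool :=
  Nat.ble (Nat.succ (d4n a.X a.Y a.Z a.D b.X b.Y b.Z b.D c.X c.Y c.Z c.D d.X d.Y d.Z d.D))
    (d4p a.X a.Y a.Z a.D b.X b.Y b.Z b.D c.X c.Y c.Z c.D d.X d.Y d.Z d.D)

/-- Determinant of four vertices is `≤ 0`. -/
def dneg4 (a b c d : V3) : Bool :=
  Nat.ble (d4p a.X a.Y a.Z a.D b.X b.Y b.Z b.D c.X c.Y c.Z c.D d.X d.Y d.Z d.D)
    (d4n a.X a.Y a.Z a.D b.X b.Y b.Z b.D c.X c.Y c.Z c.D d.X d.Y d.Z d.D)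

/-- The plane of some facet of `(a,b,c,d)` separates it from `(a',b',c',d')`. -/
def sep3a (a b c d a' b' c' d' : V3) : Bool :=
  or (or (and (and (dneg4 a' b c d) (dneg4 b' b c d)) (and (dneg4 c' b c d) (dneg4 d' b c d)))
         (and (and (dneg4 a a' c d) (dneg4 a b' c d)) (and (dneg4 a c' c d) (dneg4 a d' c d))))
     (or (and (and (dneg4 a b a' d) (dneg4 a b b' d)) (and (dneg4 a b c' d) (dneg4 a b d' d)))
         (and (and (dneg4 a b c a') (dneg4 a b c b')) (and (dneg4 a b c c') (dneg4 a b c d'))))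

/-- Separated by a facet plane of one of the two. -/
def sep3 (a b c d a' b' c' d' : V3) : Bool := or (sep3a a b c d a' b' c' d') (sep3a a' b' c' d' a b c d)

/-- `(a,b,c,d)` is separated from all tetrahedra of the list. -/
noncomputable def sepl3 (vs : VL3) (a b c d : V3) (ts : IL3) : Bool :=
  IL3.rec (motive := fun _ => Bool) true (fun i j k l _ ih =>
    and (sep3 a b c d (get3 vs i) (get3 vs j) (get3 vs k) (get3 vs l)) ih) ts

/-- All tetrahedra are positively oriented and pairwise separated. -/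
noncomputable def tets3 (vs : VL3) (ts : IL3) : Bool :=
  IL3.rec (motive := fun _ => Bool) true (fun i j k l t ih =>
    and (and (dpos4 (get3 vs i) (get3 vs j) (get3 vs k) (get3 vs l))
      (sepl3 vs (get3 vs i) (get3 vs j) (get3 vs k) (get3 vs l) t)) ih) ts

/-- Weight of a tetrahedron: `⌊10^9 * six times the volume⌋`. -/
def wtet3 (a b c d : V3) : ℕ :=
  Nat.div (Nat.mul 1000000000 (Nat.sub (d4p a.X a.Y a.Z a.D b.X b.Y b.Z b.D c.X c.Y c.Z c.D d.X d.Y d.Z d.D)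
    (d4n a.X a.Y a.Z a.D b.X b.Y b.Z b.D c.X c.Y c.Z c.D d.X d.Y d.Z d.D))) (Nat.mul (Nat.mul a.D b.D) (Nat.mul c.D d.D))

/-- Total weight. -/
noncomputable def wtets3 (vs : VL3) (ts : IL3) : ℕ :=
  IL3.rec (motive := fun _ => ℕ) 0 (fun i j k l _ ih =>
    Nat.add (wtet3 (get3 vs i) (get3 vs j) (get3 vs k) (get3 vs l)) ih) ts

/-- `q³ D (u³ + a u² + (b - 3) u + c - 2 a)` for `u = p/q - 2`: positive part. -/
def tpos3 (p q X Y Z D : ℕ) : ℕ :=
  Nat.add (Nat.add (Nat.mul D (Nat.add (Nat.mul p (Nat.mul p p)) (Nat.mul 32 (Nat.mul p (Nat.mul q q)))))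
      (Nat.mul X (Nat.add (Nat.mul p (Nat.mul p q)) (Nat.mul 2 (Nat.mul q (Nat.mul q q))))))
    (Nat.add (Nat.mul Y (Nat.mul p (Nat.mul q q))) (Nat.mul Z (Nat.mul q (Nat.mul q q))))

/-- Negative part. -/
def tneg3 (p q X Y D : ℕ) : ℕ :=
  Nat.add (Nat.add (Nat.mul D (Nat.add (Nat.mul 12 (Nat.mul p (Nat.mul p q))) (Nat.mul 32 (Nat.mul q (Nat.mul q q)))))
      (Nat.mul X (Nat.mul 4 (Nat.mul p (Nat.mul q q)))))
    (Nat.mul Y (Nat.mul 2 (Nat.mul q (Nat.mul q q))))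

/-- Vertex tests. -/
noncomputable def vert3 (p1 q1 p2 q2 : ℕ) (l : VL3) : Bool :=
  VL3.rec (motive := fun _ => Bool) true (fun X Y Z D w _ ih =>
    Bool.rec (motive := fun _ => Bool) false ih
      (and (and (and (Nat.ble 1 D) (Nat.beq w (Nat.add (Nat.add (Nat.mul 256 X) (Nat.mul 256 Y)) (Nat.mul 128 Z))))
        (and (Nat.ble (Nat.mul 32 D) (Nat.add (Nat.add (Nat.mul 2 X) (Nat.mul 2 Y)) Z))
          (Nat.ble (Nat.add (Nat.mul 2 X) Z) (Nat.add (Nat.mul 32 D) (Nat.mul 2 Y)))))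
        (and (Nat.ble (tneg3 p1 q1 X Y D) (tpos3 p1 q1 X Y Z D)) (Nat.ble (tpos3 p2 q2 X Y Z D) (tneg3 p2 q2 X Y D))))) l

/-- `A X + B Y + C Z + E D ≤ A' X + B' Y + C' Z + E' D` at all vertices of a list. -/
noncomputable def lev3 (A B C E A' B' C' E' : ℕ) (l : VL3) : Bool :=
  VL3.rec (motive := fun _ => Bool) true (fun X Y Z D _ _ ih =>
    Bool.rec (motive := fun _ => Bool) false ih
      (Nat.ble (Nat.add (Nat.add (Nat.mul A X) (Nat.mul B Y)) (Nat.add (Nat.mul C Z) (Nat.mul E D)))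
        (Nat.add (Nat.add (Nat.mul A' X) (Nat.mul B' Y)) (Nat.add (Nat.mul C' Z) (Nat.mul E' D))))) l

/-- The same for all vertices of a tree. -/
noncomputable def le3 (A B C E A' B' C' E' : ℕ) (t : T3) : Bool :=
  T3.rec (motive := fun _ => Bool) (fun _ _ _ _ vs _ => lev3 A B C E A' B' C' E' vs)
    (fun _ _ _ _ _ _ _ _ _ _ ihl ihr => Bool.rec (motive := fun _ => Bool) false ihr ihl) t

/-- Geometric tests of a tree. -/
noncomputable def geo3 (t : T3) : Bool :=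
  T3.rec (motive := fun _ => Bool)
    (fun p1 q1 p2 q2 vs ts => and (and (and (Nat.ble 1 p1) (Nat.ble (Nat.succ (Nat.mul p1 q2)) (Nat.mul p2 q1)))
      (and (and (Nat.ble 1 q1) (Nat.ble 1 q2)) (Nat.ble (Nat.succ p2) (Nat.mul 4 q2)))) (and (vert3 p1 q1 p2 q2 vs) (tets3 vs ts)))
    (fun A B C E A' B' C' E' l r ihl ihr =>
      and (and (Bool.not (and (and (Nat.beq A A') (Nat.beq B B')) (Nat.beq C C')))
        (and (le3 A B C E A' B' C' E' l) (le3 A' B' C' E' A B C E r))) (and ihl ihr)) t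

/-- Weight of a tree. -/
noncomputable def wt3 (t : T3) : ℕ :=
  T3.rec (motive := fun _ => ℕ) (fun _ _ _ _ vs ts => wtets3 vs ts) (fun _ _ _ _ _ _ _ _ _ _ ihl ihr => Nat.add ihl ihr) t

/-- A cell: number of steps `L`, sample point, tree of pieces. -/
structure C3 where
  L : ℕ
  sX : ℕ
  sY : ℕ
  sZ : ℕ
  sD : ℕ
  t : T3

/-- The code of a cell (`none` if a test fails). -/
noncomputable def code3 (c : C3) : Option (List ℕ) :=
  Option.rec (motive := fun _ => Option (List ℕ)) none (fun acc => some acc.reverse)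
    (run3 c.sX c.sY c.sZ c.sD (Nat.add (Nat.add (Nat.mul 256 c.sX) (Nat.mul 256 c.sY)) (Nat.mul 128 c.sZ)) c.t c.L
      129 128 128 128 128 128 [129])

/-- Check a list of cells with increasing codes, all larger than `prev`; the result is the last code. -/
noncomputable def chk3 (prev : List ℕ) (l : List C3) : Option (List ℕ) :=
  List.rec (motive := fun _ => List ℕ → Option (List ℕ)) (fun prev => some prev) (fun c _ ih prev =>
    Bool.rec (motive := fun _ => Option (List ℕ)) none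
      (Option.rec (motive := fun _ => Option (List ℕ)) none (fun code =>
        Bool.rec (motive := fun _ => Option (List ℕ)) none (ih code) (ltc prev code)) (code3 c))
      (and (Nat.ble 1 c.sD) (geo3 c.t))) l prev

/-- Sum of the weights. -/
noncomputable def wsum3 (l : List C3) : ℕ := List.rec (motive := fun _ => ℕ) 0 (fun c _ ih => Nat.add (wt3 c.t) ih) l

end Pool.Agent.Helper11.SP
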