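import Pool.Agent.Helper11.SP.Defs

/-!
SP-12. Lower count of lattice points near a bounded set.

Proof. For `x ∈ K` let `v j = ⌊N x j⌋`; then `|v j / N - x j| ≤ 1/N < δ`, so `v` is in the set `S`, and `x` lies in the cube
`Q_v = {x | ∀ j, v j / N ≤ x j < (v j + 1)/N}` of volume `(1/N)^g` (`Real.volume_pi_Ico_toReal` or `volume_pi_Ico`).
`S` is finite because `K` is bounded (`|v j| ≤ N (R + δ)`).
So `K ⊆ ⋃_{v ∈ S} Q_v` and `volume K ≤ #S * (1/N)^g` (`measure_biUnion_finset_le`).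
-/

open MeasureTheory

namespace Pool.Agent.Helper11.SP

theorem count_low {g : ℕ} (K : Set (Fin g → ℝ)) (hK : Bornology.IsBounded K) (δ : ℝ) (hδ : 0 < δ) (N : ℕ) (hN : 1 / δ < N) :
    {v : Fin g → ℤ | ∃ x ∈ K, ∀ j, |(v j : ℝ) / N - x j| < δ}.Finite ∧
    (volume K).toReal * (N : ℝ) ^ g ≤
      ({v : Fin g → ℤ | ∃ x ∈ K, ∀ j, |(v j : ℝ) / N - x j| < δ}.ncard : ℝ) := by
  have hNpos : (0 : ℝ) < N := lt_trans (by positivity) hN
  set S : Set (Fin g → ℤ) := {v : Fin g → ℤ | ∃ x ∈ K, ∀ j, |(v j : ℝ) / N - x j| < δ} with hS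
  obtain ⟨R, hR⟩ := hK.exists_norm_le
  have hfin : S.Finite := by
    obtain ⟨M, hM⟩ := exists_nat_ge ((N : ℝ) * (R + δ))
    refine (Set.finite_Icc (fun _ : Fin g => -(M : ℤ)) (fun _ => (M : ℤ))).subset ?_
    rintro v ⟨x, hx, hv⟩
    have hb : ∀ j, |(v j : ℝ)| ≤ M := by
      intro j
      have h1 : |x j| ≤ R := (norm_le_pi_norm x j).trans (hR x hx)
      have h2 := hv j
      have h3 : |(v j : ℝ) / N| ≤ R + δ := by
        calc |(v j : ℝ) / N| = |((v j : ℝ) / N - x j) + x j| := by ring_nf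
          _ ≤ |(v j : ℝ) / N - x j| + |x j| := abs_add_le _ _
          _ ≤ R + δ := by linarith
      rw [abs_div, abs_of_pos hNpos, div_le_iff₀ hNpos] at h3
      linarith
    constructor
    · intro j
      have := (abs_le.1 (hb j)).1
      have h4 : ((-(M : ℤ) : ℤ) : ℝ) ≤ (v j : ℝ) := by push_cast; linarith
      exact_mod_cast h4
    · intro j
      have := (abs_le.1 (hb j)).2
      have h4 : (v j : ℝ) ≤ ((M : ℤ) : ℝ) := by push_cast; linarith
      exact_mod_cast h4
  refine ⟨hfin, ?_⟩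
  let Q : (Fin g → ℤ) → Set (Fin g → ℝ) :=
    fun v => Set.pi Set.univ fun j => Set.Ico ((v j : ℝ) / N) (((v j : ℝ) + 1) / N)
  have hQ : ∀ v, volume (Q v) = ENNReal.ofReal (1 / N) ^ g := by
    intro v
    have h1 : volume (Q v) = ∏ j : Fin g, ENNReal.ofReal (((v j : ℝ) + 1) / N - (v j : ℝ) / N) :=
      Real.volume_pi_Ico
    rw [h1]
    have h2 : ∀ j : Fin g, ((v j : ℝ) + 1) / N - (v j : ℝ) / N = 1 / N := by
      intro j
      ring
    simp only [h2, Finset.prod_const, Finset.card_univ, Fintype.card_fin]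
  have hcov : K ⊆ ⋃ v ∈ hfin.toFinset, Q v := by
    intro x hx
    rw [Set.mem_iUnion₂]
    refine ⟨fun j => ⌊(N : ℝ) * x j⌋, ?_, ?_⟩
    · rw [Set.Finite.mem_toFinset]
      refine ⟨x, hx, fun j => ?_⟩
      have h1 := Int.floor_le ((N : ℝ) * x j)
      have h2 := Int.lt_floor_add_one ((N : ℝ) * x j)
      have h3 : (⌊(N : ℝ) * x j⌋ : ℝ) / N - x j = ((⌊(N : ℝ) * x j⌋ : ℝ) - N * x j) / N := by
        field_simp
      rw [h3, abs_div, abs_of_pos hNpos, div_lt_iff₀ hNpos]
      have h4 : 1 < δ * N := by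
        rw [div_lt_iff₀ hδ] at hN
        linarith
      rw [abs_lt]
      constructor <;> linarith
    · intro j _
      have h1 := Int.floor_le ((N : ℝ) * x j)
      have h2 := Int.lt_floor_add_one ((N : ℝ) * x j)
      constructor
      · rw [div_le_iff₀ hNpos]
        linarith
      · rw [lt_div_iff₀ hNpos]
        linarith
  have hle : volume K ≤ (hfin.toFinset.card : ENNReal) * ENNReal.ofReal (1 / N) ^ g := by
    refine (measure_mono hcov).trans ((measure_biUnion_finset_le _ _).trans ?_)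
    simp only [hQ, Finset.sum_const, nsmul_eq_mul]
    exact le_rfl
  have hle2 : (volume K).toReal ≤ (hfin.toFinset.card : ℝ) * (1 / N) ^ g := by
    have h1 : ((hfin.toFinset.card : ENNReal) * ENNReal.ofReal (1 / N) ^ g).toReal =
        (hfin.toFinset.card : ℝ) * (1 / N) ^ g := by
      rw [ENNReal.toReal_mul, ENNReal.toReal_pow, ENNReal.toReal_ofReal (by positivity)]
      simp
    rw [← h1]
    refine ENNReal.toReal_mono ?_ hle
    exact ENNReal.mul_ne_top (ENNReal.natCast_ne_top _) (ENNReal.pow_ne_top ENNReal.ofReal_ne_top)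
  rw [Set.ncard_eq_toFinset_card S hfin]
  calc (volume K).toReal * (N : ℝ) ^ g ≤ ((hfin.toFinset.card : ℝ) * (1 / N) ^ g) * (N : ℝ) ^ g :=
        mul_le_mul_of_nonneg_right hle2 (by positivity)
    _ = (hfin.toFinset.card : ℝ) := by
        rw [mul_assoc, ← mul_pow, one_div, inv_mul_cancel₀ hNpos.ne', one_pow, mul_one]

end Pool.Agent.Helper11.SP
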