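import Pool.Agent.Helper11.SP.Defs

/-!
SP-13. Upper count of lattice points near a compact set.

Proof. Let `S_N = {v | ∃ x ∈ K, ∀ j, |v j - N x j| ≤ C}` (finite, `K` bounded).  The cubes
`Q_v = {x | ∀ j, v j / N ≤ x j < (v j + 1)/N}`, `v ∈ S_N`, are pairwise disjoint, have volume `(1/N)^g` and lie in
`Metric.cthickening ((C + 1)/N) K` (sup distance; for `y ∈ Q_v`, `|y j - x j| ≤ |y j - v j/N| + |v j/N - x j| ≤ (1 + C)/N`,
`Metric.mem_cthickening_of_dist_le`).  So `#S_N * (1/N)^g ≤ volume (cthickening ((C+1)/N) K)`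
(`measure_biUnion_finset`).  As `N → ∞`, `volume (cthickening r K) → volume K` for `r → 0`
(`tendsto_measure_cthickening_of_isCompact` or `tendsto_measure_cthickening_of_isClosed`), so eventually it is
`≤ volume K + ε` (all finite since `K` is bounded).
-/

open MeasureTheory Filter

namespace Pool.Agent.Helper11.SP

/-- Crude bound for every integer `N` (also negative), used for small `N`. -/
theorem count_crude {g : ℕ} (K : Set (Fin g → ℝ)) (hK : IsCompact K) (C : ℝ) (N : ℤ) :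
    {v : Fin g → ℤ | ∃ x ∈ K, ∀ j, |(v j : ℝ) - N * x j| ≤ C}.Finite := by
  obtain ⟨R, hR⟩ := hK.isBounded.exists_norm_le
  set M : ℤ := ⌈|(N : ℝ)| * |R| + |C|⌉ with hM
  refine Set.Finite.subset (Set.finite_Icc (fun _ : Fin g => -M) (fun _ => M)) ?_
  rintro v ⟨x, hx, hv⟩
  have hb : ∀ j, |(v j : ℝ)| ≤ M := by
    intro j
    have h1 : |x j| ≤ |R| := by
      have h2 : ‖x j‖ ≤ ‖x‖ := norm_le_pi_norm x j
      have h3 := hR x hx
      rw [Real.norm_eq_abs] at h2
      exact le_trans h2 (le_trans h3 (le_abs_self R))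
    have h4 : |(v j : ℝ)| ≤ |(v j : ℝ) - N * x j| + |(N : ℝ) * x j| := by
      have h5 := abs_add_le ((v j : ℝ) - N * x j) (N * x j)
      simpa using h5
    have h6 : |(N : ℝ) * x j| ≤ |(N : ℝ)| * |R| := by
      rw [abs_mul]
      exact mul_le_mul_of_nonneg_left h1 (abs_nonneg _)
    have h7 : |(N : ℝ)| * |R| + |C| ≤ M := Int.le_ceil _
    have h8 := hv j
    have h9 := le_abs_self C
    linarith
  constructor
  · intro j
    have h := (abs_le.1 (hb j)).1
    have h2 : ((-M : ℤ) : ℝ) ≤ (v j : ℝ) := by push_cast; exact h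
    exact_mod_cast h2
  · intro j
    have h := (abs_le.1 (hb j)).2
    exact_mod_cast h

theorem count_up {g : ℕ} (K : Set (Fin g → ℝ)) (hK : IsCompact K) (C : ℝ) (hC : 0 ≤ C) (ε : ℝ) (hε : 0 < ε) :
    ∀ᶠ N : ℕ in atTop, {v : Fin g → ℤ | ∃ x ∈ K, ∀ j, |(v j : ℝ) - N * x j| ≤ C}.Finite ∧
      ({v : Fin g → ℤ | ∃ x ∈ K, ∀ j, |(v j : ℝ) - N * x j| ≤ C}.ncard : ℝ) ≤
        ((volume K).toReal + ε) * (N : ℝ) ^ g := by
  classical
  have ht : Tendsto (fun r => volume (Metric.cthickening r K)) (nhds 0) (nhds (volume K)) :=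
    tendsto_measure_cthickening_of_isCompact hK
  have hKf : volume K < ⊤ := hK.measure_lt_top
  have hlt : volume K < volume K + ENNReal.ofReal ε :=
    ENNReal.lt_add_right hKf.ne (by simpa using hε)
  have h0 : Tendsto (fun N : ℕ => (C + 1) / (N : ℝ)) atTop (nhds 0) :=
    tendsto_const_div_atTop_nhds_zero_nat (C + 1)
  have hev : ∀ᶠ N : ℕ in atTop,
      volume (Metric.cthickening ((C + 1) / (N : ℝ)) K) < volume K + ENNReal.ofReal ε :=
    h0.eventually ((tendsto_order.1 ht).2 _ hlt)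
  filter_upwards [hev, eventually_ge_atTop 1] with N hN hN1
  have hfin : {v : Fin g → ℤ | ∃ x ∈ K, ∀ j, |(v j : ℝ) - N * x j| ≤ C}.Finite := by
    have := count_crude K hK C (N : ℤ)
    simpa using this
  refine ⟨hfin, ?_⟩
  have hNpos : (0 : ℝ) < N := by exact_mod_cast hN1
  set S := hfin.toFinset with hS
  have hcard : ({v : Fin g → ℤ | ∃ x ∈ K, ∀ j, |(v j : ℝ) - N * x j| ≤ C}.ncard) = S.card :=
    Set.ncard_eq_toFinset_card _ hfin
  rw [hcard]
  let Q : (Fin g → ℤ) → Set (Fin g → ℝ) := fun v =>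
    Set.pi Set.univ (fun j => Set.Ico ((v j : ℝ) / N) (((v j : ℝ) + 1) / N))
  have hvol : ∀ v, volume (Q v) = ENNReal.ofReal (1 / (N : ℝ)) ^ g := by
    intro v
    have : volume (Q v) = ∏ j : Fin g, ENNReal.ofReal ((((v j : ℝ) + 1) / N) - ((v j : ℝ) / N)) :=
      Real.volume_pi_Ico
    rw [this]
    have h2 : ∀ j : Fin g, (((v j : ℝ) + 1) / N) - ((v j : ℝ) / N) = 1 / (N : ℝ) := by
      intro j; ring
    simp only [h2, Finset.prod_const, Finset.card_univ, Fintype.card_fin]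
  have hmeas : ∀ v, MeasurableSet (Q v) := fun v =>
    MeasurableSet.univ_pi (fun j => measurableSet_Ico)
  have hfl : ∀ v, ∀ y ∈ Q v, ∀ j, ⌊(N : ℝ) * y j⌋ = v j := by
    intro v y hy j
    have h := hy j (Set.mem_univ j)
    have h1 : (v j : ℝ) ≤ N * y j := by
      have := (div_le_iff₀ hNpos).1 h.1
      linarith
    have h2 : (N : ℝ) * y j < v j + 1 := by
      have := (lt_div_iff₀ hNpos).1 h.2
      linarith
    exact Int.floor_eq_iff.2 ⟨h1, h2⟩
  have hdisj : (S : Set (Fin g → ℤ)).PairwiseDisjoint Q := by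
    intro v _ w _ hvw
    rw [Function.onFun, Set.disjoint_left]
    intro y hy hy'
    apply hvw
    funext j
    rw [← hfl v y hy j, hfl w y hy' j]
  have hsub : (⋃ v ∈ S, Q v) ⊆ Metric.cthickening ((C + 1) / (N : ℝ)) K := by
    intro y hy
    simp only [Set.mem_iUnion] at hy
    obtain ⟨v, hv, hy⟩ := hy
    have hv' : ∃ x ∈ K, ∀ j, |(v j : ℝ) - N * x j| ≤ C := by
      have := (Set.Finite.mem_toFinset hfin).1 hv
      exact this
    obtain ⟨x, hx, hxv⟩ := hv'
    refine Metric.mem_cthickening_of_dist_le y x _ K hx ?_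
    have hpos : 0 ≤ (C + 1) / (N : ℝ) := by positivity
    rw [dist_pi_le_iff hpos]
    intro j
    have h := hy j (Set.mem_univ j)
    have h1 : (v j : ℝ) ≤ y j * N := (div_le_iff₀ hNpos).1 h.1
    have h2 : y j * N < v j + 1 := (lt_div_iff₀ hNpos).1 h.2
    have h3 := abs_le.1 (hxv j)
    rw [Real.dist_eq, le_div_iff₀ hNpos]
    have h4 : |y j - x j| * N = |(y j - x j) * N| := by
      rw [abs_mul, abs_of_pos hNpos]
    rw [h4, abs_le]
    constructor <;> nlinarith [h3.1, h3.2]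
  have hle : (S.card : ENNReal) * ENNReal.ofReal (1 / (N : ℝ)) ^ g ≤ volume K + ENNReal.ofReal ε := by
    have h1 : volume (⋃ v ∈ S, Q v) = ∑ v ∈ S, volume (Q v) :=
      measure_biUnion_finset hdisj (fun v _ => hmeas v)
    have h2 : ∑ v ∈ S, volume (Q v) = (S.card : ENNReal) * ENNReal.ofReal (1 / (N : ℝ)) ^ g := by
      rw [Finset.sum_congr rfl (fun v _ => hvol v), Finset.sum_const, nsmul_eq_mul]
    rw [← h2, ← h1]
    exact le_trans (measure_mono hsub) hN.le
  have hne : volume K + ENNReal.ofReal ε ≠ ⊤ := ENNReal.add_ne_top.2 ⟨hKf.ne, ENNReal.ofReal_ne_top⟩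
  have hreal := ENNReal.toReal_mono hne hle
  rw [ENNReal.toReal_mul, ENNReal.toReal_natCast, ENNReal.toReal_pow,
    ENNReal.toReal_ofReal (by positivity), ENNReal.toReal_add hKf.ne ENNReal.ofReal_ne_top,
    ENNReal.toReal_ofReal hε.le] at hreal
  have hNg : (0 : ℝ) < (N : ℝ) ^ g := pow_pos hNpos g
  have h5 : (S.card : ℝ) * (1 / (N : ℝ)) ^ g * (N : ℝ) ^ g = S.card := by
    rw [mul_assoc, ← mul_pow, one_div, inv_mul_cancel₀ hNpos.ne', one_pow, mul_one]
  calc (S.card : ℝ) = (S.card : ℝ) * (1 / (N : ℝ)) ^ g * (N : ℝ) ^ g := h5.symm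
    _ ≤ ((volume K).toReal + ε) * (N : ℝ) ^ g := mul_le_mul_of_nonneg_right hreal hNg.le

end Pool.Agent.Helper11.SP
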