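import Pool.Agent.Helper11.SP.RealVal

/-!
SP-26. `Om g` is open.

Proof. Let `x0 = ee t0 ∈ Om g`.  As in `RootsNear.lean` (same argument with `HC 1 x` instead of `PP N v`): choose `η' > 0` smaller than
`2 - |t0 j|` and `|t0 i - t0 j| / 2`; with `a_j = t0 j - η'`, `b_j = t0 j + η'`, `A_j = arccos (a_j/2)`, `B_j = arccos (b_j/2)`
the numbers `hr 1 x0 A_j`, `hr 1 x0 B_j` are nonzero of opposite signs (`hr_ee`).  If `x` is close enough to `x0` the same holds for
`hr 1 x` (`hr_lip`), so there is `θ_j ∈ (B_j, A_j)` with `hr 1 x θ_j = 0` (`hr_continuous`, intermediate value theorem), i.e.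
`e^{iθ_j}` is a root of `HC 1 x` (`HC_exp`).  With `t j = 2 cos θ_j` (distinct, `|t j| < 2`) the quadratics `X² - t_j X + 1` divide `HC 1 x`
(`Polynomial.quadratic_dvd_of_aeval_eq_zero_im_ne_zero`), are pairwise coprime, so their product `HC 1 (ee t)` divides `HC 1 x`;
both are monic of degree `2 g` (`HC_monic`), hence equal, and `x = ee t` by comparing coefficients (`HC_coeff`, `hc_mid`).
-/

open Polynomial

namespace Pool.Agent.Helper11.SP

private lemma hr_cont_param {g : ℕ} (θ : ℝ) : Continuous (fun x : Fin g → ℝ => hr 1 x θ) := by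
  unfold hr
  exact continuous_finsetSum _ (fun k _ => (hc_continuous 1 k).mul continuous_const)

private lemma quad_coprime (s t : ℝ) (h : s ≠ t) :
    IsCoprime (X ^ 2 - C s * X + 1 : ℝ[X]) (X ^ 2 - C t * X + 1) := by
  have hne : t - s ≠ 0 := sub_ne_zero.2 (Ne.symm h)
  refine ⟨1 - C (1 / (t - s)) * (X - C s), C (1 / (t - s)) * (X - C s), ?_⟩
  have hc : C (1 / (t - s)) * (C t - C s) = (1 : ℝ[X]) := by
    rw [← C_sub, ← C_mul, one_div, inv_mul_cancel₀ hne, C_1]
  linear_combination (-(X - C s) * X) * hc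

theorem Om_open (g : ℕ) (hg : 1 ≤ g) : IsOpen (Om g) := by
  rw [isOpen_iff_mem_nhds]
  rintro x0 ⟨t0, hinj, ht0, rfl⟩
  -- the small number
  obtain ⟨η, hη0, hη1, hη2⟩ : ∃ η : ℝ, 0 < η ∧ (∀ j, η < 2 - |t0 j|) ∧
      ∀ i j, i ≠ j → 2 * η < |t0 i - t0 j| := by
    have h1 : ∀ᶠ η in nhdsWithin (0 : ℝ) (Set.Ioi 0), ∀ j, η < 2 - |t0 j| :=
      Filter.eventually_all.2 fun j => nhdsWithin_le_nhds (eventually_lt_nhds (sub_pos.2 (ht0 j)))
    have h2 : ∀ᶠ η in nhdsWithin (0 : ℝ) (Set.Ioi 0), ∀ i j, i ≠ j → 2 * η < |t0 i - t0 j| := by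
      refine Filter.eventually_all.2 fun i => Filter.eventually_all.2 fun j => ?_
      by_cases hij : i = j
      · exact Filter.Eventually.of_forall fun η h => absurd hij h
      · have hpos : (0 : ℝ) < |t0 i - t0 j| / 2 :=
          half_pos (abs_pos.2 (sub_ne_zero.2 fun h => hij (hinj h)))
        have := nhdsWithin_le_nhds (s := Set.Ioi (0 : ℝ)) (eventually_lt_nhds hpos)
        filter_upwards [this] with η hη _
        linarith
    have h3 : ∀ᶠ η in nhdsWithin (0 : ℝ) (Set.Ioi 0), (0 : ℝ) < η := self_mem_nhdsWithin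
    obtain ⟨η, ha, hb, hc⟩ := (h3.and (h1.and h2)).exists
    exact ⟨η, ha, hb, hc⟩
  set A : Fin g → ℝ := fun j => Real.arccos ((t0 j - η) / 2) with hA
  set B : Fin g → ℝ := fun j => Real.arccos ((t0 j + η) / 2) with hB
  have habs : ∀ j, -2 < t0 j - η ∧ t0 j + η < 2 := by
    intro j
    have h := hη1 j
    have h1 := abs_lt.1 (ht0 j)
    constructor
    · have := neg_abs_le (t0 j); linarith
    · have := le_abs_self (t0 j); linarith
  have hcosA : ∀ j, 2 * Real.cos (A j) = t0 j - η := by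
    intro j
    have h := habs j
    rw [hA]
    simp only
    rw [Real.cos_arccos (by linarith) (by linarith)]
    ring
  have hcosB : ∀ j, 2 * Real.cos (B j) = t0 j + η := by
    intro j
    have h := habs j
    rw [hB]
    simp only
    rw [Real.cos_arccos (by linarith) (by linarith)]
    ring
  have hBA : ∀ j, B j ≤ A j := by
    intro j
    exact Real.antitone_arccos (by linarith)
  have hsign : ∀ j, hr 1 (ee t0) (B j) * hr 1 (ee t0) (A j) < 0 := by
    intro j
    rw [hr_ee hg, hr_ee hg, ← Finset.prod_mul_distrib, hcosA, hcosB,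
      ← Finset.mul_prod_erase Finset.univ _ (Finset.mem_univ j)]
    have h1 : (t0 j + η - t0 j) * (t0 j - η - t0 j) < 0 := by nlinarith
    have h2 : 0 < ∏ i ∈ Finset.univ.erase j, (t0 j + η - t0 i) * (t0 j - η - t0 i) := by
      refine Finset.prod_pos fun i hi => ?_
      have hij : j ≠ i := fun h => (Finset.mem_erase.1 hi).1 h.symm
      have h3 := hη2 j i hij
      have h4 : (2 * η) ^ 2 < |t0 j - t0 i| ^ 2 := by
        apply pow_lt_pow_left₀ h3 (by linarith) (by norm_num)
      rw [sq_abs] at h4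
      nlinarith
    exact mul_neg_of_neg_of_pos h1 h2
  have hev : ∀ᶠ x in nhds (ee t0), ∀ j, hr 1 x (B j) * hr 1 x (A j) < 0 := by
    refine Filter.eventually_all.2 fun j => ?_
    have hc : Continuous (fun x : Fin g → ℝ => hr 1 x (B j) * hr 1 x (A j)) :=
      (hr_cont_param (B j)).mul (hr_cont_param (A j))
    exact (hc.tendsto (ee t0)).eventually (eventually_lt_nhds (hsign j))
  filter_upwards [hev] with x hx
  -- the roots
  have hroot : ∀ j, ∃ θ, B j ≤ θ ∧ θ ≤ A j ∧ hr 1 x θ = 0 := by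
    intro j
    have h0 : (0 : ℝ) ∈ Set.uIcc (hr 1 x (B j)) (hr 1 x (A j)) := by
      rw [Set.mem_uIcc]
      rcases mul_neg_iff.1 (hx j) with h | h
      · exact Or.inr ⟨h.2.le, h.1.le⟩
      · exact Or.inl ⟨h.1.le, h.2.le⟩
    obtain ⟨θ, hθ, hθ0⟩ := intermediate_value_uIcc (hr_continuous 1 x).continuousOn h0
    rw [Set.uIcc_of_le (hBA j)] at hθ
    exact ⟨θ, hθ.1, hθ.2, hθ0⟩
  choose θ hθ1 hθ2 hθ3 using hroot
  set t : Fin g → ℝ := fun j => 2 * Real.cos (θ j) with ht
  have hB0 : ∀ j, 0 ≤ B j := fun j => Real.arccos_nonneg _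
  have hApi : ∀ j, A j ≤ Real.pi := fun j => Real.arccos_le_pi _
  have htlow : ∀ j, t0 j - η ≤ t j := by
    intro j
    rw [← hcosA j]
    have := Real.cos_le_cos_of_nonneg_of_le_pi (le_trans (hB0 j) (hθ1 j)) (hApi j) (hθ2 j)
    simp only [ht]
    linarith
  have htup : ∀ j, t j ≤ t0 j + η := by
    intro j
    rw [← hcosB j]
    have := Real.cos_le_cos_of_nonneg_of_le_pi (hB0 j) (le_trans (hθ2 j) (hApi j)) (hθ1 j)
    simp only [ht]
    linarith
  have htabs : ∀ j, |t j| < 2 := by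
    intro j
    rw [abs_lt]
    exact ⟨by linarith [htlow j, (habs j).1], by linarith [htup j, (habs j).2]⟩
  have htinj : Function.Injective t := by
    intro i j hij
    by_contra hne
    have h := hη2 i j hne
    have : |t0 i - t0 j| ≤ 2 * η := by
      rw [abs_le]
      constructor <;> linarith [htlow i, htlow j, htup i, htup j]
    linarith
  have hdvd : ∀ j, (X ^ 2 - C (t j) * X + 1 : ℝ[X]) ∣ HC 1 x := by
    intro j
    have hz0 : aeval (Complex.exp ((θ j : ℂ) * Complex.I)) (HC 1 x) = 0 := by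
      rw [HC_exp hg, hθ3 j]
      simp
    have him : (Complex.exp ((θ j : ℂ) * Complex.I)).im = Real.sin (θ j) := Complex.exp_ofReal_mul_I_im _
    have hre : (Complex.exp ((θ j : ℂ) * Complex.I)).re = Real.cos (θ j) := Complex.exp_ofReal_mul_I_re _
    have hsin : Real.sin (θ j) ≠ 0 := by
      intro h
      have h1 := Real.sin_sq_add_cos_sq (θ j)
      rw [h] at h1
      have h2 := abs_lt.1 (htabs j)
      simp only [ht] at h2
      nlinarith
    have h := Polynomial.quadratic_dvd_of_aeval_eq_zero_im_ne_zero (HC 1 x) hz0 (by rw [him]; exact hsin)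
    rw [hre, Complex.norm_exp_ofReal_mul_I, one_pow, C_1] at h
    exact h
  have hprod : (∏ j, (X ^ 2 - C (t j) * X + 1) : ℝ[X]) ∣ HC 1 x := by
    refine Finset.prod_dvd_of_coprime ?_ (fun j _ => hdvd j)
    intro i _ j _ hij
    exact quad_coprime _ _ fun h => hij (htinj h)
  rw [ee_prod hg] at hprod
  have hmon := HC_monic hg (ee t)
  have hmon' := HC_monic hg x
  have heq : HC 1 (ee t) = HC 1 x :=
    (Polynomial.eq_of_monic_of_dvd_of_natDegree_le hmon.1 hmon'.1 hprod (by rw [hmon.2, hmon'.2])).symm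
  refine ⟨t, htinj, htabs, ?_⟩
  funext j
  rw [← hc_mid 1 (ee t) j, ← HC_coeff, heq, HC_coeff, hc_mid]

end Pool.Agent.Helper11.SP
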