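import Pool.Agent.Helper11.SP.EeProd

/-!
SP-07. Factorisation from the roots.

Proof. The quadratics `X² - t_j X + 1` are pairwise coprime for distinct `t_j`: a common divisor divides the
difference `(t_i - t_j) X`, hence (unit times) `X`, and `X` is coprime to the quadratic (constant term `1`); explicitly
`IsCoprime (X²-aX+1) (X²-bX+1)` for `a ≠ b`.  So their product `HC 1 (ee t)` (`ee_prod`) divides
`P = (PP N v).map _` (`Finset.prod_dvd_of_coprime` or `Finset.prod_dvd_of_isRelPrime`): `P = HC 1 (ee t) * Q`, `Q` monic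
of degree `2` (`PP_monic`, `HC_monic`), constant coefficient `1` (`PP_coeff_zero`, `hc_zero`, `mul_coeff_zero`),
so `Q = X² - s X + 1` with `s = - Q.coeff 1`.
Coefficient of `X` in `P = (X² - s X + 1) * HC 1 (ee t)`: `- N = ee t 0 - s` (`PP_coeff_succ` with `k = 0`,
`hc_zero`, `hc_mid` with `j = 0`), and `|ee t 0| ≤ 4^g` (`ee_bound`).
`bounds`: coefficient of `X^{j+2}`, `j : Fin g` (so `j + 1 ≤ g`): `- v j = hc (j) - s * ee t j + hc (j+2)` where `hc k = hc 1 (ee t) k`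
(`PP_coeff_succ` with `k = j+1`, `hc_mid`).  With `s = N + ee t 0`:
`v j - N * ee t j = ee t 0 * ee t j - hc j - hc (j+2)`, of absolute value at most `16^g + 2 * 4^g ≤ 3 * 16^g`.
-/

open Polynomial

namespace Pool.Agent.Helper11.SP

private lemma quad_coprime (a b : ℝ) (h : a ≠ b) :
    IsCoprime (X ^ 2 - C a * X + 1 : ℝ[X]) (X ^ 2 - C b * X + 1) := by
  have hab : a - b ≠ 0 := sub_ne_zero.2 h
  have hC : (C (a - b)⁻¹ : ℝ[X]) * (C a - C b) = 1 := by
    rw [← C_sub, ← C_mul, inv_mul_cancel₀ hab, C_1]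
  refine ⟨1 + C (a - b)⁻¹ * (X - C a), -(C (a - b)⁻¹ * (X - C a)), ?_⟩
  linear_combination (-(X * (X - C a)) : ℝ[X]) * hC

private lemma quad_mul_coeff (s : ℝ) (H : ℝ[X]) (n : ℕ) :
    ((X ^ 2 - C s * X + 1) * H).coeff (n + 2) = H.coeff n - s * H.coeff (n + 1) + H.coeff (n + 2) := by
  have h : (X ^ 2 - C s * X + 1) * H = X * (X * H) - C s * (X * H) + H := by ring
  rw [h, coeff_add, coeff_sub, coeff_C_mul, coeff_X_mul, coeff_X_mul, coeff_X_mul]

private lemma quad_mul_coeff_one (s : ℝ) (H : ℝ[X]) :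
    ((X ^ 2 - C s * X + 1) * H).coeff 1 = H.coeff 1 - s * H.coeff 0 := by
  have h : (X ^ 2 - C s * X + 1) * H = X * (X * H) - C s * (X * H) + H := by ring
  rw [h, coeff_add, coeff_sub, coeff_C_mul, coeff_X_mul, coeff_X_mul, coeff_X_mul_zero]
  ring

theorem bounds {g : ℕ} (hg : 1 ≤ g) (t : Fin g → ℝ) (ht : ∀ j, |t j| ≤ 2) (N : ℤ) (v : Fin g → ℤ) (s : ℝ)
    (h : (PP N v).map (Int.castRingHom ℝ) = (X ^ 2 - C s * X + 1) * HC 1 (ee t)) :
    |s - N| ≤ 4 ^ g ∧ ∀ j, |(v j : ℝ) - N * ee t j| ≤ 3 * 16 ^ g := by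
  have h1 : - (N : ℝ) = hc 1 (ee t) 1 - s := by
    have h2 := congrArg (fun q => q.coeff 1) h
    simp only [quad_mul_coeff_one, coeff_map, HC_coeff, hc_zero] at h2
    have h3 := PP_coeff_succ N v 0 (by omega)
    rw [zero_add, hc_zero] at h3
    rw [h3] at h2
    simpa using h2
  have h4 : s - N = hc 1 (ee t) 1 := by linarith
  have h5 : |s - N| ≤ 4 ^ g := by
    rw [h4]
    exact coeff_bound hg t ht 1
  refine ⟨h5, fun j => ?_⟩
  have h6 : - (v j : ℝ) = hc 1 (ee t) j - s * ee t j + hc 1 (ee t) (j + 2) := by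
    have h2 := congrArg (fun q => q.coeff ((j : ℕ) + 2)) h
    simp only [quad_mul_coeff, coeff_map, HC_coeff, hc_mid] at h2
    have h3 := PP_coeff_succ N v (j + 1) (by omega)
    rw [hc_mid] at h3
    have h7 : (j : ℕ) + 1 + 1 = j + 2 := by ring
    rw [h7] at h3
    rw [h3] at h2
    simpa using h2
  have h8 : (v j : ℝ) - N * ee t j = (s - N) * ee t j - hc 1 (ee t) j - hc 1 (ee t) (j + 2) := by
    linear_combination -h6
  rw [h8]
  have h9 := ee_bound hg t ht j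
  have h10 := coeff_bound hg t ht j
  have h11 := coeff_bound hg t ht (j + 2)
  have h12 : |(s - N) * ee t j| ≤ 16 ^ g := by
    rw [abs_mul]
    calc |s - N| * |ee t j| ≤ 4 ^ g * 4 ^ g := mul_le_mul h5 h9 (abs_nonneg _) (by positivity)
      _ = 16 ^ g := by rw [← mul_pow]; norm_num
  have h13 : (4 : ℝ) ^ g ≤ 16 ^ g := pow_le_pow_left₀ (by norm_num) (by norm_num) g
  calc |(s - N) * ee t j - hc 1 (ee t) j - hc 1 (ee t) (j + 2)|
      ≤ |(s - N) * ee t j| + |hc 1 (ee t) j| + |hc 1 (ee t) (j + 2)| := by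
        refine (abs_sub _ _).trans ?_
        gcongr
        exact abs_sub _ _
    _ ≤ 16 ^ g + 16 ^ g + 16 ^ g := by linarith
    _ = 3 * 16 ^ g := by ring

theorem factor {g : ℕ} (hg : 1 ≤ g) (t : Fin g → ℝ) (hinj : Function.Injective t) (ht : ∀ j, |t j| < 2)
    (N : ℤ) (v : Fin g → ℤ)
    (hd : ∀ j, (X ^ 2 - C (t j) * X + 1 : ℝ[X]) ∣ (PP N v).map (Int.castRingHom ℝ)) :
    ∃ s : ℝ, (PP N v).map (Int.castRingHom ℝ) = (X ^ 2 - C s * X + 1) * HC 1 (ee t) ∧ |s - N| ≤ 4 ^ g := by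
  have hdvd : HC 1 (ee t) ∣ (PP N v).map (Int.castRingHom ℝ) := by
    rw [← ee_prod hg t]
    refine Finset.prod_dvd_of_coprime ?_ fun i _ => hd i
    intro i _ j _ hij
    exact quad_coprime _ _ fun h => hij (hinj h)
  obtain ⟨Q, hQ⟩ := hdvd
  have hPm : ((PP N v).map (Int.castRingHom ℝ)).Monic := (PP_monic N v).1.map _
  have hPd : ((PP N v).map (Int.castRingHom ℝ)).natDegree = 2 * g + 2 := by
    rw [(PP_monic N v).1.natDegree_map, (PP_monic N v).2]
  obtain ⟨hHm, hHd⟩ := HC_monic hg (ee t)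
  have hQm : Q.Monic := by
    rw [hQ] at hPm
    exact hHm.of_mul_monic_left hPm
  have hQd : Q.natDegree = 2 := by
    rw [hQ, hHm.natDegree_mul hQm, hHd] at hPd
    omega
  have hQ0 : Q.coeff 0 = 1 := by
    have h2 := congrArg (fun q => q.coeff 0) hQ
    simp only [mul_coeff_zero, coeff_map, HC_coeff, hc_zero, PP_coeff_zero] at h2
    simpa using h2.symm
  have hQ2 : Q.coeff 2 = 1 := by
    have := hQm.coeff_natDegree
    rwa [hQd] at this
  have hQe : Q = X ^ 2 - C (-Q.coeff 1) * X + 1 := by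
    have h2 := Q.as_sum_range_C_mul_X_pow
    rw [hQd, Finset.sum_range_succ, Finset.sum_range_succ, Finset.sum_range_one, hQ0, hQ2] at h2
    rw [C_neg]
    conv_lhs => rw [h2]
    simp only [C_1, pow_zero, pow_one]
    ring
  refine ⟨-Q.coeff 1, ?_, ?_⟩
  · rw [← hQe, mul_comm]
    exact hQ
  · refine (bounds hg t (fun j => (ht j).le) N v (-Q.coeff 1) ?_).1
    rw [← hQe, mul_comm]
    exact hQ

end Pool.Agent.Helper11.SP
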