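import Pool.Agent.Helper11.SP.EeProd

/-!
SP-11. Structure of the minimal polynomial of a Salem number of degree `2 g + 2`.

Proof. `(upper β).card = g` by `Helper3.natDegree_eq`; `Helper3.minpoly_real` gives
`(minpoly ℤ β).map = (X² - C (β + 1/β) X + 1) * Rpoly g (pt β g _)` and `Rpoly g t = ∏ (X² - C (2 Re (fourier 1 (t i))) X + 1)`
is `HC 1 (ee t')` with `t' i = 2 Re (...)`, `|t' i| ≤ 2` (`‖fourier‖ = 1`), by `ee_prod`.
`Helper3.minpoly_pal` (with `2*M+2-i`) and `exists_PP` give `minpoly ℤ β = PP N v`.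
-/

open Polynomial

namespace Pool.Agent.Helper11.SP

theorem struct {g : ℕ} (hg : 1 ≤ g) (β : ℝ) (hβ : Helper3.IsSalem β) (hd : (minpoly ℤ β).natDegree = 2 * g + 2) :
    ∃ (N : ℤ) (v : Fin g → ℤ) (t : Fin g → ℝ), minpoly ℤ β = PP N v ∧ (∀ j, |t j| ≤ 2) ∧
      (PP N v).map (Int.castRingHom ℝ) = (X ^ 2 - C (β + 1 / β) * X + 1) * HC 1 (ee t) := by
  have hM : (Helper3.upper β).card = g := by
    have h1 := Helper3.natDegree_eq hβ
    rw [hd] at h1
    omega
  obtain ⟨N, v, hPP⟩ := exists_PP hg (minpoly ℤ β) (minpoly.monic hβ.2.1) hd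
    (fun k hk => Helper3.minpoly_pal hβ g hM k hk)
  refine ⟨N, v, fun i => 2 * (fourier 1 (Helper3.pt β g hM i)).re, hPP, ?_, ?_⟩
  · intro j
    have h1 : |(fourier 1 (Helper3.pt β g hM j)).re| ≤ ‖fourier 1 (Helper3.pt β g hM j)‖ :=
      Complex.abs_re_le_norm _
    have h2 : ‖fourier 1 (Helper3.pt β g hM j)‖ = 1 := by
      rw [fourier_apply]
      exact Circle.norm_coe _
    rw [h2] at h1
    rw [abs_mul, abs_two]
    linarith
  · rw [← hPP, Helper3.minpoly_real hβ g hM, ← ee_prod hg]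
    rfl

/-- A Salem number is determined by its minimal polynomial. -/
theorem salem_inj (β γ : ℝ) (hβ : Helper3.IsSalem β) (hγ : Helper3.IsSalem γ) (h : minpoly ℤ β = minpoly ℤ γ) :
    β = γ := by
  have h1 : aeval (γ : ℂ) (minpoly ℤ β) = 0 := by rw [h]; exact Helper3.self_root γ
  have h2 : (γ : ℂ) = β := Helper3.eq_of_norm hβ h1 (by rw [Helper3.norm_beta hγ]; exact hγ.1)
  exact_mod_cast h2.symm

end Pool.Agent.Helper11.SP
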