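import Pool.Agent.Helper11.SP.Defs

/-!
SP-17. Asymptotics of the sums over `N`.

Proof. `∑_{N=1}^{Y} N^g` lies between `Y^(g+1)/(g+1)` and `Y^(g+1)/(g+1) + Y^g` for natural numbers `Y` (induction on `Y`; from
`(Y+1)^(g+1) - Y^(g+1) = ∑ choose (g+1) k Y^k`: `(g+1) Y^g ≤ (Y+1)^(g+1) - Y^(g+1) ≤ (g+1) (Y+1)^g`, e.g. by the mean value theorem
or by Bernoulli `one_add_mul_le_pow`).
`sum_low`: with `Y = ⌊X - c⌋₊`, the sum over `N0 ≤ N ≤ Y` is at least `w Y^(g+1)/(g+1) - w N0^(g+1) - C Y^g`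
(`N^(g-1) ≤ Y^(g-1)`, at most `Y` terms), and `Y ≥ X - c - 1`; divide by `X^(g+1)` and let `X → ∞`.
`sum_up` is similar with `Y = ⌊X + c⌋₊ ≤ X + c`.
-/

open Filter

namespace Pool.Agent.Helper11.SP

lemma pow_diff_bounds (g N : ℕ) :
    ((g : ℝ) + 1) * (N : ℝ) ^ g ≤ ((N : ℝ) + 1) ^ (g + 1) - (N : ℝ) ^ (g + 1) ∧
      ((N : ℝ) + 1) ^ (g + 1) - (N : ℝ) ^ (g + 1) ≤ ((g : ℝ) + 1) * ((N : ℝ) + 1) ^ g := by
  have hN : (0 : ℝ) ≤ N := Nat.cast_nonneg N
  have h := (Commute.all ((N : ℝ) + 1) (N : ℝ)).geom_sum₂_mul (g + 1)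
  have h1 : ((N : ℝ) + 1) ^ (g + 1) - (N : ℝ) ^ (g + 1) =
      ∑ i ∈ Finset.range (g + 1), ((N : ℝ) + 1) ^ i * (N : ℝ) ^ (g + 1 - 1 - i) := by
    rw [← h]; ring
  rw [h1]
  have hc : (((Finset.range (g + 1)).card : ℕ) : ℝ) = (g : ℝ) + 1 := by
    rw [Finset.card_range]; push_cast; ring
  constructor
  · rw [← hc, ← nsmul_eq_mul]
    apply Finset.card_nsmul_le_sum
    intro i hi
    have hi' : i ≤ g := by rw [Finset.mem_range] at hi; omega
    calc (N : ℝ) ^ g = (N : ℝ) ^ i * (N : ℝ) ^ (g + 1 - 1 - i) := by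
          rw [← pow_add]; congr 1; omega
      _ ≤ ((N : ℝ) + 1) ^ i * (N : ℝ) ^ (g + 1 - 1 - i) := by
          gcongr
          linarith
  · rw [← hc, ← nsmul_eq_mul]
    apply Finset.sum_le_card_nsmul
    intro i hi
    have hi' : i ≤ g := by rw [Finset.mem_range] at hi; omega
    calc ((N : ℝ) + 1) ^ i * (N : ℝ) ^ (g + 1 - 1 - i)
        ≤ ((N : ℝ) + 1) ^ i * ((N : ℝ) + 1) ^ (g + 1 - 1 - i) := by
          gcongr
          linarith
      _ = ((N : ℝ) + 1) ^ g := by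
          rw [← pow_add]; congr 1; omega

lemma sum_pow_ge (g Y : ℕ) :
    (Y : ℝ) ^ (g + 1) / (g + 1) ≤ ∑ N ∈ Finset.range (Y + 1), (N : ℝ) ^ g := by
  have hg : (0 : ℝ) < (g : ℝ) + 1 := by positivity
  induction Y with
  | zero => simp
  | succ Y ih =>
    rw [Finset.sum_range_succ]
    have h := (pow_diff_bounds g Y).2
    have h2 : ((Y : ℝ) + 1) ^ (g + 1) / (g + 1) ≤ (Y : ℝ) ^ (g + 1) / (g + 1) + ((Y : ℝ) + 1) ^ g := by
      rw [div_add' _ _ _ hg.ne']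
      apply div_le_div_of_nonneg_right _ hg.le
      linarith
    push_cast
    linarith

lemma sum_pow_le (g Y : ℕ) :
    ∑ N ∈ Finset.range Y, (N : ℝ) ^ g ≤ (Y : ℝ) ^ (g + 1) / (g + 1) := by
  have hg : (0 : ℝ) < (g : ℝ) + 1 := by positivity
  induction Y with
  | zero => simp
  | succ Y ih =>
    rw [Finset.sum_range_succ]
    have h := (pow_diff_bounds g Y).1
    have h2 : (Y : ℝ) ^ (g + 1) / (g + 1) + (Y : ℝ) ^ g ≤ ((Y : ℝ) + 1) ^ (g + 1) / (g + 1) := by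
      rw [div_add' _ _ _ hg.ne']
      apply div_le_div_of_nonneg_right _ hg.le
      linarith
    push_cast
    linarith

lemma tendsto_ratio (a : ℝ) (k : ℕ) :
    Tendsto (fun X : ℝ => (1 + a / X) ^ k) atTop (nhds 1) := by
  have h : Tendsto (fun X : ℝ => 1 + a / X) atTop (nhds (1 + 0)) :=
    tendsto_const_nhds.add (tendsto_const_nhds.div_atTop tendsto_id)
  have h2 := h.pow k
  simpa using h2

theorem sum_low (g : ℕ) (hg : 1 ≤ g) (w C c ε : ℝ) (hw : 0 ≤ w) (hC : 0 ≤ C) (hε : 0 < ε) (N0 : ℕ) :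
    ∀ᶠ X : ℝ in atTop, (w - ε) / (g + 1) * X ^ (g + 1) ≤
      ∑ N ∈ Finset.Ico N0 (⌊X - c⌋₊ + 1), (w * (N : ℝ) ^ g - C * (N : ℝ) ^ (g - 1)) := by
  have hg0 : (0 : ℝ) < (g : ℝ) + 1 := by positivity
  set S0 : ℝ := ∑ N ∈ Finset.range N0, (N : ℝ) ^ g with hS0
  -- the limit
  have hlim : Tendsto (fun X : ℝ => w / (g + 1) * (1 + (-c - 1) / X) ^ (g + 1) - w * S0 / X ^ (g + 1)
      - C * (1 + (1 - c) / X) ^ g / X) atTop (nhds (w / (g + 1) * 1 - 0 - 0)) := by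
    refine ((tendsto_const_nhds.mul (tendsto_ratio _ _)).sub ?_).sub ?_
    · exact tendsto_const_nhds.div_atTop (tendsto_pow_atTop (by omega))
    · exact ((tendsto_const_nhds (x := C)).mul (tendsto_ratio (1 - c) g)).div_atTop tendsto_id
  have hlt : (w - ε) / (g + 1) < w / (g + 1) * 1 - 0 - 0 := by
    rw [mul_one, sub_zero, sub_zero]
    exact div_lt_div_of_pos_right (by linarith) hg0
  have hev := hlim.eventually_const_lt hlt
  filter_upwards [hev, eventually_ge_atTop (max (N0 + 1 + c) (max 1 (c + 1)))] with X hX hX2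
  have hXN : (N0 : ℝ) + 1 + c ≤ X := (le_max_left _ _).trans hX2
  have hX1 : (1 : ℝ) ≤ X := ((le_max_left _ _).trans (le_max_right _ _)).trans hX2
  have hXc : c + 1 ≤ X := ((le_max_right _ _).trans (le_max_right _ _)).trans hX2
  have hX0 : (0 : ℝ) < X := by linarith
  set Y : ℕ := ⌊X - c⌋₊ with hY
  have hY1 : (Y : ℝ) ≤ X - c := Nat.floor_le (by linarith)
  have hY2 : X - c < (Y : ℝ) + 1 := Nat.lt_floor_add_one _
  have hNY : N0 ≤ Y + 1 := by
    have : (N0 : ℝ) < (Y : ℝ) + 1 := by linarith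
    have : N0 < Y + 1 := by exact_mod_cast this
    omega
  -- the sum
  have e1 : ∑ N ∈ Finset.Ico N0 (Y + 1), (w * (N : ℝ) ^ g - C * (N : ℝ) ^ (g - 1)) =
      w * (∑ N ∈ Finset.range (Y + 1), (N : ℝ) ^ g - S0) -
        C * ∑ N ∈ Finset.Ico N0 (Y + 1), (N : ℝ) ^ (g - 1) := by
    rw [Finset.sum_sub_distrib, ← Finset.mul_sum, ← Finset.mul_sum, hS0,
      Finset.sum_Ico_eq_sub _ hNY]
  have e2 : ∑ N ∈ Finset.Ico N0 (Y + 1), (N : ℝ) ^ (g - 1) ≤ (X * (1 + (1 - c) / X)) ^ g := by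
    have hXe : X * (1 + (1 - c) / X) = X - c + 1 := by field_simp; ring
    rw [hXe]
    have hb : ∀ N ∈ Finset.Ico N0 (Y + 1), (N : ℝ) ^ (g - 1) ≤ (X - c + 1) ^ (g - 1) := by
      intro N hN
      rw [Finset.mem_Ico] at hN
      have : (N : ℝ) ≤ Y := by exact_mod_cast (by omega : N ≤ Y)
      exact pow_le_pow_left₀ (Nat.cast_nonneg _) (by linarith) _
    have h1 := Finset.sum_le_card_nsmul _ _ _ hb
    rw [nsmul_eq_mul, Nat.card_Ico] at h1
    refine h1.trans ?_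
    have h2 : (((Y + 1 - N0 : ℕ)) : ℝ) ≤ X - c + 1 := by
      have : ((Y + 1 - N0 : ℕ) : ℝ) ≤ ((Y + 1 : ℕ) : ℝ) := by exact_mod_cast Nat.sub_le _ _
      push_cast at this
      linarith
    calc (((Y + 1 - N0 : ℕ)) : ℝ) * (X - c + 1) ^ (g - 1) ≤ (X - c + 1) * (X - c + 1) ^ (g - 1) := by
          apply mul_le_mul_of_nonneg_right h2
          apply pow_nonneg; linarith
      _ = (X - c + 1) ^ g := by
          rw [← pow_succ']; congr 1; omega
  have e3 : (X * (1 + (-c - 1) / X)) ^ (g + 1) / (g + 1) ≤ ∑ N ∈ Finset.range (Y + 1), (N : ℝ) ^ g := by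
    refine le_trans ?_ (sum_pow_ge g Y)
    have hXe : X * (1 + (-c - 1) / X) = X - c - 1 := by field_simp; ring
    rw [hXe]
    apply div_le_div_of_nonneg_right _ hg0.le
    exact pow_le_pow_left₀ (by linarith) (by linarith) _
  rw [e1]
  have hXp : (0 : ℝ) < X ^ (g + 1) := by positivity
  have h3 : (w - ε) / (g + 1) * X ^ (g + 1) ≤ (w / (g + 1) * (1 + (-c - 1) / X) ^ (g + 1)
      - w * S0 / X ^ (g + 1) - C * (1 + (1 - c) / X) ^ g / X) * X ^ (g + 1) :=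
    mul_le_mul_of_nonneg_right hX.le hXp.le
  refine h3.trans ?_
  have h4 : (w / (g + 1) * (1 + (-c - 1) / X) ^ (g + 1)
      - w * S0 / X ^ (g + 1) - C * (1 + (1 - c) / X) ^ g / X) * X ^ (g + 1) =
      w * ((X * (1 + (-c - 1) / X)) ^ (g + 1) / (g + 1) - S0) - C * (X * (1 + (1 - c) / X)) ^ g := by
    rw [mul_pow, mul_pow]
    have a1 : w * S0 / X ^ (g + 1) * X ^ (g + 1) = w * S0 := by
      rw [div_mul_cancel₀ _ hXp.ne']
    have a2 : C * (1 + (1 - c) / X) ^ g / X * X ^ (g + 1) = C * (X ^ g * (1 + (1 - c) / X) ^ g) := by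
      rw [pow_succ]
      field_simp
    rw [sub_mul, sub_mul, a1, a2]
    ring
  rw [h4]
  have h5 := mul_le_mul_of_nonneg_left e3 hw
  have h6 := mul_le_mul_of_nonneg_left e2 hC
  nlinarith [h5, h6]

theorem sum_up (g : ℕ) (w C c ε : ℝ) (hw : 0 ≤ w) (hε : 0 < ε) :
    ∀ᶠ X : ℝ in atTop,
      C + ∑ N ∈ Finset.range (⌊X + c⌋₊ + 1), w * (N : ℝ) ^ g ≤ (w + ε) / (g + 1) * X ^ (g + 1) := by
  have hg0 : (0 : ℝ) < (g : ℝ) + 1 := by positivity
  have hlim : Tendsto (fun X : ℝ => C / X ^ (g + 1) + w / (g + 1) * (1 + (c + 1) / X) ^ (g + 1))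
      atTop (nhds (0 + w / (g + 1) * 1)) := by
    refine Tendsto.add ?_ (tendsto_const_nhds.mul (tendsto_ratio _ _))
    exact tendsto_const_nhds.div_atTop (tendsto_pow_atTop (by omega))
  have hlt : 0 + w / (g + 1) * 1 < (w + ε) / (g + 1) := by
    rw [mul_one, zero_add]
    exact div_lt_div_of_pos_right (by linarith) hg0
  have hev := hlim.eventually_lt_const hlt
  filter_upwards [hev, eventually_ge_atTop (max 1 (-c))] with X hX hX2
  have hX1 : (1 : ℝ) ≤ X := (le_max_left _ _).trans hX2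
  have hXc : -c ≤ X := (le_max_right _ _).trans hX2
  have hX0 : (0 : ℝ) < X := by linarith
  have hXp : (0 : ℝ) < X ^ (g + 1) := by positivity
  set Y : ℕ := ⌊X + c⌋₊ with hY
  have hY1 : (Y : ℝ) ≤ X + c := Nat.floor_le (by linarith)
  rw [← Finset.mul_sum]
  have e1 : ∑ N ∈ Finset.range (Y + 1), (N : ℝ) ^ g ≤ (X * (1 + (c + 1) / X)) ^ (g + 1) / (g + 1) := by
    refine (sum_pow_le g (Y + 1)).trans ?_
    have hXe : X * (1 + (c + 1) / X) = X + c + 1 := by field_simp; ring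
    rw [hXe]
    apply div_le_div_of_nonneg_right _ hg0.le
    apply pow_le_pow_left₀ (by positivity)
    push_cast
    linarith
  have e2 := mul_le_mul_of_nonneg_left e1 hw
  have h3 : (C / X ^ (g + 1) + w / (g + 1) * (1 + (c + 1) / X) ^ (g + 1)) * X ^ (g + 1) ≤
      (w + ε) / (g + 1) * X ^ (g + 1) := mul_le_mul_of_nonneg_right hX.le hXp.le
  refine le_trans ?_ h3
  have h4 : (C / X ^ (g + 1) + w / (g + 1) * (1 + (c + 1) / X) ^ (g + 1)) * X ^ (g + 1) =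
      C + w * ((X * (1 + (c + 1) / X)) ^ (g + 1) / (g + 1)) := by
    rw [mul_pow, add_mul, div_mul_cancel₀ _ hXp.ne']
    ring
  rw [h4]
  linarith

end Pool.Agent.Helper11.SP
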