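import Pool.Agent.Helper11.SP.CountUp
import Pool.Agent.Helper11.SP.Struct
import Pool.Agent.Helper11.SP.Factor
import Pool.Agent.Helper11.SP.SumAsym

/-!
SP-19. Upper bound for the number of Salem numbers.

Proof. For `β ∈ salemSet (2g+2) X` take `(N, v, t)` from `struct` and `s = β + 1/β`, `2 < s ≤ X + 1`.  By `bounds`
`|s - N| ≤ 4^g` and `v ∈ A_N := {v | ∃ x ∈ OmBar g, ∀ j, |v j - N x j| ≤ 3 * 16^g}` (with `N : ℤ` cast to `ℝ`).
So `2 - 4^g ≤ N ≤ X + 1 + 4^g`.  `β ↦ (N, v)` is injective (`salem_inj`).  Let `ε' = ε/2` and let `N1 ≥ 1` be such that the bound of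
`count_up` (for `K = OmBar g`, compact by `OmBar_compact`) holds for all `N ≥ N1`.  The pairs with `N < N1` are finitely many, at most a
constant `C1` (finitely many `N` in `[2 - 4^g, N1)`, each `A_N` is finite by `count_crude`).  The pairs with `N ≥ N1` number at most
`∑_{N ≤ X + 1 + 4^g} (vol + ε') N^g`.  Conclude with `sum_up` (`w = vol + ε'`, `c = 1 + 4^g`, `ε'`).
-/

open Polynomial MeasureTheory Filter

namespace Pool.Agent.Helper11.SP

theorem up_sum {g : ℕ} (hg : 1 ≤ g) (ε : ℝ) (hε : 0 < ε) :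
    ∀ᶠ X : ℝ in atTop, ((Helper3.salemSet (2 * g + 2) X).ncard : ℝ) ≤
      ((volume (OmBar g)).toReal + ε) / (g + 1) * X ^ (g + 1) := by
  classical
  have hK : IsCompact (OmBar g) := OmBar_compact g
  set V : ℝ := (volume (OmBar g)).toReal with hV
  have hV0 : 0 ≤ V := ENNReal.toReal_nonneg
  set C : ℝ := 3 * 16 ^ g with hC
  have hC0 : 0 ≤ C := by positivity
  have hε2 : 0 < ε / 2 := by linarith
  -- the data of a Salem number
  have hdat : ∀ β : ℝ, ∃ d : ℤ × (Fin g → ℤ),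
      Helper3.IsSalem β → (minpoly ℤ β).natDegree = 2 * g + 2 →
      minpoly ℤ β = PP d.1 d.2 ∧ |β + 1 / β - d.1| ≤ 4 ^ g ∧
        ∃ x ∈ OmBar g, ∀ j, |(d.2 j : ℝ) - d.1 * x j| ≤ C := by
    intro β
    by_cases hβ : Helper3.IsSalem β ∧ (minpoly ℤ β).natDegree = 2 * g + 2
    · obtain ⟨N, v, t, h1, h2, h3⟩ := struct hg β hβ.1 hβ.2
      obtain ⟨h4, h5⟩ := bounds hg t h2 N v _ h3
      exact ⟨(N, v), fun _ _ => ⟨h1, h4, ee t, ⟨t, h2, rfl⟩, h5⟩⟩
    · exact ⟨(0, 0), fun h1 h2 => absurd ⟨h1, h2⟩ hβ⟩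
  choose d hd using hdat
  let A : ℤ → Finset (Fin g → ℤ) := fun N => (count_crude (OmBar g) hK C N).toFinset
  have hA : ∀ N v, v ∈ A N ↔ ∃ x ∈ OmBar g, ∀ j, |(v j : ℝ) - N * x j| ≤ C := by
    intro N v
    simp only [A, Set.Finite.mem_toFinset, Set.mem_setOf_eq]
  obtain ⟨N1, hN1⟩ := eventually_atTop.1 (count_up (OmBar g) hK C hC0 (ε / 2) hε2)
  have hcount : ∀ n : ℕ, N1 ≤ n → (((A (n : ℤ)).card : ℕ) : ℝ) ≤ (V + ε / 2) * (n : ℝ) ^ g := by
    intro n hn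
    have h1 := (hN1 n hn).2
    have h2 : (A (n : ℤ)).card =
        {v : Fin g → ℤ | ∃ x ∈ OmBar g, ∀ j, |(v j : ℝ) - (n : ℝ) * x j| ≤ C}.ncard := by
      rw [← Set.ncard_coe_finset]
      congr 1
      ext v
      simp only [Finset.mem_coe, hA, Set.mem_setOf_eq, Int.cast_natCast]
    rw [h2]
    exact h1
  set lo : ℤ := 2 - 4 ^ g with hlo
  set S1 : Finset (Σ _ : ℤ, (Fin g → ℤ)) := (Finset.Ico lo (N1 : ℤ)).sigma A with hS1
  have hsum := sum_up g (V + ε / 2) (S1.card : ℝ) (1 + 4 ^ g) (ε / 2) (by positivity) hε2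
  filter_upwards [hsum] with X hX
  -- split the set of Salem numbers
  set S : Set ℝ := Helper3.salemSet (2 * g + 2) X with hS
  have hSb : ∀ β ∈ S, lo ≤ (d β).1 ∧ ((d β).1 : ℝ) ≤ X + (1 + 4 ^ g) ∧ (d β).2 ∈ A (d β).1 := by
    intro β hβ
    obtain ⟨hβ1, hβ2, hβ3⟩ := hβ
    obtain ⟨-, h2, h3⟩ := hd β hβ1 hβ2
    have hβgt : 1 < β := hβ1.1
    have hinv : 1 / β < 1 := by
      rw [div_lt_one (by linarith)]
      exact hβgt
    have hinv0 : 0 < 1 / β := by positivity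
    have hs2 : 2 < β + 1 / β := by
      have : 0 < (β - 1) ^ 2 / β := div_pos (pow_pos (by linarith) 2) (by linarith)
      have e : (β - 1) ^ 2 / β = β + 1 / β - 2 := by
        field_simp
        ring
      linarith
    rw [abs_le] at h2
    refine ⟨?_, by linarith [h2.1], (hA _ _).2 h3⟩
    have : ((lo : ℤ) : ℝ) ≤ ((d β).1 : ℝ) := by
      rw [hlo]
      push_cast
      linarith [h2.2]
    exact_mod_cast this
  have hinj : ∀ β ∈ S, ∀ γ ∈ S, d β = d γ → β = γ := by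
    intro β hβ γ hγ h
    apply salem_inj β γ hβ.1 hγ.1
    rw [(hd β hβ.1 hβ.2.1).1, (hd γ hγ.1 hγ.2.1).1, h]
  set Sa : Set ℝ := S ∩ {β | (d β).1 < N1} with hSa
  set Sb : Set ℝ := S ∩ {β | (N1 : ℤ) ≤ (d β).1} with hSbdef
  have hSun : S = Sa ∪ Sb := by
    ext β
    simp only [hSa, hSbdef, Set.mem_union, Set.mem_inter_iff, Set.mem_setOf_eq]
    constructor
    · intro h
      rcases lt_or_ge (d β).1 (N1 : ℤ) with h1 | h1
      · exact Or.inl ⟨h, h1⟩
      · exact Or.inr ⟨h, h1⟩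
    · rintro (h | h)
      · exact h.1
      · exact h.1
  have hSacard : (Sa.ncard : ℝ) ≤ (S1.card : ℝ) := by
    have : Sa.ncard ≤ (S1 : Set (Σ _ : ℤ, (Fin g → ℤ))).ncard := by
      apply Set.ncard_le_ncard_of_injOn (fun β => (⟨(d β).1, (d β).2⟩ : Σ _ : ℤ, (Fin g → ℤ)))
      · intro β hβ
        obtain ⟨h1, h2⟩ := hβ
        obtain ⟨h3, h4, h5⟩ := hSb β h1
        rw [Finset.mem_coe, hS1, Finset.mem_sigma, Finset.mem_Ico]
        exact ⟨⟨h3, h2⟩, h5⟩
      · intro β hβ γ hγ h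
        simp only [Sigma.mk.injEq, heq_eq_eq] at h
        exact hinj β hβ.1 γ hγ.1 (Prod.ext h.1 h.2)
    rw [Set.ncard_coe_finset] at this
    exact_mod_cast this
  set S2 : Finset (Σ _ : ℕ, (Fin g → ℤ)) :=
    ((Finset.range (⌊X + (1 + 4 ^ g)⌋₊ + 1)).filter fun n => N1 ≤ n).sigma fun n => A (n : ℤ) with hS2
  have hSbcard : (Sb.ncard : ℝ) ≤ (S2.card : ℝ) := by
    have : Sb.ncard ≤ (S2 : Set (Σ _ : ℕ, (Fin g → ℤ))).ncard := by
      apply Set.ncard_le_ncard_of_injOn (fun β => (⟨(d β).1.toNat, (d β).2⟩ : Σ _ : ℕ, (Fin g → ℤ)))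
      · intro β hβ
        obtain ⟨h1, h2⟩ := hβ
        simp only [Set.mem_setOf_eq] at h2
        obtain ⟨h3, h4, h5⟩ := hSb β h1
        have hnn : 0 ≤ (d β).1 := le_trans (by positivity) h2
        have hto : (((d β).1.toNat : ℕ) : ℤ) = (d β).1 := Int.toNat_of_nonneg hnn
        rw [Finset.mem_coe, hS2, Finset.mem_sigma, Finset.mem_filter, Finset.mem_range]
        refine ⟨⟨?_, ?_⟩, ?_⟩
        · apply Nat.lt_succ_of_le
          apply Nat.le_floor
          have : (((d β).1.toNat : ℕ) : ℝ) = ((d β).1 : ℝ) := by exact_mod_cast hto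
          rw [this]
          exact h4
        · show N1 ≤ (d β).1.toNat
          omega
        · show (d β).2 ∈ A (((d β).1.toNat : ℕ) : ℤ)
          rw [hto]
          exact h5
      · intro β hβ γ hγ h
        simp only [Sigma.mk.injEq, heq_eq_eq] at h
        have hb2 := hβ.2
        have hg2 := hγ.2
        simp only [Set.mem_setOf_eq] at hb2 hg2
        refine hinj β hβ.1 γ hγ.1 (Prod.ext ?_ h.2)
        have := h.1
        omega
    rw [Set.ncard_coe_finset] at this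
    exact_mod_cast this
  have hS2le : (S2.card : ℝ) ≤
      ∑ N ∈ Finset.range (⌊X + (1 + 4 ^ g)⌋₊ + 1), (V + ε / 2) * (N : ℝ) ^ g := by
    rw [hS2, Finset.card_sigma]
    push_cast
    calc ∑ n ∈ (Finset.range (⌊X + (1 + 4 ^ g)⌋₊ + 1)).filter fun n => N1 ≤ n, (((A (n : ℤ)).card : ℕ) : ℝ)
        ≤ ∑ n ∈ (Finset.range (⌊X + (1 + 4 ^ g)⌋₊ + 1)).filter fun n => N1 ≤ n,
            (V + ε / 2) * (n : ℝ) ^ g := by
          apply Finset.sum_le_sum
          intro n hn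
          exact hcount n (Finset.mem_filter.1 hn).2
      _ ≤ _ := by
          apply Finset.sum_le_sum_of_subset_of_nonneg (Finset.filter_subset _ _)
          intro n _ _
          positivity
  have hncard : (S.ncard : ℝ) ≤ (Sa.ncard : ℝ) + (Sb.ncard : ℝ) := by
    rw [hSun]
    exact_mod_cast Set.ncard_union_le Sa Sb
  calc (S.ncard : ℝ) ≤ (Sa.ncard : ℝ) + (Sb.ncard : ℝ) := hncard
    _ ≤ (S1.card : ℝ) + ∑ N ∈ Finset.range (⌊X + (1 + 4 ^ g)⌋₊ + 1), (V + ε / 2) * (N : ℝ) ^ g := by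
        linarith
    _ ≤ (V + ε / 2 + ε / 2) / (g + 1) * X ^ (g + 1) := hX
    _ = (V + ε) / (g + 1) * X ^ (g + 1) := by ring

end Pool.Agent.Helper11.SP
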