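import Pool.Agent.Helper11.SP.LowSum
import Pool.Agent.Helper11.SP.UpSum
import Pool.Agent.Helper11.SP.OmOpen

/-!
SP-20. Proportion theorem for open sets and for `Reg g`.

Proof. `prop_open`: let `w1` with `ρ * vol(OmBar) < w1 < vol(U)`; by inner regularity (`IsOpen.exists_lt_isCompact` or
`MeasurableSet.exists_lt_isCompact`) there is a compact `K ⊆ U` with `w1 < vol(K)` (in `ENNReal`, all finite because
`U ⊆ Reg g ⊆ OmBar g`, which is bounded; `Om g ⊆ OmBar g` is clear).  Take `ε > 0` with `ρ (vol(OmBar) + ε) ≤ vol(K) - ε`,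
and combine `low_sum` and `up_sum`: `ρ * #Salem ≤ ρ (vol(OmBar) + ε)/(g+1) X^(g+1) ≤ (vol(K) - ε)/(g+1) X^(g+1) ≤ #Parry`.
`Reg_open`: `Reg g = Om g ∩ ⋃_n {x | Code x n}`, open by `Om_open` and `code_open`.
-/

open Polynomial MeasureTheory Filter

namespace Pool.Agent.Helper11.SP

theorem Reg_open {g : ℕ} (hg : 1 ≤ g) : IsOpen (Reg g) := by
  have h : Reg g = Om g ∩ ⋃ n : ℤ[X], {x | Code x n} := by
    ext x
    simp [Reg]
  rw [h]
  exact (Om_open g hg).inter (isOpen_iUnion fun n => code_open hg n)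

lemma Reg_subset (g : ℕ) : Reg g ⊆ OmBar g := by
  rintro x ⟨⟨t, _, ht, rfl⟩, _⟩
  exact ⟨t, fun j => (ht j).le, rfl⟩

theorem prop_open {g : ℕ} (hg : 1 ≤ g) (U : Set (Fin g → ℝ)) (hU : IsOpen U) (hUR : U ⊆ Reg g) (ρ : ℝ) (hρ : 0 ≤ ρ)
    (h : ρ * (volume (OmBar g)).toReal < (volume U).toReal) :
    ∀ᶠ X : ℝ in atTop, ρ * ((Helper3.salemSet (2 * g + 2) X).ncard : ℝ) ≤ ((parrySet g X).ncard : ℝ) := by
  have hfin : volume (OmBar g) < ⊤ := (OmBar_compact g).measure_lt_top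
  have hUfin : volume U < ⊤ := lt_of_le_of_lt (measure_mono (hUR.trans (Reg_subset g))) hfin
  set b := (volume (OmBar g)).toReal with hb
  set u := (volume U).toReal with hu
  have hb0 : 0 ≤ b := ENNReal.toReal_nonneg
  have hw0 : 0 ≤ (ρ * b + u) / 2 := by
    have : 0 ≤ u := ENNReal.toReal_nonneg
    have := mul_nonneg hρ hb0
    linarith
  have hw : ENNReal.ofReal ((ρ * b + u) / 2) < volume U := by
    rw [ENNReal.ofReal_lt_iff_lt_toReal hw0 hUfin.ne]
    change _ < u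
    linarith
  obtain ⟨K, hKU, hK, hwK⟩ := hU.exists_lt_isCompact hw
  have hKfin : volume K < ⊤ := hK.measure_lt_top
  rw [ENNReal.ofReal_lt_iff_lt_toReal hw0 hKfin.ne] at hwK
  set k := (volume K).toReal with hk
  have hkb : ρ * b < k := by linarith
  have hρ1 : 0 < 1 + ρ := by linarith
  have hε : 0 < (k - ρ * b) / (1 + ρ) := div_pos (by linarith) hρ1
  set ε := (k - ρ * b) / (1 + ρ) with hεd
  have hε2 : (1 + ρ) * ε = k - ρ * b := by
    rw [hεd]
    field_simp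
  filter_upwards [low_sum hg K hK (hKU.trans hUR) ε hε, up_sum hg ε hε, eventually_ge_atTop 0] with X h1 h2 h3
  have h4 : ρ * (b + ε) = k - ε := by linarith
  calc ρ * ((Helper3.salemSet (2 * g + 2) X).ncard : ℝ) ≤ ρ * ((b + ε) / (g + 1) * X ^ (g + 1)) :=
        mul_le_mul_of_nonneg_left h2 hρ
    _ = (ρ * (b + ε)) / (g + 1) * X ^ (g + 1) := by ring
    _ = (k - ε) / (g + 1) * X ^ (g + 1) := by rw [h4]
    _ ≤ _ := h1

end Pool.Agent.Helper11.SP
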