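import Pool.Agent.Helper11.SP.Cell2

/-!
SP-35. Soundness of lists of cells.

`chk2_append`, `wsum2_append`: induction on `a`.
`list2_sound`: induction on `cs` with `prev` general.  For `c :: cs`: `geo2 c = true`, `code2 c = some code`, `ltc prev code = true` and
`chk2 code cs = some last`.  Points of `c.reg` have code `code` (`cell2_sound`), points `x` of the rest have a code `l` with `ltc code l = true`, so
`c.reg` is disjoint from the rest (`codeL_ltc`), and `ltc prev l = true` by `ltc_trans`.  Volumes: `measure_union` for disjoint open sets,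
`ENNReal.ofReal_add`.
-/

open MeasureTheory

namespace Pool.Agent.Helper11.SP

/-- Region of a list of cells. -/
def reg2 (cs : List C2) : Set (Fin 2 → ℝ) := {x | ∃ c ∈ cs, x ∈ c.reg}

private lemma l2_chk_cons (prev : List ℕ) (c : C2) (cs : List C2) :
    chk2 prev (c :: cs) = Bool.rec (motive := fun _ => Option (List ℕ)) none
      (Option.rec (motive := fun _ => Option (List ℕ)) none (fun code =>
        Bool.rec (motive := fun _ => Option (List ℕ)) none (chk2 code cs) (ltc prev code)) (code2 c)) (geo2 c) := rfl

private lemma l2_chk_some (prev last : List ℕ) (c : C2) (cs : List C2) (h : chk2 prev (c :: cs) = some last) :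
    geo2 c = true ∧ ∃ code, code2 c = some code ∧ ltc prev code = true ∧ chk2 code cs = some last := by
  rw [l2_chk_cons] at h
  cases hg : geo2 c with
  | false => rw [hg] at h; cases h
  | true =>
    rw [hg] at h
    cases hc : code2 c with
    | none => rw [hc] at h; cases h
    | some code =>
      rw [hc] at h
      cases hl : ltc prev code with
      | false => simp only [hl] at h; cases h
      | true =>
        simp only [hl] at h
        exact ⟨rfl, code, rfl, hl, h⟩

lemma chk2_append (prev : List ℕ) (a b : List C2) :
    chk2 prev (a ++ b) = (chk2 prev a).bind (fun code => chk2 code b) := by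
  induction a generalizing prev with
  | nil => rfl
  | cons c a ih =>
    rw [List.cons_append, l2_chk_cons, l2_chk_cons]
    cases hg : geo2 c with
    | false => rfl
    | true =>
      cases hc : code2 c with
      | none => rfl
      | some code =>
        cases hl : ltc prev code with
        | false => simp only [hl]; rfl
        | true => simp only [hl]; exact ih code

private lemma l2_wsum_cons (c : C2) (cs : List C2) : wsum2 (c :: cs) = wt2 c + wsum2 cs := rfl

lemma wsum2_append (a b : List C2) : wsum2 (a ++ b) = wsum2 a + wsum2 b := by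
  induction a with
  | nil =>
    have h : wsum2 [] = 0 := rfl
    rw [List.nil_append, h, zero_add]
  | cons c a ih => rw [List.cons_append, l2_wsum_cons, l2_wsum_cons, ih, add_assoc]

private lemma l2_reg_nil : reg2 [] = ∅ := by
  ext x
  simp [reg2]

private lemma l2_reg_cons (c : C2) (cs : List C2) : reg2 (c :: cs) = c.reg ∪ reg2 cs := by
  ext x
  simp [reg2]

theorem list2_sound (prev last : List ℕ) (cs : List C2) (h : chk2 prev cs = some last) :
    IsOpen (reg2 cs) ∧ reg2 cs ⊆ Reg 2 ∧
    (∀ x ∈ reg2 cs, ∃ l, CodeL x l ∧ ltc prev l = true) ∧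
    ENNReal.ofReal ((wsum2 cs : ℝ) / (2 * 10 ^ 9)) ≤ volume (reg2 cs) := by
  induction cs generalizing prev with
  | nil =>
    rw [l2_reg_nil]
    have h0 : wsum2 [] = 0 := rfl
    refine ⟨isOpen_empty, Set.empty_subset _, fun x hx => hx.elim, ?_⟩
    rw [h0]
    simp
  | cons c cs ih =>
    obtain ⟨hg, code, hc, hl, hr⟩ := l2_chk_some prev last c cs h
    obtain ⟨i1, i2, i3, i4⟩ := ih code hr
    obtain ⟨v1, v2⟩ := cell2_vol c hg
    have hs := cell2_sound c hg code hc
    rw [l2_reg_cons]
    refine ⟨v1.union i1, ?_, ?_, ?_⟩
    · refine Set.union_subset ?_ i2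
      intro x hx
      obtain ⟨h1, h2⟩ := hs x hx
      exact ⟨h1, pol code, h2.1⟩
    · intro x hx
      rcases hx with hx | hx
      · exact ⟨code, (hs x hx).2, hl⟩
      · obtain ⟨l, h1, h2⟩ := i3 x hx
        exact ⟨l, h1, ltc_trans prev code l hl h2⟩
    · have hd : Disjoint c.reg (reg2 cs) := by
        rw [Set.disjoint_left]
        intro x hx hx'
        obtain ⟨l, h1, h2⟩ := i3 x hx'
        exact codeL_ltc (by norm_num) x code l (hs x hx).2 h1 h2
      rw [measure_union hd i1.measurableSet, l2_wsum_cons]
      have he : (((wt2 c + wsum2 cs : ℕ) : ℝ) / (2 * 10 ^ 9)) =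
          (wt2 c : ℝ) / (2 * 10 ^ 9) + (wsum2 cs : ℝ) / (2 * 10 ^ 9) := by
        push_cast
        ring
      rw [he, ENNReal.ofReal_add (by positivity) (by positivity)]
      exact add_le_add v2 i4

end Pool.Agent.Helper11.SP
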