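import Pool.Agent.Helper11.SP.Cell3

/-!
SP-45. Soundness of lists of cells in dimension three (compare `List2.lean`).

`chk3_append`, `wsum3_append`: induction on `a`.
`list3_sound`: induction on `cs` with `prev` general.  For `c :: cs`: `1 ≤ c.sD`, `geo3 c.t = true`, `code3 c = some code`, `ltc prev code = true` and
`chk3 code cs = some last`.  Points of `c.t.reg` have code `code` (`cell3_sound`), points `x` of the rest have a code `l` with `ltc code l = true`, so
the regions are disjoint (`codeL_ltc`), and `ltc prev l = true` by `ltc_trans`.  Volumes: `measure_union` for disjoint open sets, `tree_sound`.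
-/

open MeasureTheory

namespace Pool.Agent.Helper11.SP

/-- Region of a list of cells. -/
def reg3 (cs : List C3) : Set (Fin 3 → ℝ) := {x | ∃ c ∈ cs, x ∈ c.t.reg}

private lemma l3_chk_cons (prev : List ℕ) (c : C3) (cs : List C3) :
    chk3 prev (c :: cs) = Bool.rec (motive := fun _ => Option (List ℕ)) none
      (Option.rec (motive := fun _ => Option (List ℕ)) none (fun code =>
        Bool.rec (motive := fun _ => Option (List ℕ)) none (chk3 code cs) (ltc prev code)) (code3 c))
      (and (Nat.ble 1 c.sD) (geo3 c.t)) := rfl

private lemma l3_chk_some (prev last : List ℕ) (c : C3) (cs : List C3) (h : chk3 prev (c :: cs) = some last) :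
    1 ≤ c.sD ∧ geo3 c.t = true ∧
      ∃ code, code3 c = some code ∧ ltc prev code = true ∧ chk3 code cs = some last := by
  rw [l3_chk_cons] at h
  cases hg : (and (Nat.ble 1 c.sD) (geo3 c.t)) with
  | false => rw [hg] at h; cases h
  | true =>
    rw [hg] at h
    have hg' : Nat.ble 1 c.sD = true ∧ geo3 c.t = true := by
      rwa [Bool.and_eq_true] at hg
    cases hc : code3 c with
    | none => rw [hc] at h; cases h
    | some code =>
      rw [hc] at h
      cases hl : ltc prev code with
      | false => simp only [hl] at h; cases h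
      | true =>
        simp only [hl] at h
        exact ⟨Nat.le_of_ble_eq_true hg'.1, hg'.2, code, rfl, hl, h⟩

lemma chk3_append (prev : List ℕ) (a b : List C3) :
    chk3 prev (a ++ b) = (chk3 prev a).bind (fun code => chk3 code b) := by
  induction a generalizing prev with
  | nil => rfl
  | cons c a ih =>
    rw [List.cons_append, l3_chk_cons, l3_chk_cons]
    cases hg : (and (Nat.ble 1 c.sD) (geo3 c.t)) with
    | false => rfl
    | true =>
      cases hc : code3 c with
      | none => rfl
      | some code =>
        cases hl : ltc prev code with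
        | false => simp only [hl]; rfl
        | true => simp only [hl]; exact ih code

private lemma l3_wsum_cons (c : C3) (cs : List C3) : wsum3 (c :: cs) = wt3 c.t + wsum3 cs := rfl

lemma wsum3_append (a b : List C3) : wsum3 (a ++ b) = wsum3 a + wsum3 b := by
  induction a with
  | nil =>
    have h : wsum3 [] = 0 := rfl
    rw [List.nil_append, h, zero_add]
  | cons c a ih => rw [List.cons_append, l3_wsum_cons, l3_wsum_cons, ih, add_assoc]

private lemma l3_reg_nil : reg3 [] = ∅ := by
  ext x
  simp [reg3]

private lemma l3_reg_cons (c : C3) (cs : List C3) : reg3 (c :: cs) = c.t.reg ∪ reg3 cs := by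
  ext x
  simp [reg3]

theorem list3_sound (prev last : List ℕ) (cs : List C3) (h : chk3 prev cs = some last) :
    IsOpen (reg3 cs) ∧ reg3 cs ⊆ Reg 3 ∧
    (∀ x ∈ reg3 cs, ∃ l, CodeL x l ∧ ltc prev l = true) ∧
    ENNReal.ofReal ((wsum3 cs : ℝ) / (6 * 10 ^ 9)) ≤ volume (reg3 cs) := by
  induction cs generalizing prev with
  | nil =>
    rw [l3_reg_nil]
    have h0 : wsum3 [] = 0 := rfl
    refine ⟨isOpen_empty, Set.empty_subset _, fun x hx => hx.elim, ?_⟩
    rw [h0]
    simp
  | cons c cs ih =>
    obtain ⟨hD, hg, code, hc, hl, hr⟩ := l3_chk_some prev last c cs h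
    obtain ⟨i1, i2, i3, i4⟩ := ih code hr
    obtain ⟨v1, v2⟩ := tree_sound c.t hg
    have hs := cell3_sound c hD hg code hc
    rw [l3_reg_cons]
    refine ⟨v1.union i1, ?_, ?_, ?_⟩
    · refine Set.union_subset ?_ i2
      intro x hx
      obtain ⟨h1, h2⟩ := hs x hx
      exact ⟨h1, pol code, h2.1⟩
    · intro x hx
      rcases hx with hx | hx
      · exact ⟨code, (hs x hx).2, hl⟩
      · obtain ⟨l, h1, h2⟩ := i3 x hx
        exact ⟨l, h1, ltc_trans prev code l hl h2⟩
    · have hd : Disjoint c.t.reg (reg3 cs) := by
        rw [Set.disjoint_left]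
        intro x hx hx'
        obtain ⟨l, h1, h2⟩ := i3 x hx'
        exact codeL_ltc (by norm_num) x code l (hs x hx).2 h1 h2
      rw [measure_union hd i1.measurableSet, l3_wsum_cons]
      have he : (((wt3 c.t + wsum3 cs : ℕ) : ℝ) / (6 * 10 ^ 9)) =
          (wt3 c.t : ℝ) / (6 * 10 ^ 9) + (wsum3 cs : ℝ) / (6 * 10 ^ 9) := by
        push_cast
        ring
      rw [he, ENNReal.ofReal_add (by positivity) (by positivity)]
      exact add_le_add v2 i4

end Pool.Agent.Helper11.SP
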