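import Pool.Agent.Helper11.SP.EeProd

/-!
SP-25. Volume of `OmBar 3`.

Proof. `e(t) := ee t = ![-σ1, 3 + σ2, -σ3 - 2 σ1]`, `σ` the elementary symmetric functions of `t0, t1, t2` (expand the product of the
three quadratics).  As `e` is symmetric,
`OmBar 3 = e '' {t | -2 ≤ t0 ≤ t1 ≤ t2 ≤ 2} =: e '' S` (sort `t`).  By `MeasureTheory.addHaar_image_le_lintegral_abs_det_fderiv`
(volume of an image is at most the integral of `|det e'|`) with `|det e'(t)| = (t1 - t0)(t2 - t0)(t2 - t1)` on `S`.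
The integral over `S` is `1024/45` (iterated polynomial integrals; with `u = (t+2)/4 ∈ [0,1]` it is `4096 * 1/180`).
-/

open MeasureTheory Set

namespace Pool.Agent.Helper11.SP

/-- integral of a function with a known antiderivative -/
private lemma ov3_lint (a b : ℝ) (hab : a ≤ b) (f F : ℝ → ℝ) (hF : ∀ x, HasDerivAt F (f x) x)
    (hf : Continuous f) (hnn : ∀ x ∈ Icc a b, 0 ≤ f x) :
    ∫⁻ x in Icc a b, ENNReal.ofReal (f x) = ENNReal.ofReal (F b - F a) := by
  have hint : IntegrableOn f (Icc a b) := hf.continuousOn.integrableOn_Icc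
  rw [← ofReal_integral_eq_lintegral_ofReal hint ((ae_restrict_iff' measurableSet_Icc).2
    (Filter.Eventually.of_forall hnn)), integral_Icc_eq_integral_Ioc,
    ← intervalIntegral.integral_of_le hab,
    intervalIntegral.integral_eq_sub_of_hasDerivAt (fun x _ => hF x) (hf.intervalIntegrable _ _)]

/-- Tonelli for `Fin 3 → ℝ` -/
private lemma ov3_tonelli (G : ℝ × ℝ × ℝ → ENNReal) (hG : Measurable G) :
    ∫⁻ x : Fin 3 → ℝ, G (x 0, x 1, x 2) = ∫⁻ a : ℝ, ∫⁻ b : ℝ, ∫⁻ c : ℝ, G (a, b, c) := by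
  have e1 := volume_preserving_piFinSuccAbove (fun _ : Fin 3 => ℝ) 0
  let H : ℝ × (Fin 2 → ℝ) → ENNReal := fun p => G (p.1, p.2 0, p.2 1)
  have hH : Measurable H := by
    apply hG.comp
    fun_prop
  have h1 : ∫⁻ x : Fin 3 → ℝ, G (x 0, x 1, x 2) = ∫⁻ p : ℝ × (Fin 2 → ℝ), H p := by
    rw [← e1.lintegral_comp hH]
    rfl
  rw [h1, Measure.volume_eq_prod, lintegral_prod _ hH.aemeasurable]
  apply lintegral_congr
  intro a
  have e2 := volume_preserving_finTwoArrow ℝ
  let H2 : ℝ × ℝ → ENNReal := fun p => G (a, p.1, p.2)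
  have hH2 : Measurable H2 := by
    apply hG.comp
    fun_prop
  have h2 : ∫⁻ y : Fin 2 → ℝ, H (a, y) = ∫⁻ p : ℝ × ℝ, H2 p := by
    rw [← e2.lintegral_comp hH2]
    rfl
  rw [h2, Measure.volume_eq_prod, lintegral_prod _ hH2.aemeasurable]

/-- the fundamental domain -/
private def ov3S : Set (Fin 3 → ℝ) := {t | -2 ≤ t 0 ∧ t 0 ≤ t 1 ∧ t 1 ≤ t 2 ∧ t 2 ≤ 2}

private def ov3T : Set (ℝ × ℝ × ℝ) := {p | -2 ≤ p.1 ∧ p.1 ≤ p.2.1 ∧ p.2.1 ≤ p.2.2 ∧ p.2.2 ≤ 2}

private lemma ov3T_meas : MeasurableSet ov3T := by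
  unfold ov3T
  apply IsClosed.measurableSet
  simp only [Set.setOf_and]
  refine IsClosed.inter (isClosed_le (by fun_prop) (by fun_prop)) ?_
  refine IsClosed.inter (isClosed_le (by fun_prop) (by fun_prop)) ?_
  refine IsClosed.inter (isClosed_le (by fun_prop) (by fun_prop)) ?_
  exact isClosed_le (by fun_prop) (by fun_prop)

private lemma ov3S_meas : MeasurableSet ov3S := by
  unfold ov3S
  apply IsClosed.measurableSet
  simp only [Set.setOf_and]
  refine IsClosed.inter (isClosed_le (by fun_prop) (by fun_prop)) ?_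
  refine IsClosed.inter (isClosed_le (by fun_prop) (by fun_prop)) ?_
  refine IsClosed.inter (isClosed_le (by fun_prop) (by fun_prop)) ?_
  exact isClosed_le (by fun_prop) (by fun_prop)

/-- the map in explicit form -/
private def ov3f (t : Fin 3 → ℝ) : Fin 3 → ℝ :=
  ![-(t 0 + t 1 + t 2), 3 + (t 0 * t 1 + t 0 * t 2 + t 1 * t 2),
    -(t 0 * t 1 * t 2) - 2 * (t 0 + t 1 + t 2)]

open Polynomial in
private lemma ov3_coeff (a b c d e : ℝ) (k : ℕ) :
    (X ^ 6 + C a * X ^ 5 + C b * X ^ 4 + C c * X ^ 3 + C d * X ^ 2 + C e * X + 1 : ℝ[X]).coeff k =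
      (if k = 6 then 1 else 0) + a * (if k = 5 then 1 else 0) + b * (if k = 4 then 1 else 0) +
      c * (if k = 3 then 1 else 0) + d * (if k = 2 then 1 else 0) + e * (if k = 1 then 1 else 0) +
      (if k = 0 then 1 else 0) := by
  simp only [coeff_add, coeff_C_mul, coeff_X_pow, coeff_X, coeff_one, eq_comm]

open Polynomial in
private lemma ov3_ee (t : Fin 3 → ℝ) : ee t = ov3f t := by
  have h : (∏ i, (X ^ 2 - C (t i) * X + 1) : ℝ[X]) =
      X ^ 6 + C (-(t 0 + t 1 + t 2)) * X ^ 5 + C (3 + (t 0 * t 1 + t 0 * t 2 + t 1 * t 2)) * X ^ 4 +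
      C (-(t 0 * t 1 * t 2) - 2 * (t 0 + t 1 + t 2)) * X ^ 3 +
      C (3 + (t 0 * t 1 + t 0 * t 2 + t 1 * t 2)) * X ^ 2 + C (-(t 0 + t 1 + t 2)) * X + 1 := by
    rw [Fin.prod_univ_three]
    simp only [map_add, map_mul, map_neg, map_sub]
    rw [show (C (3 : ℝ) : ℝ[X]) = 3 from rfl, show (C (2 : ℝ) : ℝ[X]) = 2 from rfl]
    ring
  funext j
  unfold ee
  rw [h, ov3_coeff]
  fin_cases j <;> simp [ov3f]

private def ov3M (t : Fin 3 → ℝ) : Matrix (Fin 3) (Fin 3) ℝ :=
  !![-1, -1, -1; t 1 + t 2, t 0 + t 2, t 0 + t 1; -(t 1 * t 2) - 2, -(t 0 * t 2) - 2, -(t 0 * t 1) - 2]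

private lemma ov3_det (t : Fin 3 → ℝ) :
    (ov3M t).det = -((t 1 - t 0) * (t 2 - t 0) * (t 2 - t 1)) := by
  rw [Matrix.det_fin_three]
  simp [ov3M]
  ring

private lemma ov3_fderiv (t : Fin 3 → ℝ) :
    HasFDerivAt ov3f (LinearMap.toContinuousLinearMap (Matrix.toLin' (ov3M t))) t := by
  rw [hasFDerivAt_pi']
  have h0 : HasFDerivAt (fun t : Fin 3 → ℝ => t 0) (ContinuousLinearMap.proj 0 : (Fin 3 → ℝ) →L[ℝ] ℝ) t :=
    hasFDerivAt_apply 0 t
  have h1 : HasFDerivAt (fun t : Fin 3 → ℝ => t 1) (ContinuousLinearMap.proj 1 : (Fin 3 → ℝ) →L[ℝ] ℝ) t :=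
    hasFDerivAt_apply 1 t
  have h2 : HasFDerivAt (fun t : Fin 3 → ℝ => t 2) (ContinuousLinearMap.proj 2 : (Fin 3 → ℝ) →L[ℝ] ℝ) t :=
    hasFDerivAt_apply 2 t
  intro i
  fin_cases i
  · refine (((h0.add h1).add h2).neg).congr_fderiv ?_
    ext v
    simp [ov3M, Matrix.toLin'_apply, Matrix.mulVec, dotProduct, Fin.sum_univ_three]
    ring
  · refine (((((h0.mul h1).add (h0.mul h2)).add (h1.mul h2))).const_add 3).congr_fderiv ?_
    ext v
    simp [ov3M, Matrix.toLin'_apply, Matrix.mulVec, dotProduct, Fin.sum_univ_three]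
    ring
  · refine ((((h0.mul h1).mul h2).neg).sub (((h0.add h1).add h2).const_mul 2)).congr_fderiv ?_
    ext v
    simp [ov3M, Matrix.toLin'_apply, Matrix.mulVec, dotProduct, Fin.sum_univ_three]
    ring

private lemma ov3_sub : OmBar 3 ⊆ ov3f '' ov3S := by
  rintro x ⟨t, ht, rfl⟩
  have hperm : ee (t ∘ Tuple.sort t) = ee t := by
    funext j
    unfold ee
    congr 1
    exact Equiv.prod_comp (Tuple.sort t)
      (fun i => (Polynomial.X ^ 2 - Polynomial.C (t i) * Polynomial.X + 1 : Polynomial ℝ))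
  refine ⟨t ∘ Tuple.sort t, ?_, ?_⟩
  · have hm := Tuple.monotone_sort t
    have ht' : ∀ j, |t j| ≤ 2 := ht
    refine ⟨(abs_le.1 (ht' _)).1, hm (by decide), hm (by decide), (abs_le.1 (ht' _)).2⟩
  · rw [← ov3_ee, hperm]

/-- the weight -/
private noncomputable def ov3G (p : ℝ × ℝ × ℝ) : ENNReal :=
  ov3T.indicator (fun p => ENNReal.ofReal ((p.2.1 - p.1) * (p.2.2 - p.1) * (p.2.2 - p.2.1))) p

private lemma ov3G_meas : Measurable ov3G := by
  unfold ov3G
  refine Measurable.indicator ?_ ov3T_meas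
  fun_prop

private lemma ov3_in1 (a b : ℝ) : ∫⁻ c : ℝ, ov3G (a, b, c) ≤
    (Icc a 2).indicator (fun b => ENNReal.ofReal
      ((b - a) * ((2 - b) ^ 3 / 3 + (b - a) * (2 - b) ^ 2 / 2))) b *
    (Icc (-2) 2).indicator (fun _ => 1) a := by
  by_cases hab : (-2 ≤ a ∧ a ≤ b ∧ b ≤ 2)
  · obtain ⟨h1, h2, h3⟩ := hab
    rw [indicator_of_mem (show b ∈ Icc a 2 from ⟨h2, h3⟩),
      indicator_of_mem (show a ∈ Icc (-2) 2 from ⟨h1, h2.trans h3⟩), mul_one]
    have h4 : ∀ c, ov3G (a, b, c) ≤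
        (Icc b 2).indicator (fun c => ENNReal.ofReal ((b - a) * (c - a) * (c - b))) c := by
      intro c
      unfold ov3G
      by_cases hc : (a, b, c) ∈ ov3T
      · rw [indicator_of_mem hc, indicator_of_mem (show c ∈ Icc b 2 from ⟨hc.2.2.1, hc.2.2.2⟩)]
      · rw [indicator_of_notMem hc]
        simp
    refine (lintegral_mono h4).trans ?_
    rw [lintegral_indicator measurableSet_Icc, ov3_lint b 2 h3 _
      (fun c => (b - a) * ((c - b) ^ 3 / 3 + (b - a) * (c - b) ^ 2 / 2))]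
    · apply le_of_eq
      congr 1
      ring
    · intro x
      have hx : HasDerivAt (fun c : ℝ => c - b) 1 x := (hasDerivAt_id x).sub_const b
      have := (((hx.pow 3).div_const 3).add (((hx.pow 2).const_mul (b - a)).div_const 2)).const_mul (b - a)
      refine this.congr_deriv ?_
      simp
      ring
    · fun_prop
    · intro x hx
      have := hx.1
      have h5 : 0 ≤ b - a := by linarith
      have h6 : 0 ≤ x - a := by linarith
      have h7 : 0 ≤ x - b := by linarith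
      positivity
  · have h4 : ∀ c, ov3G (a, b, c) = 0 := by
      intro c
      unfold ov3G
      rw [indicator_of_notMem]
      intro hc
      exact hab ⟨hc.1, hc.2.1, hc.2.2.1.trans hc.2.2.2⟩
    simp [h4]

private lemma ov3_in2 (a : ℝ) : ∫⁻ b : ℝ, ∫⁻ c : ℝ, ov3G (a, b, c) ≤
    (Icc (-2) 2).indicator (fun a => ENNReal.ofReal ((2 - a) ^ 5 / 30)) a := by
  refine (lintegral_mono (ov3_in1 a)).trans ?_
  by_cases ha : a ∈ Icc (-2 : ℝ) 2
  · rw [indicator_of_mem ha, indicator_of_mem ha]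
    simp only [mul_one]
    rw [lintegral_indicator measurableSet_Icc, ov3_lint a 2 ha.2 _
      (fun b => -((2 - b) ^ 4 * (b - a) / 12 + (2 - b) ^ 5 / 60) -
        ((b - a) ^ 2 * (2 - b) ^ 3 / 6 + (b - a) * (2 - b) ^ 4 / 12 + (2 - b) ^ 5 / 60))]
    · apply le_of_eq
      congr 1
      ring
    · intro x
      have hx : HasDerivAt (fun c : ℝ => c - a) 1 x := (hasDerivAt_id x).sub_const a
      have hy : HasDerivAt (fun c : ℝ => 2 - c) (-1) x := (hasDerivAt_id x).const_sub 2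
      have := (((((hy.pow 4).mul hx).div_const 12).add ((hy.pow 5).div_const 60)).neg).sub
        ((((((hx.pow 2).mul (hy.pow 3)).div_const 6).add ((hx.mul (hy.pow 4)).div_const 12))).add
          ((hy.pow 5).div_const 60))
      refine this.congr_deriv ?_
      simp
      ring
    · fun_prop
    · intro x hx
      have h5 : 0 ≤ x - a := by linarith [hx.1]
      have h6 : 0 ≤ 2 - x := by linarith [hx.2]
      positivity
  · rw [indicator_of_notMem ha, indicator_of_notMem ha]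
    simp

private lemma ov3_in3 : ∫⁻ a : ℝ, ∫⁻ b : ℝ, ∫⁻ c : ℝ, ov3G (a, b, c) ≤ ENNReal.ofReal (1024 / 45) := by
  refine (lintegral_mono ov3_in2).trans ?_
  rw [lintegral_indicator measurableSet_Icc, ov3_lint (-2) 2 (by norm_num) _
    (fun a => -((2 - a) ^ 6 / 180))]
  · apply le_of_eq
    congr 1
    norm_num
  · intro x
    have hy : HasDerivAt (fun c : ℝ => 2 - c) (-1) x := (hasDerivAt_id x).const_sub 2
    have := ((hy.pow 6).div_const 180).neg
    refine this.congr_deriv ?_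
    simp
    ring
  · fun_prop
  · intro x hx
    have h6 : 0 ≤ 2 - x := by linarith [hx.2]
    positivity

theorem vol3 : volume (OmBar 3) ≤ ENNReal.ofReal (1024 / 45) := by
  calc volume (OmBar 3) ≤ volume (ov3f '' ov3S) := measure_mono ov3_sub
    _ ≤ ∫⁻ x in ov3S, ENNReal.ofReal
        |(LinearMap.toContinuousLinearMap (Matrix.toLin' (ov3M x)) : (Fin 3 → ℝ) →L[ℝ] (Fin 3 → ℝ)).det| :=
        addHaar_image_le_lintegral_abs_det_fderiv volume ov3S_meas
          (fun x _ => (ov3_fderiv x).hasFDerivWithinAt)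
    _ = ∫⁻ x : Fin 3 → ℝ, ov3G (x 0, x 1, x 2) := by
        rw [← lintegral_indicator ov3S_meas]
        apply lintegral_congr
        intro x
        unfold ov3G
        by_cases hx : x ∈ ov3S
        · rw [indicator_of_mem hx, indicator_of_mem (show (x 0, x 1, x 2) ∈ ov3T from hx)]
          congr 1
          rw [ContinuousLinearMap.det, LinearMap.coe_toContinuousLinearMap, LinearMap.det_toLin',
            ov3_det, abs_neg, abs_of_nonneg]
          obtain ⟨h1, h2, h3, h4⟩ := hx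
          have h5 : 0 ≤ x 1 - x 0 := by linarith
          have h6 : 0 ≤ x 2 - x 0 := by linarith
          have h7 : 0 ≤ x 2 - x 1 := by linarith
          positivity
        · rw [indicator_of_notMem hx, indicator_of_notMem (show ¬ (x 0, x 1, x 2) ∈ ov3T from hx)]
    _ = ∫⁻ a : ℝ, ∫⁻ b : ℝ, ∫⁻ c : ℝ, ov3G (a, b, c) := ov3_tonelli ov3G ov3G_meas
    _ ≤ ENNReal.ofReal (1024 / 45) := ov3_in3

end Pool.Agent.Helper11.SP
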