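import Mathlib
import Pool.Agent.Helper3.Count

/-!
# Proportion of Parry numbers among Salem numbers of given degree: definitions

`g ≥ 1`, the degree of the Salem numbers is `2 g + 2`.

* `HC a x = a + x_0 X + ... + x_{g-1} X^g + ... + x_0 X^{2g-1} + a X^{2g}` (palindromic).
* `PP N v = X^{2g+2} + 1 - X * HC N v`: all monic palindromic integer polynomials of degree `2 g + 2`.
* `ee t`: the middle coefficients of `∏ (X² - t_i X + 1)`, so `∏ (X² - t_i X + 1) = HC 1 (ee t)`.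
* `Fc x n i`: coefficients of `HC 1 x * n`.
* `Code x n`: the integer polynomial `n` is the (finite) orbit of the limit system with parameter `x`.
-/

open Polynomial

namespace Pool.Agent.Helper11.SP

/-- Coefficients of the palindromic polynomial `a + x_0 X + ... + x_{g-1} X^g + ... + x_0 X^{2g-1} + a X^{2g}`. -/
def hc {R : Type*} [Zero R] {g : ℕ} (a : R) (x : Fin g → R) (k : ℕ) : R :=
  if k = 0 then a
  else if h : k - 1 < g then x ⟨k - 1, h⟩
  else if h2 : 2 * g - k - 1 < g ∧ k < 2 * g then x ⟨2 * g - k - 1, h2.1⟩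
  else if k = 2 * g then a else 0

/-- The palindromic polynomial `a + x_0 X + ... + x_{g-1} X^g + ... + x_0 X^{2g-1} + a X^{2g}`. -/
noncomputable def HC {R : Type*} [Semiring R] {g : ℕ} (a : R) (x : Fin g → R) : R[X] :=
  ∑ k ∈ Finset.range (2 * g + 1), monomial k (hc a x k)

/-- `X^{2g+2} - N X^{2g+1} - v_0 X^{2g} - ... - N X + 1`. -/
noncomputable def PP {g : ℕ} (N : ℤ) (v : Fin g → ℤ) : ℤ[X] := X ^ (2 * g + 2) + 1 - X * HC N v

/-- Coefficients of `HC 1 x * n`. -/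
noncomputable def Fc {g : ℕ} (x : Fin g → ℝ) (n : ℤ[X]) (i : ℕ) : ℝ :=
  (HC 1 x * n.map (Int.castRingHom ℝ)).coeff i

/-- Middle coefficients of `∏ (X² - t_i X + 1)`. -/
noncomputable def ee {g : ℕ} (t : Fin g → ℝ) : Fin g → ℝ :=
  fun j => (∏ i, (X ^ 2 - C (t i) * X + 1) : ℝ[X]).coeff ((j : ℕ) + 1)

/-- Parameters with `g` distinct pairs of conjugate roots on the unit circle (without `±1`). -/
def Om (g : ℕ) : Set (Fin g → ℝ) :=
  {x | ∃ t : Fin g → ℝ, Function.Injective t ∧ (∀ j, |t j| < 2) ∧ ee t = x}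

/-- Parameters with all roots on the unit circle. -/
def OmBar (g : ℕ) : Set (Fin g → ℝ) := ee '' {t | ∀ j, |t j| ≤ 2}

/-- `n` is a finite orbit of the limit system at `x` (each `Fc x n i` is in `(0,1)` or is the constant `1`). -/
def Code {g : ℕ} (x : Fin g → ℝ) (n : ℤ[X]) : Prop :=
  n.Monic ∧ n.coeff 0 = 1 ∧ ∀ i, 1 ≤ i → i < n.natDegree + 2 * g →
    (0 < Fc x n i ∧ Fc x n i < 1) ∨ ∀ y : Fin g → ℝ, Fc y n i = 1

/-- Parameters in `Om g` with a finite orbit. -/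
def Reg (g : ℕ) : Set (Fin g → ℝ) := {x | x ∈ Om g ∧ ∃ n : ℤ[X], Code x n}

/-- Parry numbers among the Salem numbers of degree `2 g + 2` up to `X` (finite orbit of `1`). -/
def parrySet (g : ℕ) (X : ℝ) : Set ℝ :=
  Helper3.salemSet (2 * g + 2) X ∩ {β | ∃ n, (Helper3.T β)^[n + 2] 1 = (Helper3.T β)^[1] 1}

/-- Unimodular (or smaller) algebraic integers of degree at most `D` all of whose conjugates have modulus at most one. -/
def ZD (D : ℕ) : Set ℂ :=
  {ζ | ∃ G : ℤ[X], G.Monic ∧ G.natDegree ≤ D ∧ (∀ z : ℂ, aeval z G = 0 → ‖z‖ ≤ 1) ∧ aeval ζ G = 0}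

/-- Open simplex with vertices `V 0, ..., V g`. -/
def sx {g : ℕ} (V : Fin (g + 1) → (Fin g → ℝ)) : Set (Fin g → ℝ) :=
  {x | ∃ w : Fin (g + 1) → ℝ, (∀ i, 0 < w i) ∧ ∑ i, w i = 1 ∧ x = ∑ i, w i • V i}

end Pool.Agent.Helper11.SP
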