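import Pool.Agent.Helper11.SP.Pert

/-!
SP-21. The limit system is deterministic: two codes at the same parameter agree as long as both are defined.

Proof. `Fc x n i = ∑_{a + b = i} hc 1 x a * n.coeff b` (`coeff_mul`, `HC_coeff`), the term `a = 0` is `n.coeff i` and the others involve only
`n.coeff b` with `b < i`.  So if the coefficients below `i` agree, `Fc x n i - Fc x m i = n.coeff i - m.coeff i`.
For `1 ≤ i ≤ n.natDegree + 2 g` we have `0 < Fc x n i ≤ 1` (`Code`, `Fc_top`), the same for `m`, so the integer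
`n.coeff i - m.coeff i` is in `(-1, 1)`, hence `0`.  For `i = 0` both are `1`.
-/

open Polynomial

namespace Pool.Agent.Helper11.SP

private lemma det_aux {g : ℕ} (x : Fin g → ℝ) (n : ℤ[X]) (i : ℕ) :
    Fc x n i = (n.coeff i : ℝ) + ∑ p ∈ (Finset.HasAntidiagonal.antidiagonal i : Finset (ℕ × ℕ)).erase (0, i), hc 1 x p.1 * (n.coeff p.2 : ℝ) := by
  unfold Fc
  rw [coeff_mul, ← Finset.add_sum_erase _ _ (a := (0, i)) (by simp)]
  have h0 : (HC (1 : ℝ) x).coeff 0 = 1 := by
    rw [HC_coeff, hc_zero]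
  simp only [h0, one_mul, coeff_map, eq_intCast, HC_coeff]

private lemma det_range {g : ℕ} (hg : 1 ≤ g) (x : Fin g → ℝ) (n : ℤ[X]) (hn : Code x n) (i : ℕ) (h1 : 1 ≤ i)
    (hi : i ≤ n.natDegree + 2 * g) : 0 < Fc x n i ∧ Fc x n i ≤ 1 := by
  rcases hi.lt_or_eq with h | h
  · rcases hn.2.2 i h1 h with h' | h'
    · exact ⟨h'.1, h'.2.le⟩
    · rw [h' x]; exact ⟨one_pos, le_refl _⟩
  · rw [h, Fc_top hg x n hn.1]; exact ⟨one_pos, le_refl _⟩

theorem determ {g : ℕ} (hg : 1 ≤ g) (x : Fin g → ℝ) (n m : ℤ[X]) (hn : Code x n) (hm : Code x m) (i : ℕ)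
    (hi1 : i ≤ n.natDegree + 2 * g) (hi2 : i ≤ m.natDegree + 2 * g) (h : ∀ j, j < i → n.coeff j = m.coeff j) :
    n.coeff i = m.coeff i := by
  rcases Nat.eq_zero_or_pos i with rfl | hpos
  · rw [hn.2.1, hm.2.1]
  · have a1 := det_range hg x n hn i hpos hi1
    have a2 := det_range hg x m hm i hpos hi2
    rw [det_aux x n i] at a1
    rw [det_aux x m i] at a2
    have hs : ∑ p ∈ (Finset.HasAntidiagonal.antidiagonal i : Finset (ℕ × ℕ)).erase (0, i), hc 1 x p.1 * (n.coeff p.2 : ℝ)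
        = ∑ p ∈ (Finset.HasAntidiagonal.antidiagonal i : Finset (ℕ × ℕ)).erase (0, i), hc 1 x p.1 * (m.coeff p.2 : ℝ) := by
      refine Finset.sum_congr rfl fun p hp => ?_
      rw [Finset.mem_erase, Finset.HasAntidiagonal.mem_antidiagonal] at hp
      have : p.2 < i := by
        rcases Nat.eq_zero_or_pos p.1 with h0 | h0
        · exact absurd (Prod.ext h0 (by omega : p.2 = i)) hp.1
        · omega
      rw [h p.2 this]
    rw [hs] at a1
    have h1 : (n.coeff i : ℝ) - m.coeff i < 1 := by linarith [a1.2, a2.1]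
    have h2 : (m.coeff i : ℝ) - n.coeff i < 1 := by linarith [a1.1, a2.2]
    have h1' : n.coeff i - m.coeff i < 1 := by exact_mod_cast h1
    have h2' : m.coeff i - n.coeff i < 1 := by exact_mod_cast h2
    omega

end Pool.Agent.Helper11.SP
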