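import Pool.Agent.Helper11.SP.Defs

/-!
SP-03. The orbit of `1` under the beta transformation.

Let `F i = (Q n)_i` and `r_0 = 1`, `r_i = F i - F (i-1) / β` (`i ≥ 1`).
Proof. From `P n = (X² - s X + 1) (Q n)` we get, with integers `z_i = (P n).coeff i`:
`F 1 - s F 0 = z_1` and `F (i+1) - s F i + F (i-1) = z_{i+1}` for `i ≥ 1`.
As `s = β + 1/β`, this says `β r_0 = r_1 - z_1` (`F 0 = 1`) and `β r_i = r_{i+1} - z_{i+1}` for `i ≥ 1`:
`β r_i = β F i - F (i-1)` and `r_{i+1} = F (i+1) - F i / β`.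
As `r_i ∈ [0,1)` for `1 ≤ i ≤ L`, `T^i 1 = r_i` for `i ≤ L` (`Helper3.fract_eq_of`).
Last steps: `r_L = 1 - F (L-1) / β`, `β r_L = β - F (L-1)`, and `F (L+1) - s F L + F (L-1) = z_{L+1}` with
`F (L+1) = 0`, `F L = 1` gives `β r_L = -z_{L+1} - 1/β = (1 - 1/β) - z_{L+1} - 1`.
So it is exactly the situation of `Helper3.orbit_periodic` with `n = L`, `v j = r_j`, `c j = - z_j`
(`hlast : β * v n = c (n+1) - 1/β`).
-/

open Polynomial

namespace Pool.Agent.Helper11.SP

theorem dyn (β s : ℝ) (hβ : 1 < β) (hs : s = β + 1 / β) (P n : ℤ[X]) (Q : ℝ[X])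
    (hP : P.map (Int.castRingHom ℝ) = (X ^ 2 - C s * X + 1) * Q) (L : ℕ) (hL0 : 1 ≤ L)
    (h0 : (Q * n.map (Int.castRingHom ℝ)).coeff 0 = 1) (hL : (Q * n.map (Int.castRingHom ℝ)).coeff L = 1)
    (hL1 : (Q * n.map (Int.castRingHom ℝ)).coeff (L + 1) = 0)
    (hr : ∀ i, 1 ≤ i → i ≤ L →
      0 ≤ (Q * n.map (Int.castRingHom ℝ)).coeff i - (Q * n.map (Int.castRingHom ℝ)).coeff (i - 1) / β ∧
      (Q * n.map (Int.castRingHom ℝ)).coeff i - (Q * n.map (Int.castRingHom ℝ)).coeff (i - 1) / β < 1) :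
    (Helper3.T β)^[L + 2] 1 = (Helper3.T β)^[1] 1 := by
  have hβ0 : β ≠ 0 := by linarith
  set G : ℝ[X] := Q * n.map (Int.castRingHom ℝ) with hG
  have hPn : (P * n).map (Int.castRingHom ℝ) = X ^ 2 * G - C s * (X ^ 1 * G) + G := by
    rw [Polynomial.map_mul, hP, hG]
    ring
  have hz : ∀ k, (((P * n).coeff k : ℤ) : ℝ) = (if 2 ≤ k then G.coeff (k - 2) else 0) -
      s * (if 1 ≤ k then G.coeff (k - 1) else 0) + G.coeff k := by
    intro k
    have h1 : ((P * n).map (Int.castRingHom ℝ)).coeff k = (((P * n).coeff k : ℤ) : ℝ) := by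
      rw [coeff_map]
      rfl
    rw [← h1, hPn, coeff_add, coeff_sub, coeff_C_mul, coeff_X_pow_mul', coeff_X_pow_mul']
  refine Helper3.orbit_periodic β hβ L hL0
    (fun j => if j = 0 then 1 else G.coeff j - G.coeff (j - 1) / β)
    (fun j => - (P * n).coeff j) (if_pos rfl) ?_ ?_ ?_
  · intro j hj
    push_cast
    rw [hz (j + 1), if_pos (by omega : 1 ≤ j + 1), Nat.add_sub_cancel]
    rcases Nat.eq_zero_or_pos j with h | h
    · subst h
      rw [if_pos rfl, if_neg (by omega), h0, hs]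
      field_simp
      ring
    · rw [if_neg (by omega : j ≠ 0), if_pos (by omega : 2 ≤ j + 1),
        show j + 1 - 2 = j - 1 by omega, hs]
      field_simp
      ring
  · intro j h1 h2
    rw [if_neg (by omega : j ≠ 0)]
    exact hr j h1 h2
  · push_cast
    rw [hz (L + 1), if_neg (by omega : L ≠ 0), if_pos (by omega : 1 ≤ L + 1),
      if_pos (by omega : 2 ≤ L + 1), show L + 1 - 2 = L - 1 by omega, Nat.add_sub_cancel, hL, hL1,
      hs]
    field_simp
    ring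

end Pool.Agent.Helper11.SP
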