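import Pool.Agent.Helper11.SP.HCoef

/-!
SP-02. The product `∏ (X² - t_i X + 1)`.

Proof. `ee_prod`: let `D` be the product. It is monic of degree `2 g` with constant coefficient `1`
(as `Rpoly_monic`, `Rpoly_natDegree`, `Rpoly_coeff_zero` in `Pool.Agent.Helper3.Region`, using `quad_monic`,
`quad_natDegree`), and `reflect (2 g) D = D` by `Helper3.reflect_prod` and `Helper3.reflect_quad`, so
`D.coeff (2g - k) = D.coeff k`.  Compare coefficients with `hc 1 (ee t)`; `k = 0`, `1 ≤ k ≤ g` (definition of `ee`),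
`g < k < 2g` (symmetry), `k = 2g` (monic), `k > 2g` (degree).
`ee_continuous`: `continuous_pi` and `Helper3.continuous_coeff_prod`.
`coeff_bound`: by induction on the finset, if `|D_k| ≤ 4^n` is replaced by `∑_k |coeff_k| ≤ 4^n`
(each factor multiplies the sum of the absolute values of the coefficients by at most `1 + |t| + 1 ≤ 4`).
Alternative: all complex roots of the product have modulus `1` and `Polynomial.coeff_le_of_roots_le` gives
`|coeff| ≤ choose (2g) k ≤ 4^g`.
`OmBar_compact`: image of the compact cube under a continuous map.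
-/

open Polynomial

namespace Pool.Agent.Helper11.SP

private lemma ep_pal {g : ℕ} (t : Fin g → ℝ) (k : ℕ) (hk : k ≤ 2 * g) :
    (∏ i, (X ^ 2 - C (t i) * X + 1 : ℝ[X])).coeff k =
      (∏ i, (X ^ 2 - C (t i) * X + 1 : ℝ[X])).coeff (2 * g - k) := by
  have h := Helper3.reflect_prod (Finset.univ : Finset (Fin g))
    (fun i => (X ^ 2 - C (t i) * X + 1 : ℝ[X])) (fun i => (Helper3.quad_natDegree _).le)
    (fun i => Helper3.reflect_quad _)
  rw [Finset.card_univ, Fintype.card_fin] at h
  conv_lhs => rw [← h]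
  rw [coeff_reflect, revAt_le hk]

private lemma ep_deg {g : ℕ} (t : Fin g → ℝ) :
    (∏ i, (X ^ 2 - C (t i) * X + 1 : ℝ[X])).natDegree = 2 * g := by
  rw [natDegree_prod_of_monic _ _ (fun i _ => Helper3.quad_monic _)]
  simp only [Helper3.quad_natDegree]
  simp [mul_comm]

lemma ee_prod {g : ℕ} (hg : 1 ≤ g) (t : Fin g → ℝ) : ∏ i, (X ^ 2 - C (t i) * X + 1 : ℝ[X]) = HC 1 (ee t) := by
  have hlow : ∀ k, k ≤ g → (∏ i, (X ^ 2 - C (t i) * X + 1 : ℝ[X])).coeff k = hc 1 (ee t) k := by
    intro k hk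
    rcases Nat.eq_zero_or_pos k with h0 | h0
    · subst h0
      rw [hc_zero, coeff_zero_eq_eval_zero, eval_prod]
      simp
    · have h1 := hc_mid (1 : ℝ) (ee t) (⟨k - 1, by omega⟩ : Fin g)
      have h2 : ((⟨k - 1, by omega⟩ : Fin g) : ℕ) + 1 = k := by
        simp only
        omega
      rw [h2] at h1
      rw [h1]
      unfold ee
      rw [h2]
  ext k
  rw [HC_coeff]
  rcases le_or_gt k (2 * g) with hk | hk
  · rcases le_or_gt k g with h1 | h1
    · exact hlow k h1
    · rw [ep_pal t k hk, hlow _ (by omega), hc_pal hg _ _ _ hk]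
  · rw [hc_big _ _ _ hk]
    exact coeff_eq_zero_of_natDegree_lt (by rw [ep_deg]; exact hk)

lemma ee_continuous {g : ℕ} : Continuous (ee : (Fin g → ℝ) → (Fin g → ℝ)) := by
  refine continuous_pi fun j => ?_
  unfold ee
  refine Helper3.continuous_coeff_prod (Finset.univ : Finset (Fin g))
    (fun i (t : Fin g → ℝ) => (X ^ 2 - C (t i) * X + 1 : ℝ[X])) ?_ ((j : ℕ) + 1)
  intro i k
  have h : ∀ t : Fin g → ℝ, (X ^ 2 - C (t i) * X + 1 : ℝ[X]).coeff k =
      (X ^ 2 + 1 : ℝ[X]).coeff k - t i * (X : ℝ[X]).coeff k := by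
    intro t
    rw [show (X ^ 2 - C (t i) * X + 1 : ℝ[X]) = (X ^ 2 + 1) - C (t i) * X by ring,
      coeff_sub, coeff_C_mul]
  simp only [h]
  fun_prop

private lemma ep_shift (f : ℕ → ℝ) (d N : ℕ) :
    ∑ k ∈ Finset.range N, (if d ≤ k then f (k - d) else 0) = ∑ k ∈ Finset.range (N - d), f k := by
  induction N with
  | zero => simp
  | succ N ih =>
    rw [Finset.sum_range_succ, ih]
    split_ifs with h
    · rw [show N + 1 - d = (N - d) + 1 by omega, Finset.sum_range_succ]
    · rw [show N + 1 - d = N - d by omega, add_zero]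

private lemma ep_coeff (a : ℝ) (D : ℝ[X]) (k : ℕ) :
    ((X ^ 2 - C a * X + 1) * D).coeff k = (if 2 ≤ k then D.coeff (k - 2) else 0) -
      a * (if 1 ≤ k then D.coeff (k - 1) else 0) + D.coeff k := by
  rw [show (X ^ 2 - C a * X + 1) * D = X ^ 2 * D - C a * (X ^ 1 * D) + D by ring, coeff_add,
    coeff_sub, coeff_C_mul, coeff_X_pow_mul', coeff_X_pow_mul']

private lemma ep_sum {g : ℕ} (t : Fin g → ℝ) (ht : ∀ i, |t i| ≤ 2) (s : Finset (Fin g)) :
    ∀ N, ∑ k ∈ Finset.range N, |(∏ i ∈ s, (X ^ 2 - C (t i) * X + 1 : ℝ[X])).coeff k| ≤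
      4 ^ s.card := by
  classical
  induction s using Finset.induction_on with
  | empty =>
    intro N
    rw [Finset.prod_empty, Finset.card_empty, pow_zero]
    have h : ∀ k, |(1 : ℝ[X]).coeff k| = if k = 0 then 1 else 0 := by
      intro k
      rw [coeff_one]
      split_ifs <;> simp
    simp only [h]
    rw [Finset.sum_ite_eq']
    split_ifs <;> norm_num
  | insert i s hi ih =>
    intro N
    rw [Finset.prod_insert hi, Finset.card_insert_of_notMem hi]
    set D : ℝ[X] := ∏ i ∈ s, (X ^ 2 - C (t i) * X + 1) with hD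
    have h1 : ∀ k, |((X ^ 2 - C (t i) * X + 1) * D).coeff k| ≤
        (if 2 ≤ k then |D.coeff (k - 2)| else 0) +
          2 * (if 1 ≤ k then |D.coeff (k - 1)| else 0) + |D.coeff k| := by
      intro k
      rw [ep_coeff]
      have h2 : |(if 2 ≤ k then D.coeff (k - 2) else 0)| =
          (if 2 ≤ k then |D.coeff (k - 2)| else 0) := by split_ifs <;> simp
      have h3 : |(if 1 ≤ k then D.coeff (k - 1) else 0)| =
          (if 1 ≤ k then |D.coeff (k - 1)| else 0) := by split_ifs <;> simp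
      have h4 : |t i * (if 1 ≤ k then D.coeff (k - 1) else 0)| ≤
          2 * (if 1 ≤ k then |D.coeff (k - 1)| else 0) := by
        rw [abs_mul, h3]
        refine mul_le_mul_of_nonneg_right (ht i) ?_
        split_ifs
        · exact abs_nonneg _
        · exact le_rfl
      refine (abs_add_le _ _).trans (add_le_add ?_ le_rfl)
      refine (abs_sub _ _).trans ?_
      rw [h2]
      exact add_le_add le_rfl h4
    refine (Finset.sum_le_sum fun k _ => h1 k).trans ?_
    rw [Finset.sum_add_distrib, Finset.sum_add_distrib, ← Finset.mul_sum,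
      ep_shift (fun k => |D.coeff k|) 2 N, ep_shift (fun k => |D.coeff k|) 1 N]
    have h5 := ih (N - 2)
    have h6 := ih (N - 1)
    have h7 := ih N
    rw [pow_succ]
    linarith

lemma coeff_bound {g : ℕ} (hg : 1 ≤ g) (t : Fin g → ℝ) (ht : ∀ i, |t i| ≤ 2) (k : ℕ) : |hc 1 (ee t) k| ≤ 4 ^ g := by
  rw [← HC_coeff, ← ee_prod hg t]
  have h1 := ep_sum t ht Finset.univ (k + 1)
  rw [Finset.card_univ, Fintype.card_fin] at h1
  refine le_trans ?_ h1
  exact Finset.single_le_sum
    (f := fun k => |(∏ i, (X ^ 2 - C (t i) * X + 1 : ℝ[X])).coeff k|)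
    (fun _ _ => abs_nonneg _) (Finset.self_mem_range_succ k)

lemma ee_bound {g : ℕ} (hg : 1 ≤ g) (t : Fin g → ℝ) (ht : ∀ i, |t i| ≤ 2) (j : Fin g) : |ee t j| ≤ 4 ^ g := by
  have := coeff_bound hg t ht (j + 1)
  rwa [hc_mid] at this

lemma OmBar_compact (g : ℕ) : IsCompact (OmBar g) := by
  unfold OmBar
  refine IsCompact.image ?_ ee_continuous
  have h : {t : Fin g → ℝ | ∀ j, |t j| ≤ 2} = Set.pi Set.univ (fun _ => Set.Icc (-2) 2) := by
    ext t
    simp only [Set.mem_ofPred_eq, Set.mem_pi, Set.mem_univ, forall_const, Set.mem_Icc, abs_le]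
  rw [h]
  exact isCompact_univ_pi fun _ => isCompact_Icc

end Pool.Agent.Helper11.SP
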