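import Pool.Agent.Helper11.SP.Defs

/-!
SP-23. Volume and openness of open simplices (proved by helper85).

Proof. Let `Δ = {y : Fin g → ℝ | (∀ j, 0 < y j) ∧ ∑ y j < 1}` (open).  `sx V = V 0 + M(Δ)` where `M y = ∑ y_j (V (j+1) - V 0)` is the linear
map with matrix `A j i = V (j+1) i - V 0 i` (transposed): given weights `w`, `y j = w (j+1)`; conversely `w 0 = 1 - ∑ y`.
Volume: `volume (V 0 + M(Δ)) = |det M| volume Δ` (`MeasureTheory.Measure.addHaar_image_linearMap`, translation invariance).
`volume Δ ≥ 1/g!`: the cross polytope `{y | ∑ |y j| < 1}` has volume `2^g / g!` (`MeasureTheory.volume_sum_rpow_lt_one` with `p = 1`: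
`(2 Γ(2))^g / Γ(g + 1)`), and up to the null set where some `y j = 0` it is the union over the `2^g` sign vectors `ε` of the images of `Δ` under
`y ↦ (ε_j y_j)`, each of the same volume as `Δ` (determinant `±1`); so `2^g / g! ≤ 2^g volume Δ` (`measure_iUnion_le`,
hyperplanes are null sets, `Measure.addHaar_submodule` / `Real.volume_pi...`).  (Another way: induction on `g` by Fubini.)
Openness: if the determinant is not zero, `M` is a linear homeomorphism.
-/

open MeasureTheory

namespace Pool.Agent.Helper11.SP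

/-- The open standard simplex. -/
def simp (g : ℕ) : Set (Fin g → ℝ) := {y | (∀ j, 0 < y j) ∧ ∑ j, y j < 1}

lemma simp_open (g : ℕ) : IsOpen (simp g) := by
  have h1 : IsOpen {y : Fin g → ℝ | ∀ j, 0 < y j} := by
    simp only [Set.ofPred_forall]
    exact isOpen_iInter_of_finite (fun j => isOpen_lt continuous_const (continuous_apply j))
  have h2 : IsOpen {y : Fin g → ℝ | ∑ j, y j < 1} :=
    isOpen_lt (continuous_finsetSum _ (fun j _ => continuous_apply j)) continuous_const
  exact h1.inter h2

/-- Sign change. -/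
def sgn {g : ℕ} (e : Fin g → Bool) (y : Fin g → ℝ) : Fin g → ℝ := fun j => if e j then y j else - y j

lemma sgn_mp {g : ℕ} (e : Fin g → Bool) : MeasurePreserving (sgn e) (volume : Measure (Fin g → ℝ)) volume := by
  have h := volume_preserving_pi (ι := Fin g) (α' := fun _ => ℝ) (β' := fun _ => ℝ)
    (f := fun j => if e j then (fun x : ℝ => x) else (fun x : ℝ => -x)) (fun j => by
      by_cases hj : e j
      · simp only [hj, if_true]; exact MeasurePreserving.id _
      · simp only [hj]; exact Measure.measurePreserving_neg volume)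
  have hh : sgn e = fun (a : Fin g → ℝ) i => (if e i = true then (fun x : ℝ => x) else (fun x : ℝ => -x)) (a i) := by
    funext y j
    unfold sgn
    by_cases hj : e j <;> simp [hj]
  rw [hh]
  exact h

lemma vol_simp (g : ℕ) : ENNReal.ofReal (1 / (g.factorial : ℝ)) ≤ volume (simp g) := by
  have h1 := volume_sum_rpow_lt_one (Fin g) (p := 1) le_rfl
  have h2 : {x : Fin g → ℝ | ∑ i, |x i| ^ (1 : ℝ) < 1} ⊆
      (⋃ e : Fin g → Bool, sgn e ⁻¹' simp g) ∪ ⋃ j : Fin g, {x : Fin g → ℝ | x j = 0} := by
    intro x hx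
    simp only [Set.mem_ofPred_eq, Real.rpow_one] at hx
    by_cases h0 : ∃ j, x j = 0
    · obtain ⟨j, hj⟩ := h0
      exact Or.inr (Set.mem_iUnion.2 ⟨j, hj⟩)
    · push Not at h0
      refine Or.inl (Set.mem_iUnion.2 ⟨fun j => decide (0 < x j), ?_⟩)
      have h3 : sgn (fun j => decide (0 < x j)) x = fun j => |x j| := by
        funext j
        unfold sgn
        by_cases hj : 0 < x j
        · simp [hj, abs_of_pos hj]
        · have : x j < 0 := lt_of_le_of_ne (not_lt.1 hj) (h0 j)
          simp [hj, abs_of_neg this]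
      refine ⟨fun j => ?_, ?_⟩
      · rw [h3]; exact abs_pos.2 (h0 j)
      · rw [h3]; exact hx
  have h3 : volume (⋃ j : Fin g, {x : Fin g → ℝ | x j = 0}) = 0 := by
    rw [measure_iUnion_null_iff]
    intro j
    have : {x : Fin g → ℝ | x j = 0} = Function.eval j ⁻¹' {0} := rfl
    rw [this]
    exact Measure.pi_hyperplane _ j 0
  have h4 : volume (⋃ e : Fin g → Bool, sgn e ⁻¹' simp g) ≤ (2 : ENNReal) ^ g * volume (simp g) := by
    refine (measure_iUnion_fintype_le _ _).trans ?_
    have : ∀ e : Fin g → Bool, volume (sgn e ⁻¹' simp g) = volume (simp g) := fun e =>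
      (sgn_mp e).measure_preimage (simp_open g).measurableSet.nullMeasurableSet
    simp only [this, Finset.sum_const, Finset.card_univ, Fintype.card_fun, Fintype.card_bool, Fintype.card_fin,
      nsmul_eq_mul]
    push_cast
    exact le_rfl
  have h5 : (2 : ENNReal) ^ g * ENNReal.ofReal (1 / (g.factorial : ℝ)) ≤ (2 : ENNReal) ^ g * volume (simp g) := by
    calc (2 : ENNReal) ^ g * ENNReal.ofReal (1 / (g.factorial : ℝ))
        = ENNReal.ofReal ((2 * Real.Gamma (1 / 1 + 1)) ^ Fintype.card (Fin g) /
            Real.Gamma (Fintype.card (Fin g) / 1 + 1)) := by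
          have e1 : Real.Gamma (1 / 1 + 1) = 1 := by
            rw [div_one, one_add_one_eq_two]; exact Real.Gamma_two
          have e2 : Real.Gamma (Fintype.card (Fin g) / 1 + 1) = (g.factorial : ℝ) := by
            rw [Fintype.card_fin, div_one, Real.Gamma_nat_eq_factorial]
          rw [e1, e2, mul_one, Fintype.card_fin]
          have e3 : (2 : ENNReal) ^ g = ENNReal.ofReal (2 ^ g) := by
            rw [ENNReal.ofReal_pow (by norm_num)]; norm_num
          rw [e3, ← ENNReal.ofReal_mul (by positivity)]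
          congr 1
          ring
      _ = volume {x : Fin g → ℝ | ∑ i, |x i| ^ (1 : ℝ) < 1} := h1.symm
      _ ≤ _ := measure_mono h2
      _ ≤ _ := measure_union_le _ _
      _ = volume (⋃ e : Fin g → Bool, sgn e ⁻¹' simp g) := by rw [h3, add_zero]
      _ ≤ _ := h4
  exact (ENNReal.mul_le_mul_iff_right (pow_ne_zero _ (by norm_num)) (ENNReal.pow_ne_top (by norm_num))).1 h5

lemma sx_eq {g : ℕ} (V : Fin (g + 1) → (Fin g → ℝ)) :
    sx V = (fun x => V 0 + x) ''
      ((Matrix.toLin' (Matrix.transpose (fun i j : Fin g => V i.succ j - V 0 j))) '' simp g) := by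
  have key : ∀ y : Fin g → ℝ, V 0 + (Matrix.toLin' (Matrix.transpose (fun i j : Fin g => V i.succ j - V 0 j))) y =
      (1 - ∑ i, y i) • V 0 + ∑ i, y i • V i.succ := by
    intro y
    funext j
    simp only [Pi.add_apply, Matrix.toLin'_apply, Matrix.mulVec, dotProduct, Matrix.transpose_apply, Pi.smul_apply,
      smul_eq_mul, Finset.sum_apply]
    have : ∑ i, (V i.succ j - V 0 j) * y i = ∑ i, y i * V i.succ j - (∑ i, y i) * V 0 j := by
      rw [Finset.sum_mul, ← Finset.sum_sub_distrib]
      exact Finset.sum_congr rfl (fun i _ => by ring)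
    rw [this]; ring
  ext x
  constructor
  · rintro ⟨w, hw, h1, rfl⟩
    refine ⟨_, ⟨fun i => w i.succ, ⟨fun j => hw _, ?_⟩, rfl⟩, ?_⟩
    · rw [Fin.sum_univ_succ] at h1
      have := hw 0
      linarith
    · show V 0 + _ = _
      rw [Fin.sum_univ_succ] at h1
      rw [key, Fin.sum_univ_succ]
      have : w 0 = 1 - ∑ i : Fin g, w i.succ := by linarith
      rw [this]
  · rintro ⟨_, ⟨y, ⟨hy, hs⟩, rfl⟩, rfl⟩
    refine ⟨Fin.cons (1 - ∑ i, y i) y, ?_, ?_, ?_⟩
    · intro i
      refine Fin.cases ?_ (fun j => ?_) i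
      · simpa using hs
      · simpa using hy j
    · rw [Fin.sum_univ_succ]; simp
    · show V 0 + _ = _
      rw [key, Fin.sum_univ_succ]; simp

theorem sx_vol {g : ℕ} (V : Fin (g + 1) → (Fin g → ℝ)) :
    ENNReal.ofReal (|Matrix.det (fun i j : Fin g => V i.succ j - V 0 j)| / (g.factorial : ℝ)) ≤ volume (sx V) := by
  rw [sx_eq, Set.image_add_left, measure_preimage_add, Measure.addHaar_image_linearMap, LinearMap.det_toLin',
    Matrix.det_transpose, div_eq_mul_one_div, ENNReal.ofReal_mul (abs_nonneg _)]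
  gcongr
  exact vol_simp g

theorem sx_open {g : ℕ} (V : Fin (g + 1) → (Fin g → ℝ)) (hV : Matrix.det (fun i j : Fin g => V i.succ j - V 0 j) ≠ 0) :
    IsOpen (sx V) := by
  rw [sx_eq]
  refine (Homeomorph.addLeft (V 0)).isOpenMap _ ?_
  have hd : LinearMap.det (Matrix.toLin' (Matrix.transpose (fun i j : Fin g => V i.succ j - V 0 j))) ≠ 0 := by
    rw [LinearMap.det_toLin', Matrix.det_transpose]; exact hV
  have h2 := ((LinearMap.equivOfDetNeZero _ hd).toContinuousLinearEquiv.toHomeomorph.isOpenMap) _ (simp_open g)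
  exact h2

end Pool.Agent.Helper11.SP
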