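import Pool.Agent.Helper11.SP.Run2
import Pool.Agent.Helper11.SP.Simplex
import Pool.Agent.Helper11.SP.SxVol

/-!
SP-33. Geometry of the fans in the plane.

Points: `pt2 X Y D = (X/D - 4, Y/D - 2)`.  For three points with positive `D_i` the determinant of `sx_vol` for `V = ![P1, P2, P3]` is
`(dpos - dneg) / (D1 D2 D3)` (`det_fin_two`, `field_simp`, `ring`): the shift by `(4, 2)` drops out.
`fan_sound` by induction on `l` (with cases on the tail): for `l = (X2,Y2,D2) :: (X3,Y3,D3) :: r` the open triangle `T = sx ![P1,P2,P3]` is open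
with volume at least `(dpos - dneg) / (2 D1 D2 D3) ≥ (⌊10^9 (dpos - dneg) / (D1 D2 D3)⌋) / (2 * 10^9)`; the rest of the fan is in the closed half
plane on the left of the line `P1 P3`: the affine function `ℓ(Q) = det(P1, P3, Q)` is `0` at `P1`, `P3`, `< 0` at `P2`, `≥ 0` at the points of `r`
(`left2`), so `T` is disjoint from every triangle `sx ![P1, W, W']` of the rest (`W, W'` among `P3` and `r`) by `sx_disjoint`.
`fan_mem` gives the description of the points of the fan region as points of open triangles with nonzero determinant and vertices in the list.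
-/

open MeasureTheory

namespace Pool.Agent.Helper11.SP

/-- The point of a vertex. -/
noncomputable def pt2 (X Y D : ℕ) : Fin 2 → ℝ := ![(X : ℝ) / D - 4, (Y : ℝ) / D - 2]

/-- Union of the open triangles of the fan. -/
def fanReg (X1 Y1 D1 : ℕ) : VL → Set (Fin 2 → ℝ)
  | VL.nil => ∅
  | VL.cons _ _ _ _ VL.nil => ∅
  | VL.cons X2 Y2 D2 _ (VL.cons X3 Y3 D3 c3 r) =>
      sx ![pt2 X1 Y1 D1, pt2 X2 Y2 D2, pt2 X3 Y3 D3] ∪ fanReg X1 Y1 D1 (VL.cons X3 Y3 D3 c3 r)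

private lemma brec (x b : Bool) : Bool.rec (motive := fun _ => Bool) false x b = (b && x) := by
  cases b <;> rfl

private def dt (P Q R : Fin 2 → ℝ) : ℝ := (Q 0 - P 0) * (R 1 - P 1) - (Q 1 - P 1) * (R 0 - P 0)

private lemma det_eq (P Q R : Fin 2 → ℝ) :
    Matrix.det (fun i j : Fin 2 => (![P, Q, R] : Fin 3 → Fin 2 → ℝ) i.succ j
      - (![P, Q, R] : Fin 3 → Fin 2 → ℝ) 0 j) = dt P Q R := by
  have h := Matrix.det_fin_two (fun i j : Fin 2 => (![P, Q, R] : Fin 3 → Fin 2 → ℝ) i.succ j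
      - (![P, Q, R] : Fin 3 → Fin 2 → ℝ) 0 j)
  rw [h]
  rfl

private lemma dt_pt2 (X1 Y1 D1 X2 Y2 D2 X3 Y3 D3 : ℕ) (h1 : 0 < D1) (h2 : 0 < D2) (h3 : 0 < D3) :
    dt (pt2 X1 Y1 D1) (pt2 X2 Y2 D2) (pt2 X3 Y3 D3) =
      ((dpos X1 Y1 D1 X2 Y2 D2 X3 Y3 D3 : ℝ) - dneg X1 Y1 D1 X2 Y2 D2 X3 Y3 D3) /
        ((D1 : ℝ) * ((D2 : ℝ) * D3)) := by
  have h1' : (D1 : ℝ) ≠ 0 := by exact_mod_cast h1.ne'
  have h2' : (D2 : ℝ) ≠ 0 := by exact_mod_cast h2.ne'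
  have h3' : (D3 : ℝ) ≠ 0 := by exact_mod_cast h3.ne'
  have e1 : (dpos X1 Y1 D1 X2 Y2 D2 X3 Y3 D3 : ℝ) = X1 * (Y2 * D3) + Y1 * (X3 * D2) + D1 * (X2 * Y3) := by
    unfold dpos
    simp only [Nat.add_eq, Nat.mul_eq]
    push_cast
    ring
  have e2 : (dneg X1 Y1 D1 X2 Y2 D2 X3 Y3 D3 : ℝ) = X1 * (Y3 * D2) + Y1 * (X2 * D3) + D1 * (X3 * Y2) := by
    unfold dneg
    simp only [Nat.add_eq, Nat.mul_eq]
    push_cast
    ring
  rw [e1, e2]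
  simp only [dt, pt2, Matrix.cons_val_zero, Matrix.cons_val_one]
  field_simp
  ring

private lemma left2_iff (X1 Y1 D1 X2 Y2 D2 : ℕ) (l : VL) (h : left2 X1 Y1 D1 X2 Y2 D2 l = true) :
    ∀ v ∈ l.toL, dneg X1 Y1 D1 X2 Y2 D2 v.1 v.2.1 v.2.2.1 ≤ dpos X1 Y1 D1 X2 Y2 D2 v.1 v.2.1 v.2.2.1 := by
  induction l with
  | nil =>
    intro v hv
    simp [VL.toL] at hv
  | cons X3 Y3 D3 c3 r ih =>
    have e : left2 X1 Y1 D1 X2 Y2 D2 (VL.cons X3 Y3 D3 c3 r) =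
        Bool.rec (motive := fun _ => Bool) false (left2 X1 Y1 D1 X2 Y2 D2 r)
          (Nat.ble (dneg X1 Y1 D1 X2 Y2 D2 X3 Y3 D3) (dpos X1 Y1 D1 X2 Y2 D2 X3 Y3 D3)) := rfl
    rw [e, brec, Bool.and_eq_true] at h
    intro v hv
    simp only [VL.toL, List.mem_cons] at hv
    rcases hv with rfl | hv
    · exact Nat.le_of_ble_eq_true h.1
    · exact ih h.2 v hv

private lemma fan2_cons (X1 Y1 D1 X2 Y2 D2 c2 X3 Y3 D3 c3 : ℕ) (r : VL)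
    (h : fan2 X1 Y1 D1 (VL.cons X2 Y2 D2 c2 (VL.cons X3 Y3 D3 c3 r)) = true) :
    dneg X1 Y1 D1 X2 Y2 D2 X3 Y3 D3 < dpos X1 Y1 D1 X2 Y2 D2 X3 Y3 D3 ∧
      left2 X1 Y1 D1 X3 Y3 D3 r = true ∧ fan2 X1 Y1 D1 (VL.cons X3 Y3 D3 c3 r) = true := by
  have e : fan2 X1 Y1 D1 (VL.cons X2 Y2 D2 c2 (VL.cons X3 Y3 D3 c3 r)) =
      Bool.rec (motive := fun _ => Bool) false (fan2 X1 Y1 D1 (VL.cons X3 Y3 D3 c3 r))
        (and (Nat.ble (Nat.succ (dneg X1 Y1 D1 X2 Y2 D2 X3 Y3 D3)) (dpos X1 Y1 D1 X2 Y2 D2 X3 Y3 D3))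
          (left2 X1 Y1 D1 X3 Y3 D3 r)) := rfl
  rw [e, brec, Bool.and_eq_true, Bool.and_eq_true] at h
  exact ⟨Nat.le_of_ble_eq_true h.1.1, h.1.2, h.2⟩

private lemma dt_pos (X1 Y1 D1 X2 Y2 D2 X3 Y3 D3 : ℕ) (h1 : 0 < D1) (h2 : 0 < D2) (h3 : 0 < D3)
    (h : dneg X1 Y1 D1 X2 Y2 D2 X3 Y3 D3 < dpos X1 Y1 D1 X2 Y2 D2 X3 Y3 D3) :
    0 < dt (pt2 X1 Y1 D1) (pt2 X2 Y2 D2) (pt2 X3 Y3 D3) := by
  rw [dt_pt2 _ _ _ _ _ _ _ _ _ h1 h2 h3]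
  have h' : (dneg X1 Y1 D1 X2 Y2 D2 X3 Y3 D3 : ℝ) < dpos X1 Y1 D1 X2 Y2 D2 X3 Y3 D3 := by
    exact_mod_cast h
  have h1' : (0 : ℝ) < D1 := by exact_mod_cast h1
  have h2' : (0 : ℝ) < D2 := by exact_mod_cast h2
  have h3' : (0 : ℝ) < D3 := by exact_mod_cast h3
  exact div_pos (by linarith) (by positivity)

private lemma dt_nonneg (X1 Y1 D1 X2 Y2 D2 X3 Y3 D3 : ℕ) (h1 : 0 < D1) (h2 : 0 < D2) (h3 : 0 < D3)
    (h : dneg X1 Y1 D1 X2 Y2 D2 X3 Y3 D3 ≤ dpos X1 Y1 D1 X2 Y2 D2 X3 Y3 D3) :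
    0 ≤ dt (pt2 X1 Y1 D1) (pt2 X2 Y2 D2) (pt2 X3 Y3 D3) := by
  rw [dt_pt2 _ _ _ _ _ _ _ _ _ h1 h2 h3]
  have h' : (dneg X1 Y1 D1 X2 Y2 D2 X3 Y3 D3 : ℝ) ≤ dpos X1 Y1 D1 X2 Y2 D2 X3 Y3 D3 := by
    exact_mod_cast h
  exact div_nonneg (by linarith) (by positivity)

lemma fan_mem (X1 Y1 D1 : ℕ) (hD1 : 0 < D1) (l : VL) (hl : ∀ v ∈ l.toL, 0 < v.2.2.1) (h : fan2 X1 Y1 D1 l = true)
    (x : Fin 2 → ℝ) (hx : x ∈ fanReg X1 Y1 D1 l) :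
    ∃ v ∈ l.toL, ∃ w ∈ l.toL, x ∈ sx ![pt2 X1 Y1 D1, pt2 v.1 v.2.1 v.2.2.1, pt2 w.1 w.2.1 w.2.2.1] ∧
      Matrix.det (fun i j : Fin 2 => (![pt2 X1 Y1 D1, pt2 v.1 v.2.1 v.2.2.1, pt2 w.1 w.2.1 w.2.2.1] : Fin 3 → Fin 2 → ℝ) i.succ j
        - (![pt2 X1 Y1 D1, pt2 v.1 v.2.1 v.2.2.1, pt2 w.1 w.2.1 w.2.2.1] : Fin 3 → Fin 2 → ℝ) 0 j) ≠ 0 := by
  induction l with
  | nil => exact absurd hx (Set.notMem_empty x)
  | cons X2 Y2 D2 c2 l ih =>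
    cases l with
    | nil => exact absurd hx (Set.notMem_empty x)
    | cons X3 Y3 D3 c3 r =>
      obtain ⟨h1, h2, h3⟩ := fan2_cons _ _ _ _ _ _ _ _ _ _ _ _ h
      have hD2 : 0 < D2 := hl (X2, Y2, D2, c2) (by simp [VL.toL])
      have hD3 : 0 < D3 := hl (X3, Y3, D3, c3) (by simp [VL.toL])
      have hx' : x ∈ sx ![pt2 X1 Y1 D1, pt2 X2 Y2 D2, pt2 X3 Y3 D3] ∪
        fanReg X1 Y1 D1 (VL.cons X3 Y3 D3 c3 r) := hx
      rcases hx' with hx' | hx'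
      · refine ⟨(X2, Y2, D2, c2), by simp [VL.toL], (X3, Y3, D3, c3), by simp [VL.toL], hx', ?_⟩
        rw [det_eq]
        exact (dt_pos _ _ _ _ _ _ _ _ _ hD1 hD2 hD3 h1).ne'
      · obtain ⟨v, hv, w, hw, hvw⟩ := ih (fun v hv => hl v (List.mem_cons_of_mem _ hv)) h3 hx'
        exact ⟨v, List.mem_cons_of_mem _ hv, w, List.mem_cons_of_mem _ hw, hvw⟩

private lemma aff_dt (P Q R : Fin 2 → ℝ) :
    ∑ j, (![-(Q 1 - P 1), Q 0 - P 0] : Fin 2 → ℝ) j * R j + ((Q 1 - P 1) * P 0 - (Q 0 - P 0) * P 1) =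
      dt P Q R := by
  rw [Fin.sum_univ_two]
  simp only [Matrix.cons_val_zero, Matrix.cons_val_one, dt]
  ring

theorem fan_sound (X1 Y1 D1 : ℕ) (hD1 : 0 < D1) (l : VL) (hl : ∀ v ∈ l.toL, 0 < v.2.2.1) (h : fan2 X1 Y1 D1 l = true) :
    IsOpen (fanReg X1 Y1 D1 l) ∧ ENNReal.ofReal ((wfan2 X1 Y1 D1 l : ℝ) / (2 * 10 ^ 9)) ≤ volume (fanReg X1 Y1 D1 l) := by
  induction l with
  | nil =>
    have e : wfan2 X1 Y1 D1 VL.nil = 0 := rfl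
    refine ⟨isOpen_empty, ?_⟩
    rw [e]
    simp
  | cons X2 Y2 D2 c2 l ih =>
    cases l with
    | nil =>
      have e : wfan2 X1 Y1 D1 (VL.cons X2 Y2 D2 c2 VL.nil) = 0 := rfl
      refine ⟨isOpen_empty, ?_⟩
      rw [e]
      simp
    | cons X3 Y3 D3 c3 r =>
      obtain ⟨h1, h2, h3⟩ := fan2_cons _ _ _ _ _ _ _ _ _ _ _ _ h
      have hD2 : 0 < D2 := hl (X2, Y2, D2, c2) (by simp [VL.toL])
      have hD3 : 0 < D3 := hl (X3, Y3, D3, c3) (by simp [VL.toL])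
      have hl' : ∀ v ∈ (VL.cons X3 Y3 D3 c3 r).toL, 0 < v.2.2.1 :=
        fun v hv => hl v (List.mem_cons_of_mem _ hv)
      obtain ⟨ho, hv⟩ := ih hl' h3
      have hpos := dt_pos _ _ _ _ _ _ _ _ _ hD1 hD2 hD3 h1
      have hdet : Matrix.det (fun i j : Fin 2 =>
          (![pt2 X1 Y1 D1, pt2 X2 Y2 D2, pt2 X3 Y3 D3] : Fin 3 → Fin 2 → ℝ) i.succ j
          - (![pt2 X1 Y1 D1, pt2 X2 Y2 D2, pt2 X3 Y3 D3] : Fin 3 → Fin 2 → ℝ) 0 j) =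
          dt (pt2 X1 Y1 D1) (pt2 X2 Y2 D2) (pt2 X3 Y3 D3) := det_eq _ _ _
      have hTo : IsOpen (sx ![pt2 X1 Y1 D1, pt2 X2 Y2 D2, pt2 X3 Y3 D3]) :=
        sx_open _ (by rw [hdet]; exact hpos.ne')
      have hTv := sx_vol ![pt2 X1 Y1 D1, pt2 X2 Y2 D2, pt2 X3 Y3 D3]
      rw [hdet, abs_of_pos hpos] at hTv
      have hdis : Disjoint (sx ![pt2 X1 Y1 D1, pt2 X2 Y2 D2, pt2 X3 Y3 D3])
          (fanReg X1 Y1 D1 (VL.cons X3 Y3 D3 c3 r)) := by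
        rw [Set.disjoint_left]
        intro x hx hx'
        obtain ⟨v, hv, w, hw, hxw, -⟩ := fan_mem X1 Y1 D1 hD1 _ hl' h3 x hx'
        have hge : ∀ v ∈ (VL.cons X3 Y3 D3 c3 r).toL,
            0 ≤ dt (pt2 X1 Y1 D1) (pt2 X3 Y3 D3) (pt2 v.1 v.2.1 v.2.2.1) := by
          intro v hv
          have hv' := hv
          simp only [VL.toL, List.mem_cons] at hv'
          rcases hv' with rfl | hv'
          · simp only [dt]
            apply le_of_eq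
            ring
          · exact dt_nonneg _ _ _ _ _ _ _ _ _ hD1 hD3 (hl' v hv) (left2_iff _ _ _ _ _ _ _ h2 v hv')
        have hd := sx_disjoint ![pt2 X1 Y1 D1, pt2 X2 Y2 D2, pt2 X3 Y3 D3]
          ![pt2 X1 Y1 D1, pt2 v.1 v.2.1 v.2.2.1, pt2 w.1 w.2.1 w.2.2.1]
          ![-(pt2 X3 Y3 D3 1 - pt2 X1 Y1 D1 1), pt2 X3 Y3 D3 0 - pt2 X1 Y1 D1 0]
          ((pt2 X3 Y3 D3 1 - pt2 X1 Y1 D1 1) * pt2 X1 Y1 D1 0
            - (pt2 X3 Y3 D3 0 - pt2 X1 Y1 D1 0) * pt2 X1 Y1 D1 1) ?_ ?_ ?_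
        · exact Set.disjoint_left.1 hd hx hxw
        · intro i
          rw [aff_dt]
          fin_cases i
          · apply le_of_eq
            simp only [dt]
            simp
          · simp only [dt] at hpos ⊢
            simp
            linarith
          · apply le_of_eq
            simp only [dt]
            simp
            ring
        · refine ⟨1, ?_⟩
          rw [aff_dt]
          simp only [dt] at hpos ⊢
          simp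
          linarith
        · intro i
          rw [aff_dt]
          fin_cases i
          · apply le_of_eq
            simp only [dt]
            simp
          · exact hge v hv
          · exact hge w hw
      refine ⟨hTo.union ho, ?_⟩
      have e : wfan2 X1 Y1 D1 (VL.cons X2 Y2 D2 c2 (VL.cons X3 Y3 D3 c3 r)) =
          wfan2 X1 Y1 D1 (VL.cons X3 Y3 D3 c3 r) +
            (1000000000 * (dpos X1 Y1 D1 X2 Y2 D2 X3 Y3 D3 - dneg X1 Y1 D1 X2 Y2 D2 X3 Y3 D3)) /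
              (D1 * (D2 * D3)) := rfl
      have e2 : fanReg X1 Y1 D1 (VL.cons X2 Y2 D2 c2 (VL.cons X3 Y3 D3 c3 r)) =
        sx ![pt2 X1 Y1 D1, pt2 X2 Y2 D2, pt2 X3 Y3 D3] ∪ fanReg X1 Y1 D1 (VL.cons X3 Y3 D3 c3 r) := rfl
      rw [e, e2, measure_union hdis ho.measurableSet]
      have h4 : (((1000000000 * (dpos X1 Y1 D1 X2 Y2 D2 X3 Y3 D3 - dneg X1 Y1 D1 X2 Y2 D2 X3 Y3 D3)) /
              (D1 * (D2 * D3)) : ℕ) : ℝ) / (2 * 10 ^ 9) ≤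
            dt (pt2 X1 Y1 D1) (pt2 X2 Y2 D2) (pt2 X3 Y3 D3) / ((2 : ℕ).factorial : ℝ) := by
        have h5 := Nat.cast_div_le (α := ℝ)
          (m := 1000000000 * (dpos X1 Y1 D1 X2 Y2 D2 X3 Y3 D3 - dneg X1 Y1 D1 X2 Y2 D2 X3 Y3 D3))
          (n := D1 * (D2 * D3))
        have h6 : ((1000000000 * (dpos X1 Y1 D1 X2 Y2 D2 X3 Y3 D3 - dneg X1 Y1 D1 X2 Y2 D2 X3 Y3 D3) : ℕ) : ℝ)
            = 10 ^ 9 * ((dpos X1 Y1 D1 X2 Y2 D2 X3 Y3 D3 : ℝ) - dneg X1 Y1 D1 X2 Y2 D2 X3 Y3 D3) := by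
          rw [Nat.cast_mul, Nat.cast_sub h1.le]
          norm_num
        rw [h6] at h5
        rw [dt_pt2 _ _ _ _ _ _ _ _ _ hD1 hD2 hD3]
        have h7 : ((2 : ℕ).factorial : ℝ) = 2 := by norm_num [Nat.factorial]
        rw [h7]
        push_cast at h5
        rw [mul_div_assoc] at h5
        rw [div_le_div_iff₀ (by positivity) (by positivity)]
        nlinarith
      calc ENNReal.ofReal (((wfan2 X1 Y1 D1 (VL.cons X3 Y3 D3 c3 r) +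
            (1000000000 * (dpos X1 Y1 D1 X2 Y2 D2 X3 Y3 D3 - dneg X1 Y1 D1 X2 Y2 D2 X3 Y3 D3)) /
              (D1 * (D2 * D3)) : ℕ) : ℝ) / (2 * 10 ^ 9))
          = ENNReal.ofReal ((((1000000000 * (dpos X1 Y1 D1 X2 Y2 D2 X3 Y3 D3 -
              dneg X1 Y1 D1 X2 Y2 D2 X3 Y3 D3)) / (D1 * (D2 * D3)) : ℕ) : ℝ) / (2 * 10 ^ 9)) +
            ENNReal.ofReal ((wfan2 X1 Y1 D1 (VL.cons X3 Y3 D3 c3 r) : ℝ) / (2 * 10 ^ 9)) := by
            rw [← ENNReal.ofReal_add (by positivity) (by positivity)]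
            congr 1
            rw [Nat.cast_add]
            ring
        _ ≤ _ := add_le_add ((ENNReal.ofReal_le_ofReal h4).trans hTv) hv

end Pool.Agent.Helper11.SP
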