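import Pool.Agent.Helper11.SP.Pert

/-!
SP-40. Explicit formula for `Fc` and membership in `Om` for `g = 3` (compare `FcTwo.lean`).

`Fc_three`: `coeff_mul` and `hc 1 ![a, b, c] k = 1, a, b, c, b, a, 1` for `k = 0, ..., 6` and `0` for `k > 6`.
`om_three`: `f u = u³ + a u² + (b - 3) u + (c - 2 a)` has `f (-2) < 0 < f u1`, `f u2 < 0 < f 2`; by the intermediate value theorem it has
roots `t0 ∈ (-2, u1)`, `t1 ∈ (u1, u2)`, `t2 ∈ (u2, 2)`, so `a = -(t0+t1+t2)`, `b - 3 = t0 t1 + t0 t2 + t1 t2`, `c - 2 a = - t0 t1 t2`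
(divided differences: subtract the equations and divide by `t0 - t1`, `t0 - t2`, ... ).
`∏ (X² - t_i X + 1)` has coefficients `-(t0+t1+t2)` at `X`, `3 + (t0 t1 + t0 t2 + t1 t2)` at `X²`, `-2 (t0+t1+t2) - t0 t1 t2` at `X³`,
so `ee ![t0, t1, t2] = ![a, b, c]`.
-/

open Polynomial

namespace Pool.Agent.Helper11.SP

private lemma HC_three (a b c : ℝ) :
    HC 1 ![a, b, c] = (1 + C a * X + C b * X ^ 2 + C c * X ^ 3 + C b * X ^ 4 + C a * X ^ 5 + X ^ 6 : ℝ[X]) := by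
  have h0 : hc (1 : ℝ) ![a, b, c] 0 = 1 := hc_zero _ _
  have h1 : hc (1 : ℝ) ![a, b, c] 1 = a := by simp [hc]
  have h2 : hc (1 : ℝ) ![a, b, c] 2 = b := by simp [hc]
  have h3 : hc (1 : ℝ) ![a, b, c] 3 = c := by simp [hc]
  have h4 : hc (1 : ℝ) ![a, b, c] 4 = b := by simp [hc]
  have h5 : hc (1 : ℝ) ![a, b, c] 5 = a := by simp [hc]
  have h6 : hc (1 : ℝ) ![a, b, c] 6 = 1 := by simp [hc]
  unfold HC
  simp only [Finset.sum_range_succ, Finset.sum_range_zero,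
    ← C_mul_X_pow_eq_monomial, h0, h1, h2, h3, h4, h5, h6, C_1, pow_zero, pow_one, zero_add, one_mul, mul_one]

lemma Fc_three (a b c : ℝ) (n : ℤ[X]) (i : ℕ) :
    Fc ![a, b, c] n i = (n.coeff i : ℝ) + (if 1 ≤ i then a * n.coeff (i - 1) else 0) + (if 2 ≤ i then b * n.coeff (i - 2) else 0)
      + (if 3 ≤ i then c * n.coeff (i - 3) else 0) + (if 4 ≤ i then b * n.coeff (i - 4) else 0)
      + (if 5 ≤ i then a * n.coeff (i - 5) else 0) + (if 6 ≤ i then (n.coeff (i - 6) : ℝ) else 0) := by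
  unfold Fc
  rw [HC_three]
  set N := n.map (Int.castRingHom ℝ) with hN
  have h : (1 + C a * X + C b * X ^ 2 + C c * X ^ 3 + C b * X ^ 4 + C a * X ^ 5 + X ^ 6 : ℝ[X]) * N =
      N + C a * (X ^ 1 * N) + C b * (X ^ 2 * N) + C c * (X ^ 3 * N) + C b * (X ^ 4 * N) + C a * (X ^ 5 * N)
        + X ^ 6 * N := by ring
  have hc : ∀ k, N.coeff k = (n.coeff k : ℝ) := by
    intro k
    rw [hN, coeff_map]
    rfl
  rw [h]
  simp only [coeff_add, coeff_C_mul, coeff_X_pow_mul', hc, mul_ite, mul_zero]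

lemma om_three (a b c u1 u2 : ℝ) (h0 : -2 < u1) (h12 : u1 < u2) (h3 : u2 < 2)
    (e0 : 2 * a + c < 2 + 2 * b) (e1 : 0 < u1 ^ 3 + a * u1 ^ 2 + (b - 3) * u1 + (c - 2 * a))
    (e2 : u2 ^ 3 + a * u2 ^ 2 + (b - 3) * u2 + (c - 2 * a) < 0) (e3 : 0 < 2 + 2 * a + 2 * b + c) :
    ![a, b, c] ∈ Om 3 := by
  set f : ℝ → ℝ := fun t => t ^ 3 + a * t ^ 2 + (b - 3) * t + (c - 2 * a) with hf
  have hfc : Continuous f := by rw [hf]; fun_prop
  have hf1 : f (-2) < 0 := by rw [hf]; simp only; linarith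
  have hf2 : 0 < f 2 := by rw [hf]; simp only; linarith
  have hfu1 : 0 < f u1 := e1
  have hfu2 : f u2 < 0 := e2
  obtain ⟨t0, ⟨ht0a, ht0b⟩, ht0⟩ := intermediate_value_Ioo h0.le hfc.continuousOn ⟨hf1, hfu1⟩
  obtain ⟨t1, ⟨ht1a, ht1b⟩, ht1⟩ := intermediate_value_Ioo' h12.le hfc.continuousOn ⟨hfu2, hfu1⟩
  obtain ⟨t2, ⟨ht2a, ht2b⟩, ht2⟩ := intermediate_value_Ioo h3.le hfc.continuousOn ⟨hfu2, hf2⟩
  have q0 : t0 ^ 3 + a * t0 ^ 2 + (b - 3) * t0 + (c - 2 * a) = 0 := ht0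
  have q1 : t1 ^ 3 + a * t1 ^ 2 + (b - 3) * t1 + (c - 2 * a) = 0 := ht1
  have q2 : t2 ^ 3 + a * t2 ^ 2 + (b - 3) * t2 + (c - 2 * a) = 0 := ht2
  have hlt01 : t0 < t1 := ht0b.trans ht1a
  have hlt12 : t1 < t2 := ht1b.trans ht2a
  have hlt02 : t0 < t2 := hlt01.trans hlt12
  have d01 : t0 ^ 2 + t0 * t1 + t1 ^ 2 + a * (t0 + t1) + (b - 3) = 0 := by
    have h : (t0 - t1) * (t0 ^ 2 + t0 * t1 + t1 ^ 2 + a * (t0 + t1) + (b - 3)) = 0 := by
      linear_combination q0 - q1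
    rcases mul_eq_zero.1 h with h | h
    · linarith
    · exact h
  have d12 : t1 ^ 2 + t1 * t2 + t2 ^ 2 + a * (t1 + t2) + (b - 3) = 0 := by
    have h : (t1 - t2) * (t1 ^ 2 + t1 * t2 + t2 ^ 2 + a * (t1 + t2) + (b - 3)) = 0 := by
      linear_combination q1 - q2
    rcases mul_eq_zero.1 h with h | h
    · linarith
    · exact h
  have ha : a = -(t0 + t1 + t2) := by
    have h : (t0 - t2) * (t0 + t1 + t2 + a) = 0 := by linear_combination d01 - d12
    rcases mul_eq_zero.1 h with h | h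
    · linarith
    · linarith
  have hb : b = 3 + (t0 * t1 + t0 * t2 + t1 * t2) := by
    rw [ha] at d01
    linear_combination d01
  have hc : c = -2 * (t0 + t1 + t2) - t0 * t1 * t2 := by
    rw [ha, hb] at q0
    linear_combination q0
  refine ⟨![t0, t1, t2], ?_, ?_, ?_⟩
  · intro i j hij
    fin_cases i <;> fin_cases j
    · rfl
    · exact absurd hij hlt01.ne
    · exact absurd hij hlt02.ne
    · exact absurd hij hlt01.ne'
    · rfl
    · exact absurd hij hlt12.ne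
    · exact absurd hij hlt02.ne'
    · exact absurd hij hlt12.ne'
    · rfl
  · intro j
    fin_cases j
    · exact abs_lt.2 ⟨ht0a, by show t0 < 2; linarith⟩
    · exact abs_lt.2 ⟨by show -2 < t1; linarith, by show t1 < 2; linarith⟩
    · exact abs_lt.2 ⟨by show -2 < t2; linarith, ht2b⟩
  · have hprod : (∏ i, (X ^ 2 - C ((![t0, t1, t2] : Fin 3 → ℝ) i) * X + 1) : ℝ[X]) =
        1 + C a * X ^ 1 + C b * X ^ 2 + C c * X ^ 3 + C b * X ^ 4 + C a * X ^ 5 + X ^ 6 := by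
      rw [Fin.prod_univ_three, ha, hb, hc]
      simp only [Matrix.cons_val_zero, Matrix.cons_val_one, Matrix.cons_val_two, Matrix.head_cons,
        Matrix.tail_cons, Matrix.cons_val, C_neg, C_add, C_mul, C_sub]
      have h2 : (C (2 : ℝ) : ℝ[X]) = 2 := rfl
      have h3 : (C (3 : ℝ) : ℝ[X]) = 3 := rfl
      rw [h2, h3]
      ring
    funext j
    unfold ee
    rw [hprod]
    fin_cases j
    · simp [coeff_X_pow, coeff_one]
    · simp [coeff_X_pow, coeff_one]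
    · simp [coeff_X_pow, coeff_one]

end Pool.Agent.Helper11.SP
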