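import Pool.Agent.Helper11.SP.Defs

/-!
SP-01. Coefficients of `HC` and `PP`.

Proof. `HC_coeff`: `coeff_monomial`, the sum over `range (2g+1)` picks `k` if `k ≤ 2 g`; for `k > 2 g` the
definition of `hc` gives `0` (all four conditions fail).
`hc_pal`: cases `k = 0`, `k ≤ g`, `g < k < 2g`, `k = 2g` by unfolding (`split_ifs`, `omega`, `congr`).
`HC_monic`: degree at most `2 g` and the coefficient at `2 g` is `1` (`monic_of_natDegree_le_of_coeff_eq_one`).
`PP_*`: `coeff_add, coeff_sub, coeff_X_pow, coeff_one, coeff_X_mul`.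
-/

open Polynomial

namespace Pool.Agent.Helper11.SP

private lemma hc_big' {R : Type*} [Zero R] {g : ℕ} (a : R) (x : Fin g → R) (k : ℕ)
    (hk : 2 * g < k) : hc a x k = 0 := by
  unfold hc
  rw [if_neg (by omega), dif_neg (by omega), dif_neg (by omega), if_neg (by omega)]

private lemma hc_low {R : Type*} [Zero R] {g : ℕ} (a : R) (x : Fin g → R) (k : ℕ)
    (hk : 1 ≤ k) (hk2 : k ≤ g) : hc a x k = x ⟨k - 1, by omega⟩ := by
  unfold hc
  rw [if_neg (by omega), dif_pos (by omega : k - 1 < g)]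

private lemma hc_high {R : Type*} [Zero R] {g : ℕ} (a : R) (x : Fin g → R) (k : ℕ)
    (hk : g < k) (hk2 : k < 2 * g) : hc a x k = x ⟨2 * g - k - 1, by omega⟩ := by
  unfold hc
  rw [if_neg (by omega), dif_neg (by omega), dif_pos (by omega : 2 * g - k - 1 < g ∧ k < 2 * g)]

lemma HC_coeff {R : Type*} [Semiring R] {g : ℕ} (a : R) (x : Fin g → R) (k : ℕ) :
    (HC a x).coeff k = hc a x k := by
  unfold HC
  rw [finsetSum_coeff]
  simp only [coeff_monomial]
  rw [Finset.sum_ite_eq' (Finset.range (2 * g + 1)) k (fun j => hc a x j)]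
  split_ifs with h
  · rfl
  · rw [Finset.mem_range] at h
    exact (hc_big' a x k (by omega)).symm

lemma hc_zero {R : Type*} [Zero R] {g : ℕ} (a : R) (x : Fin g → R) : hc a x 0 = a := by
  unfold hc
  rw [if_pos rfl]

lemma hc_mid {R : Type*} [Zero R] {g : ℕ} (a : R) (x : Fin g → R) (j : Fin g) : hc a x ((j : ℕ) + 1) = x j := by
  rw [hc_low a x _ (by omega) (by omega)]
  rfl

lemma hc_top {R : Type*} [Zero R] {g : ℕ} (hg : 1 ≤ g) (a : R) (x : Fin g → R) : hc a x (2 * g) = a := by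
  unfold hc
  rw [if_neg (by omega), dif_neg (by omega), dif_neg (by omega), if_pos rfl]

lemma hc_pal {R : Type*} [Zero R] {g : ℕ} (hg : 1 ≤ g) (a : R) (x : Fin g → R) (k : ℕ) (hk : k ≤ 2 * g) :
    hc a x (2 * g - k) = hc a x k := by
  rcases Nat.eq_zero_or_pos k with h0 | h0
  · subst h0
    rw [Nat.sub_zero, hc_top hg, hc_zero]
  · rcases hk.eq_or_lt with h1 | h1
    · subst h1
      rw [Nat.sub_self, hc_top hg, hc_zero]
    · rcases le_or_gt k g with h2 | h2
      · rcases h2.eq_or_lt with h3 | h3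
        · have h4 : 2 * g - k = k := by omega
          rw [h4]
        · rw [hc_low a x k h0 h2, hc_high a x (2 * g - k) (by omega) (by omega)]
          congr 2
          omega
      · rw [hc_high a x k h2 h1, hc_low a x (2 * g - k) (by omega) (by omega)]

lemma hc_big {R : Type*} [Zero R] {g : ℕ} (a : R) (x : Fin g → R) (k : ℕ) (hk : 2 * g < k) : hc a x k = 0 :=
  hc_big' a x k hk

lemma hc_cast {g : ℕ} (N : ℤ) (v : Fin g → ℤ) (k : ℕ) :
    ((hc N v k : ℤ) : ℝ) = hc (N : ℝ) (fun j => (v j : ℝ)) k := by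
  unfold hc
  split_ifs
  · rfl
  · rfl
  · rfl
  · rfl
  · exact Int.cast_zero

lemma hc_smul {g : ℕ} (c a : ℝ) (x : Fin g → ℝ) (k : ℕ) :
    hc (c * a) (fun j => c * x j) k = c * hc a x k := by
  unfold hc
  split_ifs
  · rfl
  · rfl
  · rfl
  · rfl
  · rw [mul_zero]

lemma hc_continuous {g : ℕ} (a : ℝ) (k : ℕ) : Continuous (fun x : Fin g → ℝ => hc a x k) := by
  unfold hc
  split_ifs
  · exact continuous_const
  · exact continuous_apply _
  · exact continuous_apply _
  · exact continuous_const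
  · exact continuous_const

lemma HC_monic {g : ℕ} (hg : 1 ≤ g) (x : Fin g → ℝ) : (HC 1 x).Monic ∧ (HC 1 x).natDegree = 2 * g := by
  have h1 : (HC 1 x).natDegree ≤ 2 * g := by
    rw [natDegree_le_iff_coeff_eq_zero]
    intro k hk
    rw [HC_coeff]
    exact hc_big' _ _ _ hk
  have h2 : (HC 1 x).coeff (2 * g) = 1 := by rw [HC_coeff, hc_top hg]
  refine ⟨monic_of_natDegree_le_of_coeff_eq_one _ h1 h2, le_antisymm h1 ?_⟩
  exact le_natDegree_of_ne_zero (by rw [h2]; exact one_ne_zero)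

private lemma PP_coeff_succ' {g : ℕ} (N : ℤ) (v : Fin g → ℤ) (k : ℕ) :
    (PP N v).coeff (k + 1) = (if k + 1 = 2 * g + 2 then 1 else 0) - hc N v k := by
  unfold PP
  rw [coeff_sub, coeff_add, coeff_X_pow, coeff_one, if_neg (Nat.succ_ne_zero k), coeff_X_mul,
    HC_coeff, add_zero]

lemma PP_coeff_zero {g : ℕ} (N : ℤ) (v : Fin g → ℤ) : (PP N v).coeff 0 = 1 := by
  unfold PP
  rw [coeff_sub, coeff_add, coeff_X_pow, coeff_one, if_neg (by omega), if_pos rfl,
    coeff_X_mul_zero]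
  norm_num

lemma PP_coeff_succ {g : ℕ} (N : ℤ) (v : Fin g → ℤ) (k : ℕ) (hk : k ≤ 2 * g) : (PP N v).coeff (k + 1) = - hc N v k := by
  rw [PP_coeff_succ', if_neg (by omega), zero_sub]

private lemma PP_coeff_top {g : ℕ} (N : ℤ) (v : Fin g → ℤ) : (PP N v).coeff (2 * g + 2) = 1 := by
  rw [show 2 * g + 2 = (2 * g + 1) + 1 from rfl, PP_coeff_succ', if_pos rfl,
    hc_big' _ _ _ (by omega), sub_zero]

private lemma PP_coeff_big {g : ℕ} (N : ℤ) (v : Fin g → ℤ) (k : ℕ) (hk : 2 * g + 2 < k) :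
    (PP N v).coeff k = 0 := by
  obtain ⟨k, rfl⟩ : ∃ j, k = j + 1 := ⟨k - 1, by omega⟩
  rw [PP_coeff_succ', if_neg (by omega), hc_big' _ _ _ (by omega), sub_zero]

lemma PP_monic {g : ℕ} (N : ℤ) (v : Fin g → ℤ) : (PP N v).Monic ∧ (PP N v).natDegree = 2 * g + 2 := by
  have h1 : (PP N v).natDegree ≤ 2 * g + 2 := by
    rw [natDegree_le_iff_coeff_eq_zero]
    intro k hk
    exact PP_coeff_big N v k hk
  have h2 := PP_coeff_top N v
  refine ⟨monic_of_natDegree_le_of_coeff_eq_one _ h1 h2, le_antisymm h1 ?_⟩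
  exact le_natDegree_of_ne_zero (by rw [h2]; exact one_ne_zero)

lemma PP_pal {g : ℕ} (hg : 1 ≤ g) (N : ℤ) (v : Fin g → ℤ) (k : ℕ) (hk : k ≤ 2 * g + 2) :
    (PP N v).coeff (2 * g + 2 - k) = (PP N v).coeff k := by
  rcases Nat.eq_zero_or_pos k with h0 | h0
  · subst h0
    rw [Nat.sub_zero, PP_coeff_zero, PP_coeff_top]
  · rcases hk.eq_or_lt with h1 | h1
    · subst h1
      rw [Nat.sub_self, PP_coeff_zero, PP_coeff_top]
    · obtain ⟨k, rfl⟩ : ∃ j, k = j + 1 := ⟨k - 1, by omega⟩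
      rw [show 2 * g + 2 - (k + 1) = (2 * g - k) + 1 by omega, PP_coeff_succ _ _ _ (by omega),
        PP_coeff_succ _ _ _ (by omega), hc_pal hg _ _ _ (by omega)]

/-- The map `(N, v) ↦ PP N v` is injective. -/
lemma PP_inj {g : ℕ} (hg : 1 ≤ g) (N N' : ℤ) (v v' : Fin g → ℤ) (h : PP N v = PP N' v') : N = N' ∧ v = v' := by
  have h1 : ∀ k, k ≤ 2 * g → hc N v k = hc N' v' k := by
    intro k hk
    have h2 := congrArg (fun p => p.coeff (k + 1)) h
    beta_reduce at h2
    rw [PP_coeff_succ _ _ _ hk, PP_coeff_succ _ _ _ hk] at h2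
    exact neg_injective h2
  refine ⟨?_, funext fun j => ?_⟩
  · have h2 := h1 0 (by omega)
    rwa [hc_zero, hc_zero] at h2
  · have h2 := h1 ((j : ℕ) + 1) (by omega)
    rwa [hc_mid, hc_mid] at h2

/-- Every monic palindromic polynomial of degree `2 g + 2` is some `PP N v`. -/
lemma exists_PP {g : ℕ} (hg : 1 ≤ g) (P : ℤ[X]) (hP : P.Monic) (hd : P.natDegree = 2 * g + 2)
    (hpal : ∀ k, k ≤ 2 * g + 2 → P.coeff (2 * g + 2 - k) = P.coeff k) : ∃ (N : ℤ) (v : Fin g → ℤ), P = PP N v := by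
  have htop : P.coeff (2 * g + 2) = 1 := by
    rw [← hd]
    exact hP
  refine ⟨- P.coeff 1, fun j => - P.coeff ((j : ℕ) + 2), ?_⟩
  ext k
  rcases Nat.eq_zero_or_pos k with h0 | h0
  · subst h0
    rw [PP_coeff_zero, ← hpal 0 (by omega), Nat.sub_zero, htop]
  · rcases lt_trichotomy k (2 * g + 2) with h1 | h1 | h1
    · obtain ⟨k, rfl⟩ : ∃ j, k = j + 1 := ⟨k - 1, by omega⟩
      rw [PP_coeff_succ _ _ _ (by omega)]
      rcases Nat.eq_zero_or_pos k with h2 | h2
      · subst h2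
        rw [hc_zero, neg_neg]
      · rcases le_or_gt k g with h3 | h3
        · rw [hc_low _ _ _ h2 h3, neg_neg]
          congr 1
          simp only
          omega
        · rcases (show k ≤ 2 * g by omega).eq_or_lt with h4 | h4
          · subst h4
            rw [hc_top hg, neg_neg, ← hpal 1 (by omega)]
            congr 1
          · rw [hc_high _ _ _ h3 h4, neg_neg, ← hpal (k + 1) (by omega)]
            congr 1
            simp only
            omega
    · subst h1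
      rw [htop, PP_coeff_top]
    · rw [PP_coeff_big _ _ _ h1]
      exact coeff_eq_zero_of_natDegree_lt (by omega)

end Pool.Agent.Helper11.SP
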