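import Pool.Agent.Helper11.SP.HCoef

/-!
SP-10. Few `v` with `PP N v (ζ) = 0`.

Proof. Write `g = h + 1`.  The last coordinate `v_{g-1}` enters `PP N v` only in the coefficient of `X^{g+1}`, as `- v_{g-1}`
(`PP N v = X^{2g+2} + 1 - X * HC N v`, `hc N v g = v_{g-1}` and `hc N v k` for `k ≠ g` does not involve `v_{g-1}`).
So if `v`, `w` agree on the first `g - 1` coordinates and both give a zero at `ζ`, then
`0 = PP N v (ζ) - PP N w (ζ) = - (v_{g-1} - w_{g-1}) ζ^{g+1}` and `v = w` as `ζ ≠ 0`.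
Hence `v ↦ (v restricted to the first g - 1 coordinates)` (`Fin.init` or `fun i : Fin (g-1) => v (Fin.castLE _ i)`) is injective on the set and maps it into
`Fintype.piFinset (fun _ : Fin (g-1) => Finset.Icc (-M) M)`, which has `(2M+1)^(g-1)` elements.
Finiteness of the set: it is contained in the finite box.
-/

open Polynomial

namespace Pool.Agent.Helper11.SP

private lemma hc_agree {g : ℕ} (N : ℤ) (v w : Fin g → ℤ) (h : ∀ j : Fin g, (j : ℕ) < g - 1 → v j = w j)
    (k : ℕ) (hk : k ≠ g) : hc N v k = hc N w k := by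
  unfold hc
  split_ifs with h1 h2 h3 h4
  · rfl
  · apply h
    simp only
    omega
  · apply h
    simp only
    omega
  · rfl
  · rfl

private lemma hc_at {g : ℕ} (hg : 1 ≤ g) (N : ℤ) (v : Fin g → ℤ) : hc N v g = v ⟨g - 1, by omega⟩ := by
  unfold hc
  rw [if_neg (by omega), dif_pos (by omega)]

private lemma HC_diff {g : ℕ} (hg : 1 ≤ g) (N : ℤ) (v w : Fin g → ℤ) (h : ∀ j : Fin g, (j : ℕ) < g - 1 → v j = w j) :
    HC N v = HC N w + monomial g (v ⟨g - 1, by omega⟩ - w ⟨g - 1, by omega⟩) := by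
  ext k
  rw [coeff_add, HC_coeff, HC_coeff, coeff_monomial]
  by_cases hk : g = k
  · subst hk
    rw [if_pos rfl, hc_at hg, hc_at hg]
    ring
  · rw [if_neg hk, hc_agree N v w h k (fun e => hk e.symm)]
    ring

private lemma eq_of_zero {g : ℕ} (hg : 1 ≤ g) (ζ : ℂ) (hζ : ζ ≠ 0) (N : ℤ) (v w : Fin g → ℤ)
    (h : ∀ j : Fin g, (j : ℕ) < g - 1 → v j = w j) (hv : aeval ζ (PP N v) = 0) (hw : aeval ζ (PP N w) = 0) :
    v = w := by
  have e : aeval ζ (PP N w) - aeval ζ (PP N v) =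
      ζ * (((v ⟨g - 1, by omega⟩ - w ⟨g - 1, by omega⟩ : ℤ) : ℂ) * ζ ^ g) := by
    unfold PP
    rw [HC_diff hg N v w h]
    simp only [map_sub, map_add, map_mul, aeval_X, map_pow, map_one, aeval_monomial]
    simp
    ring
  rw [hv, hw, sub_zero] at e
  have e2 : ((v ⟨g - 1, by omega⟩ - w ⟨g - 1, by omega⟩ : ℤ) : ℂ) = 0 := by
    rcases mul_eq_zero.1 e.symm with h1 | h1
    · exact absurd h1 hζ
    · rcases mul_eq_zero.1 h1 with h2 | h2
      · exact h2
      · exact absurd h2 (pow_ne_zero _ hζ)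
  have e3 : v ⟨g - 1, by omega⟩ = w ⟨g - 1, by omega⟩ := by
    have : (v ⟨g - 1, by omega⟩ - w ⟨g - 1, by omega⟩ : ℤ) = 0 := by exact_mod_cast e2
    omega
  funext j
  by_cases hj : (j : ℕ) < g - 1
  · exact h j hj
  · have : j = ⟨g - 1, by omega⟩ := Fin.ext (by have := j.isLt; simp only; omega)
    rw [this]
    exact e3

theorem lin_count {g : ℕ} (hg : 1 ≤ g) (ζ : ℂ) (hζ : ζ ≠ 0) (N : ℤ) (M : ℕ) :
    {v : Fin g → ℤ | (∀ j, |v j| ≤ (M : ℤ)) ∧ aeval ζ (PP N v) = 0}.Finite ∧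
    {v : Fin g → ℤ | (∀ j, |v j| ≤ (M : ℤ)) ∧ aeval ζ (PP N v) = 0}.ncard ≤ (2 * M + 1) ^ (g - 1) := by
  constructor
  · refine Set.Finite.subset (Fintype.piFinset (fun _ : Fin g => Finset.Icc (-(M : ℤ)) M)).finite_toSet ?_
    intro v hv
    rw [Finset.mem_coe, Fintype.mem_piFinset]
    intro j
    rw [Finset.mem_Icc]
    exact abs_le.1 (hv.1 j)
  · have hle : g - 1 ≤ g := Nat.sub_le _ _
    have key := Set.ncard_le_ncard_of_injOn
      (s := {v : Fin g → ℤ | (∀ j, |v j| ≤ (M : ℤ)) ∧ aeval ζ (PP N v) = 0})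
      (t := ((Fintype.piFinset (fun _ : Fin (g - 1) => Finset.Icc (-(M : ℤ)) M)) : Set (Fin (g - 1) → ℤ)))
      (fun v i => v (Fin.castLE hle i)) ?_ ?_ (Finset.finite_toSet _)
    · refine key.trans ?_
      rw [Set.ncard_coe_finset, Fintype.card_piFinset]
      simp only [Int.card_Icc, Finset.prod_const, Finset.card_univ, Fintype.card_fin]
      apply le_of_eq
      congr 1
      omega
    · intro v hv
      rw [Finset.mem_coe, Fintype.mem_piFinset]
      intro j
      rw [Finset.mem_Icc]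
      exact abs_le.1 (hv.1 _)
    · intro v hv w hw hvw
      refine eq_of_zero hg ζ hζ N v w ?_ hv.2 hw.2
      intro j hj
      have := congrFun hvw ⟨(j : ℕ), hj⟩
      simpa using this

end Pool.Agent.Helper11.SP
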