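import Pool.Agent.Helper11.SP.HCoef

/-!
SP-04. Ends of the orbit and perturbation.

`Fc_zero`: `Fc y n 0 = 1 * n.coeff 0` (`mul_coeff_zero`).
`Fc_top`: `HC 1 y` is monic of degree `2 g`, `n` is monic, so the product is monic of degree `natDegree n + 2 g`
(`Monic.mul`, `Monic.natDegree_mul`, `Monic.natDegree_map`); `Fc_above`: degree.
`Fc_continuous`: `Fc x n i = ∑` over the antidiagonal of `hc 1 x a * n.coeff b` (`coeff_mul`), continuous.
`pert`: put `L = n.natDegree + 2 g`. For each `1 ≤ i < L` either `0 < Fc x0 n i < 1` (open condition) or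
`Fc · n i` is the constant `1`; `Fc · n L` is the constant `1`, `Fc · n 0 = 1`.
Finitely many `i`: there are `0 < η < 1`, `δ > 0` such that for `dist x x0 < δ` and all `1 ≤ i ≤ L`
either `η < Fc x n i < 1` or `Fc x n i = 1`.  So `0 < Fc x n i ≤ 1` for all `i ≤ L`.  With `B = 1/η` and `β > B`:
first case: `Fc x n i - Fc x n (i-1) / β > η - 1/β > 0` and `< 1`; second case: `1 - Fc x n (i-1)/β` is in `(0, 1)`
as `0 < Fc x n (i-1) ≤ 1 < β`.
-/

open Polynomial

namespace Pool.Agent.Helper11.SP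

lemma Fc_zero {g : ℕ} (y : Fin g → ℝ) (n : ℤ[X]) : Fc y n 0 = n.coeff 0 := by
  unfold Fc
  rw [mul_coeff_zero, HC_coeff, hc_zero, one_mul, coeff_map]
  rfl

private lemma Fc_monic {g : ℕ} (hg : 1 ≤ g) (y : Fin g → ℝ) (n : ℤ[X]) (hn : n.Monic) :
    (HC 1 y * n.map (Int.castRingHom ℝ)).Monic ∧
      (HC 1 y * n.map (Int.castRingHom ℝ)).natDegree = n.natDegree + 2 * g := by
  obtain ⟨h1, h2⟩ := HC_monic hg y
  have h3 : (n.map (Int.castRingHom ℝ)).Monic := hn.map _
  refine ⟨h1.mul h3, ?_⟩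
  rw [h1.natDegree_mul h3, h2, hn.natDegree_map]
  ring

lemma Fc_top {g : ℕ} (hg : 1 ≤ g) (y : Fin g → ℝ) (n : ℤ[X]) (hn : n.Monic) : Fc y n (n.natDegree + 2 * g) = 1 := by
  obtain ⟨h1, h2⟩ := Fc_monic hg y n hn
  unfold Fc
  rw [← h2]
  exact h1

lemma Fc_above {g : ℕ} (hg : 1 ≤ g) (y : Fin g → ℝ) (n : ℤ[X]) (hn : n.Monic) :
    Fc y n (n.natDegree + 2 * g + 1) = 0 := by
  obtain ⟨h1, h2⟩ := Fc_monic hg y n hn
  unfold Fc
  exact coeff_eq_zero_of_natDegree_lt (by omega)

lemma Fc_continuous {g : ℕ} (n : ℤ[X]) (i : ℕ) : Continuous (fun x : Fin g → ℝ => Fc x n i) := by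
  unfold Fc
  simp only [coeff_mul, HC_coeff]
  exact continuous_finsetSum _ fun p _ => (hc_continuous 1 p.1).mul continuous_const

theorem pert {g : ℕ} (hg : 1 ≤ g) (x0 : Fin g → ℝ) (n : ℤ[X]) (h : Code x0 n) :
    ∃ δ > 0, ∃ B > 1, ∀ x, dist x x0 < δ → ∀ β, B < β → ∀ i, 1 ≤ i → i ≤ n.natDegree + 2 * g →
      0 ≤ Fc x n i - Fc x n (i - 1) / β ∧ Fc x n i - Fc x n (i - 1) / β < 1 := by
  obtain ⟨hm, h0, hc⟩ := h
  have key : ∀ m : ℕ, m ≤ n.natDegree + 2 * g → ∃ δ : ℝ, 0 < δ ∧ ∃ η : ℝ, 0 < η ∧ η < 1 ∧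
      ∀ x : Fin g → ℝ, dist x x0 < δ → ∀ i, 1 ≤ i → i ≤ m →
        (η < Fc x n i ∧ Fc x n i < 1) ∨ Fc x n i = 1 := by
    intro m
    induction m with
    | zero =>
      intro _
      exact ⟨1, one_pos, 1 / 2, by norm_num, by norm_num, fun x _ i hi hi2 => by omega⟩
    | succ m ih =>
      intro hmL
      obtain ⟨δ, hδ, η, hη, hη1, hI⟩ := ih (by omega)
      have hone : ∃ δ' : ℝ, 0 < δ' ∧ ∃ η' : ℝ, 0 < η' ∧ ∀ x : Fin g → ℝ, dist x x0 < δ' →
          (η' < Fc x n (m + 1) ∧ Fc x n (m + 1) < 1) ∨ Fc x n (m + 1) = 1 := by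
        rcases hmL.eq_or_lt with he | hl
        · refine ⟨1, one_pos, 1, one_pos, fun x _ => Or.inr ?_⟩
          rw [he]
          exact Fc_top hg x n hm
        · rcases hc (m + 1) (by omega) hl with h1 | h1
          · have hcont : Continuous (fun x : Fin g → ℝ => Fc x n (m + 1)) := Fc_continuous n (m + 1)
            have hop : IsOpen ((fun x : Fin g → ℝ => Fc x n (m + 1)) ⁻¹'
                Set.Ioo (Fc x0 n (m + 1) / 2) 1) := isOpen_Ioo.preimage hcont
            have hmem : x0 ∈ (fun x : Fin g → ℝ => Fc x n (m + 1)) ⁻¹'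
                Set.Ioo (Fc x0 n (m + 1) / 2) 1 := by
              constructor
              · show Fc x0 n (m + 1) / 2 < Fc x0 n (m + 1)
                linarith [h1.1]
              · exact h1.2
            obtain ⟨δ', hδ', hb⟩ := Metric.isOpen_iff.1 hop x0 hmem
            refine ⟨δ', hδ', Fc x0 n (m + 1) / 2, by linarith [h1.1], fun x hx => Or.inl ?_⟩
            have := hb (Metric.mem_ball.2 hx)
            exact ⟨this.1, this.2⟩
          · exact ⟨1, one_pos, 1, one_pos, fun x _ => Or.inr (h1 x)⟩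
      obtain ⟨δ', hδ', η', hη', hI'⟩ := hone
      refine ⟨min δ δ', lt_min hδ hδ', min η η', lt_min hη hη', (min_le_left _ _).trans_lt hη1, ?_⟩
      intro x hx i hi hi2
      rcases hi2.eq_or_lt with he | hl
      · subst he
        rcases hI' x (hx.trans_le (min_le_right _ _)) with h2 | h2
        · exact Or.inl ⟨(min_le_right _ _).trans_lt h2.1, h2.2⟩
        · exact Or.inr h2
      · rcases hI x (hx.trans_le (min_le_left _ _)) i hi (by omega) with h2 | h2
        · exact Or.inl ⟨(min_le_left _ _).trans_lt h2.1, h2.2⟩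
        · exact Or.inr h2
  obtain ⟨δ, hδ, η, hη, hη1, hI⟩ := key _ le_rfl
  refine ⟨δ, hδ, 1 / η, ?_, ?_⟩
  · show 1 < 1 / η
    rw [lt_div_iff₀ hη]
    linarith
  · intro x hx β hβ i hi hi2
    have hβ0 : 0 < β := lt_trans (by positivity) hβ
    have hβη : 1 / β < η := by
      rw [div_lt_iff₀ hη] at hβ
      rw [div_lt_iff₀ hβ0]
      linarith
    have hprev : 0 < Fc x n (i - 1) ∧ Fc x n (i - 1) ≤ 1 := by
      rcases Nat.eq_zero_or_pos (i - 1) with hz | hz
      · rw [hz, Fc_zero, h0]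
        norm_num
      · rcases hI x hx (i - 1) hz (by omega) with h2 | h2
        · exact ⟨hη.trans h2.1, h2.2.le⟩
        · rw [h2]
          norm_num
    have h3 : 0 < Fc x n (i - 1) / β := div_pos hprev.1 hβ0
    have h4 : Fc x n (i - 1) / β ≤ 1 / β := by
      gcongr
      exact hprev.2
    rcases hI x hx i hi hi2 with h2 | h2
    · constructor
      · linarith [h2.1]
      · linarith [h2.2]
    · rw [h2]
      constructor <;> linarith

/-- The set of parameters with a given code is open. -/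
theorem code_open {g : ℕ} (hg : 1 ≤ g) (n : ℤ[X]) : IsOpen {x : Fin g → ℝ | Code x n} := by
  by_cases hn : n.Monic ∧ n.coeff 0 = 1
  · have he : {x : Fin g → ℝ | Code x n} = ⋂ i ∈ Finset.Ico 1 (n.natDegree + 2 * g),
        {x : Fin g → ℝ | (0 < Fc x n i ∧ Fc x n i < 1) ∨ ∀ y : Fin g → ℝ, Fc y n i = 1} := by
      ext x
      simp only [Set.mem_iInter, Finset.mem_Ico]
      constructor
      · intro hx i hi
        exact hx.2.2 i hi.1 hi.2
      · intro hx
        exact ⟨hn.1, hn.2, fun i h1 h2 => hx i ⟨h1, h2⟩⟩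
    rw [he]
    refine isOpen_biInter_finset fun i _ => ?_
    by_cases hall : ∀ y : Fin g → ℝ, Fc y n i = 1
    · have : {x : Fin g → ℝ | (0 < Fc x n i ∧ Fc x n i < 1) ∨ ∀ y : Fin g → ℝ, Fc y n i = 1}
          = Set.univ := Set.eq_univ_of_forall fun x => Or.inr hall
      rw [this]
      exact isOpen_univ
    · have : {x : Fin g → ℝ | (0 < Fc x n i ∧ Fc x n i < 1) ∨ ∀ y : Fin g → ℝ, Fc y n i = 1}
          = (fun x : Fin g → ℝ => Fc x n i) ⁻¹' Set.Ioo 0 1 := by
        ext x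
        constructor
        · rintro (h1 | h1)
          · exact h1
          · exact absurd h1 hall
        · intro h1
          exact Or.inl h1
      rw [this]
      exact isOpen_Ioo.preimage (Fc_continuous n i)
  · have : {x : Fin g → ℝ | Code x n} = ∅ := by
      ext x
      constructor
      · intro hx
        exact absurd ⟨hx.1, hx.2.1⟩ hn
      · intro hx
        exact absurd hx (Set.notMem_empty x)
    rw [this]
    exact isOpen_empty

end Pool.Agent.Helper11.SP
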