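import Pool.Agent.Helper11.SP.RealVal

/-!
SP-06. Roots of `PP N v` near the roots given by `t0`, when `v / N` is near `ee t0` and `N` is large.

Proof. Shrink `η`: let `η' > 0` be smaller than `η`, than `2 - |t0 j|` for all `j`, and than
`|t0 i - t0 j| / 2` for all `i ≠ j` (finitely many conditions).
For each `j` let `a_j = t0 j - η'`, `b_j = t0 j + η'`, both in `(-2,2)`, `A_j = arccos (a_j / 2)`,
`B_j = arccos (b_j / 2)`, so `B_j < A_j`, `2 cos A_j = a_j`, `2 cos B_j = b_j`.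
By `hr_ee` the numbers `hr 1 (ee t0) A_j = ∏ (a_j - t0 i)` and `hr 1 (ee t0) B_j = ∏ (b_j - t0 i)` are not zero and
have opposite signs: the factor `i = j` is `-η'` resp. `η'`, and for `i ≠ j` the factors
`a_j - t0 i`, `b_j - t0 i` have the same sign because `|t0 j - t0 i| > η'`.
Let `κ > 0` be the minimum of the absolute values of these `2 g` numbers, `δ` be any number `δ > 0` with
`(2 g + 1) δ ≤ κ / 4`, and `N0` with `N0 * κ / 2 > 2`, `N0 ≥ 1`.
For `N ≥ N0` and `|v j / N - ee t0 j| < δ`: by `PP_exp`, `hr_smul` (`v = N (v/N)`), the real function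
`G θ = 2 cos ((g+1) θ) - N hr 1 (v/N) θ` satisfies: at `A_j`, `B_j` the number `hr 1 (v/N)` differs from
`hr 1 (ee t0)` by at most `κ/4` (`hr_lip`), so `|N hr 1 (v/N)| > 2` with the same sign, and `G` has opposite signs
at `B_j` and `A_j`.  Intermediate value theorem: `θ_j ∈ (B_j, A_j)` with `G θ_j = 0`; put `t j = 2 cos θ_j`, which lies
in `(a_j, b_j)`.  So `|t j - t0 j| < η'`, `|t j| < 2`, and `t` is injective (the intervals are disjoint).
`z = e^{iθ_j}` is a root of `PP N v` with `im z = sin θ_j > 0`, `2 re z = t j`, `‖z‖ = 1`, hence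
`X² - C (t j) X + 1 ∣ (PP N v).map _` by `Polynomial.quadratic_dvd_of_aeval_eq_zero_im_ne_zero`.
-/

open Polynomial

namespace Pool.Agent.Helper11.SP

open Filter Topology in
private lemma exists_eta {g : ℕ} (t0 : Fin g → ℝ) (hinj : Function.Injective t0) (ht0 : ∀ j, |t0 j| < 2)
    (η : ℝ) (hη : 0 < η) : ∃ ε : ℝ, 0 < ε ∧ ε < η ∧ (∀ j, ε < 2 - |t0 j|) ∧
      ∀ i j, i ≠ j → ε < |t0 i - t0 j| / 2 := by
  have h0 : ∀ᶠ ε in 𝓝[>] (0 : ℝ), 0 < ε := eventually_mem_nhdsWithin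
  have hlt : ∀ c : ℝ, 0 < c → ∀ᶠ ε in 𝓝[>] (0 : ℝ), ε < c := fun c hc =>
    (eventually_lt_nhds hc).filter_mono nhdsWithin_le_nhds
  have h2 : ∀ᶠ ε in 𝓝[>] (0 : ℝ), ∀ j, ε < 2 - |t0 j| :=
    eventually_all.2 fun j => hlt _ (by linarith [ht0 j])
  have h3 : ∀ᶠ ε in 𝓝[>] (0 : ℝ), ∀ i j, i ≠ j → ε < |t0 i - t0 j| / 2 := by
    refine eventually_all.2 fun i => eventually_all.2 fun j => ?_
    by_cases hij : i = j
    · exact Eventually.of_forall fun ε h => absurd hij h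
    · have : 0 < |t0 i - t0 j| := abs_pos.2 (sub_ne_zero.2 fun h => hij (hinj h))
      exact (hlt _ (half_pos this)).mono fun ε h _ => h
  obtain ⟨ε, h⟩ := (h0.and ((hlt η hη).and (h2.and h3))).exists
  exact ⟨ε, h⟩

open Filter Topology in
private lemma exists_kappa {g : ℕ} (a b : Fin g → ℝ) (ha : ∀ j, a j ≠ 0) (hb : ∀ j, b j ≠ 0) :
    ∃ κ : ℝ, 0 < κ ∧ (∀ j, κ ≤ |a j|) ∧ ∀ j, κ ≤ |b j| := by
  have h0 : ∀ᶠ ε in 𝓝[>] (0 : ℝ), 0 < ε := eventually_mem_nhdsWithin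
  have hlt : ∀ c : ℝ, 0 < c → ∀ᶠ ε in 𝓝[>] (0 : ℝ), ε < c := fun c hc =>
    (eventually_lt_nhds hc).filter_mono nhdsWithin_le_nhds
  have h2 : ∀ᶠ ε in 𝓝[>] (0 : ℝ), ∀ j, ε ≤ |a j| :=
    eventually_all.2 fun j => (hlt _ (abs_pos.2 (ha j))).mono fun _ h => h.le
  have h3 : ∀ᶠ ε in 𝓝[>] (0 : ℝ), ∀ j, ε ≤ |b j| :=
    eventually_all.2 fun j => (hlt _ (abs_pos.2 (hb j))).mono fun _ h => h.le
  obtain ⟨ε, h⟩ := (h0.and (h2.and h3)).exists
  exact ⟨ε, h⟩

private lemma sign_aux (c h P κ N : ℝ) (hκ : 0 < κ) (hP : κ ≤ |P|) (hh : |h - P| ≤ κ / 4) (hc : |c| ≤ 2)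
    (hN : 4 < N * κ) : (c - N * h) * P < 0 := by
  have hN0 : 0 < N := by
    by_contra hle
    have : N * κ ≤ 0 := mul_nonpos_of_nonpos_of_nonneg (not_lt.1 hle) hκ.le
    linarith
  have h1 : c * P ≤ 2 * |P| := by
    refine (le_abs_self _).trans ?_
    rw [abs_mul]
    exact mul_le_mul_of_nonneg_right hc (abs_nonneg _)
  have h2 : -(κ / 4 * |P|) ≤ (h - P) * P := by
    have : |(h - P) * P| ≤ κ / 4 * |P| := by
      rw [abs_mul]
      exact mul_le_mul_of_nonneg_right hh (abs_nonneg _)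
    exact (abs_le.1 this).1
  have h3 : P * P = |P| * |P| := (abs_mul_abs_self P).symm
  have h4 : κ * |P| ≤ |P| * |P| := mul_le_mul_of_nonneg_right hP (abs_nonneg _)
  have h5 : 3 / 4 * κ * |P| ≤ h * P := by nlinarith
  have h6 : N * (3 / 4 * κ * |P|) ≤ N * (h * P) := mul_le_mul_of_nonneg_left h5 hN0.le
  have h7 : 0 < |P| := hκ.trans_le hP
  have h8 : 4 * |P| < N * κ * |P| := mul_lt_mul_of_pos_right hN h7
  nlinarith

private lemma prod_neg {g : ℕ} (t0 : Fin g → ℝ) (ε : ℝ) (hε : 0 < ε)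
    (h : ∀ i j, i ≠ j → ε < |t0 i - t0 j| / 2) (j : Fin g) :
    (∏ i, (t0 j - ε - t0 i)) * ∏ i, (t0 j + ε - t0 i) < 0 := by
  rw [← Finset.prod_mul_distrib, ← Finset.mul_prod_erase _ _ (Finset.mem_univ j)]
  refine mul_neg_of_neg_of_pos ?_ ?_
  · have : (t0 j - ε - t0 j) * (t0 j + ε - t0 j) = -(ε * ε) := by ring
    rw [this]
    have := mul_pos hε hε
    linarith
  · refine Finset.prod_pos fun i hi => ?_
    have hij : i ≠ j := (Finset.mem_erase.1 hi).1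
    have h1 := h j i hij.symm
    have h2 : (t0 j - ε - t0 i) * (t0 j + ε - t0 i) = |t0 j - t0 i| * |t0 j - t0 i| - ε * ε := by
      rw [abs_mul_abs_self]
      ring
    rw [h2]
    nlinarith

theorem roots_near {g : ℕ} (hg : 1 ≤ g) (t0 : Fin g → ℝ) (hinj : Function.Injective t0) (ht0 : ∀ j, |t0 j| < 2)
    (η : ℝ) (hη : 0 < η) :
    ∃ δ > 0, ∃ N0 : ℕ, 1 ≤ N0 ∧ ∀ N : ℕ, N0 ≤ N → ∀ v : Fin g → ℤ, (∀ j, |(v j : ℝ) / N - ee t0 j| < δ) →
      ∃ t : Fin g → ℝ, Function.Injective t ∧ (∀ j, |t j| < 2) ∧ (∀ j, |t j - t0 j| < η) ∧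
        ∀ j, (X ^ 2 - C (t j) * X + 1 : ℝ[X]) ∣ (PP (N : ℤ) v).map (Int.castRingHom ℝ) := by
  obtain ⟨ε, hε, hεη, hε2, hε3⟩ := exists_eta t0 hinj ht0 η hη
  have hneg := fun j => prod_neg t0 ε hε hε3 j
  obtain ⟨κ, hκ, hκA, hκB⟩ := exists_kappa (fun j => ∏ i, (t0 j - ε - t0 i))
    (fun j => ∏ i, (t0 j + ε - t0 i)) (fun j h => by
      have := hneg j
      rw [h, zero_mul] at this
      exact lt_irrefl _ this) (fun j h => by
      have := hneg j
      rw [h, mul_zero] at this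
      exact lt_irrefl _ this)
  obtain ⟨N1, hN1⟩ := exists_nat_gt (4 / κ)
  have hg0 : (0 : ℝ) < 2 * g + 1 := by positivity
  refine ⟨κ / 4 / (2 * g + 1), by positivity, N1 + 1, by omega, ?_⟩
  intro N hN v hv
  have hN4 : 4 < (N : ℝ) * κ := by
    have h1 : (N1 : ℝ) ≤ N := by
      have : N1 ≤ N := by omega
      exact_mod_cast this
    have h2 : 4 / κ < N := lt_of_lt_of_le hN1 h1
    rwa [div_lt_iff₀ hκ] at h2
  have hN0 : (N : ℝ) ≠ 0 := by
    intro h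
    rw [h, zero_mul] at hN4
    linarith
  set x : Fin g → ℝ := fun j => (v j : ℝ) / N with hx
  have hclose : ∀ θ, |hr 1 x θ - hr 1 (ee t0) θ| ≤ κ / 4 := by
    intro θ
    refine (hr_lip x (ee t0) (κ / 4 / (2 * g + 1)) (by positivity) (fun j => (hv j).le) θ).trans ?_
    rw [mul_div_cancel₀ _ hg0.ne']
  have hNv : ∀ θ, hr ((N : ℤ) : ℝ) (fun j => (v j : ℝ)) θ = N * hr 1 x θ := by
    intro θ
    rw [← hr_smul, mul_one]
    congr 1
    funext j
    rw [hx]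
    field_simp
  set G : ℝ → ℝ := fun θ => 2 * Real.cos (((g : ℝ) + 1) * θ) - N * hr 1 x θ with hG
  have hGc : Continuous G := by
    have := hr_continuous 1 x
    rw [hG]
    fun_prop
  have hcos : ∀ θ : ℝ, |2 * Real.cos (((g : ℝ) + 1) * θ)| ≤ 2 := by
    intro θ
    rw [abs_mul, abs_two]
    linarith [Real.abs_cos_le_one (((g : ℝ) + 1) * θ)]
  have key : ∀ j, ∃ θ : ℝ, 0 < θ ∧ θ < Real.pi ∧ G θ = 0 ∧ |2 * Real.cos θ - t0 j| < ε := by
    intro j
    have hj := hε2 j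
    have hj' := abs_le.1 (le_refl |t0 j|)
    have ha1 : -1 ≤ (t0 j - ε) / 2 := by linarith
    have ha2 : (t0 j - ε) / 2 ≤ 1 := by linarith
    have hb1 : -1 ≤ (t0 j + ε) / 2 := by linarith
    have hb2 : (t0 j + ε) / 2 ≤ 1 := by linarith
    set A := Real.arccos ((t0 j - ε) / 2) with hA
    set B := Real.arccos ((t0 j + ε) / 2) with hB
    have hcA : 2 * Real.cos A = t0 j - ε := by
      rw [hA, Real.cos_arccos ha1 ha2]
      ring
    have hcB : 2 * Real.cos B = t0 j + ε := by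
      rw [hB, Real.cos_arccos hb1 hb2]
      ring
    have hBA : B < A := Real.strictAntiOn_arccos ⟨ha1, ha2⟩ ⟨hb1, hb2⟩ (by linarith)
    have hB0 : 0 ≤ B := Real.arccos_nonneg _
    have hApi : A ≤ Real.pi := Real.arccos_le_pi _
    have hPA : hr 1 (ee t0) A = ∏ i, (t0 j - ε - t0 i) := by rw [hr_ee hg, hcA]
    have hPB : hr 1 (ee t0) B = ∏ i, (t0 j + ε - t0 i) := by rw [hr_ee hg, hcB]
    have hsA : G A * (∏ i, (t0 j - ε - t0 i)) < 0 :=
      sign_aux _ _ _ κ N hκ (hκA j) (by rw [← hPA]; exact hclose A) (hcos A) hN4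
    have hsB : G B * (∏ i, (t0 j + ε - t0 i)) < 0 :=
      sign_aux _ _ _ κ N hκ (hκB j) (by rw [← hPB]; exact hclose B) (hcos B) hN4
    have hGG : G A * G B < 0 := by
      have h1 := mul_pos_of_neg_of_neg hsA hsB
      have h2 := hneg j
      by_contra hcon
      have h3 : 0 ≤ G A * G B := not_lt.1 hcon
      have h4 : (G A * G B) * ((∏ i, (t0 j - ε - t0 i)) * ∏ i, (t0 j + ε - t0 i)) ≤ 0 :=
        mul_nonpos_of_nonneg_of_nonpos h3 h2.le
      have h5 : (G A * G B) * ((∏ i, (t0 j - ε - t0 i)) * ∏ i, (t0 j + ε - t0 i)) =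
        G A * (∏ i, (t0 j - ε - t0 i)) * (G B * ∏ i, (t0 j + ε - t0 i)) := by ring
      linarith
    have hroot : ∃ θ ∈ Set.Ioo B A, G θ = 0 := by
      rcases mul_neg_iff.1 hGG with ⟨h1, h2⟩ | ⟨h1, h2⟩
      · exact intermediate_value_Ioo hBA.le hGc.continuousOn ⟨h2, h1⟩
      · exact intermediate_value_Ioo' hBA.le hGc.continuousOn ⟨h1, h2⟩
    obtain ⟨θ, ⟨hθ1, hθ2⟩, hθ⟩ := hroot
    refine ⟨θ, hB0.trans_lt hθ1, hθ2.trans_le hApi, hθ, ?_⟩
    have h1 : Real.cos A < Real.cos θ :=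
      Real.cos_lt_cos_of_nonneg_of_le_pi (hB0.trans hθ1.le) hApi hθ2
    have h2 : Real.cos θ < Real.cos B :=
      Real.cos_lt_cos_of_nonneg_of_le_pi hB0 (hθ2.le.trans hApi) hθ1
    rw [abs_lt]
    constructor <;> linarith
  choose θ hθ0 hθpi hθG hθt using key
  refine ⟨fun j => 2 * Real.cos (θ j), ?_, ?_, ?_, ?_⟩
  · intro i j hij
    by_contra hne
    have h1 := hε3 i j hne
    have h2 := hθt i
    have h3 := hθt j
    simp only at hij
    rw [hij] at h2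
    have h4 : |t0 i - t0 j| ≤ |2 * Real.cos (θ j) - t0 i| + |2 * Real.cos (θ j) - t0 j| := by
      have : t0 i - t0 j = (2 * Real.cos (θ j) - t0 j) - (2 * Real.cos (θ j) - t0 i) := by ring
      rw [this, add_comm]
      exact abs_sub _ _
    linarith
  · intro j
    have h1 := abs_lt.1 (hθt j)
    have h2 := hε2 j
    have h3 := abs_le.1 (le_refl |t0 j|)
    simp only
    rw [abs_lt]
    constructor <;> linarith
  · intro j
    exact (hθt j).trans hεη
  · intro j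
    have h0 := PP_exp hg (N : ℤ) v (θ j)
    rw [hNv] at h0
    have h1 : 2 * Real.cos (((g : ℝ) + 1) * θ j) - N * hr 1 x (θ j) = 0 := hθG j
    rw [h1, Complex.ofReal_zero, mul_zero] at h0
    have h2 : aeval (Complex.exp (θ j * Complex.I)) ((PP (N : ℤ) v).map (Int.castRingHom ℝ)) = 0 := by
      have : (Int.castRingHom ℝ) = algebraMap ℤ ℝ := rfl
      rw [this, aeval_map_algebraMap]
      exact h0
    have h3 : (Complex.exp (θ j * Complex.I)).im = Real.sin (θ j) := Complex.exp_ofReal_mul_I_im _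
    have h4 : (Complex.exp (θ j * Complex.I)).re = Real.cos (θ j) := Complex.exp_ofReal_mul_I_re _
    have h5 : ‖Complex.exp (θ j * Complex.I)‖ = 1 := Complex.norm_exp_ofReal_mul_I _
    have h6 := quadratic_dvd_of_aeval_eq_zero_im_ne_zero _ h2 (by
      rw [h3]
      exact (Real.sin_pos_of_pos_of_lt_pi (hθ0 j) (hθpi j)).ne')
    rw [h4, h5, one_pow, C_1] at h6
    exact h6

end Pool.Agent.Helper11.SP
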