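import Pool.Agent.Helper11.SP.SalemOf

/-!
SP-09. The finite set `ZD D`, and reducible `PP N v`.

`ZD_finite`: the coefficients of such a `G` are integers bounded by `2^D` hence `G` has `natDegree ≤ D` and coefficients in the finite
set `Finset.Icc (-(2^D)) (2^D)`: `Polynomial.coeff_le_of_roots_le` (used in `Helper3.minpoly_coeff_bound`) with `B = 1`;
then `Polynomial.bUnion_roots_finite` (`m = algebraMap ℤ ℂ`).
`reducible`: `PP N v` is monic, not irreducible, not a unit (degree `2g+2 > 0`), so `PP N v = F * G` with `F`, `G` monic of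
degree at least `1` (`Polynomial.Monic.irreducible_iff_natDegree'` or `Monic.not_irreducible_iff_exists_add_mul_eq_coeff`...).
By `root_cases` the roots of `PP N v` other than `β = (s + √(s²-4))/2` have modulus at most `1`, and `β` is a simple root
(`β² - s β + 1 = 0` has two distinct real roots, `β ≠ 1/β`, and `β² - t β + 1 = 0` is impossible for `|t| < 2` and real
`β`, `norm_of_quad`); so one of `F`, `G`, say `G`, does not vanish at `β`.  All complex roots of `G` have modulus
at most `1`; take any root `ζ` of `G` (`IsAlgClosed.exists_aeval_eq_zero` / degree at least one).  `‖ζ‖ = 1`: the product of the roots of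
`G` is `± G.coeff 0`, a divisor of `(PP N v).coeff 0 = 1`, so has modulus `1`, and all factors have modulus at most `1`
(a product of numbers of modulus `≤ 1` one of which is `< 1` is `< 1`).
-/

open Polynomial

namespace Pool.Agent.Helper11.SP

theorem ZD_finite (D : ℕ) : (ZD D).Finite := by
  classical
  refine (bUnion_roots_finite (algebraMap ℤ ℂ) D (Set.finite_Icc (-(2:ℤ)^D) (2^D))).subset ?_
  rintro ζ ⟨G, hG, hd, hz, h0⟩
  refine Set.mem_iUnion₂.2 ⟨G, ⟨hd, fun i => ?_⟩, ?_⟩
  · have h1 := coeff_le_of_roots_le (f := algebraMap ℤ ℂ) (B := 1) i hG (IsAlgClosed.splits _) (by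
      intro z hz'
      rw [mem_roots (hG.map _).ne_zero, IsRoot.def, eval_map_algebraMap] at hz'
      exact hz z hz')
    rw [one_pow, one_mul, coeff_map] at h1
    have h2 : G.natDegree.choose i ≤ 2 ^ D :=
      (Nat.choose_le_two_pow _ _).trans (Nat.pow_le_pow_right (by norm_num) hd)
    have h3 : |((G.coeff i : ℤ) : ℝ)| ≤ 2 ^ D := by
      have h4 : ‖(algebraMap ℤ ℂ) (G.coeff i)‖ = |((G.coeff i : ℤ) : ℝ)| := by
        rw [eq_intCast, Complex.norm_intCast]
      rw [← h4]
      exact h1.trans (by exact_mod_cast h2)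
    rw [abs_le] at h3
    exact Set.mem_Icc.2 ⟨by exact_mod_cast h3.1, by exact_mod_cast h3.2⟩
  · rw [Finset.mem_coe, Multiset.mem_toFinset, mem_roots (hG.map _).ne_zero, IsRoot.def,
      eval_map_algebraMap]
    exact h0

/-- A monic integer polynomial with all roots of modulus at most one and constant coefficient
`±1` has all its roots of modulus one. -/
lemma norm_root_one (G : ℤ[X]) (hG : G.Monic) (hz : ∀ z : ℂ, aeval z G = 0 → ‖z‖ ≤ 1)
    (h0 : IsUnit (G.coeff 0)) (ζ : ℂ) (hζ : aeval ζ G = 0) : ‖ζ‖ = 1 := by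
  classical
  refine le_antisymm (hz ζ hζ) ?_
  have hmon : (G.map (algebraMap ℤ ℂ)).Monic := hG.map _
  have hsp : Splits (G.map (algebraMap ℤ ℂ)) := IsAlgClosed.splits _
  have h1 := hsp.coeff_zero_eq_prod_roots_of_monic hmon
  have hmem : ζ ∈ (G.map (algebraMap ℤ ℂ)).roots := by
    rw [mem_roots hmon.ne_zero, IsRoot.def, eval_map_algebraMap]
    exact hζ
  have h2 : ‖(G.map (algebraMap ℤ ℂ)).coeff 0‖ = 1 := by
    rw [coeff_map]
    rcases Int.isUnit_iff.1 h0 with h | h <;> rw [h] <;> simp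
  rw [h1, norm_mul, norm_pow, norm_neg, norm_one, one_pow, one_mul] at h2
  obtain ⟨S, hS⟩ := Multiset.exists_cons_of_mem hmem
  rw [hS, Multiset.prod_cons, norm_mul] at h2
  have h3 : ‖S.prod‖ ≤ 1 := by
    have h4 : ∀ z ∈ S, ‖z‖ ≤ 1 := by
      intro z hzS
      have : z ∈ (G.map (algebraMap ℤ ℂ)).roots := by rw [hS]; exact Multiset.mem_cons_of_mem hzS
      rw [mem_roots hmon.ne_zero, IsRoot.def, eval_map_algebraMap] at this
      exact hz z this
    clear hS h2
    induction S using Multiset.induction_on with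
    | empty => simp
    | cons a S ih =>
      rw [Multiset.prod_cons, norm_mul]
      exact mul_le_one₀ (h4 a (Multiset.mem_cons_self a S)) (norm_nonneg _)
        (ih (fun z hz' => h4 z (Multiset.mem_cons_of_mem hz')))
  nlinarith [norm_nonneg ζ, norm_nonneg S.prod]

/-- The case when the second factor does not vanish at the large root. -/
lemma reducible_aux {g : ℕ} (hg : 1 ≤ g) (t : Fin g → ℝ) (ht : ∀ j, |t j| < 2) (N : ℤ) (v : Fin g → ℤ) (s : ℝ)
    (h : (PP N v).map (Int.castRingHom ℝ) = (X ^ 2 - C s * X + 1) * HC 1 (ee t))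
    (β : ℝ) (hβ : 1 < β) (hβ0 : β ^ 2 - s * β + 1 = 0) (F G : ℤ[X]) (hF : F.Monic) (hG : G.Monic)
    (hFG : F * G = PP N v) (hGd : G.natDegree ≠ 0) (hGβ : aeval (β : ℂ) G ≠ 0) :
    ∃ ζ ∈ ZD (2 * g + 2), ‖ζ‖ = 1 ∧ aeval ζ (PP N v) = 0 := by
  have hb : β ≠ 0 := by linarith
  have hroot : ∀ z : ℂ, aeval z G = 0 → aeval z (PP N v) = 0 := by
    intro z hz
    rw [← hFG, map_mul, hz, mul_zero]
  have hnorm : ∀ z : ℂ, aeval z G = 0 → ‖z‖ ≤ 1 := by
    intro z hz
    rcases (root_cases hg t N v s h z).1 (hroot z hz) with h1 | ⟨j, h1⟩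
    · have h2 : (z - β) * (z - (β : ℂ)⁻¹) = 0 := by
        have hbc : (β : ℂ) ≠ 0 := by exact_mod_cast hb
        have h3 : (β : ℂ) ^ 2 - s * β + 1 = 0 := by exact_mod_cast hβ0
        have h4 : (s : ℂ) = β + (β : ℂ)⁻¹ := by
          field_simp
          linear_combination -h3
        rw [h4] at h1
        have h5 : (β : ℂ) * (β : ℂ)⁻¹ = 1 := mul_inv_cancel₀ hbc
        linear_combination h1 + h5
      rcases mul_eq_zero.1 h2 with h3 | h3
      · exact absurd (by rw [sub_eq_zero.1 h3] at hz; exact hz) hGβ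
      · rw [sub_eq_zero.1 h3, norm_inv, Complex.norm_real, Real.norm_eq_abs, abs_of_pos (by linarith)]
        exact inv_le_one_of_one_le₀ hβ.le
    · exact (norm_of_quad (t j) (ht j) z h1).le
  have hdeg : G.natDegree ≤ 2 * g + 2 := by
    have h1 := hF.natDegree_mul hG
    rw [hFG, (PP_monic N v).2] at h1
    omega
  have hunit : IsUnit (G.coeff 0) := by
    have h1 : F.coeff 0 * G.coeff 0 = 1 := by
      rw [← mul_coeff_zero, hFG, PP_coeff_zero]
    exact IsUnit.of_mul_eq_one_right _ h1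
  obtain ⟨ζ, hζ⟩ := IsAlgClosed.exists_aeval_eq_zero ℂ G (by
    intro h1
    exact hGd (natDegree_eq_zero_iff_degree_le_zero.2 (by rw [h1])))
  exact ⟨ζ, ⟨G, hG, hdeg, hnorm, hζ⟩, norm_root_one G hG hnorm hunit ζ hζ, hroot ζ hζ⟩

theorem reducible {g : ℕ} (hg : 1 ≤ g) (t : Fin g → ℝ) (ht : ∀ j, |t j| < 2) (N : ℤ) (v : Fin g → ℤ) (s : ℝ)
    (h : (PP N v).map (Int.castRingHom ℝ) = (X ^ 2 - C s * X + 1) * HC 1 (ee t)) (hs : 2 < s)
    (hirr : ¬ Irreducible (PP N v)) :
    ∃ ζ ∈ ZD (2 * g + 2), ‖ζ‖ = 1 ∧ aeval ζ (PP N v) = 0 := by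
  set r : ℝ := √(s ^ 2 - 4) with hr
  have hr0 : 0 < r := Real.sqrt_pos.2 (by nlinarith)
  have hr2 : r ^ 2 = s ^ 2 - 4 := Real.sq_sqrt (by nlinarith)
  set β : ℝ := (s + r) / 2 with hβdef
  have hβ : 1 < β := by rw [hβdef]; linarith
  have hβ0 : β ^ 2 - s * β + 1 = 0 := by
    rw [hβdef]
    linear_combination (1/4) * hr2
  have hP := (PP_monic N v)
  have h1 : ¬ (PP N v ≠ 1 ∧ ∀ f g' : ℤ[X], f.Monic → g'.Monic → f * g' = PP N v →
      f.natDegree = 0 ∨ g'.natDegree = 0) := fun h2 => hirr (hP.1.irreducible_iff_natDegree.2 h2)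
  have hne : PP N v ≠ 1 := by
    intro h2
    have h3 := hP.2
    rw [h2, natDegree_one] at h3
    omega
  push Not at h1
  obtain ⟨F, G, hF, hG, hFG, hFd, hGd⟩ := h1 hne
  by_cases hGβ : aeval (β : ℂ) G = 0
  · by_cases hFβ : aeval (β : ℂ) F = 0
    · exfalso
      have hF0 : eval β (F.map (Int.castRingHom ℝ)) = 0 := by
        have h2 : ((aeval β F : ℝ) : ℂ) = 0 := by
          rw [← hFβ]
          exact (Polynomial.aeval_algebraMap_apply ℂ β F).symm
        have h3 : aeval β F = 0 := by exact_mod_cast h2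
        rw [← h3, ← eval_map_algebraMap, algebraMap_int_eq]
      have hG0 : eval β (G.map (Int.castRingHom ℝ)) = 0 := by
        have h2 : ((aeval β G : ℝ) : ℂ) = 0 := by
          rw [← hGβ]
          exact (Polynomial.aeval_algebraMap_apply ℂ β G).symm
        have h3 : aeval β G = 0 := by exact_mod_cast h2
        rw [← h3, ← eval_map_algebraMap, algebraMap_int_eq]
      have h4 : eval β (derivative ((PP N v).map (Int.castRingHom ℝ))) = 0 := by
        rw [← hFG, Polynomial.map_mul, derivative_mul, eval_add, eval_mul, eval_mul, hF0, hG0]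
        simp
      have h5 : eval β (HC 1 (ee t)) = ∏ j, (β ^ 2 - t j * β + 1) := by
        rw [← ee_prod hg, eval_prod]
        refine Finset.prod_congr rfl (fun j _ => ?_)
        simp
      have h6 : 0 < eval β (HC 1 (ee t)) := by
        rw [h5]
        refine Finset.prod_pos (fun j _ => ?_)
        have := (abs_lt.1 (ht j)).2
        nlinarith
      rw [h, derivative_mul, eval_add, eval_mul, eval_mul] at h4
      have h7 : eval β (X ^ 2 - C s * X + 1 : ℝ[X]) = 0 := by
        rw [← hβ0]; simp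
      have h8 : eval β (derivative (X ^ 2 - C s * X + 1 : ℝ[X])) = r := by
        simp [hβdef]
        ring
      rw [h7, h8, zero_mul, add_zero] at h4
      exact absurd h4 (mul_pos hr0 h6).ne'
    · exact reducible_aux hg t ht N v s h β hβ hβ0 G F hG hF (by rw [mul_comm]; exact hFG) hFd hFβ
  · exact reducible_aux hg t ht N v s h β hβ hβ0 F G hF hG hFG hGd hGβ

end Pool.Agent.Helper11.SP
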