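import Pool.Agent.Helper11.SP.Dyn
import Pool.Agent.Helper11.SP.Pert
import Pool.Agent.Helper11.SP.RootsNear
import Pool.Agent.Helper11.SP.Factor
import Pool.Agent.Helper11.SP.UnitRoots

/-!
SP-14. Local statement.

Proof. `x0 = ee t0` (`Om`), `Code x0 n`.  `pert` gives `δ1 > 0`, `B > 1`.  By continuity of `ee` at `t0` there is `η > 0`
with `dist (ee t) (ee t0) < δ1` whenever `∀ j, |t j - t0 j| < η` (`ee_continuous`, sup distance `dist_pi_lt_iff`).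
`roots_near` gives `δ`, `N0'`; take `N0 ≥ N0'`, `N0 ≥ B + 4^g + 4`.  For `N ≥ N0` and `v` get `t`, and `s` from `factor`,
`|s - N| ≤ 4^g`, so `s > B + 3`, in particular `s > 2`.
If `PP N v` is irreducible: `salem_of` gives `β` with `s - 1 < β < s`, so `B < β`, `β ≤ N + 4^g`, degree `2 g + 2` by `PP_monic`;
`dyn` with `P = PP N v`, `Q = HC 1 (ee t)`, `L = n.natDegree + 2 g` (`Fc_zero`, `Fc_top`, `Fc_above`, `pert`; `Fc` is by definition
`(HC 1 x * n.map _).coeff`) gives `T^{L+2} 1 = T 1`.  If not irreducible: `reducible`.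
-/

open Polynomial

namespace Pool.Agent.Helper11.SP

theorem local_good {g : ℕ} (hg : 1 ≤ g) (x0 : Fin g → ℝ) (hx0 : x0 ∈ Reg g) :
    ∃ δ > 0, ∃ N0 : ℕ, 1 ≤ N0 ∧ ∀ N : ℕ, N0 ≤ N → ∀ v : Fin g → ℤ, (∀ j, |(v j : ℝ) / N - x0 j| < δ) →
      (∃ β ∈ parrySet g ((N : ℝ) + 4 ^ g), minpoly ℤ β = PP (N : ℤ) v) ∨
      (∃ ζ ∈ ZD (2 * g + 2), ‖ζ‖ = 1 ∧ aeval ζ (PP (N : ℤ) v) = 0) := by
  obtain ⟨⟨t0, hinj, ht0, rfl⟩, n, hn⟩ := hx0
  obtain ⟨δ1, hδ1, B, hB, hp⟩ := pert hg (ee t0) n hn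
  obtain ⟨η, hη, hη2⟩ := Metric.continuous_iff.1 (ee_continuous (g := g)) t0 δ1 hδ1
  obtain ⟨δ, hδ, N0', hN0', hroots⟩ := roots_near hg t0 hinj ht0 η hη
  obtain ⟨N1, hN1⟩ := exists_nat_ge (B + 4 ^ g + 4)
  refine ⟨δ, hδ, max N0' N1, le_trans hN0' (le_max_left _ _), fun N hN v hv => ?_⟩
  obtain ⟨t, htinj, ht, htη, hd⟩ := hroots N (le_trans (le_max_left _ _) hN) v hv
  obtain ⟨s, hs, hsN⟩ := factor hg t htinj ht (N : ℤ) v hd
  have hdist : dist (ee t) (ee t0) < δ1 :=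
    hη2 t ((dist_pi_lt_iff hη).2 fun j => by rw [Real.dist_eq]; exact htη j)
  have hNs : B + 4 ^ g + 4 ≤ (N : ℝ) :=
    le_trans hN1 (by exact_mod_cast le_trans (le_max_right _ _) hN)
  have hsN' : |s - (N : ℝ)| ≤ 4 ^ g := by
    simpa using hsN
  obtain ⟨hlo, hhi⟩ := abs_le.1 hsN'
  by_cases hirr : Irreducible (PP (N : ℤ) v)
  · left
    obtain ⟨β, hβ1, hβs, hsβ, hseq, hmin, hsal⟩ := salem_of hg t ht (N : ℤ) v s hs (by linarith) hirr
    refine ⟨β, ⟨⟨hsal, ?_, by linarith⟩, n.natDegree + 2 * g, ?_⟩, hmin⟩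
    · rw [hmin]
      exact (PP_monic (N : ℤ) v).2
    · refine dyn β s hβ1 hseq (PP (N : ℤ) v) n (HC 1 (ee t)) hs (n.natDegree + 2 * g) (by omega) ?_ ?_ ?_ ?_
      · have h1 := Fc_zero (ee t) n
        unfold Fc at h1
        rw [h1, hn.2.1]
        norm_num
      · exact Fc_top hg (ee t) n hn.1
      · exact Fc_above hg (ee t) n hn.1
      · intro i hi hi2
        exact hp (ee t) hdist β (by linarith) i hi hi2
  · right
    exact reducible hg t ht (N : ℤ) v s hs (by linarith) hirr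

end Pool.Agent.Helper11.SP
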