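import Pool.Agent.Helper11.SP.PerN
import Pool.Agent.Helper11.SP.SumAsym

/-!
SP-18. Lower bound for the number of Parry numbers.

Proof. Let `C`, `N0` be from `perN`, `Y = ⌊X - 4^g⌋₊`.  For `N0 ≤ N ≤ Y` (so `N + 4^g ≤ X`; if `N ≥ 1` and `N ≤ ⌊X - 4^g⌋₊` then
`N ≤ X - 4^g`) let `G_N = {v | ∃ β ∈ parrySet g (N + 4^g), minpoly ℤ β = PP N v}` and choose `β(N, v)`.
`parrySet g (N + 4^g) ⊆ parrySet g X`.  The map `(N, v) ↦ β(N, v)` is injective on the disjoint union because `minpoly ℤ β = PP N v`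
determines `(N, v)` (`PP_inj`).  `parrySet g X` is finite (`Helper3.salemSet_upper`, `X ≥ 1`).
So `∑_{N0 ≤ N ≤ Y} #G_N ≤ #parrySet g X` (use `Finset.card_sigma` or the union of the pairwise disjoint images), and
`sum_low` with `w = vol K`, `c = 4^g` gives the claim.
-/

open Polynomial MeasureTheory Filter

namespace Pool.Agent.Helper11.SP

theorem low_sum {g : ℕ} (hg : 1 ≤ g) (K : Set (Fin g → ℝ)) (hK : IsCompact K) (hKR : K ⊆ Reg g) (ε : ℝ) (hε : 0 < ε) :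
    ∀ᶠ X : ℝ in atTop, ((volume K).toReal - ε) / (g + 1) * X ^ (g + 1) ≤ ((parrySet g X).ncard : ℝ) := by
  classical
  obtain ⟨C, hC, N0, hN0, hper⟩ := perN hg K hK hKR
  filter_upwards [sum_low g hg (volume K).toReal C (4 ^ g) ε ENNReal.toReal_nonneg hC hε N0,
    eventually_ge_atTop (max 1 ((4 : ℝ) ^ g))] with X hX hX2
  have hX1 : (1 : ℝ) ≤ X := (le_max_left _ _).trans hX2
  have hX4 : (4 : ℝ) ^ g ≤ X := (le_max_right _ _).trans hX2
  refine hX.trans ?_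
  have hfin : (parrySet g X).Finite := (Helper3.salemSet_upper g X hX1).1.subset Set.inter_subset_left
  set Y : ℕ := ⌊X - (4 : ℝ) ^ g⌋₊ with hY
  have hYle : (Y : ℝ) ≤ X - (4 : ℝ) ^ g := Nat.floor_le (by linarith)
  set S : Finset (Σ _ : ℕ, Fin g → ℤ) :=
    (Finset.Ico N0 (Y + 1)).sigma (fun N => (good_finite hg N).toFinset) with hS
  have hmem : ∀ z ∈ S, ∃ β ∈ parrySet g ((z.1 : ℝ) + 4 ^ g), minpoly ℤ β = PP (z.1 : ℤ) z.2 := by
    intro z hz
    rw [hS, Finset.mem_sigma] at hz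
    have h2 := hz.2
    rw [Set.Finite.mem_toFinset] at h2
    exact h2
  choose! b hb1 hb2 using hmem
  have hmaps : ∀ z ∈ (S : Set (Σ _ : ℕ, Fin g → ℤ)), b z ∈ parrySet g X := by
    intro z hz
    have hz' : z ∈ S := hz
    have h1 := hb1 z hz'
    rw [hS, Finset.mem_sigma, Finset.mem_Ico] at hz'
    have hzY : (z.1 : ℝ) ≤ Y := by exact_mod_cast (by omega : z.1 ≤ Y)
    exact ⟨⟨h1.1.1, h1.1.2.1, h1.1.2.2.trans (by linarith)⟩, h1.2⟩
  have hinj : Set.InjOn b (S : Set (Σ _ : ℕ, Fin g → ℤ)) := by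
    intro z hz w hw hzw
    have h1 := hb2 z hz
    have h2 := hb2 w hw
    rw [hzw, h2] at h1
    obtain ⟨h3, h4⟩ := PP_inj hg _ _ _ _ h1
    have h3' : w.1 = z.1 := by exact_mod_cast h3
    obtain ⟨z1, z2⟩ := z
    obtain ⟨w1, w2⟩ := w
    simp only at h3' h4
    subst h3'
    subst h4
    rfl
  have hcard := Set.ncard_le_ncard_of_injOn b hmaps hinj hfin
  rw [Set.ncard_coe_finset, hS, Finset.card_sigma] at hcard
  have hcard' : ((∑ N ∈ Finset.Ico N0 (Y + 1), ((good_finite hg N).toFinset.card) : ℕ) : ℝ) ≤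
      ((parrySet g X).ncard : ℝ) := by exact_mod_cast hcard
  refine le_trans ?_ hcard'
  rw [Nat.cast_sum]
  apply Finset.sum_le_sum
  intro N hN
  rw [Finset.mem_Ico] at hN
  have h := hper N hN.1
  rw [Set.ncard_eq_toFinset_card _ (good_finite hg N)] at h
  exact h

end Pool.Agent.Helper11.SP
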