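import Pool.Agent.Helper11.SP.EeProd

/-!
SP-24. Volume of `OmBar 2`.

`vol2`. Proof. For `t ∈ [-2,2]²`: `ee t = ![-(t0 + t1), 2 + t0 t1]` (expand the product of the two quadratics).  So for
`x = (a, b) ∈ OmBar 2`: `|a| ≤ 4`, `b ≤ 2 + a²/4` (`(t0 - t1)² ≥ 0`), `b ≥ 2|a| - 2` (`(2 ± t0)(2 ± t1) ≥ 0`).
The area of `{(a,b) | |a| ≤ 4, 2|a| - 2 ≤ b ≤ 2 + a²/4}` is `∫_{-4}^{4} (4 + a²/4 - 2|a|) da = 32/3`.
(Transfer from `Fin 2 → ℝ` to `ℝ × ℝ`: `MeasureTheory.volume_preserving_finTwoArrow`; then `volume_regionBetween_eq_integral` or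
`Measure.prod_apply`.)
-/

open MeasureTheory

namespace Pool.Agent.Helper11.SP

open Polynomial in
private lemma ee_two (t : Fin 2 → ℝ) : ee t 0 = -(t 0 + t 1) ∧ ee t 1 = 2 + t 0 * t 1 := by
  have h : (∏ i, (X ^ 2 - C (t i) * X + 1) : ℝ[X]) =
      X ^ 4 + C (-(t 0 + t 1)) * X ^ 3 + C (2 + t 0 * t 1) * X ^ 2 + C (-(t 0 + t 1)) * X + C 1 := by
    rw [Fin.prod_univ_two]
    simp only [map_neg, map_add, map_mul, map_one, C_ofNat]
    ring
  constructor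
  · simp only [ee, h, coeff_add, coeff_C_mul, coeff_X_pow, coeff_X, coeff_C]
    simp
  · simp only [ee, h, coeff_add, coeff_C_mul, coeff_X_pow, coeff_X, coeff_C]
    simp

private lemma int_val : ∫ x in Set.Icc (-4 : ℝ) 4, (4 + x ^ 2 / 4 - 2 * |x|) = 32 / 3 := by
  rw [integral_Icc_eq_integral_Ioc, ← intervalIntegral.integral_of_le (by norm_num)]
  have hc : Continuous fun x : ℝ => 4 + x ^ 2 / 4 - 2 * |x| := by fun_prop
  rw [← intervalIntegral.integral_add_adjacent_intervals (b := (0 : ℝ)) (hc.intervalIntegrable _ _)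
    (hc.intervalIntegrable _ _)]
  have h1 : ∫ x in (-4 : ℝ)..0, (4 + x ^ 2 / 4 - 2 * |x|) = ∫ x in (-4 : ℝ)..0, (4 + x ^ 2 / 4 + 2 * x) := by
    apply intervalIntegral.integral_congr
    intro x hx
    rw [Set.uIcc_of_le (by norm_num)] at hx
    simp only
    rw [abs_of_nonpos hx.2]
    ring
  have h2 : ∫ x in (0 : ℝ)..4, (4 + x ^ 2 / 4 - 2 * |x|) = ∫ x in (0 : ℝ)..4, (4 + x ^ 2 / 4 - 2 * x) := by
    apply intervalIntegral.integral_congr
    intro x hx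
    rw [Set.uIcc_of_le (by norm_num)] at hx
    simp only
    rw [abs_of_nonneg hx.1]
  have h3 : ∫ x in (-4 : ℝ)..0, (4 + x ^ 2 / 4 + 2 * x) = 16 / 3 := by
    rw [intervalIntegral.integral_add (Continuous.intervalIntegrable (by fun_prop) _ _)
      (Continuous.intervalIntegrable (by fun_prop) _ _), intervalIntegral.integral_add
      (Continuous.intervalIntegrable (by fun_prop) _ _) (Continuous.intervalIntegrable (by fun_prop) _ _)]
    rw [intervalIntegral.integral_const_mul (2 : ℝ) (fun x : ℝ => x)]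
    simp only [intervalIntegral.integral_const, intervalIntegral.integral_div, integral_pow, integral_id]
    norm_num
  have h4 : ∫ x in (0 : ℝ)..4, (4 + x ^ 2 / 4 - 2 * x) = 16 / 3 := by
    rw [intervalIntegral.integral_sub (Continuous.intervalIntegrable (by fun_prop) _ _)
      (Continuous.intervalIntegrable (by fun_prop) _ _), intervalIntegral.integral_add
      (Continuous.intervalIntegrable (by fun_prop) _ _) (Continuous.intervalIntegrable (by fun_prop) _ _)]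
    rw [intervalIntegral.integral_const_mul (2 : ℝ) (fun x : ℝ => x)]
    simp only [intervalIntegral.integral_const, intervalIntegral.integral_div, integral_pow, integral_id]
    norm_num
  rw [h1, h2, h3, h4]
  norm_num

private lemma fnn (x : ℝ) : 0 ≤ 4 + x ^ 2 / 4 - 2 * |x| := by
  have : x ^ 2 = |x| ^ 2 := (sq_abs x).symm
  nlinarith [sq_nonneg (|x| - 4)]

private lemma vol_region :
    volume {p : ℝ × ℝ | p.1 ∈ Set.Icc (-4 : ℝ) 4 ∧ 2 * |p.1| - 2 ≤ p.2 ∧ p.2 ≤ 2 + p.1 ^ 2 / 4} ≤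
      ENNReal.ofReal (32 / 3) := by
  have hm : MeasurableSet {p : ℝ × ℝ | p.1 ∈ Set.Icc (-4 : ℝ) 4 ∧ 2 * |p.1| - 2 ≤ p.2 ∧ p.2 ≤ 2 + p.1 ^ 2 / 4} := by
    apply IsClosed.measurableSet
    apply IsClosed.inter (isClosed_Icc.preimage continuous_fst)
    apply IsClosed.inter
    · exact isClosed_le (f := fun p : ℝ × ℝ => 2 * |p.1| - 2) (g := fun p : ℝ × ℝ => p.2) (by fun_prop) (by fun_prop)
    · exact isClosed_le (f := fun p : ℝ × ℝ => p.2) (g := fun p : ℝ × ℝ => 2 + p.1 ^ 2 / 4) (by fun_prop) (by fun_prop)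
  rw [Measure.volume_eq_prod, Measure.prod_apply hm]
  calc ∫⁻ x, volume (Prod.mk x ⁻¹' {p : ℝ × ℝ | p.1 ∈ Set.Icc (-4 : ℝ) 4 ∧ 2 * |p.1| - 2 ≤ p.2 ∧
        p.2 ≤ 2 + p.1 ^ 2 / 4})
      ≤ ∫⁻ x, (Set.Icc (-4 : ℝ) 4).indicator (fun x => ENNReal.ofReal (4 + x ^ 2 / 4 - 2 * |x|)) x := by
        apply lintegral_mono
        intro x
        by_cases hx : x ∈ Set.Icc (-4 : ℝ) 4
        · rw [Set.indicator_of_mem hx]
          refine (measure_mono (t := Set.Icc (2 * |x| - 2) (2 + x ^ 2 / 4)) fun y hy => ?_).trans ?_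
          · exact ⟨hy.2.1, hy.2.2⟩
          · rw [Real.volume_Icc]
            apply ENNReal.ofReal_le_ofReal
            linarith
        · rw [Set.indicator_of_notMem hx]
          have : (Prod.mk x ⁻¹' {p : ℝ × ℝ | p.1 ∈ Set.Icc (-4 : ℝ) 4 ∧ 2 * |p.1| - 2 ≤ p.2 ∧
              p.2 ≤ 2 + p.1 ^ 2 / 4}) = ∅ := by
            ext y
            simp only [Set.mem_preimage, Set.mem_empty_iff_false, iff_false]
            intro h
            exact hx h.1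
          simp only
          rw [this]
          simp
    _ = ∫⁻ x in Set.Icc (-4 : ℝ) 4, ENNReal.ofReal (4 + x ^ 2 / 4 - 2 * |x|) :=
        lintegral_indicator measurableSet_Icc _
    _ = ENNReal.ofReal (∫ x in Set.Icc (-4 : ℝ) 4, (4 + x ^ 2 / 4 - 2 * |x|)) := by
        rw [ofReal_integral_eq_lintegral_ofReal]
        · exact Continuous.integrableOn_Icc (by fun_prop)
        · exact Filter.Eventually.of_forall fnn
    _ ≤ _ := by rw [int_val]

theorem vol2 : volume (OmBar 2) ≤ ENNReal.ofReal (32 / 3) := by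
  have hsub : OmBar 2 ⊆ (MeasurableEquiv.finTwoArrow : (Fin 2 → ℝ) ≃ᵐ ℝ × ℝ) ⁻¹'
      {p : ℝ × ℝ | p.1 ∈ Set.Icc (-4 : ℝ) 4 ∧ 2 * |p.1| - 2 ≤ p.2 ∧ p.2 ≤ 2 + p.1 ^ 2 / 4} := by
    rintro x ⟨t, ht, rfl⟩
    have h0 := abs_le.1 (ht 0)
    have h1 := abs_le.1 (ht 1)
    obtain ⟨e0, e1⟩ := ee_two t
    change (ee t 0, ee t 1) ∈ {p : ℝ × ℝ | p.1 ∈ Set.Icc (-4 : ℝ) 4 ∧ 2 * |p.1| - 2 ≤ p.2 ∧ p.2 ≤ 2 + p.1 ^ 2 / 4}
    rw [e0, e1]
    refine ⟨⟨?_, ?_⟩, ?_, ?_⟩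
    · simp only; linarith
    · simp only; linarith
    · simp only [abs_neg]
      rcases abs_cases (t 0 + t 1) with ⟨h, _⟩ | ⟨h, _⟩ <;> rw [h]
      · nlinarith [mul_nonneg (sub_nonneg.2 h0.2) (sub_nonneg.2 h1.2)]
      · nlinarith [mul_nonneg (neg_le_iff_add_nonneg.1 h0.1) (neg_le_iff_add_nonneg.1 h1.1)]
    · simp only
      nlinarith [sq_nonneg (t 0 - t 1)]
  calc volume (OmBar 2) ≤ _ := measure_mono hsub
    _ = volume {p : ℝ × ℝ | p.1 ∈ Set.Icc (-4 : ℝ) 4 ∧ 2 * |p.1| - 2 ≤ p.2 ∧ p.2 ≤ 2 + p.1 ^ 2 / 4} :=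
        (volume_preserving_finTwoArrow ℝ).measure_preimage_equiv _
    _ ≤ _ := vol_region

end Pool.Agent.Helper11.SP
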