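import Pool.Agent.Helper11.SP.Unif
import Pool.Agent.Helper11.SP.CountLow
import Pool.Agent.Helper11.SP.LinCount
import Pool.Agent.Helper11.SP.Struct

/-!
SP-16. Number of good `v` for given `N`.

Proof. Let `δ`, `N0'` be from `unif` and `S = {v | ∃ x ∈ K, ∀ j, |v j / N - x j| < δ}`; for `N > 1/δ` `count_low` gives
`vol(K) N^g ≤ #S`.  If `|x j| ≤ R` on `K` then for `v ∈ S` `|v j| ≤ (R + δ) N ≤ M N` with a natural number `M ≥ 1`.
By `unif`, `S ⊆ Good ∪ ⋃_{ζ ∈ Z} {v | (∀ j, |v j| ≤ M N) ∧ aeval ζ (PP N v) = 0}` where `Z` is the finite set of the `ζ ∈ ZD (2g+2)` of modulus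
one (`ZD_finite`).  By `lin_count` each of the sets has at most `(2 M N + 1)^(g-1) ≤ (3 M)^(g-1) N^(g-1)` elements; `C = #Z * (3M)^(g-1)`.
`good_finite`: the map `v ↦ β` is injective (`PP_inj`) into `parrySet g (N + 4^g) ⊆ salemSet ..`, finite by `Helper3.salemSet_upper`
(there the degree is written `2*M+2`).
-/

open Polynomial MeasureTheory

namespace Pool.Agent.Helper11.SP

lemma good_finite {g : ℕ} (hg : 1 ≤ g) (N : ℕ) :
    {v : Fin g → ℤ | ∃ β ∈ parrySet g ((N : ℝ) + 4 ^ g), minpoly ℤ β = PP (N : ℤ) v}.Finite := by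
  classical
  have h4 : (1 : ℝ) ≤ (N : ℝ) + 4 ^ g := by
    have h5 : (1 : ℝ) ≤ 4 ^ g := one_le_pow₀ (by norm_num)
    have h6 : (0 : ℝ) ≤ N := Nat.cast_nonneg N
    linarith
  have hfin : (Helper3.salemSet (2 * g + 2) ((N : ℝ) + 4 ^ g)).Finite := (Helper3.salemSet_upper g _ h4).1
  have hfin2 : (parrySet g ((N : ℝ) + 4 ^ g)).Finite := hfin.subset Set.inter_subset_left
  have hex : ∀ v : Fin g → ℤ, ∃ β : ℝ, v ∈ {v : Fin g → ℤ | ∃ β ∈ parrySet g ((N : ℝ) + 4 ^ g), minpoly ℤ β = PP (N : ℤ) v} →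
      β ∈ parrySet g ((N : ℝ) + 4 ^ g) ∧ minpoly ℤ β = PP (N : ℤ) v := by
    intro v
    by_cases hv : ∃ β ∈ parrySet g ((N : ℝ) + 4 ^ g), minpoly ℤ β = PP (N : ℤ) v
    · obtain ⟨β, h1, h2⟩ := hv
      exact ⟨β, fun _ => ⟨h1, h2⟩⟩
    · exact ⟨0, fun h => absurd h hv⟩
  choose f hf using hex
  refine Set.Finite.of_finite_image (f := f) (hfin2.subset ?_) ?_
  · rintro _ ⟨v, hv, rfl⟩
    exact (hf v hv).1
  · intro v hv w hw hvw
    have h1 := (hf v hv).2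
    have h2 := (hf w hw).2
    rw [hvw, h2] at h1
    exact ((PP_inj hg _ _ _ _ h1).2).symm

theorem perN {g : ℕ} (hg : 1 ≤ g) (K : Set (Fin g → ℝ)) (hK : IsCompact K) (hKR : K ⊆ Reg g) :
    ∃ C : ℝ, 0 ≤ C ∧ ∃ N0 : ℕ, 1 ≤ N0 ∧ ∀ N : ℕ, N0 ≤ N →
      (volume K).toReal * (N : ℝ) ^ g - C * (N : ℝ) ^ (g - 1) ≤
        ({v : Fin g → ℤ | ∃ β ∈ parrySet g ((N : ℝ) + 4 ^ g), minpoly ℤ β = PP (N : ℤ) v}.ncard : ℝ) := by
  classical
  obtain ⟨δ, hδ, N0, hN0, hunif⟩ := unif hg K hK hKR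
  obtain ⟨R, hR⟩ := hK.isBounded.exists_norm_le
  obtain ⟨M0, hM0⟩ := exists_nat_ge (R + δ)
  obtain ⟨N1, hN1⟩ := exists_nat_gt (1 / δ)
  set M : ℕ := M0 + 1 with hM
  have hMge : R + δ ≤ (M : ℝ) := by rw [hM]; push_cast; linarith
  have hM1 : 1 ≤ M := by omega
  set Z : Finset ℂ := (ZD_finite (2 * g + 2)).toFinset.filter (fun ζ => ‖ζ‖ = 1) with hZ
  refine ⟨(Z.card : ℝ) * (3 * M) ^ (g - 1), by positivity, max N0 N1, le_trans hN0 (le_max_left _ _), ?_⟩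
  intro N hN
  have hNN0 : N0 ≤ N := le_trans (le_max_left _ _) hN
  have hNN1 : (1 / δ) < (N : ℝ) := lt_of_lt_of_le hN1 (by exact_mod_cast le_trans (le_max_right _ _) hN)
  have hNpos : 1 ≤ N := le_trans hN0 hNN0
  have hNposR : (0 : ℝ) < N := by exact_mod_cast hNpos
  obtain ⟨hSfin, hlow⟩ := count_low K hK.isBounded δ hδ N hNN1
  set S : Set (Fin g → ℤ) := {v : Fin g → ℤ | ∃ x ∈ K, ∀ j, |(v j : ℝ) / N - x j| < δ} with hS
  set G : Set (Fin g → ℤ) := {v : Fin g → ℤ | ∃ β ∈ parrySet g ((N : ℝ) + 4 ^ g), minpoly ℤ β = PP (N : ℤ) v} with hG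
  have hGfin : G.Finite := good_finite hg N
  set L : ℂ → Finset (Fin g → ℤ) := fun ζ =>
    (Fintype.piFinset (fun _ : Fin g => Finset.Icc (-((M * N : ℕ) : ℤ)) ((M * N : ℕ) : ℤ))).filter
      (fun v => aeval ζ (PP (N : ℤ) v) = 0) with hL
  have hLeq : ∀ ζ : ℂ, (L ζ : Set (Fin g → ℤ)) =
      {v : Fin g → ℤ | (∀ j, |v j| ≤ ((M * N : ℕ) : ℤ)) ∧ aeval ζ (PP (N : ℤ) v) = 0} := by
    intro ζ
    ext v
    simp only [hL, Finset.coe_filter, Fintype.mem_piFinset, Finset.mem_Icc, Set.mem_ofPred_eq, abs_le]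
  have hLcard : ∀ ζ ∈ Z, (L ζ).card ≤ (2 * (M * N) + 1) ^ (g - 1) := by
    intro ζ hζ
    have h1 : ‖ζ‖ = 1 := (Finset.mem_filter.1 hζ).2
    have h0 : ζ ≠ 0 := by
      intro h
      rw [h, norm_zero] at h1
      exact zero_ne_one h1
    have h2 := (lin_count hg ζ h0 (N : ℤ) (M * N)).2
    rw [← hLeq ζ, Set.ncard_coe_finset] at h2
    exact h2
  have hsub : S ⊆ ((hGfin.toFinset ∪ Z.biUnion L : Finset (Fin g → ℤ)) : Set (Fin g → ℤ)) := by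
    rintro v hv
    have hv' : ∃ x ∈ K, ∀ j, |(v j : ℝ) / N - x j| < δ := hv
    rw [Finset.coe_union, Set.mem_union]
    rcases hunif N hNN0 v hv' with h | ⟨ζ, hζ, hζ1, h0⟩
    · left
      rw [Set.Finite.coe_toFinset]
      exact h
    · right
      rw [Finset.mem_coe, Finset.mem_biUnion]
      refine ⟨ζ, Finset.mem_filter.2 ⟨(ZD_finite (2 * g + 2)).mem_toFinset.2 hζ, hζ1⟩, ?_⟩
      rw [← Finset.mem_coe, hLeq ζ]
      refine ⟨fun j => ?_, h0⟩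
      obtain ⟨x, hx, hxv⟩ := hv'
      have h1 : |x j| ≤ R := (norm_le_pi_norm x j).trans (hR x hx)
      have h2 := hxv j
      have h3 : |(v j : ℝ) / N| ≤ R + δ := by
        calc |(v j : ℝ) / N| = |((v j : ℝ) / N - x j) + x j| := by ring_nf
          _ ≤ |(v j : ℝ) / N - x j| + |x j| := abs_add_le _ _
          _ ≤ R + δ := by linarith
      rw [abs_div, abs_of_pos hNposR, div_le_iff₀ hNposR] at h3
      have h5 : |(v j : ℝ)| ≤ (M : ℝ) * N := h3.trans (mul_le_mul_of_nonneg_right hMge hNposR.le)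
      have h6 : ((|v j| : ℤ) : ℝ) ≤ (((M * N : ℕ) : ℤ) : ℝ) := by
        push_cast
        exact h5
      exact_mod_cast h6
  have hcard : S.ncard ≤ G.ncard + Z.card * (2 * (M * N) + 1) ^ (g - 1) := by
    calc S.ncard ≤ ((hGfin.toFinset ∪ Z.biUnion L : Finset (Fin g → ℤ)) : Set (Fin g → ℤ)).ncard :=
          Set.ncard_le_ncard hsub (Finset.finite_toSet _)
      _ = (hGfin.toFinset ∪ Z.biUnion L).card := Set.ncard_coe_finset _
      _ ≤ hGfin.toFinset.card + (Z.biUnion L).card := Finset.card_union_le _ _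
      _ ≤ G.ncard + Z.card * (2 * (M * N) + 1) ^ (g - 1) := by
          refine add_le_add ?_ (Finset.card_biUnion_le_card_mul _ _ _ hLcard)
          rw [Set.ncard_eq_toFinset_card G hGfin]
  have hpow : (((2 * (M * N) + 1) ^ (g - 1) : ℕ) : ℝ) ≤ (3 * (M : ℝ)) ^ (g - 1) * (N : ℝ) ^ (g - 1) := by
    have h1 : 2 * (M * N) + 1 ≤ 3 * M * N := by nlinarith [Nat.mul_le_mul hM1 hNpos]
    have h2 : ((2 * (M * N) + 1) ^ (g - 1) : ℕ) ≤ (3 * M * N) ^ (g - 1) := Nat.pow_le_pow_left h1 _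
    calc (((2 * (M * N) + 1) ^ (g - 1) : ℕ) : ℝ) ≤ (((3 * M * N) ^ (g - 1) : ℕ) : ℝ) := by exact_mod_cast h2
      _ = (3 * (M : ℝ)) ^ (g - 1) * (N : ℝ) ^ (g - 1) := by
          push_cast
          rw [mul_pow]
  have hcardR : (S.ncard : ℝ) ≤ (G.ncard : ℝ) + (Z.card : ℝ) * (((2 * (M * N) + 1) ^ (g - 1) : ℕ) : ℝ) := by
    exact_mod_cast hcard
  have hfinal : (Z.card : ℝ) * (((2 * (M * N) + 1) ^ (g - 1) : ℕ) : ℝ) ≤
      (Z.card : ℝ) * (3 * (M : ℝ)) ^ (g - 1) * (N : ℝ) ^ (g - 1) := by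
    rw [mul_assoc]
    exact mul_le_mul_of_nonneg_left hpow (Nat.cast_nonneg _)
  linarith

end Pool.Agent.Helper11.SP
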