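import Pool.Agent.Helper11.SP.EeProd

/-!
SP-05. Real valued functions on the unit circle.

`hr a x θ = Re (e^{-i g θ} HC(a,x)(e^{iθ}))`, written as an explicit sum
`∑_{k ≤ 2g} hc a x k * cos ((k - g) θ)`.

Proof of `HC_exp`: `HC(a,x)(z) = ∑ hc a x k z^k`; with `z = e^{iθ}`, `z^k = z^g e^{i (k-g) θ}`, so
`HC(a,x)(z) = z^g (∑ hc k cos((k-g)θ) + i ∑ hc k sin((k-g)θ))` and the second sum is `0`: the reflection
`k ↦ 2g - k` (`Finset.sum_range_reflect`, `hc_pal`) changes its sign.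
`PP_exp`: `PP N v = X^{2g+2} + 1 - X HC N v` and `z^{2g+2} + 1 = z^{g+1} * 2 cos((g+1) θ)`.
`hr_ee`: `HC 1 (ee t) (z) = ∏ (z² - t_i z + 1)` (`ee_prod`) and `z² - t z + 1 = z (2 cos θ - t)`; cancel `z^g`.
`hr_smul`: `hc_smul`.  `hr_lip`: `|hc 1 x k - hc 1 y k| ≤ δ` for all `k`, and `|cos| ≤ 1`, `2 g + 1` terms.
`hr_continuous`: finite sum of continuous functions.
-/

open Polynomial

namespace Pool.Agent.Helper11.SP

/-- `e^{-igθ} HC(a,x)(e^{iθ})`. -/
noncomputable def hr {g : ℕ} (a : ℝ) (x : Fin g → ℝ) (θ : ℝ) : ℝ :=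
  ∑ k ∈ Finset.range (2 * g + 1), hc a x k * Real.cos (((k : ℝ) - g) * θ)

private lemma exp_pair (g k l : ℕ) (h : k + l = 2 * g) (θ : ℝ) :
    Complex.exp (θ * Complex.I) ^ k + Complex.exp (θ * Complex.I) ^ l =
      2 * (Complex.exp (θ * Complex.I) ^ g * (Real.cos (((k : ℝ) - g) * θ) : ℂ)) := by
  have hl : (l : ℂ) = 2 * g - k := by
    have : ((k + l : ℕ) : ℂ) = ((2 * g : ℕ) : ℂ) := by rw [h]
    push_cast at this
    linear_combination this
  rw [← Complex.exp_nat_mul, ← Complex.exp_nat_mul, ← Complex.exp_nat_mul, Complex.ofReal_cos,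
    Complex.cos]
  have h1 : Complex.exp ((k : ℂ) * (θ * Complex.I)) = Complex.exp ((g : ℂ) * (θ * Complex.I)) *
      Complex.exp ((((((k : ℝ) - g) * θ : ℝ)) : ℂ) * Complex.I) := by
    rw [← Complex.exp_add]
    congr 1
    push_cast
    ring
  have h2 : Complex.exp ((l : ℂ) * (θ * Complex.I)) = Complex.exp ((g : ℂ) * (θ * Complex.I)) *
      Complex.exp (-(((((k : ℝ) - g) * θ : ℝ)) : ℂ) * Complex.I) := by
    rw [← Complex.exp_add]
    congr 1
    rw [hl]
    push_cast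
    ring
  rw [h1, h2]
  ring

lemma HC_exp {g : ℕ} (hg : 1 ≤ g) (a : ℝ) (x : Fin g → ℝ) (θ : ℝ) :
    aeval (Complex.exp (θ * Complex.I)) (HC a x) = Complex.exp (θ * Complex.I) ^ g * (hr a x θ : ℂ) := by
  set z := Complex.exp (θ * Complex.I) with hz
  have h1 : aeval z (HC a x) = ∑ k ∈ Finset.range (2 * g + 1), ((hc a x k : ℝ) : ℂ) * z ^ k := by
    unfold HC
    rw [map_sum]
    refine Finset.sum_congr rfl fun k _ => ?_
    rw [aeval_monomial]
    rfl
  have h2 : ∑ k ∈ Finset.range (2 * g + 1), ((hc a x k : ℝ) : ℂ) * z ^ k =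
      ∑ k ∈ Finset.range (2 * g + 1), ((hc a x k : ℝ) : ℂ) * z ^ (2 * g - k) := by
    rw [← Finset.sum_range_reflect]
    refine Finset.sum_congr rfl fun k hk => ?_
    have hk' : k ≤ 2 * g := by
      rw [Finset.mem_range] at hk
      omega
    have h3 : 2 * g + 1 - 1 - k = 2 * g - k := by omega
    rw [h3, hc_pal hg a x k hk']
  have h4 : ∀ k ∈ Finset.range (2 * g + 1), ((hc a x k : ℝ) : ℂ) * z ^ k + ((hc a x k : ℝ) : ℂ) * z ^ (2 * g - k) =
      2 * (z ^ g * ((hc a x k * Real.cos (((k : ℝ) - g) * θ) : ℝ) : ℂ)) := by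
    intro k hk
    have hk' : k ≤ 2 * g := by
      rw [Finset.mem_range] at hk
      omega
    have h5 := exp_pair g k (2 * g - k) (by omega) θ
    rw [← hz] at h5
    rw [Complex.ofReal_mul]
    linear_combination ((hc a x k : ℝ) : ℂ) * h5
  have h6 : 2 * aeval z (HC a x) = 2 * (z ^ g * (hr a x θ : ℂ)) := by
    calc 2 * aeval z (HC a x) = ∑ k ∈ Finset.range (2 * g + 1),
          (((hc a x k : ℝ) : ℂ) * z ^ k + ((hc a x k : ℝ) : ℂ) * z ^ (2 * g - k)) := by
          rw [Finset.sum_add_distrib, ← h2, h1]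
          ring
      _ = _ := by
          rw [Finset.sum_congr rfl h4, ← Finset.mul_sum, ← Finset.mul_sum]
          unfold hr
          rw [Complex.ofReal_sum]
  exact mul_left_cancel₀ two_ne_zero h6

lemma PP_exp {g : ℕ} (hg : 1 ≤ g) (N : ℤ) (v : Fin g → ℤ) (θ : ℝ) :
    aeval (Complex.exp (θ * Complex.I)) (PP N v) = Complex.exp (θ * Complex.I) ^ (g + 1) *
      ((2 * Real.cos (((g : ℝ) + 1) * θ) - hr (N : ℝ) (fun j => (v j : ℝ)) θ : ℝ) : ℂ) := by
  have h0 := HC_exp hg (N : ℝ) (fun j => (v j : ℝ)) θ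
  set z := Complex.exp (θ * Complex.I) with hz
  have h1 : aeval z (HC N v) = aeval z (HC (N : ℝ) (fun j => (v j : ℝ))) := by
    unfold HC
    rw [map_sum, map_sum]
    refine Finset.sum_congr rfl fun k _ => ?_
    rw [aeval_monomial, aeval_monomial, ← hc_cast]
    simp
  have h2 : aeval z (PP N v) = z ^ (2 * g + 2) + 1 - z * aeval z (HC N v) := by
    unfold PP
    simp
  have h3 := exp_pair (g + 1) (2 * g + 2) 0 (by ring) θ
  rw [← hz, pow_zero] at h3
  have h4 : (((2 * g + 2 : ℕ) : ℝ) - ((g + 1 : ℕ) : ℝ)) * θ = ((g : ℝ) + 1) * θ := by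
    push_cast
    ring
  rw [h4] at h3
  rw [h2, h1, h0, h3]
  push_cast
  ring

lemma hr_ee {g : ℕ} (hg : 1 ≤ g) (t : Fin g → ℝ) (θ : ℝ) : hr 1 (ee t) θ = ∏ i, (2 * Real.cos θ - t i) := by
  have h0 := HC_exp hg 1 (ee t) θ
  rw [← ee_prod hg t, map_prod] at h0
  have h1 := exp_pair 1 2 0 (by ring) θ
  set z := Complex.exp (θ * Complex.I) with hz
  have hz0 : z ≠ 0 := Complex.exp_ne_zero _
  have h2 : ∀ i ∈ (Finset.univ : Finset (Fin g)), aeval z (X ^ 2 - C (t i) * X + 1 : ℝ[X]) =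
      z * ((2 * Real.cos θ - t i : ℝ) : ℂ) := by
    intro i _
    have h3 : (((2 : ℕ) : ℝ) - ((1 : ℕ) : ℝ)) * θ = θ := by
      push_cast
      ring
    rw [h3, pow_zero, pow_one] at h1
    simp only [map_add, map_sub, map_mul, aeval_X_pow, aeval_X, aeval_C, map_one]
    push_cast
    have h4 : (algebraMap ℝ ℂ) (t i) = (t i : ℂ) := rfl
    rw [h4]
    push_cast at h1
    linear_combination h1
  rw [Finset.prod_congr rfl h2, Finset.prod_mul_distrib, Finset.prod_const, Finset.card_univ,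
    Fintype.card_fin] at h0
  have h5 := mul_left_cancel₀ (pow_ne_zero g hz0) h0
  rw [← Complex.ofReal_prod] at h5
  exact (Complex.ofReal_injective h5).symm

lemma hr_smul {g : ℕ} (c a : ℝ) (x : Fin g → ℝ) (θ : ℝ) : hr (c * a) (fun j => c * x j) θ = c * hr a x θ := by
  unfold hr
  rw [Finset.mul_sum]
  refine Finset.sum_congr rfl fun k _ => ?_
  rw [hc_smul]
  ring

lemma hr_lip {g : ℕ} (x y : Fin g → ℝ) (δ : ℝ) (hδ : 0 ≤ δ) (h : ∀ j, |x j - y j| ≤ δ) (θ : ℝ) :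
    |hr 1 x θ - hr 1 y θ| ≤ (2 * g + 1) * δ := by
  unfold hr
  rw [← Finset.sum_sub_distrib]
  refine (Finset.abs_sum_le_sum_abs _ _).trans ?_
  have h1 : ∀ k ∈ Finset.range (2 * g + 1), |hc 1 x k * Real.cos (((k : ℝ) - g) * θ) -
      hc 1 y k * Real.cos (((k : ℝ) - g) * θ)| ≤ δ := by
    intro k _
    rw [← sub_mul, abs_mul]
    have h2 : |hc 1 x k - hc 1 y k| ≤ δ := by
      unfold hc
      split_ifs
      · simpa using hδ
      · exact h _
      · exact h _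
      · simpa using hδ
      · simpa using hδ
    calc _ ≤ δ * 1 := mul_le_mul h2 (Real.abs_cos_le_one _) (abs_nonneg _) hδ
      _ = δ := mul_one _
  refine (Finset.sum_le_card_nsmul _ _ _ h1).trans ?_
  rw [Finset.card_range, nsmul_eq_mul]
  push_cast
  exact le_rfl

lemma hr_continuous {g : ℕ} (a : ℝ) (x : Fin g → ℝ) : Continuous (hr a x) := by
  unfold hr
  fun_prop

end Pool.Agent.Helper11.SP
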