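import Pool.Agent.Helper11.SP.Chk2

/-!
SP-32. Soundness of `run2` (natural number level).

`VL.toL`: the list of vertices.  `all2_iff`: induction on `l`, `Bool.rec` and `Nat.ble_eq`.
`run2_sound`: generalise over the starting state: prove by induction on `f`, for all `a b c d acc`, that if
`run2 X Y D c0 vs f a b c d acc = some acc'` then there is a list `new` of length `f` with `acc' = new ++ acc` such that (with the entries of `acc'`
read from the end) every new entry `m` with the four entries `a, b, c, d` before it satisfies `okStep`, and the last state is `(128,128,128,128)`.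
It is convenient to require in the induction that `acc = a :: b :: c :: d :: _` (up to padding by 128): use the function `pv`:
`pv l i j` is the entry number `i - j` of `l`, or `128` if `j > i`.  With `l = acc'.reverse` the entries are `l_0 = 129, l_1, ..., l_L`.
The new entry is `m = (R - P) / D + 1` with `R = k D + c0`, `P = (d + 1024) D + e X + b Y`, so `R < m D + P` (`Nat.lt_div_mul_add`-type fact:
`(R - P) < ((R-P)/D + 1) * D` for `D > 0`), and `m D + P = (m + d + 1024) D + e X + b Y`.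
-/

namespace Pool.Agent.Helper11.SP

/-- The list of vertices `(X, Y, D, c)`. -/
def VL.toL : VL → List (ℕ × ℕ × ℕ × ℕ)
  | VL.nil => []
  | VL.cons X Y D c l => (X, Y, D, c) :: VL.toL l

/-- Entry `i - j` of `l`, or `128` if `j > i`. -/
def pv (l : List ℕ) (i j : ℕ) : ℕ := if j ≤ i then l.getD (i - j) 0 else 128

/-- `D * F = L - R` as a pair of natural numbers: left side. -/
def LL2 (l : List ℕ) (i : ℕ) (X Y D : ℕ) : ℕ :=
  (pv l i 0 + pv l i 4 + 1024) * D + (pv l i 1 + pv l i 3) * X + pv l i 2 * Y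

/-- Right side. -/
def RR2 (l : List ℕ) (i : ℕ) (D c : ℕ) : ℕ := (4 * (pv l i 1 + pv l i 3) + 2 * pv l i 2) * D + c

private lemma brec (x b : Bool) : (Bool.rec (motive := fun _ => Bool) false x b : Bool) = (b && x) := by
  cases b <;> rfl

private lemma all2_cons (md e b k X Y D c : ℕ) (l : VL) :
    all2 md e b k (VL.cons X Y D c l) = (Nat.ble (k * D + c) (md * D + e * X + b * Y) &&
      (Nat.ble (md * D + e * X + b * Y) (k * D + c + D) && all2 md e b k l)) := by
  rw [← brec, ← brec]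
  rfl

lemma all2_iff (md e b k : ℕ) (l : VL) :
    all2 md e b k l = true ↔ ∀ v ∈ l.toL, k * v.2.2.1 + v.2.2.2 ≤ md * v.2.2.1 + e * v.1 + b * v.2.1 ∧
      md * v.2.2.1 + e * v.1 + b * v.2.1 ≤ k * v.2.2.1 + v.2.2.2 + v.2.2.1 := by
  induction l with
  | nil => simp [all2, VL.toL]
  | cons X Y D c l ih =>
    rw [all2_cons, Bool.and_eq_true, Bool.and_eq_true, Nat.ble_eq, Nat.ble_eq, ih]
    simp only [VL.toL, List.mem_cons, forall_eq_or_imp]
    tauto

private lemma brecO (x : Option (List ℕ)) (b : Bool) :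
    (Bool.rec (motive := fun _ => Option (List ℕ)) none x b : Option (List ℕ)) = if b = true then x else none := by
  cases b <;> rfl

private lemma run2_zero (X Y D c0 : ℕ) (vs : VL) (a b c d : ℕ) (acc : List ℕ) :
    run2 X Y D c0 vs 0 a b c d acc =
      if ((Nat.beq a 128 && Nat.beq b 128) && (Nat.beq c 128 && Nat.beq d 128)) = true then some acc else none := by
  rw [← brecO]
  rfl

private lemma run2_succ (X Y D c0 : ℕ) (vs : VL) (f a b c d : ℕ) (acc : List ℕ) (m : ℕ)
    (hm : m = (((4 * (a + c) + 2 * b) * D + c0) - ((d + 1024) * D + (a + c) * X + b * Y)) / D + 1) :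
    run2 X Y D c0 vs (f + 1) a b c d acc =
      if all2 (m + d + 1024) (a + c) b (4 * (a + c) + 2 * b) vs = true then run2 X Y D c0 vs f m a b c (m :: acc)
      else none := by
  subst hm
  rw [← brecO]
  rfl

private lemma getD_last (l : List ℕ) (n m : ℕ) (hl : l.length = n + 1) : (l ++ [m]).getD (n + 1) 0 = m := by
  rw [List.getD_eq_getElem?_getD, ← hl, List.getElem?_concat_length]
  rfl

private lemma getD_app (l : List ℕ) (i m : ℕ) (hi : i < l.length) : (l ++ [m]).getD i 0 = l.getD i 0 := by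
  rw [List.getD_eq_getElem?_getD, List.getD_eq_getElem?_getD, List.getElem?_append_left hi]

private lemma pv_last (l : List ℕ) (n m : ℕ) (hl : l.length = n + 1) : pv (l ++ [m]) (n + 1) 0 = m := by
  rw [pv, if_pos (Nat.zero_le _), Nat.sub_zero, getD_last l n m hl]

private lemma pv_app (l : List ℕ) (n m i j : ℕ) (hl : l.length = n + 1) (hi : i ≤ n) :
    pv (l ++ [m]) i j = pv l i j := by
  unfold pv
  split_ifs with h
  · exact getD_app l _ m (by omega)
  · rfl

private lemma pv_succ (l : List ℕ) (n m j : ℕ) (hl : l.length = n + 1) :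
    pv (l ++ [m]) (n + 1) (j + 1) = pv l n j := by
  unfold pv
  by_cases h : j ≤ n
  · rw [if_pos (by omega), if_pos h, Nat.add_sub_add_right]
    exact getD_app l _ m (by omega)
  · rw [if_neg (by omega), if_neg h]

/-- The statement for one index. -/
private def St (l : List ℕ) (X Y D c0 : ℕ) (vs : VL) (i : ℕ) : Prop :=
  RR2 l i D c0 < LL2 l i X Y D ∧
      ∀ v ∈ vs.toL, RR2 l i v.2.2.1 v.2.2.2 ≤ LL2 l i v.1 v.2.1 v.2.2.1 ∧
        LL2 l i v.1 v.2.1 v.2.2.1 ≤ RR2 l i v.2.2.1 v.2.2.2 + v.2.2.1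

private lemma LL2_app (l : List ℕ) (n m i X Y D : ℕ) (hl : l.length = n + 1) (hi : i ≤ n) :
    LL2 (l ++ [m]) i X Y D = LL2 l i X Y D := by
  simp only [LL2, pv_app l n m i _ hl hi]

private lemma RR2_app (l : List ℕ) (n m i D c : ℕ) (hl : l.length = n + 1) (hi : i ≤ n) :
    RR2 (l ++ [m]) i D c = RR2 l i D c := by
  simp only [RR2, pv_app l n m i _ hl hi]

private lemma St_app (l : List ℕ) (n m i X Y D c0 : ℕ) (vs : VL) (hl : l.length = n + 1) (hi : i ≤ n)
    (h : St l X Y D c0 vs i) : St (l ++ [m]) X Y D c0 vs i := by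
  simp only [St, LL2_app l n m i _ _ _ hl hi, RR2_app l n m i _ _ hl hi]
  exact h

/-- Invariant. -/
private def Inv (X Y D c0 : ℕ) (vs : VL) (l : List ℕ) (n a b c d : ℕ) : Prop :=
  l.length = n + 1 ∧ l.getD 0 0 = 129 ∧ pv l n 0 = a ∧ pv l n 1 = b ∧ pv l n 2 = c ∧ pv l n 3 = d ∧
    ∀ i, 1 ≤ i → i ≤ n → St l X Y D c0 vs i

private lemma inv_step (X Y D c0 : ℕ) (hD : 0 < D) (vs : VL) (l : List ℕ) (n a b c d m : ℕ)
    (h : Inv X Y D c0 vs l n a b c d)
    (hm : m = (((4 * (a + c) + 2 * b) * D + c0) - ((d + 1024) * D + (a + c) * X + b * Y)) / D + 1)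
    (hall : all2 (m + d + 1024) (a + c) b (4 * (a + c) + 2 * b) vs = true) :
    Inv X Y D c0 vs (l ++ [m]) (n + 1) m a b c := by
  obtain ⟨hl, h0, ha, hb, hc, hd, hst⟩ := h
  refine ⟨by simp [hl], ?_, pv_last l n m hl, ?_, ?_, ?_, ?_⟩
  · rw [getD_app l 0 m (by omega), h0]
  · rw [pv_succ l n m 0 hl, ha]
  · rw [pv_succ l n m 1 hl, hb]
  · rw [pv_succ l n m 2 hl, hc]
  · intro i hi1 hi2
    rcases Nat.lt_or_ge n i with hi | hi
    · have hi3 : i = n + 1 := by omega
      subst hi3
      have e0 : pv (l ++ [m]) (n + 1) 0 = m := pv_last l n m hl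
      have e1 : pv (l ++ [m]) (n + 1) 1 = a := by rw [pv_succ l n m 0 hl, ha]
      have e2 : pv (l ++ [m]) (n + 1) 2 = b := by rw [pv_succ l n m 1 hl, hb]
      have e3 : pv (l ++ [m]) (n + 1) 3 = c := by rw [pv_succ l n m 2 hl, hc]
      have e4 : pv (l ++ [m]) (n + 1) 4 = d := by rw [pv_succ l n m 3 hl, hd]
      simp only [St, LL2, RR2, e0, e1, e2, e3, e4]
      refine ⟨?_, (all2_iff _ _ _ _ _).1 hall⟩
      have h1 : ((4 * (a + c) + 2 * b) * D + c0) - ((d + 1024) * D + (a + c) * X + b * Y) < m * D := by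
        rw [hm]
        exact (Nat.div_lt_iff_lt_mul hD).1 (Nat.lt_succ_self _)
      have h2 : (m + d + 1024) * D + (a + c) * X + b * Y = m * D + ((d + 1024) * D + (a + c) * X + b * Y) := by ring
      omega
    · exact St_app l n m i X Y D c0 vs hl hi (hst i hi1 hi)

private lemma run2_inv (X Y D c0 : ℕ) (hD : 0 < D) (vs : VL) (f : ℕ) :
    ∀ (n a b c d : ℕ) (acc acc' : List ℕ), Inv X Y D c0 vs acc.reverse n a b c d →
      run2 X Y D c0 vs f a b c d acc = some acc' → Inv X Y D c0 vs acc'.reverse (n + f) 128 128 128 128 := by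
  induction f with
  | zero =>
    intro n a b c d acc acc' hinv h
    rw [run2_zero] at h
    split_ifs at h with hc
    simp only [Option.some.injEq] at h
    subst h
    simp only [Bool.and_eq_true, Nat.beq_eq] at hc
    obtain ⟨⟨rfl, rfl⟩, rfl, rfl⟩ := hc
    exact hinv
  | succ f ih =>
    intro n a b c d acc acc' hinv h
    rw [run2_succ X Y D c0 vs f a b c d acc _ rfl] at h
    split_ifs at h with hc
    have := ih (n + 1) _ _ _ _ _ _ (by
      rw [List.reverse_cons]
      exact inv_step X Y D c0 hD vs acc.reverse n a b c d _ hinv rfl hc) h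
    have e : n + (f + 1) = n + 1 + f := by omega
    rw [e]
    exact this

theorem run2_sound (X Y D c0 : ℕ) (hD : 0 < D) (vs : VL) (L : ℕ) (acc : List ℕ)
    (h : run2 X Y D c0 vs L 129 128 128 128 [129] = some acc) :
    acc.reverse.length = L + 1 ∧ 4 ≤ L ∧ acc.reverse.getD 0 0 = 129 ∧
    (∀ i, i ≤ L → L < i + 4 → acc.reverse.getD i 0 = 128) ∧
    ∀ i, 1 ≤ i → i ≤ L → RR2 acc.reverse i D c0 < LL2 acc.reverse i X Y D ∧
      ∀ v ∈ vs.toL, RR2 acc.reverse i v.2.2.1 v.2.2.2 ≤ LL2 acc.reverse i v.1 v.2.1 v.2.2.1 ∧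
        LL2 acc.reverse i v.1 v.2.1 v.2.2.1 ≤ RR2 acc.reverse i v.2.2.1 v.2.2.2 + v.2.2.1 := by
  have h0 : Inv X Y D c0 vs [129].reverse 0 129 128 128 128 := by
    refine ⟨rfl, rfl, rfl, rfl, rfl, rfl, ?_⟩
    intro i h1 h2
    omega
  obtain ⟨hl, hz, ha, hb, hc, hd, hst⟩ := run2_inv X Y D c0 hD vs L 0 _ _ _ _ _ _ h0 h
  rw [Nat.zero_add] at hl ha hb hc hd hst
  have hpv : ∀ j, j < 4 → pv acc.reverse L j = 128 := by
    intro j hj
    have : j = 0 ∨ j = 1 ∨ j = 2 ∨ j = 3 := by omega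
    rcases this with rfl | rfl | rfl | rfl <;> assumption
  refine ⟨hl, ?_, hz, ?_, hst⟩
  · by_contra hL
    have h1 := hpv L (by omega)
    rw [pv, if_pos le_rfl, Nat.sub_self, hz] at h1
    omega
  · intro i hi1 hi2
    have h1 := hpv (L - i) (by omega)
    rw [pv, if_pos (by omega), Nat.sub_sub_self hi1] at h1
    exact h1

end Pool.Agent.Helper11.SP
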