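import Pool.Agent.Helper11.SP.Chk3
import Pool.Agent.Helper11.SP.Run2

/-!
SP-41. Soundness of `run3` (natural number level).  Same as `Run2.lean` with six entries of memory and a tree of vertices.

The new entry is `m = (R - P) / D + 1` with `R = k D + w`, `P = (a6 + 4096) D + e X + h Y + b Z`, so `R < m D + P`.
`all3`: `T3.rec` reduces definitionally; on a node it is `all3 l` and then `all3 r`.
-/

namespace Pool.Agent.Helper11.SP

/-- The list of vertices `(X, Y, Z, D, w)`. -/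
def VL3.toL : VL3 → List (ℕ × ℕ × ℕ × ℕ × ℕ)
  | VL3.nil => []
  | VL3.cons X Y Z D w l => (X, Y, Z, D, w) :: VL3.toL l

/-- All vertices of a tree. -/
def T3.toL : T3 → List (ℕ × ℕ × ℕ × ℕ × ℕ)
  | T3.leaf _ _ _ _ vs _ => vs.toL
  | T3.node _ _ _ _ _ _ _ _ l r => l.toL ++ r.toL

/-- `D * F = L - R` as a pair of natural numbers: left side. -/
def LL3 (l : List ℕ) (i : ℕ) (X Y Z D : ℕ) : ℕ :=
  (pv l i 0 + pv l i 6 + 4096) * D + (pv l i 1 + pv l i 5) * X + (pv l i 2 + pv l i 4) * Y + pv l i 3 * Z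

/-- Right side. -/
def RR3 (l : List ℕ) (i : ℕ) (D w : ℕ) : ℕ :=
  (6 * (pv l i 1 + pv l i 5) + (pv l i 2 + pv l i 4) + 20 * pv l i 3) * D + w

private lemma brec (x b : Bool) : (Bool.rec (motive := fun _ => Bool) false x b : Bool) = (b && x) := by
  cases b <;> rfl

private lemma all3v_cons (md e h b k X Y Z D w : ℕ) (l : VL3) :
    all3v md e h b k (VL3.cons X Y Z D w l) = (Nat.ble (k * D + w) (md * D + e * X + h * Y + b * Z) &&
      (Nat.ble (md * D + e * X + h * Y + b * Z) (k * D + w + D) && all3v md e h b k l)) := by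
  rw [← brec, ← brec]
  rfl

private lemma all3_node (md e h b k A B C E A' B' C' E' : ℕ) (l r : T3) :
    all3 md e h b k (T3.node A B C E A' B' C' E' l r) = (all3 md e h b k l && all3 md e h b k r) := by
  rw [← brec]
  rfl

private lemma all3v_iff (md e h b k : ℕ) (l : VL3) :
    all3v md e h b k l = true ↔ ∀ v ∈ l.toL,
      k * v.2.2.2.1 + v.2.2.2.2 ≤ md * v.2.2.2.1 + e * v.1 + h * v.2.1 + b * v.2.2.1 ∧
      md * v.2.2.2.1 + e * v.1 + h * v.2.1 + b * v.2.2.1 ≤ k * v.2.2.2.1 + v.2.2.2.2 + v.2.2.2.1 := by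
  induction l with
  | nil => simp [all3v, VL3.toL]
  | cons X Y Z D w l ih =>
    rw [all3v_cons, Bool.and_eq_true, Bool.and_eq_true, Nat.ble_eq, Nat.ble_eq, ih]
    simp only [VL3.toL, List.mem_cons, forall_eq_or_imp]
    tauto

lemma all3_iff (md e h b k : ℕ) (t : T3) :
    all3 md e h b k t = true ↔ ∀ v ∈ t.toL,
      k * v.2.2.2.1 + v.2.2.2.2 ≤ md * v.2.2.2.1 + e * v.1 + h * v.2.1 + b * v.2.2.1 ∧
      md * v.2.2.2.1 + e * v.1 + h * v.2.1 + b * v.2.2.1 ≤ k * v.2.2.2.1 + v.2.2.2.2 + v.2.2.2.1 := by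
  induction t with
  | leaf p1 q1 p2 q2 vs ts => exact all3v_iff md e h b k vs
  | node A B C E A' B' C' E' l r ihl ihr =>
    rw [all3_node, Bool.and_eq_true, ihl, ihr]
    simp only [T3.toL, List.mem_append]
    constructor
    · rintro ⟨h1, h2⟩ v (hv | hv)
      · exact h1 v hv
      · exact h2 v hv
    · intro h1
      exact ⟨fun v hv => h1 v (Or.inl hv), fun v hv => h1 v (Or.inr hv)⟩

private lemma brecO (x : Option (List ℕ)) (b : Bool) :
    (Bool.rec (motive := fun _ => Option (List ℕ)) none x b : Option (List ℕ)) = if b = true then x else none := by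
  cases b <;> rfl

private lemma run3_zero (X Y Z D w : ℕ) (t : T3) (a1 a2 a3 a4 a5 a6 : ℕ) (acc : List ℕ) :
    run3 X Y Z D w t 0 a1 a2 a3 a4 a5 a6 acc =
      if (((Nat.beq a1 128 && Nat.beq a2 128) && (Nat.beq a3 128 && Nat.beq a4 128)) &&
        (Nat.beq a5 128 && Nat.beq a6 128)) = true then some acc else none := by
  rw [← brecO]
  rfl

private lemma run3_succ (X Y Z D w : ℕ) (t : T3) (f a1 a2 a3 a4 a5 a6 : ℕ) (acc : List ℕ) (m : ℕ)
    (hm : m = (((6 * (a1 + a5) + (a2 + a4) + 20 * a3) * D + w) -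
      ((a6 + 4096) * D + (a1 + a5) * X + (a2 + a4) * Y + a3 * Z)) / D + 1) :
    run3 X Y Z D w t (f + 1) a1 a2 a3 a4 a5 a6 acc =
      if all3 (m + a6 + 4096) (a1 + a5) (a2 + a4) a3 (6 * (a1 + a5) + (a2 + a4) + 20 * a3) t = true then
        run3 X Y Z D w t f m a1 a2 a3 a4 a5 (m :: acc)
      else none := by
  subst hm
  rw [← brecO]
  rfl

private lemma getD_last (l : List ℕ) (n m : ℕ) (hl : l.length = n + 1) : (l ++ [m]).getD (n + 1) 0 = m := by
  rw [List.getD_eq_getElem?_getD, ← hl, List.getElem?_concat_length]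
  rfl

private lemma getD_app (l : List ℕ) (i m : ℕ) (hi : i < l.length) : (l ++ [m]).getD i 0 = l.getD i 0 := by
  rw [List.getD_eq_getElem?_getD, List.getD_eq_getElem?_getD, List.getElem?_append_left hi]

private lemma pv_last (l : List ℕ) (n m : ℕ) (hl : l.length = n + 1) : pv (l ++ [m]) (n + 1) 0 = m := by
  rw [pv, if_pos (Nat.zero_le _), Nat.sub_zero, getD_last l n m hl]

private lemma pv_app (l : List ℕ) (n m i j : ℕ) (hl : l.length = n + 1) (hi : i ≤ n) :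
    pv (l ++ [m]) i j = pv l i j := by
  unfold pv
  split_ifs with h
  · exact getD_app l _ m (by omega)
  · rfl

private lemma pv_succ (l : List ℕ) (n m j : ℕ) (hl : l.length = n + 1) :
    pv (l ++ [m]) (n + 1) (j + 1) = pv l n j := by
  unfold pv
  by_cases h : j ≤ n
  · rw [if_pos (by omega), if_pos h, Nat.add_sub_add_right]
    exact getD_app l _ m (by omega)
  · rw [if_neg (by omega), if_neg h]

/-- The statement for one index. -/
private def St (l : List ℕ) (X Y Z D w : ℕ) (t : T3) (i : ℕ) : Prop :=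
  RR3 l i D w < LL3 l i X Y Z D ∧
      ∀ v ∈ t.toL, RR3 l i v.2.2.2.1 v.2.2.2.2 ≤ LL3 l i v.1 v.2.1 v.2.2.1 v.2.2.2.1 ∧
        LL3 l i v.1 v.2.1 v.2.2.1 v.2.2.2.1 ≤ RR3 l i v.2.2.2.1 v.2.2.2.2 + v.2.2.2.1

private lemma LL3_app (l : List ℕ) (n m i X Y Z D : ℕ) (hl : l.length = n + 1) (hi : i ≤ n) :
    LL3 (l ++ [m]) i X Y Z D = LL3 l i X Y Z D := by
  simp only [LL3, pv_app l n m i _ hl hi]

private lemma RR3_app (l : List ℕ) (n m i D w : ℕ) (hl : l.length = n + 1) (hi : i ≤ n) :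
    RR3 (l ++ [m]) i D w = RR3 l i D w := by
  simp only [RR3, pv_app l n m i _ hl hi]

private lemma St_app (l : List ℕ) (n m i X Y Z D w : ℕ) (t : T3) (hl : l.length = n + 1) (hi : i ≤ n)
    (h : St l X Y Z D w t i) : St (l ++ [m]) X Y Z D w t i := by
  simp only [St, LL3_app l n m i _ _ _ _ hl hi, RR3_app l n m i _ _ hl hi]
  exact h

/-- Invariant. -/
private def Inv (X Y Z D w : ℕ) (t : T3) (l : List ℕ) (n a1 a2 a3 a4 a5 a6 : ℕ) : Prop :=
  l.length = n + 1 ∧ l.getD 0 0 = 129 ∧ pv l n 0 = a1 ∧ pv l n 1 = a2 ∧ pv l n 2 = a3 ∧ pv l n 3 = a4 ∧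
    pv l n 4 = a5 ∧ pv l n 5 = a6 ∧ ∀ i, 1 ≤ i → i ≤ n → St l X Y Z D w t i

private lemma inv_step (X Y Z D w : ℕ) (hD : 0 < D) (t : T3) (l : List ℕ) (n a1 a2 a3 a4 a5 a6 m : ℕ)
    (h : Inv X Y Z D w t l n a1 a2 a3 a4 a5 a6)
    (hm : m = (((6 * (a1 + a5) + (a2 + a4) + 20 * a3) * D + w) -
      ((a6 + 4096) * D + (a1 + a5) * X + (a2 + a4) * Y + a3 * Z)) / D + 1)
    (hall : all3 (m + a6 + 4096) (a1 + a5) (a2 + a4) a3 (6 * (a1 + a5) + (a2 + a4) + 20 * a3) t = true) :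
    Inv X Y Z D w t (l ++ [m]) (n + 1) m a1 a2 a3 a4 a5 := by
  obtain ⟨hl, h0, h1, h2, h3, h4, h5, h6, hst⟩ := h
  refine ⟨by simp [hl], ?_, pv_last l n m hl, ?_, ?_, ?_, ?_, ?_, ?_⟩
  · rw [getD_app l 0 m (by omega), h0]
  · rw [pv_succ l n m 0 hl, h1]
  · rw [pv_succ l n m 1 hl, h2]
  · rw [pv_succ l n m 2 hl, h3]
  · rw [pv_succ l n m 3 hl, h4]
  · rw [pv_succ l n m 4 hl, h5]
  · intro i hi1 hi2
    rcases Nat.lt_or_ge n i with hi | hi
    · have hi3 : i = n + 1 := by omega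
      subst hi3
      have e0 : pv (l ++ [m]) (n + 1) 0 = m := pv_last l n m hl
      have e1 : pv (l ++ [m]) (n + 1) 1 = a1 := by rw [pv_succ l n m 0 hl, h1]
      have e2 : pv (l ++ [m]) (n + 1) 2 = a2 := by rw [pv_succ l n m 1 hl, h2]
      have e3 : pv (l ++ [m]) (n + 1) 3 = a3 := by rw [pv_succ l n m 2 hl, h3]
      have e4 : pv (l ++ [m]) (n + 1) 4 = a4 := by rw [pv_succ l n m 3 hl, h4]
      have e5 : pv (l ++ [m]) (n + 1) 5 = a5 := by rw [pv_succ l n m 4 hl, h5]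
      have e6 : pv (l ++ [m]) (n + 1) 6 = a6 := by rw [pv_succ l n m 5 hl, h6]
      simp only [St, LL3, RR3, e0, e1, e2, e3, e4, e5, e6]
      refine ⟨?_, (all3_iff _ _ _ _ _ _).1 hall⟩
      have g1 : ((6 * (a1 + a5) + (a2 + a4) + 20 * a3) * D + w) -
          ((a6 + 4096) * D + (a1 + a5) * X + (a2 + a4) * Y + a3 * Z) < m * D := by
        rw [hm]
        exact (Nat.div_lt_iff_lt_mul hD).1 (Nat.lt_succ_self _)
      have g2 : (m + a6 + 4096) * D + (a1 + a5) * X + (a2 + a4) * Y + a3 * Z =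
          m * D + ((a6 + 4096) * D + (a1 + a5) * X + (a2 + a4) * Y + a3 * Z) := by ring
      omega
    · exact St_app l n m i X Y Z D w t hl hi (hst i hi1 hi)

private lemma run3_inv (X Y Z D w : ℕ) (hD : 0 < D) (t : T3) (f : ℕ) :
    ∀ (n a1 a2 a3 a4 a5 a6 : ℕ) (acc acc' : List ℕ), Inv X Y Z D w t acc.reverse n a1 a2 a3 a4 a5 a6 →
      run3 X Y Z D w t f a1 a2 a3 a4 a5 a6 acc = some acc' →
      Inv X Y Z D w t acc'.reverse (n + f) 128 128 128 128 128 128 := by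
  induction f with
  | zero =>
    intro n a1 a2 a3 a4 a5 a6 acc acc' hinv h
    rw [run3_zero] at h
    split_ifs at h with hc
    simp only [Option.some.injEq] at h
    subst h
    simp only [Bool.and_eq_true, Nat.beq_eq] at hc
    obtain ⟨⟨⟨rfl, rfl⟩, rfl, rfl⟩, rfl, rfl⟩ := hc
    exact hinv
  | succ f ih =>
    intro n a1 a2 a3 a4 a5 a6 acc acc' hinv h
    rw [run3_succ X Y Z D w t f a1 a2 a3 a4 a5 a6 acc _ rfl] at h
    split_ifs at h with hc
    have := ih (n + 1) _ _ _ _ _ _ _ _ (by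
      rw [List.reverse_cons]
      exact inv_step X Y Z D w hD t acc.reverse n a1 a2 a3 a4 a5 a6 _ hinv rfl hc) h
    have e : n + (f + 1) = n + 1 + f := by omega
    rw [e]
    exact this

theorem run3_sound (X Y Z D w : ℕ) (hD : 0 < D) (t : T3) (L : ℕ) (acc : List ℕ)
    (h : run3 X Y Z D w t L 129 128 128 128 128 128 [129] = some acc) :
    acc.reverse.length = L + 1 ∧ 6 ≤ L ∧ acc.reverse.getD 0 0 = 129 ∧
    (∀ i, i ≤ L → L < i + 6 → acc.reverse.getD i 0 = 128) ∧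
    ∀ i, 1 ≤ i → i ≤ L → RR3 acc.reverse i D w < LL3 acc.reverse i X Y Z D ∧
      ∀ v ∈ t.toL, RR3 acc.reverse i v.2.2.2.1 v.2.2.2.2 ≤ LL3 acc.reverse i v.1 v.2.1 v.2.2.1 v.2.2.2.1 ∧
        LL3 acc.reverse i v.1 v.2.1 v.2.2.1 v.2.2.2.1 ≤ RR3 acc.reverse i v.2.2.2.1 v.2.2.2.2 + v.2.2.2.1 := by
  have h0 : Inv X Y Z D w t [129].reverse 0 129 128 128 128 128 128 := by
    refine ⟨rfl, rfl, rfl, rfl, rfl, rfl, rfl, rfl, ?_⟩
    intro i h1 h2
    omega
  obtain ⟨hl, hz, h1, h2, h3, h4, h5, h6, hst⟩ := run3_inv X Y Z D w hD t L 0 _ _ _ _ _ _ _ _ h0 h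
  rw [Nat.zero_add] at hl h1 h2 h3 h4 h5 h6 hst
  have hpv : ∀ j, j < 6 → pv acc.reverse L j = 128 := by
    intro j hj
    have : j = 0 ∨ j = 1 ∨ j = 2 ∨ j = 3 ∨ j = 4 ∨ j = 5 := by omega
    rcases this with rfl | rfl | rfl | rfl | rfl | rfl <;> assumption
  refine ⟨hl, ?_, hz, ?_, hst⟩
  · by_contra hL
    have h1 := hpv L (by omega)
    rw [pv, if_pos le_rfl, Nat.sub_self, hz] at h1
    omega
  · intro i hi1 hi2
    have h1 := hpv (L - i) (by omega)
    rw [pv, if_pos (by omega), Nat.sub_sub_self hi1] at h1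
    exact h1

end Pool.Agent.Helper11.SP
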