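import Pool.Agent.Helper11.SP.EeProd

/-!
SP-08. Irreducible `PP N v` with the right roots gives a Salem number.

Proof. `β = (s + √(s²-4)) / 2`, `1 < β < s` and `β + 1/β = s` (`β` and `1/β` are the roots of `x² - s x + 1`, `s > 2`).
Over `ℝ`: `P := (PP N v).map = (X² - C s X + 1) * ∏ (X² - C (t j) X + 1)` (`ee_prod`), so `β` is a root of `PP N v`,
`IsIntegral ℤ β`, and `minpoly ℤ β = PP N v`: over `ℚ`, `minpoly ℚ β = (PP N v).map` because `PP N v` is monic
and irreducible over `ℤ` (`Polynomial.Monic.irreducible_iff_irreducible_map_fraction_map`,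
`minpoly.eq_of_irreducible_of_monic`), and `Helper3.minpoly_map_Q`; injectivity of `map`.
(See also `Helper3.fam_spec` in `Pool.Agent.Helper3.Family` for exactly this argument.)
Complex roots `z` of `PP N v`: either `z² - s z + 1 = 0`, then `z = β` or `z = 1/β` (modulus `< 1`),
or `z² - t z + 1 = 0` with `|t| < 2`, `t` real: then `‖z‖ = 1` (`z` is not real, `z` and `conj z` are the two roots,
the product is `1`).  There is a root of the second kind because `g ≥ 1`.
-/

open Polynomial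

namespace Pool.Agent.Helper11.SP

/-- Roots of `x² - t x + 1`, `|t| < 2`, have modulus one. -/
lemma norm_of_quad (t : ℝ) (ht : |t| < 2) (z : ℂ) (hz : z ^ 2 - t * z + 1 = 0) : ‖z‖ = 1 := by
  have hre := congrArg Complex.re hz
  have him := congrArg Complex.im hz
  simp [pow_two] at hre him
  have h1 : z.im * (2 * z.re - t) = 0 := by linarith
  rcases abs_lt.1 ht with ⟨ha, hb⟩
  have h2 : z.re * z.re + z.im * z.im = 1 := by
    rcases mul_eq_zero.1 h1 with h | h
    · exfalso
      rw [h] at hre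
      nlinarith [sq_nonneg (z.re - t / 2)]
    · have h3 : t = 2 * z.re := by linarith
      rw [h3] at hre
      nlinarith
  have h3 : ‖z‖ ^ 2 = 1 := by
    rw [← Complex.normSq_eq_norm_sq, Complex.normSq_apply]
    exact h2
  have h4 : 0 ≤ ‖z‖ := norm_nonneg z
  nlinarith [sq_nonneg (‖z‖ - 1)]

/-- Complex roots in the situation considered. -/
lemma root_cases {g : ℕ} (hg : 1 ≤ g) (t : Fin g → ℝ) (N : ℤ) (v : Fin g → ℤ) (s : ℝ)
    (h : (PP N v).map (Int.castRingHom ℝ) = (X ^ 2 - C s * X + 1) * HC 1 (ee t)) (z : ℂ) :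
    aeval z (PP N v) = 0 ↔ (z ^ 2 - s * z + 1 = 0 ∨ ∃ j, z ^ 2 - t j * z + 1 = 0) := by
  have h1 : aeval z (PP N v) = aeval z ((PP N v).map (Int.castRingHom ℝ)) := by
    have : algebraMap ℤ ℝ = Int.castRingHom ℝ := rfl
    rw [← this, aeval_map_algebraMap]
  rw [h1, h, ← ee_prod hg, map_mul, map_prod, mul_eq_zero, Finset.prod_eq_zero_iff]
  simp

theorem salem_of {g : ℕ} (hg : 1 ≤ g) (t : Fin g → ℝ) (ht : ∀ j, |t j| < 2) (N : ℤ) (v : Fin g → ℤ) (s : ℝ)
    (h : (PP N v).map (Int.castRingHom ℝ) = (X ^ 2 - C s * X + 1) * HC 1 (ee t)) (hs : 2 < s)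
    (hirr : Irreducible (PP N v)) :
    ∃ β : ℝ, 1 < β ∧ β < s ∧ s - 1 < β ∧ s = β + 1 / β ∧ minpoly ℤ β = PP N v ∧ Helper3.IsSalem β := by
  obtain ⟨r, hr0, hr2⟩ : ∃ r : ℝ, 0 < r ∧ r ^ 2 = s ^ 2 - 4 :=
    ⟨Real.sqrt (s ^ 2 - 4), Real.sqrt_pos.2 (by nlinarith), Real.sq_sqrt (by nlinarith)⟩
  have hrs : r < s := by nlinarith
  have hrs2 : s - 2 < r := by nlinarith
  set β : ℝ := (s + r) / 2 with hβ
  have hβ1 : 1 < β := by rw [hβ]; linarith
  have hquad : β ^ 2 - s * β + 1 = 0 := by rw [hβ]; nlinarith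
  have hβpos : 0 < β := by linarith
  have hinv : s = β + 1 / β := by
    field_simp
    linarith
  obtain ⟨hmon, hdeg⟩ := PP_monic N v
  have hrootC : aeval (β : ℂ) (PP N v) = 0 := by
    rw [root_cases hg t N v s h]
    left
    exact_mod_cast congrArg (fun x : ℝ => (x : ℂ)) hquad
  have haeval : aeval β (PP N v) = 0 := by
    have h1 : aeval (β : ℂ) (PP N v) = ((aeval β (PP N v) : ℝ) : ℂ) := by
      have := aeval_algebraMap_apply ℂ β (PP N v)
      simpa using this
    rw [hrootC] at h1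
    exact_mod_cast h1.symm
  have hint : IsIntegral ℤ β := ⟨PP N v, hmon, by rw [← aeval_def]; exact haeval⟩
  have hmin : minpoly ℤ β = PP N v := by
    have h1 : Irreducible ((PP N v).map (algebraMap ℤ ℚ)) :=
      (Monic.irreducible_iff_irreducible_map_fraction_map hmon).1 hirr
    have h2 : minpoly ℚ β = (PP N v).map (algebraMap ℤ ℚ) := by
      symm
      apply minpoly.eq_of_irreducible_of_monic h1
      · rw [aeval_map_algebraMap]; exact haeval
      · exact hmon.map _
    rw [← Helper3.minpoly_map_Q hint] at h2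
    exact Polynomial.map_injective _ (RingHom.injective_int _) h2
  have hβlt : β < s := by rw [hβ]; linarith
  refine ⟨β, hβ1, hβlt, by rw [hβ]; linarith, hinv, hmin, hβ1, hint, ?_, ?_⟩
  · intro z hz hne
    rw [hmin, root_cases hg t N v s h] at hz
    rcases hz with hz | ⟨j, hj⟩
    · have h1 : (z - β) * (z - (1 / β : ℝ)) = 0 := by
        have e1 : ((s : ℝ) : ℂ) = (β : ℂ) + ((1 / β : ℝ) : ℂ) := by
          rw [← Complex.ofReal_add, ← hinv]
        have e2 : (β : ℂ) * ((1 / β : ℝ) : ℂ) = 1 := by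
          rw [← Complex.ofReal_mul]
          rw [show β * (1 / β) = 1 by field_simp]
          simp
        rw [e1] at hz
        linear_combination hz + e2
      rcases mul_eq_zero.1 h1 with h2 | h2
      · exact absurd (sub_eq_zero.1 h2) hne
      · rw [sub_eq_zero.1 h2, Complex.norm_real, Real.norm_eq_abs, abs_of_pos (by positivity)]
        rw [div_le_one hβpos]
        exact hβ1.le
    · exact (norm_of_quad (t j) (ht j) z hj).le
  · obtain ⟨j⟩ : Nonempty (Fin g) := ⟨⟨0, by omega⟩⟩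
    obtain ⟨z, hz⟩ : ∃ z : ℂ, z ^ 2 - t j * z + 1 = 0 := by
      obtain ⟨w, hw⟩ := IsAlgClosed.exists_pow_nat_eq (((t j : ℂ)) ^ 2 - 4) (n := 2) (by norm_num)
      refine ⟨((t j : ℂ) + w) / 2, ?_⟩
      linear_combination hw / 4
    refine ⟨z, ?_, norm_of_quad (t j) (ht j) z hz⟩
    rw [hmin, root_cases hg t N v s h]
    exact Or.inr ⟨j, hz⟩

end Pool.Agent.Helper11.SP
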