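import Pool.Agent.Helper11.SP.Run3
import Pool.Agent.Helper11.SP.Simplex
import Pool.Agent.Helper11.SP.SxVol

/-!
SP-42. Lists of tetrahedra.

Points: `pt3 v = (X/D - 6, Y/D - 1, Z/D - 20)`.
`d4_eq`: `(d4p - d4n : ℤ)` is the determinant of the matrix of the rows `(X, Y, Z, D)`; for `D_i > 0` divided by `D1 D2 D3 D4` it is, up to sign, the
determinant of `sx_vol` for `V = ![P1, P2, P3, P4]` (`Matrix.det_fin_three`, `field_simp`, `ring`): subtracting multiples of the last column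
(the shift) does not change it.
`get3_spec`: induction on `l` and `k`.  If `dpos4 a b c d` then none of the four is `(0,0,0,0)`.
`sep3_disjoint`: in the first case of `sep3a` (facet opposite to `a`) the function `ℓ(Q) = det(Q, b, c, d)` (affine in the point of `Q`) is `> 0` at
`a`, `0` at `b, c, d` and `≤ 0` at `a', b', c', d'`; use `sx_disjoint` for `-ℓ`.  The other cases are the same with the second, third, fourth row.
`tets_sound`: induction on `ts`: the first tetrahedron is open (`sx_open`) with volume `≥ (d4p - d4n)/(6 D1 D2 D3 D4) ≥ wtet3 / (6 * 10^9)` (`sx_vol`,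
`3! = 6`) and disjoint from all later ones (`sepl3`).
-/

open MeasureTheory

namespace Pool.Agent.Helper11.SP

/-- The point of a vertex. -/
noncomputable def pt3 (v : V3) : Fin 3 → ℝ := ![(v.X : ℝ) / v.D - 6, (v.Y : ℝ) / v.D - 1, (v.Z : ℝ) / v.D - 20]

/-- Union of the open tetrahedra. -/
def tetReg (vs : VL3) : IL3 → Set (Fin 3 → ℝ)
  | IL3.nil => ∅
  | IL3.cons i j k l t => sx ![pt3 (get3 vs i), pt3 (get3 vs j), pt3 (get3 vs k), pt3 (get3 vs l)] ∪ tetReg vs t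

lemma get3_spec (l : VL3) (k : ℕ) : get3 l k = ⟨0, 0, 0, 0⟩ ∨
    ∃ w, ((get3 l k).X, (get3 l k).Y, (get3 l k).Z, (get3 l k).D, w) ∈ l.toL := by
  induction l generalizing k with
  | nil => exact Or.inl rfl
  | cons X Y Z D w l ih =>
    cases k with
    | zero =>
      right
      refine ⟨w, ?_⟩
      have e : get3 (VL3.cons X Y Z D w l) 0 = ⟨X, Y, Z, D⟩ := rfl
      rw [e]
      simp [VL3.toL]
    | succ k =>
      have e : get3 (VL3.cons X Y Z D w l) (k + 1) = get3 l k := rfl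
      rw [e]
      rcases ih k with h | ⟨w', h⟩
      · exact Or.inl h
      · exact Or.inr ⟨w', List.mem_cons_of_mem _ h⟩

/-- 3 by 3 determinant -/
private def t3d (a b c d e f g h i : ℝ) : ℝ :=
  a * (e * i) + b * (f * g) + c * (d * h) - (a * (f * h) + b * (d * i) + c * (e * g))

/-- determinant of four points with last column 1 -/
private def t3E (P Q R S : Fin 3 → ℝ) : ℝ :=
  P 0 * t3d (Q 1) (Q 2) 1 (R 1) (R 2) 1 (S 1) (S 2) 1 - P 1 * t3d (Q 0) (Q 2) 1 (R 0) (R 2) 1 (S 0) (S 2) 1 +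
    P 2 * t3d (Q 0) (Q 1) 1 (R 0) (R 1) 1 (S 0) (S 1) 1 - t3d (Q 0) (Q 1) (Q 2) (R 0) (R 1) (R 2) (S 0) (S 1) (S 2)

private lemma t3E_aff1 (Q R S : Fin 3 → ℝ) : ∃ (a : Fin 3 → ℝ) (c : ℝ), ∀ P, t3E P Q R S = ∑ j, a j * P j + c := by
  refine ⟨![t3d (Q 1) (Q 2) 1 (R 1) (R 2) 1 (S 1) (S 2) 1, -t3d (Q 0) (Q 2) 1 (R 0) (R 2) 1 (S 0) (S 2) 1,
    t3d (Q 0) (Q 1) 1 (R 0) (R 1) 1 (S 0) (S 1) 1],
    -t3d (Q 0) (Q 1) (Q 2) (R 0) (R 1) (R 2) (S 0) (S 1) (S 2), ?_⟩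
  intro P
  rw [Fin.sum_univ_three]
  simp only [Matrix.cons_val_zero, Matrix.cons_val_one, Matrix.cons_val, t3E]
  ring

private lemma t3E_swap1 (P Q R S : Fin 3 → ℝ) : t3E P Q R S = -t3E Q P R S := by
  simp only [t3E, t3d]; ring

private lemma t3E_swap2 (P Q R S : Fin 3 → ℝ) : t3E P Q R S = -t3E P R Q S := by
  simp only [t3E, t3d]; ring

private lemma t3E_swap3 (P Q R S : Fin 3 → ℝ) : t3E P Q R S = -t3E P Q S R := by
  simp only [t3E, t3d]; ring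

private lemma t3E_same1 (P R S : Fin 3 → ℝ) : t3E P P R S = 0 := by
  simp only [t3E, t3d]; ring

private lemma t3E_same2 (P Q S : Fin 3 → ℝ) : t3E P Q Q S = 0 := by
  simp only [t3E, t3d]; ring

private lemma t3E_same3 (P Q S : Fin 3 → ℝ) : t3E P Q S S = 0 := by
  simp only [t3E, t3d]; ring

private lemma t3E_same4 (P Q R : Fin 3 → ℝ) : t3E P Q P R = 0 := by
  simp only [t3E, t3d]; ring

private lemma t3E_same5 (P Q R : Fin 3 → ℝ) : t3E P Q R P = 0 := by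
  simp only [t3E, t3d]; ring

private lemma t3E_same6 (P Q R : Fin 3 → ℝ) : t3E P Q R Q = 0 := by
  simp only [t3E, t3d]; ring

private lemma t3E_aff2 (P R S : Fin 3 → ℝ) : ∃ (a : Fin 3 → ℝ) (c : ℝ), ∀ Q, t3E P Q R S = ∑ j, a j * Q j + c := by
  obtain ⟨a, c, h⟩ := t3E_aff1 P R S
  refine ⟨-a, -c, fun Q => ?_⟩
  rw [t3E_swap1, h]
  simp only [Pi.neg_apply, neg_mul, Finset.sum_neg_distrib]
  ring

private lemma t3E_aff3 (P Q S : Fin 3 → ℝ) : ∃ (a : Fin 3 → ℝ) (c : ℝ), ∀ R, t3E P Q R S = ∑ j, a j * R j + c := by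
  obtain ⟨a, c, h⟩ := t3E_aff2 P Q S
  refine ⟨-a, -c, fun R => ?_⟩
  rw [t3E_swap2, h]
  simp only [Pi.neg_apply, neg_mul, Finset.sum_neg_distrib]
  ring

private lemma t3E_aff4 (P Q R : Fin 3 → ℝ) : ∃ (a : Fin 3 → ℝ) (c : ℝ), ∀ S, t3E P Q R S = ∑ j, a j * S j + c := by
  obtain ⟨a, c, h⟩ := t3E_aff3 P Q R
  refine ⟨-a, -c, fun S => ?_⟩
  rw [t3E_swap3, h]
  simp only [Pi.neg_apply, neg_mul, Finset.sum_neg_distrib]
  ring

private lemma t3_disj (V W : Fin 4 → (Fin 3 → ℝ)) (ℓ : (Fin 3 → ℝ) → ℝ)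
    (hℓ : ∃ (a : Fin 3 → ℝ) (c : ℝ), ∀ P, ℓ P = ∑ j, a j * P j + c) (h0 : ∀ i, 0 ≤ ℓ (V i))
    (h1 : ∃ i, 0 < ℓ (V i)) (h2 : ∀ i, ℓ (W i) ≤ 0) : Disjoint (sx V) (sx W) := by
  obtain ⟨a, c, h⟩ := hℓ
  have h4 : ∀ (y : Fin 3 → ℝ), ∑ j, (-a) j * y j + -c = -ℓ y := by
    intro y
    rw [h]
    simp only [Pi.neg_apply, neg_mul, Finset.sum_neg_distrib]
    ring
  refine sx_disjoint (g := 3) V W (-a) (-c) (fun i => ?_) ?_ (fun i => ?_)
  · rw [h4]; linarith [h0 i]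
  · obtain ⟨i, hi⟩ := h1
    exact ⟨i, by rw [h4]; linarith⟩
  · rw [h4]; linarith [h2 i]

/-- homogeneous determinant -/
private def t3D (a b c d : V3) : ℝ :=
  (d4p a.X a.Y a.Z a.D b.X b.Y b.Z b.D c.X c.Y c.Z c.D d.X d.Y d.Z d.D : ℝ) -
    (d4n a.X a.Y a.Z a.D b.X b.Y b.Z b.D c.X c.Y c.Z c.D d.X d.Y d.Z d.D : ℝ)

private lemma t3D_eq (a b c d : V3) : t3D a b c d =
    a.X * t3d b.Y b.Z b.D c.Y c.Z c.D d.Y d.Z d.D - a.Y * t3d b.X b.Z b.D c.X c.Z c.D d.X d.Z d.D +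
    a.Z * t3d b.X b.Y b.D c.X c.Y c.D d.X d.Y d.D - a.D * t3d b.X b.Y b.Z c.X c.Y c.Z d.X d.Y d.Z := by
  unfold t3D d4p d4n d3p d3n
  simp only [Nat.add_eq, Nat.mul_eq]
  push_cast
  unfold t3d
  ring

private lemma t3E_pt (a b c d : V3) (ha : 0 < a.D) (hb : 0 < b.D) (hc : 0 < c.D) (hd : 0 < d.D) :
    t3E (pt3 a) (pt3 b) (pt3 c) (pt3 d) = t3D a b c d / (((a.D : ℝ) * b.D) * ((c.D : ℝ) * d.D)) := by
  have ha' : (a.D : ℝ) ≠ 0 := by exact_mod_cast ha.ne'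
  have hb' : (b.D : ℝ) ≠ 0 := by exact_mod_cast hb.ne'
  have hc' : (c.D : ℝ) ≠ 0 := by exact_mod_cast hc.ne'
  have hd' : (d.D : ℝ) ≠ 0 := by exact_mod_cast hd.ne'
  rw [t3D_eq, eq_div_iff (by positivity)]
  simp only [t3E, t3d, pt3, Matrix.cons_val_zero, Matrix.cons_val_one, Matrix.cons_val]
  field_simp
  ring

private lemma t3_pos_of {a b c d : V3} (ha : 0 < a.D) (hb : 0 < b.D) (hc : 0 < c.D) (hd : 0 < d.D)
    (h : dpos4 a b c d = true) : 0 < t3E (pt3 a) (pt3 b) (pt3 c) (pt3 d) := by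
  rw [t3E_pt a b c d ha hb hc hd]
  have h1 := Nat.le_of_ble_eq_true h
  have h2 : (d4n a.X a.Y a.Z a.D b.X b.Y b.Z b.D c.X c.Y c.Z c.D d.X d.Y d.Z d.D : ℝ) <
      (d4p a.X a.Y a.Z a.D b.X b.Y b.Z b.D c.X c.Y c.Z c.D d.X d.Y d.Z d.D : ℝ) := by
    exact_mod_cast h1
  have ha' : (0 : ℝ) < a.D := by exact_mod_cast ha
  have hb' : (0 : ℝ) < b.D := by exact_mod_cast hb
  have hc' : (0 : ℝ) < c.D := by exact_mod_cast hc
  have hd' : (0 : ℝ) < d.D := by exact_mod_cast hd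
  exact div_pos (by unfold t3D; linarith) (by positivity)

private lemma t3_nonpos_of {a b c d : V3} (ha : 0 < a.D) (hb : 0 < b.D) (hc : 0 < c.D) (hd : 0 < d.D)
    (h : dneg4 a b c d = true) : t3E (pt3 a) (pt3 b) (pt3 c) (pt3 d) ≤ 0 := by
  rw [t3E_pt a b c d ha hb hc hd]
  have h1 := Nat.le_of_ble_eq_true h
  have h2 : (d4p a.X a.Y a.Z a.D b.X b.Y b.Z b.D c.X c.Y c.Z c.D d.X d.Y d.Z d.D : ℝ) ≤
      (d4n a.X a.Y a.Z a.D b.X b.Y b.Z b.D c.X c.Y c.Z c.D d.X d.Y d.Z d.D : ℝ) := by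
    exact_mod_cast h1
  exact div_nonpos_of_nonpos_of_nonneg (by unfold t3D; linarith) (by positivity)

private noncomputable def t3T (a b c d : V3) : Fin 4 → (Fin 3 → ℝ) := ![pt3 a, pt3 b, pt3 c, pt3 d]

private lemma t3_sepa {a b c d a' b' c' d' : V3} (ha : 0 < a.D) (hb : 0 < b.D) (hc : 0 < c.D)
    (hd : 0 < d.D) (ha' : 0 < a'.D) (hb' : 0 < b'.D) (hc' : 0 < c'.D) (hd' : 0 < d'.D)
    (hpos : dpos4 a b c d = true) (h : sep3a a b c d a' b' c' d' = true) :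
    Disjoint (sx (t3T a b c d)) (sx (t3T a' b' c' d')) := by
  have hp := t3_pos_of ha hb hc hd hpos
  unfold sep3a at h
  simp only [Bool.or_eq_true, Bool.and_eq_true] at h
  rcases h with (⟨⟨h1, h2⟩, h3, h4⟩ | ⟨⟨h1, h2⟩, h3, h4⟩) | (⟨⟨h1, h2⟩, h3, h4⟩ | ⟨⟨h1, h2⟩, h3, h4⟩)
  · refine t3_disj _ _ (fun P => t3E P (pt3 b) (pt3 c) (pt3 d)) (t3E_aff1 _ _ _) ?_ ⟨0, hp⟩ ?_
    · intro i
      fin_cases i
      · exact hp.le
      · exact (t3E_same1 _ _ _).ge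
      · exact (t3E_same4 _ _ _).ge
      · exact (t3E_same5 _ _ _).ge
    · intro i
      fin_cases i
      · exact t3_nonpos_of ha' hb hc hd h1
      · exact t3_nonpos_of hb' hb hc hd h2
      · exact t3_nonpos_of hc' hb hc hd h3
      · exact t3_nonpos_of hd' hb hc hd h4
  · refine t3_disj _ _ (fun P => t3E (pt3 a) P (pt3 c) (pt3 d)) (t3E_aff2 _ _ _) ?_ ⟨1, hp⟩ ?_
    · intro i
      fin_cases i
      · exact (t3E_same1 _ _ _).ge
      · exact hp.le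
      · exact (t3E_same2 _ _ _).ge
      · exact (t3E_same6 _ _ _).ge
    · intro i
      fin_cases i
      · exact t3_nonpos_of ha ha' hc hd h1
      · exact t3_nonpos_of ha hb' hc hd h2
      · exact t3_nonpos_of ha hc' hc hd h3
      · exact t3_nonpos_of ha hd' hc hd h4
  · refine t3_disj _ _ (fun P => t3E (pt3 a) (pt3 b) P (pt3 d)) (t3E_aff3 _ _ _) ?_ ⟨2, hp⟩ ?_
    · intro i
      fin_cases i
      · exact (t3E_same4 _ _ _).ge
      · exact (t3E_same2 _ _ _).ge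
      · exact hp.le
      · exact (t3E_same3 _ _ _).ge
    · intro i
      fin_cases i
      · exact t3_nonpos_of ha hb ha' hd h1
      · exact t3_nonpos_of ha hb hb' hd h2
      · exact t3_nonpos_of ha hb hc' hd h3
      · exact t3_nonpos_of ha hb hd' hd h4
  · refine t3_disj _ _ (fun P => t3E (pt3 a) (pt3 b) (pt3 c) P) (t3E_aff4 _ _ _) ?_ ⟨3, hp⟩ ?_
    · intro i
      fin_cases i
      · exact (t3E_same5 _ _ _).ge
      · exact (t3E_same6 _ _ _).ge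
      · exact (t3E_same3 _ _ _).ge
      · exact hp.le
    · intro i
      fin_cases i
      · exact t3_nonpos_of ha hb hc ha' h1
      · exact t3_nonpos_of ha hb hc hb' h2
      · exact t3_nonpos_of ha hb hc hc' h3
      · exact t3_nonpos_of ha hb hc hd' h4

private lemma t3_zero1 {b c d : V3} (h : dpos4 ⟨0, 0, 0, 0⟩ b c d = true) : False := by
  have h1 := Nat.le_of_ble_eq_true h
  simp [d4p, d4n, d3p, d3n] at h1

private lemma t3_zero2 {a c d : V3} (h : dpos4 a ⟨0, 0, 0, 0⟩ c d = true) : False := by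
  have h1 := Nat.le_of_ble_eq_true h
  simp [d4p, d4n, d3p, d3n] at h1

private lemma t3_zero3 {a b d : V3} (h : dpos4 a b ⟨0, 0, 0, 0⟩ d = true) : False := by
  have h1 := Nat.le_of_ble_eq_true h
  simp [d4p, d4n, d3p, d3n] at h1

private lemma t3_zero4 {a b c : V3} (h : dpos4 a b c ⟨0, 0, 0, 0⟩ = true) : False := by
  have h1 := Nat.le_of_ble_eq_true h
  simp [d4p, d4n, d3p, d3n] at h1

private def t3G (vs : VL3) (v : V3) : Prop := ∃ w, (v.X, v.Y, v.Z, v.D, w) ∈ vs.toL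

private lemma t3_good {vs : VL3} {i j k l : ℕ}
    (h : dpos4 (get3 vs i) (get3 vs j) (get3 vs k) (get3 vs l) = true) :
    t3G vs (get3 vs i) ∧ t3G vs (get3 vs j) ∧ t3G vs (get3 vs k) ∧ t3G vs (get3 vs l) := by
  refine ⟨?_, ?_, ?_, ?_⟩
  · rcases get3_spec vs i with h1 | h1
    · rw [h1] at h; exact (t3_zero1 h).elim
    · exact h1
  · rcases get3_spec vs j with h1 | h1
    · rw [h1] at h; exact (t3_zero2 h).elim
    · exact h1
  · rcases get3_spec vs k with h1 | h1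
    · rw [h1] at h; exact (t3_zero3 h).elim
    · exact h1
  · rcases get3_spec vs l with h1 | h1
    · rw [h1] at h; exact (t3_zero4 h).elim
    · exact h1

private lemma t3G_pos {vs : VL3} (hvs : ∀ v ∈ vs.toL, 0 < v.2.2.2.1) {v : V3} (h : t3G vs v) : 0 < v.D := by
  obtain ⟨w, hw⟩ := h
  exact hvs _ hw

private lemma t3_det (P Q R S : Fin 3 → ℝ) :
    Matrix.det (fun i j : Fin 3 => (![P, Q, R, S] : Fin 4 → Fin 3 → ℝ) i.succ j
      - (![P, Q, R, S] : Fin 4 → Fin 3 → ℝ) 0 j) = -t3E P Q R S := by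
  have h := Matrix.det_fin_three (fun i j : Fin 3 => (![P, Q, R, S] : Fin 4 → Fin 3 → ℝ) i.succ j
      - (![P, Q, R, S] : Fin 4 → Fin 3 → ℝ) 0 j)
  rw [h]
  have e0 : (![P, Q, R, S] : Fin 4 → Fin 3 → ℝ) (Fin.succ 0) = Q := rfl
  have e1 : (![P, Q, R, S] : Fin 4 → Fin 3 → ℝ) (Fin.succ 1) = R := rfl
  have e2 : (![P, Q, R, S] : Fin 4 → Fin 3 → ℝ) (Fin.succ 2) = S := rfl
  have e3 : (![P, Q, R, S] : Fin 4 → Fin 3 → ℝ) 0 = P := rfl
  rw [e0, e1, e2, e3]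
  simp only [t3E, t3d]
  ring

private lemma tets3_cons {vs : VL3} {i j k l : ℕ} {t : IL3} (h : tets3 vs (IL3.cons i j k l t) = true) :
    dpos4 (get3 vs i) (get3 vs j) (get3 vs k) (get3 vs l) = true ∧
    sepl3 vs (get3 vs i) (get3 vs j) (get3 vs k) (get3 vs l) t = true ∧ tets3 vs t = true := by
  have e : tets3 vs (IL3.cons i j k l t) =
    and (and (dpos4 (get3 vs i) (get3 vs j) (get3 vs k) (get3 vs l))
      (sepl3 vs (get3 vs i) (get3 vs j) (get3 vs k) (get3 vs l) t)) (tets3 vs t) := rfl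
  rw [e, Bool.and_eq_true, Bool.and_eq_true] at h
  exact ⟨h.1.1, h.1.2, h.2⟩

/-- Description of the points of the region: the vertices belong to the list, the tetrahedron is not degenerate. -/
lemma tet_mem (vs : VL3) (hvs : ∀ v ∈ vs.toL, 0 < v.2.2.2.1) (ts : IL3) (h : tets3 vs ts = true) (x : Fin 3 → ℝ)
    (hx : x ∈ tetReg vs ts) :
    ∃ V : Fin 4 → V3, (∀ i, ∃ w, ((V i).X, (V i).Y, (V i).Z, (V i).D, w) ∈ vs.toL) ∧ x ∈ sx (fun i => pt3 (V i)) ∧
      Matrix.det (fun i j : Fin 3 => pt3 (V i.succ) j - pt3 (V 0) j) ≠ 0 := by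
  induction ts with
  | nil => exact absurd hx (Set.notMem_empty x)
  | cons i j k l t ih =>
    obtain ⟨h1, h2, h3⟩ := tets3_cons h
    obtain ⟨g1, g2, g3, g4⟩ := t3_good h1
    have hx' : x ∈ sx ![pt3 (get3 vs i), pt3 (get3 vs j), pt3 (get3 vs k), pt3 (get3 vs l)] ∪ tetReg vs t := hx
    rcases hx' with hx' | hx'
    · have hV : (fun m => pt3 ((![get3 vs i, get3 vs j, get3 vs k, get3 vs l] : Fin 4 → V3) m)) =
          ![pt3 (get3 vs i), pt3 (get3 vs j), pt3 (get3 vs k), pt3 (get3 vs l)] := by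
        funext m
        fin_cases m <;> rfl
      refine ⟨![get3 vs i, get3 vs j, get3 vs k, get3 vs l], ?_, ?_, ?_⟩
      · intro m
        fin_cases m
        · exact g1
        · exact g2
        · exact g3
        · exact g4
      · rw [hV]
        exact hx'
      · have hp := t3_pos_of (t3G_pos hvs g1) (t3G_pos hvs g2) (t3G_pos hvs g3) (t3G_pos hvs g4) h1
        have hdet := t3_det (pt3 (get3 vs i)) (pt3 (get3 vs j)) (pt3 (get3 vs k)) (pt3 (get3 vs l))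
        have e : (fun (a : Fin 3) (b : Fin 3) =>
            pt3 ((![get3 vs i, get3 vs j, get3 vs k, get3 vs l] : Fin 4 → V3) a.succ) b -
            pt3 ((![get3 vs i, get3 vs j, get3 vs k, get3 vs l] : Fin 4 → V3) 0) b) =
            (fun (a : Fin 3) (b : Fin 3) =>
            (![pt3 (get3 vs i), pt3 (get3 vs j), pt3 (get3 vs k), pt3 (get3 vs l)] : Fin 4 → Fin 3 → ℝ) a.succ b -
            (![pt3 (get3 vs i), pt3 (get3 vs j), pt3 (get3 vs k), pt3 (get3 vs l)] : Fin 4 → Fin 3 → ℝ) 0 b) := by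
          funext a b
          rw [← hV]
        rw [e, hdet]
        linarith
    · exact ih h3 hx'

private lemma t3_sepl (vs : VL3) (hvs : ∀ v ∈ vs.toL, 0 < v.2.2.2.1) {a b c d : V3}
    (ha : 0 < a.D) (hb : 0 < b.D) (hc : 0 < c.D) (hd : 0 < d.D) (hpos : dpos4 a b c d = true)
    (ts : IL3) (h : tets3 vs ts = true) (hs : sepl3 vs a b c d ts = true) :
    Disjoint (sx (t3T a b c d)) (tetReg vs ts) := by
  induction ts with
  | nil => exact Set.disjoint_empty _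
  | cons i j k l t ih =>
    obtain ⟨h1, h2, h3⟩ := tets3_cons h
    obtain ⟨g1, g2, g3, g4⟩ := t3_good h1
    have e : sepl3 vs a b c d (IL3.cons i j k l t) =
      and (sep3 a b c d (get3 vs i) (get3 vs j) (get3 vs k) (get3 vs l)) (sepl3 vs a b c d t) := rfl
    rw [e, Bool.and_eq_true] at hs
    have e2 : tetReg vs (IL3.cons i j k l t) =
      sx (t3T (get3 vs i) (get3 vs j) (get3 vs k) (get3 vs l)) ∪ tetReg vs t := rfl
    rw [e2]
    refine Disjoint.union_right ?_ (ih h3 hs.2)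
    have h5 := hs.1
    unfold sep3 at h5
    rw [Bool.or_eq_true] at h5
    rcases h5 with h5 | h5
    · exact t3_sepa ha hb hc hd (t3G_pos hvs g1) (t3G_pos hvs g2) (t3G_pos hvs g3) (t3G_pos hvs g4) hpos h5
    · exact (t3_sepa (t3G_pos hvs g1) (t3G_pos hvs g2) (t3G_pos hvs g3) (t3G_pos hvs g4) ha hb hc hd h1 h5).symm

private lemma t3_vol {a b c d : V3} (ha : 0 < a.D) (hb : 0 < b.D) (hc : 0 < c.D) (hd : 0 < d.D)
    (hpos : dpos4 a b c d = true) :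
    IsOpen (sx (t3T a b c d)) ∧
      ENNReal.ofReal ((wtet3 a b c d : ℝ) / (6 * 10 ^ 9)) ≤ volume (sx (t3T a b c d)) := by
  have hp := t3_pos_of ha hb hc hd hpos
  have hdet := t3_det (pt3 a) (pt3 b) (pt3 c) (pt3 d)
  refine ⟨?_, ?_⟩
  · refine sx_open (g := 3) (t3T a b c d) ?_
    have : Matrix.det (fun i j : Fin 3 => t3T a b c d i.succ j - t3T a b c d 0 j) =
        -t3E (pt3 a) (pt3 b) (pt3 c) (pt3 d) := hdet
    rw [this]
    linarith
  · have hv := sx_vol (g := 3) (t3T a b c d)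
    have e : Matrix.det (fun i j : Fin 3 => t3T a b c d i.succ j - t3T a b c d 0 j) =
        -t3E (pt3 a) (pt3 b) (pt3 c) (pt3 d) := hdet
    rw [e, abs_neg, abs_of_pos hp] at hv
    refine (ENNReal.ofReal_le_ofReal ?_).trans hv
    have h1 := Nat.le_of_ble_eq_true hpos
    have h1' : d4n a.X a.Y a.Z a.D b.X b.Y b.Z b.D c.X c.Y c.Z c.D d.X d.Y d.Z d.D ≤
        d4p a.X a.Y a.Z a.D b.X b.Y b.Z b.D c.X c.Y c.Z c.D d.X d.Y d.Z d.D := (Nat.le_succ _).trans h1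
    have h5 := Nat.cast_div_le (α := ℝ)
      (m := 1000000000 * (d4p a.X a.Y a.Z a.D b.X b.Y b.Z b.D c.X c.Y c.Z c.D d.X d.Y d.Z d.D -
        d4n a.X a.Y a.Z a.D b.X b.Y b.Z b.D c.X c.Y c.Z c.D d.X d.Y d.Z d.D))
      (n := (a.D * b.D) * (c.D * d.D))
    have h6 : ((1000000000 * (d4p a.X a.Y a.Z a.D b.X b.Y b.Z b.D c.X c.Y c.Z c.D d.X d.Y d.Z d.D -
        d4n a.X a.Y a.Z a.D b.X b.Y b.Z b.D c.X c.Y c.Z c.D d.X d.Y d.Z d.D) : ℕ) : ℝ)
        = 10 ^ 9 * t3D a b c d := by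
      rw [Nat.cast_mul, Nat.cast_sub h1']
      unfold t3D
      norm_num
    rw [h6] at h5
    have h8 : (wtet3 a b c d : ℝ) ≤ 10 ^ 9 * t3D a b c d / (((a.D : ℝ) * b.D) * ((c.D : ℝ) * d.D)) := by
      have e9 : wtet3 a b c d = 1000000000 * (d4p a.X a.Y a.Z a.D b.X b.Y b.Z b.D c.X c.Y c.Z c.D d.X d.Y d.Z d.D -
        d4n a.X a.Y a.Z a.D b.X b.Y b.Z b.D c.X c.Y c.Z c.D d.X d.Y d.Z d.D) / ((a.D * b.D) * (c.D * d.D)) := rfl
      rw [e9]
      refine h5.trans (le_of_eq ?_)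
      push_cast
      rfl
    have h7 : ((3 : ℕ).factorial : ℝ) = 6 := by norm_num [Nat.factorial]
    rw [h7, t3E_pt a b c d ha hb hc hd, div_le_iff₀ (by positivity)]
    refine h8.trans (le_of_eq ?_)
    ring

theorem tets_sound (vs : VL3) (hvs : ∀ v ∈ vs.toL, 0 < v.2.2.2.1) (ts : IL3) (h : tets3 vs ts = true) :
    IsOpen (tetReg vs ts) ∧ ENNReal.ofReal ((wtets3 vs ts : ℝ) / (6 * 10 ^ 9)) ≤ volume (tetReg vs ts) := by
  induction ts with
  | nil =>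
    have e : wtets3 vs IL3.nil = 0 := rfl
    refine ⟨isOpen_empty, ?_⟩
    rw [e]
    simp
  | cons i j k l t ih =>
    obtain ⟨h1, h2, h3⟩ := tets3_cons h
    obtain ⟨g1, g2, g3, g4⟩ := t3_good h1
    obtain ⟨ho, hv⟩ := ih h3
    obtain ⟨ho1, hv1⟩ := t3_vol (t3G_pos hvs g1) (t3G_pos hvs g2) (t3G_pos hvs g3) (t3G_pos hvs g4) h1
    have hdis := t3_sepl vs hvs (t3G_pos hvs g1) (t3G_pos hvs g2) (t3G_pos hvs g3) (t3G_pos hvs g4) h1 t h3 h2
    have e2 : tetReg vs (IL3.cons i j k l t) =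
      sx (t3T (get3 vs i) (get3 vs j) (get3 vs k) (get3 vs l)) ∪ tetReg vs t := rfl
    have e : wtets3 vs (IL3.cons i j k l t) =
      wtet3 (get3 vs i) (get3 vs j) (get3 vs k) (get3 vs l) + wtets3 vs t := rfl
    rw [e2, e, measure_union hdis ho.measurableSet]
    refine ⟨ho1.union ho, ?_⟩
    calc ENNReal.ofReal (((wtet3 (get3 vs i) (get3 vs j) (get3 vs k) (get3 vs l) + wtets3 vs t : ℕ) : ℝ) / (6 * 10 ^ 9))
        = ENNReal.ofReal ((wtet3 (get3 vs i) (get3 vs j) (get3 vs k) (get3 vs l) : ℝ) / (6 * 10 ^ 9)) +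
          ENNReal.ofReal ((wtets3 vs t : ℝ) / (6 * 10 ^ 9)) := by
          rw [← ENNReal.ofReal_add (by positivity) (by positivity)]
          congr 1
          rw [Nat.cast_add]
          ring
      _ ≤ _ := add_le_add hv1 hv

end Pool.Agent.Helper11.SP
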