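import Pool.Agent.Helper11.SP.Tet3
import Pool.Agent.Helper11.SP.FcThree

/-!
SP-43. Trees of pieces.

`tree_mem`: induction on the tree.  Leaf: `vert3` gives `0 < D`, `w = 256 X + 256 Y + 128 Z` and the four inequalities at all vertices of the leaf;
`tet_mem` gives a nondegenerate open tetrahedron containing `x` with vertices in the leaf.  `x ∈ Om 3` by `om_three` with `u_i = p_i/q_i - 2`: each of the
four affine functions of `(a, b, c)` is `≥ 0` (resp. `≤ 0`) at the four vertices and not `0` at all of them (`nondeg`, its linear part is not zero), so it is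
`> 0` (resp. `< 0`) at `x` (`sx_pos`).  In the variables `a = X/D - 6`, `b = Y/D - 1`, `c = Z/D - 20`: `32 D ≤ 2X + 2Y + Z` is `0 ≤ 2 + 2a + 2b + c`,
`2X + Z ≤ 32 D + 2Y` is `2a + c ≤ 2 + 2b`, and `tpos3 - tneg3 = q³ D (u³ + a u² + (b-3) u + c - 2a)` for `u = p/q - 2` (`ring`).
`-2 < u1 < u2 < 2` from `1 ≤ p1`, `p1 q2 < p2 q1`, `p2 < 4 q2`.
`tree_sound`: induction on the tree; leaf: `tets_sound`; node: the points of the left region satisfy `ℓ < 0`, those of the right region `ℓ > 0` for the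
affine function `ℓ = (A - A') X/D + ... ` hence are disjoint.  For this use `tree_mem` (nondegenerate tetrahedra with vertices in the subtree) and
`sx_pos` / `nondeg`: the linear part of `ℓ` is not zero by the first test of a node (`A ≠ A'` or `B ≠ B'` or `C ≠ C'`), so `ℓ` does not vanish at
all four vertices of a nondegenerate tetrahedron.
-/

open MeasureTheory

namespace Pool.Agent.Helper11.SP

/-- Region of a tree. -/
def T3.reg : T3 → Set (Fin 3 → ℝ)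
  | T3.leaf _ _ _ _ vs ts => tetReg vs ts
  | T3.node _ _ _ _ _ _ _ _ l r => l.reg ∪ r.reg

/-- Positivity on a nondegenerate simplex of an affine function which is nonnegative at the vertices and not constant. -/
lemma sx_pos_nd {g : ℕ} (V : Fin (g + 1) → (Fin g → ℝ)) (hV : Matrix.det (fun i j : Fin g => V i.succ j - V 0 j) ≠ 0)
    (a : Fin g → ℝ) (c : ℝ) (ha : a ≠ 0) (h : ∀ i, 0 ≤ ∑ j, a j * V i j + c)
    (x : Fin g → ℝ) (hx : x ∈ sx V) : 0 < ∑ j, a j * x j + c := by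
  have h1 : ∃ i, 0 < ∑ j, a j * V i j + c := by
    by_contra hc
    push Not at hc
    exact ha (nondeg V hV a c (fun i => le_antisymm (hc i) (h i))).1
  exact sx_pos V a c h h1 x hx

lemma vert3_spec (p1 q1 p2 q2 : ℕ) : ∀ (l : VL3), vert3 p1 q1 p2 q2 l = true → ∀ v ∈ l.toL,
    1 ≤ v.2.2.2.1 ∧ v.2.2.2.2 = 256 * v.1 + 256 * v.2.1 + 128 * v.2.2.1 ∧
    32 * v.2.2.2.1 ≤ 2 * v.1 + 2 * v.2.1 + v.2.2.1 ∧ 2 * v.1 + v.2.2.1 ≤ 32 * v.2.2.2.1 + 2 * v.2.1 ∧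
    tneg3 p1 q1 v.1 v.2.1 v.2.2.2.1 ≤ tpos3 p1 q1 v.1 v.2.1 v.2.2.1 v.2.2.2.1 ∧
    tpos3 p2 q2 v.1 v.2.1 v.2.2.1 v.2.2.2.1 ≤ tneg3 p2 q2 v.1 v.2.1 v.2.2.2.1
  | VL3.nil, _, v, hv => by simp [VL3.toL] at hv
  | VL3.cons X Y Z D w l, h, v, hv => by
    have e : vert3 p1 q1 p2 q2 (VL3.cons X Y Z D w l) = Bool.rec (motive := fun _ => Bool) false (vert3 p1 q1 p2 q2 l)
      (and (and (and (Nat.ble 1 D) (Nat.beq w (Nat.add (Nat.add (Nat.mul 256 X) (Nat.mul 256 Y)) (Nat.mul 128 Z))))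
        (and (Nat.ble (Nat.mul 32 D) (Nat.add (Nat.add (Nat.mul 2 X) (Nat.mul 2 Y)) Z))
          (Nat.ble (Nat.add (Nat.mul 2 X) Z) (Nat.add (Nat.mul 32 D) (Nat.mul 2 Y)))))
        (and (Nat.ble (tneg3 p1 q1 X Y D) (tpos3 p1 q1 X Y Z D)) (Nat.ble (tpos3 p2 q2 X Y Z D) (tneg3 p2 q2 X Y D)))) := rfl
    rw [e] at h
    generalize hc : (and (and (and (Nat.ble 1 D) (Nat.beq w (Nat.add (Nat.add (Nat.mul 256 X) (Nat.mul 256 Y)) (Nat.mul 128 Z))))
        (and (Nat.ble (Nat.mul 32 D) (Nat.add (Nat.add (Nat.mul 2 X) (Nat.mul 2 Y)) Z))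
          (Nat.ble (Nat.add (Nat.mul 2 X) Z) (Nat.add (Nat.mul 32 D) (Nat.mul 2 Y)))))
        (and (Nat.ble (tneg3 p1 q1 X Y D) (tpos3 p1 q1 X Y Z D)) (Nat.ble (tpos3 p2 q2 X Y Z D) (tneg3 p2 q2 X Y D)))) = c at h
    cases c with
    | false => exact absurd (show false = true from h) Bool.false_ne_true
    | true =>
      have h' : vert3 p1 q1 p2 q2 l = true := h
      simp only [Bool.and_eq_true, Nat.ble_eq, Nat.add_eq, Nat.mul_eq] at hc
      simp only [VL3.toL, List.mem_cons] at hv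
      rcases hv with rfl | hv
      · exact ⟨hc.1.1.1, Nat.eq_of_beq_eq_true hc.1.1.2, hc.1.2.1, hc.1.2.2, hc.2.1, hc.2.2⟩
      · exact vert3_spec p1 q1 p2 q2 l h' v hv

lemma lev3_spec (A B C E A' B' C' E' : ℕ) : ∀ (l : VL3), lev3 A B C E A' B' C' E' l = true → ∀ v ∈ l.toL,
    A * v.1 + B * v.2.1 + (C * v.2.2.1 + E * v.2.2.2.1) ≤ A' * v.1 + B' * v.2.1 + (C' * v.2.2.1 + E' * v.2.2.2.1)
  | VL3.nil, _, v, hv => by simp [VL3.toL] at hv
  | VL3.cons X Y Z D w l, h, v, hv => by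
    have e : lev3 A B C E A' B' C' E' (VL3.cons X Y Z D w l) = Bool.rec (motive := fun _ => Bool) false
      (lev3 A B C E A' B' C' E' l)
      (Nat.ble (Nat.add (Nat.add (Nat.mul A X) (Nat.mul B Y)) (Nat.add (Nat.mul C Z) (Nat.mul E D)))
        (Nat.add (Nat.add (Nat.mul A' X) (Nat.mul B' Y)) (Nat.add (Nat.mul C' Z) (Nat.mul E' D)))) := rfl
    rw [e] at h
    generalize hc : (Nat.ble (Nat.add (Nat.add (Nat.mul A X) (Nat.mul B Y)) (Nat.add (Nat.mul C Z) (Nat.mul E D)))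
        (Nat.add (Nat.add (Nat.mul A' X) (Nat.mul B' Y)) (Nat.add (Nat.mul C' Z) (Nat.mul E' D)))) = c at h
    cases c with
    | false => exact absurd (show false = true from h) Bool.false_ne_true
    | true =>
      have h' : lev3 A B C E A' B' C' E' l = true := h
      simp only [Nat.ble_eq, Nat.add_eq, Nat.mul_eq] at hc
      simp only [VL3.toL, List.mem_cons] at hv
      rcases hv with rfl | hv
      · exact hc
      · exact lev3_spec A B C E A' B' C' E' l h' v hv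

lemma le3_spec (A B C E A' B' C' E' : ℕ) : ∀ (t : T3), le3 A B C E A' B' C' E' t = true → ∀ v ∈ t.toL,
    A * v.1 + B * v.2.1 + (C * v.2.2.1 + E * v.2.2.2.1) ≤ A' * v.1 + B' * v.2.1 + (C' * v.2.2.1 + E' * v.2.2.2.1)
  | T3.leaf _ _ _ _ vs _, h, v, hv => lev3_spec A B C E A' B' C' E' vs h v hv
  | T3.node a b c e a' b' c' e' l r, h, v, hv => by
    have e1 : le3 A B C E A' B' C' E' (T3.node a b c e a' b' c' e' l r) =
      Bool.rec (motive := fun _ => Bool) false (le3 A B C E A' B' C' E' r) (le3 A B C E A' B' C' E' l) := rfl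
    rw [e1] at h
    generalize hc : le3 A B C E A' B' C' E' l = c at h
    cases c with
    | false => exact absurd (show false = true from h) Bool.false_ne_true
    | true =>
      have h' : le3 A B C E A' B' C' E' r = true := h
      simp only [T3.toL, List.mem_append] at hv
      rcases hv with hv | hv
      · exact le3_spec A B C E A' B' C' E' l hc v hv
      · exact le3_spec A B C E A' B' C' E' r h' v hv

lemma geo3_leaf {p1 q1 p2 q2 : ℕ} {vs : VL3} {ts : IL3} (h : geo3 (T3.leaf p1 q1 p2 q2 vs ts) = true) :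
    1 ≤ p1 ∧ p1 * q2 < p2 * q1 ∧ 1 ≤ q1 ∧ 1 ≤ q2 ∧ p2 < 4 * q2 ∧ vert3 p1 q1 p2 q2 vs = true ∧ tets3 vs ts = true := by
  have e : geo3 (T3.leaf p1 q1 p2 q2 vs ts) =
    and (and (and (Nat.ble 1 p1) (Nat.ble (Nat.succ (Nat.mul p1 q2)) (Nat.mul p2 q1)))
      (and (and (Nat.ble 1 q1) (Nat.ble 1 q2)) (Nat.ble (Nat.succ p2) (Nat.mul 4 q2)))) (and (vert3 p1 q1 p2 q2 vs) (tets3 vs ts)) := rfl
  rw [e] at h
  simp only [Bool.and_eq_true, Nat.ble_eq, Nat.mul_eq] at h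
  exact ⟨h.1.1.1, h.1.1.2, h.1.2.1.1, h.1.2.1.2, h.1.2.2, h.2.1, h.2.2⟩

lemma geo3_node {A B C E A' B' C' E' : ℕ} {l r : T3} (h : geo3 (T3.node A B C E A' B' C' E' l r) = true) :
    ¬ (A = A' ∧ B = B' ∧ C = C') ∧ le3 A B C E A' B' C' E' l = true ∧ le3 A' B' C' E' A B C E r = true ∧
      geo3 l = true ∧ geo3 r = true := by
  have e : geo3 (T3.node A B C E A' B' C' E' l r) =
    and (and (Bool.not (and (and (Nat.beq A A') (Nat.beq B B')) (Nat.beq C C')))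
        (and (le3 A B C E A' B' C' E' l) (le3 A' B' C' E' A B C E r))) (and (geo3 l) (geo3 r)) := rfl
  rw [e] at h
  simp only [Bool.and_eq_true, Bool.not_eq_true'] at h
  refine ⟨?_, h.1.2.1, h.1.2.2, h.2.1, h.2.2⟩
  rintro ⟨h1, h2, h3⟩
  have h4 := h.1.1
  rw [h1, h2, h3] at h4
  simp at h4

lemma tree_vert (t : T3) (h : geo3 t = true) (v : ℕ × ℕ × ℕ × ℕ × ℕ) (hv : v ∈ t.toL) :
    0 < v.2.2.2.1 ∧ v.2.2.2.2 = 256 * v.1 + 256 * v.2.1 + 128 * v.2.2.1 := by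
  induction t with
  | leaf p1 q1 p2 q2 vs ts =>
    have h1 := geo3_leaf h
    have h2 := vert3_spec p1 q1 p2 q2 vs h1.2.2.2.2.2.1 v hv
    exact ⟨h2.1, h2.2.1⟩
  | node A B C E A' B' C' E' l r ihl ihr =>
    have h1 := geo3_node h
    simp only [T3.toL, List.mem_append] at hv
    rcases hv with hv | hv
    · exact ihl h1.2.2.2.1 hv
    · exact ihr h1.2.2.2.2 hv

/-- The polynomial test at a vertex. -/
lemma tpos_tneg (p q X Y Z D : ℕ) (hq : 1 ≤ q) (hD : 1 ≤ D) :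
    ((tpos3 p q X Y Z D : ℝ) - tneg3 p q X Y D) = (q : ℝ) ^ 3 * D * (((p : ℝ) / q - 2) ^ 3 +
      ((X : ℝ) / D - 6) * ((p : ℝ) / q - 2) ^ 2 + ((Y : ℝ) / D - 1 - 3) * ((p : ℝ) / q - 2) +
      ((Z : ℝ) / D - 20 - 2 * ((X : ℝ) / D - 6))) := by
  have hq' : (q : ℝ) ≠ 0 := by positivity
  have hD' : (D : ℝ) ≠ 0 := by positivity
  unfold tpos3 tneg3
  simp only [Nat.add_eq, Nat.mul_eq]
  push_cast
  field_simp
  ring

lemma leaf_om (p1 q1 p2 q2 : ℕ) (h1 : 1 ≤ p1) (h2 : p1 * q2 < p2 * q1) (h3 : 1 ≤ q1) (h4 : 1 ≤ q2) (h5 : p2 < 4 * q2)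
    (V : Fin 4 → V3)
    (hV : ∀ i, 1 ≤ (V i).D ∧ 32 * (V i).D ≤ 2 * (V i).X + 2 * (V i).Y + (V i).Z ∧
      2 * (V i).X + (V i).Z ≤ 32 * (V i).D + 2 * (V i).Y ∧
      tneg3 p1 q1 (V i).X (V i).Y (V i).D ≤ tpos3 p1 q1 (V i).X (V i).Y (V i).Z (V i).D ∧
      tpos3 p2 q2 (V i).X (V i).Y (V i).Z (V i).D ≤ tneg3 p2 q2 (V i).X (V i).Y (V i).D)
    (hd : Matrix.det (fun i j : Fin 3 => pt3 (V i.succ) j - pt3 (V 0) j) ≠ 0)
    (x : Fin 3 → ℝ) (hx : x ∈ sx (fun i => pt3 (V i))) : x ∈ Om 3 := by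
  have hq1 : (0 : ℝ) < q1 := by exact_mod_cast h3
  have hq2 : (0 : ℝ) < q2 := by exact_mod_cast h4
  have hx3 : x = ![x 0, x 1, x 2] := by
    funext i; fin_cases i <;> rfl
  have key : ∀ (a : Fin 3 → ℝ) (c : ℝ), a ≠ 0 →
      (∀ i, 0 ≤ a 0 * (((V i).X : ℝ) / (V i).D - 6) + a 1 * (((V i).Y : ℝ) / (V i).D - 1) + a 2 * (((V i).Z : ℝ) / (V i).D - 20) + c) →
      0 < a 0 * x 0 + a 1 * x 1 + a 2 * x 2 + c := by
    intro a c ha hh
    have := sx_pos_nd (fun i => pt3 (V i)) hd a c ha (fun i => by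
      rw [Fin.sum_univ_three]
      exact hh i) x hx
    rwa [Fin.sum_univ_three] at this
  have hDpos : ∀ i, (0 : ℝ) < (V i).D := fun i => by exact_mod_cast (hV i).1
  -- the four inequalities
  have e0 : 0 < (-2) * x 0 + 2 * x 1 + (-1) * x 2 + 2 := by
    have := key ![-2, 2, -1] 2 (fun h => by have := congrFun h 0; simp at this) (fun i => by
      have h := (hV i).2.2.1
      have h' : (2 * (V i).X + (V i).Z : ℝ) ≤ 32 * (V i).D + 2 * (V i).Y := by exact_mod_cast h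
      have hD := hDpos i
      have e : (-2 : ℝ) * (((V i).X : ℝ) / (V i).D - 6) + 2 * (((V i).Y : ℝ) / (V i).D - 1) + (-1) * (((V i).Z : ℝ) / (V i).D - 20) + 2
        = (32 * (V i).D + 2 * (V i).Y - (2 * (V i).X + (V i).Z)) / (V i).D := by
        field_simp
        ring
      show (0 : ℝ) ≤ (-2 : ℝ) * (((V i).X : ℝ) / (V i).D - 6) + 2 * (((V i).Y : ℝ) / (V i).D - 1) + (-1) * (((V i).Z : ℝ) / (V i).D - 20) + 2
      rw [e]
      exact div_nonneg (by linarith) hD.le)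
    exact this
  have e3 : 0 < 2 * x 0 + 2 * x 1 + 1 * x 2 + 2 := by
    have := key ![2, 2, 1] 2 (fun h => by have := congrFun h 0; simp at this) (fun i => by
      have h := (hV i).2.1
      have h' : (32 * (V i).D : ℝ) ≤ 2 * (V i).X + 2 * (V i).Y + (V i).Z := by exact_mod_cast h
      have hD := hDpos i
      have e : (2 : ℝ) * (((V i).X : ℝ) / (V i).D - 6) + 2 * (((V i).Y : ℝ) / (V i).D - 1) + 1 * (((V i).Z : ℝ) / (V i).D - 20) + 2
        = (2 * (V i).X + 2 * (V i).Y + (V i).Z - 32 * (V i).D) / (V i).D := by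
        field_simp
        ring
      show (0 : ℝ) ≤ (2 : ℝ) * (((V i).X : ℝ) / (V i).D - 6) + 2 * (((V i).Y : ℝ) / (V i).D - 1) + 1 * (((V i).Z : ℝ) / (V i).D - 20) + 2
      rw [e]
      exact div_nonneg (by linarith) hD.le)
    exact this
  have e1 : 0 < (((p1 : ℝ) / q1 - 2) ^ 2 - 2) * x 0 + ((p1 : ℝ) / q1 - 2) * x 1 + 1 * x 2 +
      (((p1 : ℝ) / q1 - 2) ^ 3 - 3 * ((p1 : ℝ) / q1 - 2)) := by
    have := key ![((p1 : ℝ) / q1 - 2) ^ 2 - 2, (p1 : ℝ) / q1 - 2, 1] (((p1 : ℝ) / q1 - 2) ^ 3 - 3 * ((p1 : ℝ) / q1 - 2))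
      (fun h => by have := congrFun h 2; simp at this) (fun i => by
      have h := (hV i).2.2.2.1
      have h' : ((tneg3 p1 q1 (V i).X (V i).Y (V i).D : ℕ) : ℝ) ≤ tpos3 p1 q1 (V i).X (V i).Y (V i).Z (V i).D := by exact_mod_cast h
      have hD := hDpos i
      have ht := tpos_tneg p1 q1 (V i).X (V i).Y (V i).Z (V i).D h3 (hV i).1
      have hp : 0 < (q1 : ℝ) ^ 3 * (V i).D := by positivity
      have h6 : 0 ≤ (((p1 : ℝ) / q1 - 2) ^ 3 +
        (((V i).X : ℝ) / (V i).D - 6) * ((p1 : ℝ) / q1 - 2) ^ 2 + (((V i).Y : ℝ) / (V i).D - 1 - 3) * ((p1 : ℝ) / q1 - 2) +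
        (((V i).Z : ℝ) / (V i).D - 20 - 2 * (((V i).X : ℝ) / (V i).D - 6))) := by
        by_contra hneg
        push Not at hneg
        have := mul_neg_of_pos_of_neg hp hneg
        linarith
      show (0 : ℝ) ≤ (((p1 : ℝ) / q1 - 2) ^ 2 - 2) * (((V i).X : ℝ) / (V i).D - 6) + ((p1 : ℝ) / q1 - 2) * (((V i).Y : ℝ) / (V i).D - 1) +
        1 * (((V i).Z : ℝ) / (V i).D - 20) + (((p1 : ℝ) / q1 - 2) ^ 3 - 3 * ((p1 : ℝ) / q1 - 2))
      linarith)
    exact this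
  have e2 : 0 < (-(((p2 : ℝ) / q2 - 2) ^ 2 - 2)) * x 0 + (-((p2 : ℝ) / q2 - 2)) * x 1 + (-1) * x 2 +
      (-(((p2 : ℝ) / q2 - 2) ^ 3 - 3 * ((p2 : ℝ) / q2 - 2))) := by
    have := key ![-(((p2 : ℝ) / q2 - 2) ^ 2 - 2), -((p2 : ℝ) / q2 - 2), -1] (-(((p2 : ℝ) / q2 - 2) ^ 3 - 3 * ((p2 : ℝ) / q2 - 2)))
      (fun h => by have := congrFun h 2; simp at this) (fun i => by
      have h := (hV i).2.2.2.2
      have h' : ((tpos3 p2 q2 (V i).X (V i).Y (V i).Z (V i).D : ℕ) : ℝ) ≤ tneg3 p2 q2 (V i).X (V i).Y (V i).D := by exact_mod_cast h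
      have hD := hDpos i
      have ht := tpos_tneg p2 q2 (V i).X (V i).Y (V i).Z (V i).D h4 (hV i).1
      have hp : 0 < (q2 : ℝ) ^ 3 * (V i).D := by positivity
      have h6 : (((p2 : ℝ) / q2 - 2) ^ 3 +
        (((V i).X : ℝ) / (V i).D - 6) * ((p2 : ℝ) / q2 - 2) ^ 2 + (((V i).Y : ℝ) / (V i).D - 1 - 3) * ((p2 : ℝ) / q2 - 2) +
        (((V i).Z : ℝ) / (V i).D - 20 - 2 * (((V i).X : ℝ) / (V i).D - 6))) ≤ 0 := by
        by_contra hneg
        push Not at hneg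
        have := mul_pos hp hneg
        linarith
      show (0 : ℝ) ≤ (-(((p2 : ℝ) / q2 - 2) ^ 2 - 2)) * (((V i).X : ℝ) / (V i).D - 6) + (-((p2 : ℝ) / q2 - 2)) * (((V i).Y : ℝ) / (V i).D - 1) +
        (-1) * (((V i).Z : ℝ) / (V i).D - 20) + (-(((p2 : ℝ) / q2 - 2) ^ 3 - 3 * ((p2 : ℝ) / q2 - 2)))
      linarith)
    exact this
  rw [hx3]
  refine om_three (x 0) (x 1) (x 2) ((p1 : ℝ) / q1 - 2) ((p2 : ℝ) / q2 - 2) ?_ ?_ ?_ (by linarith) (by linarith) (by linarith)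
    (by linarith)
  · have : (0 : ℝ) < (p1 : ℝ) / q1 := div_pos (by exact_mod_cast h1) hq1
    linarith
  · have : (p1 : ℝ) / q1 < (p2 : ℝ) / q2 := by
      rw [div_lt_div_iff₀ hq1 hq2]
      exact_mod_cast h2
    linarith
  · have : (p2 : ℝ) / q2 < 4 := by
      rw [div_lt_iff₀ hq2]
      exact_mod_cast h5
    linarith

lemma tree_mem (t : T3) (h : geo3 t = true) (x : Fin 3 → ℝ) (hx : x ∈ t.reg) :
    x ∈ Om 3 ∧ ∃ V : Fin 4 → V3, (∀ i, ∃ w, ((V i).X, (V i).Y, (V i).Z, (V i).D, w) ∈ t.toL) ∧ x ∈ sx (fun i => pt3 (V i)) ∧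
      Matrix.det (fun i j : Fin 3 => pt3 (V i.succ) j - pt3 (V 0) j) ≠ 0 := by
  induction t with
  | leaf p1 q1 p2 q2 vs ts =>
    have h1 := geo3_leaf h
    obtain ⟨a1, a2, a3, a4, a5, a6, a7⟩ := h1
    have h2 := vert3_spec p1 q1 p2 q2 vs a6
    obtain ⟨V, hV, hxV, hd⟩ := tet_mem vs (fun v hv => (h2 v hv).1) ts a7 x hx
    refine ⟨leaf_om p1 q1 p2 q2 a1 a2 a3 a4 a5 V (fun i => ?_) hd x hxV, V, hV, hxV, hd⟩
    obtain ⟨w, hw⟩ := hV i
    have h3 := h2 _ hw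
    exact ⟨h3.1, h3.2.2.1, h3.2.2.2.1, h3.2.2.2.2.1, h3.2.2.2.2.2⟩
  | node A B C E A' B' C' E' l r ihl ihr =>
    have h1 := geo3_node h
    have hx' : x ∈ l.reg ∪ r.reg := hx
    rcases hx' with hx' | hx'
    · obtain ⟨b1, V, hV, b2, b3⟩ := ihl h1.2.2.2.1 hx'
      refine ⟨b1, V, fun i => ?_, b2, b3⟩
      obtain ⟨w, hw⟩ := hV i
      exact ⟨w, List.mem_append_left _ hw⟩
    · obtain ⟨b1, V, hV, b2, b3⟩ := ihr h1.2.2.2.2 hx'
      refine ⟨b1, V, fun i => ?_, b2, b3⟩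
      obtain ⟨w, hw⟩ := hV i
      exact ⟨w, List.mem_append_right _ hw⟩

/-- On the region of a tree on which a plane test holds at all vertices the affine function is negative. -/
lemma side_neg (A B C E A' B' C' E' : ℕ) (hne : ¬ (A = A' ∧ B = B' ∧ C = C')) (t : T3) (hg : geo3 t = true)
    (h : le3 A B C E A' B' C' E' t = true) (x : Fin 3 → ℝ) (hx : x ∈ t.reg) :
    0 < ((A' : ℝ) - A) * x 0 + ((B' : ℝ) - B) * x 1 + ((C' : ℝ) - C) * x 2 +
      (6 * ((A' : ℝ) - A) + ((B' : ℝ) - B) + 20 * ((C' : ℝ) - C) + ((E' : ℝ) - E)) := by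
  obtain ⟨-, V, hV, hxV, hd⟩ := tree_mem t hg x hx
  have hne' : ![(A' : ℝ) - A, (B' : ℝ) - B, (C' : ℝ) - C] ≠ 0 := by
    intro h0
    apply hne
    have i0 := congrFun h0 0
    have i1 := congrFun h0 1
    have i2 := congrFun h0 2
    simp at i0 i1 i2
    refine ⟨?_, ?_, ?_⟩
    · have : (A' : ℝ) = A := by linarith
      exact_mod_cast this.symm
    · have : (B' : ℝ) = B := by linarith
      exact_mod_cast this.symm
    · have : (C' : ℝ) = C := by linarith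
      exact_mod_cast this.symm
  have := sx_pos_nd (fun i => pt3 (V i)) hd ![(A' : ℝ) - A, (B' : ℝ) - B, (C' : ℝ) - C]
    (6 * ((A' : ℝ) - A) + ((B' : ℝ) - B) + 20 * ((C' : ℝ) - C) + ((E' : ℝ) - E)) hne' (fun i => by
    obtain ⟨w, hw⟩ := hV i
    have hD := (tree_vert t hg _ hw).1
    have hl := le3_spec A B C E A' B' C' E' t h _ hw
    simp only at hD hl
    have hl' : ((A : ℝ) * (V i).X + B * (V i).Y + (C * (V i).Z + E * (V i).D)) ≤
      A' * (V i).X + B' * (V i).Y + (C' * (V i).Z + E' * (V i).D) := by exact_mod_cast hl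
    have hD' : (0 : ℝ) < (V i).D := by exact_mod_cast hD
    rw [Fin.sum_univ_three]
    show (0 : ℝ) ≤ ((A' : ℝ) - A) * (((V i).X : ℝ) / (V i).D - 6) + ((B' : ℝ) - B) * (((V i).Y : ℝ) / (V i).D - 1) +
      ((C' : ℝ) - C) * (((V i).Z : ℝ) / (V i).D - 20) + (6 * ((A' : ℝ) - A) + ((B' : ℝ) - B) + 20 * ((C' : ℝ) - C) + ((E' : ℝ) - E))
    have e : ((A' : ℝ) - A) * (((V i).X : ℝ) / (V i).D - 6) + ((B' : ℝ) - B) * (((V i).Y : ℝ) / (V i).D - 1) +
      ((C' : ℝ) - C) * (((V i).Z : ℝ) / (V i).D - 20) + (6 * ((A' : ℝ) - A) + ((B' : ℝ) - B) + 20 * ((C' : ℝ) - C) + ((E' : ℝ) - E))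
      = (A' * (V i).X + B' * (V i).Y + (C' * (V i).Z + E' * (V i).D) - (A * (V i).X + B * (V i).Y + (C * (V i).Z + E * (V i).D))) / (V i).D := by
      field_simp
      ring
    rw [e]
    exact div_nonneg (by linarith) hD'.le) x hxV
  rw [Fin.sum_univ_three] at this
  exact this

theorem tree_sound (t : T3) (h : geo3 t = true) :
    IsOpen t.reg ∧ ENNReal.ofReal ((wt3 t : ℝ) / (6 * 10 ^ 9)) ≤ volume t.reg := by
  induction t with
  | leaf p1 q1 p2 q2 vs ts =>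
    obtain ⟨a1, a2, a3, a4, a5, a6, a7⟩ := geo3_leaf h
    have h2 := vert3_spec p1 q1 p2 q2 vs a6
    exact tets_sound vs (fun v hv => (h2 v hv).1) ts a7
  | node A B C E A' B' C' E' l r ihl ihr =>
    obtain ⟨hne, hl, hr, gl, gr⟩ := geo3_node h
    obtain ⟨ol, vl⟩ := ihl gl
    obtain ⟨or', vr⟩ := ihr gr
    have hdis : Disjoint l.reg r.reg := by
      rw [Set.disjoint_left]
      intro x hx hy
      have h1 := side_neg A B C E A' B' C' E' hne l gl hl x hx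
      have h2 := side_neg A' B' C' E' A B C E (fun h => hne ⟨h.1.symm, h.2.1.symm, h.2.2.symm⟩) r gr hr x hy
      linarith
    refine ⟨ol.union or', ?_⟩
    show ENNReal.ofReal (((wt3 l + wt3 r : ℕ) : ℝ) / (6 * 10 ^ 9)) ≤ volume (l.reg ∪ r.reg)
    rw [measure_union hdis or'.measurableSet]
    refine le_trans (le_of_eq ?_) (add_le_add vl vr)
    rw [← ENNReal.ofReal_add (by positivity) (by positivity)]
    congr 1
    push_cast
    ring

end Pool.Agent.Helper11.SP
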