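import Pool.Agent.Helper11.SP.Local

/-!
SP-15. Uniform version on compact sets.

Proof. For every `x0 ∈ K` take `δ(x0)`, `N0(x0)` from `local_good`.  The balls (sup distance) of radius `δ(x0)/2` around `x0` cover `K`;
take a finite subcover (`IsCompact.elim_nhds_subcover`), `δ` the minimum of the `δ(x_i)/2` and `N0` the maximum of the `N0(x_i)`
(if `K` is empty take `δ = 1`, `N0 = 1`).  If `x ∈ K` and `|v j / N - x j| < δ` for all `j`, choose `i` with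
`dist x x_i < δ(x_i)/2`; then `|v j/N - x_i j| < δ(x_i)`.
-/

open Polynomial

namespace Pool.Agent.Helper11.SP

theorem unif {g : ℕ} (hg : 1 ≤ g) (K : Set (Fin g → ℝ)) (hK : IsCompact K) (hKR : K ⊆ Reg g) :
    ∃ δ > 0, ∃ N0 : ℕ, 1 ≤ N0 ∧ ∀ N : ℕ, N0 ≤ N → ∀ v : Fin g → ℤ, (∃ x ∈ K, ∀ j, |(v j : ℝ) / N - x j| < δ) →
      (∃ β ∈ parrySet g ((N : ℝ) + 4 ^ g), minpoly ℤ β = PP (N : ℤ) v) ∨
      (∃ ζ ∈ ZD (2 * g + 2), ‖ζ‖ = 1 ∧ aeval ζ (PP (N : ℤ) v) = 0) := by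
  rcases K.eq_empty_or_nonempty with hE | hne
  · subst hE
    refine ⟨1, one_pos, 1, le_refl _, ?_⟩
    rintro N - v ⟨x, hx, -⟩
    exact absurd hx (Set.notMem_empty x)
  choose! δ hδ N0 hN0 hloc using fun x0 (hx0 : x0 ∈ K) => local_good hg x0 (hKR hx0)
  obtain ⟨t, htK, hcov⟩ := hK.elim_nhds_subcover (fun x0 => Metric.ball x0 (δ x0 / 2))
    (fun x hx => Metric.ball_mem_nhds x (half_pos (hδ x hx)))
  have htne : t.Nonempty := by
    obtain ⟨x, hx⟩ := hne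
    obtain ⟨i, hi, -⟩ := Set.mem_iUnion₂.1 (hcov hx)
    exact ⟨i, hi⟩
  obtain ⟨i0, hi0, hmin⟩ := t.exists_min_image (fun x => δ x / 2) htne
  obtain ⟨i1, hi1, hmax⟩ := t.exists_max_image N0 htne
  refine ⟨δ i0 / 2, half_pos (hδ i0 (htK i0 hi0)), N0 i1, hN0 i1 (htK i1 hi1), ?_⟩
  rintro N hN v ⟨x, hx, hxv⟩
  obtain ⟨i, hi, hxi⟩ := Set.mem_iUnion₂.1 (hcov hx)
  refine hloc i (htK i hi) N ((hmax i hi).trans hN) v ?_
  intro j
  have h1 : |x j - i j| < δ i / 2 := by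
    have h2 : dist (x j) (i j) ≤ dist x i := dist_le_pi_dist x i j
    rw [Real.dist_eq] at h2
    exact lt_of_le_of_lt h2 (Metric.mem_ball.1 hxi)
  have h3 : |(v j : ℝ) / N - x j| < δ i / 2 := lt_of_lt_of_le (hxv j) (hmin i hi)
  have h4 : (v j : ℝ) / N - i j = ((v j : ℝ) / N - x j) + (x j - i j) := by ring
  rw [h4]
  calc |((v j : ℝ) / N - x j) + (x j - i j)| ≤ |(v j : ℝ) / N - x j| + |x j - i j| := abs_add_le _ _
    _ < δ i / 2 + δ i / 2 := add_lt_add h3 h1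
    _ = δ i := by ring

end Pool.Agent.Helper11.SP
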